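import Pool.Agent.Lib.MP_b879c5_an.PR.Spec

/-!
# ARZ: Arzelà-Ascoli
-/

set_option autoImplicit false

namespace Pool.Agent.Lib.MPb879c5.PR

open Set Filter MeasureTheory Topology

noncomputable section

namespace ARZM

lemma bdd (u : ℕ → ℝ) (h : ∃ M, ∀ᶠ k in atTop, |u k| ≤ M) : ∃ M, ∀ k, |u k| ≤ M := by
  obtain ⟨M, hM⟩ := h
  obtain ⟨N, hN⟩ := eventually_atTop.1 hM
  refine ⟨|M| + ∑ k ∈ Finset.range N, |u k|, fun k => ?_⟩
  have h0 : 0 ≤ ∑ k ∈ Finset.range N, |u k| := Finset.sum_nonneg fun k _ => abs_nonneg _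
  rcases lt_or_ge k N with hk | hk
  · have h1 : |u k| ≤ ∑ k ∈ Finset.range N, |u k| :=
      Finset.single_le_sum (f := fun k => |u k|) (fun k _ => abs_nonneg _)
        (Finset.mem_range.2 hk)
    have h2 := abs_nonneg M
    linarith
  · have h1 := hN k hk
    have h2 := le_abs_self M
    linarith

/-- the values at the rational points -/
def F (f : ℕ → ℝ → ℝ → ℝ) (k : ℕ) (p : ℤ × ℤ × ℕ) : ℝ :=
  if p.1 < 0 then f k ((p.1 : ℝ) / ((p.2.2 : ℝ) + 1)) ((p.2.1 : ℝ) / ((p.2.2 : ℝ) + 1)) else 0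

lemma sub (f : ℕ → ℝ → ℝ → ℝ) (h1 : ∀ t < 0, ∀ x, ∃ M, ∀ᶠ k in atTop, |f k t x| ≤ M) :
    ∃ φ : ℕ → ℕ, StrictMono φ ∧ ∃ a : ℤ × ℤ × ℕ → ℝ, ∀ p,
      Tendsto (fun k => F f (φ k) p) atTop (𝓝 (a p)) := by
  have hb : ∀ p : ℤ × ℤ × ℕ, ∃ M, ∀ k, |F f k p| ≤ M := by
    intro p
    by_cases hp : p.1 < 0
    · have ht : (p.1 : ℝ) / ((p.2.2 : ℝ) + 1) < 0 :=
        div_neg_of_neg_of_pos (by exact_mod_cast hp) (by positivity)
      obtain ⟨M, hM⟩ := bdd _ (h1 _ ht ((p.2.1 : ℝ) / ((p.2.2 : ℝ) + 1)))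
      refine ⟨M, fun k => ?_⟩
      rw [F, if_pos hp]
      exact hM k
    · exact ⟨0, fun k => by rw [F, if_neg hp, abs_zero]⟩
  choose M hM using hb
  have hc : IsCompact (Set.univ.pi fun p : ℤ × ℤ × ℕ => Icc (-(M p)) (M p)) :=
    isCompact_univ_pi fun p => isCompact_Icc
  obtain ⟨a, -, φ, hφ, ha⟩ := hc.tendsto_subseq (x := fun k => F f k)
    (fun k => fun p _ => abs_le.1 (hM p k))
  exact ⟨φ, hφ, a, fun p => (tendsto_pi_nhds.1 ha) p⟩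

lemma uc (f : ℕ → ℝ → ℝ → ℝ)
    (h2 : ∀ b B : ℝ, 0 < b → b < B → ∀ᶠ k in atTop, ∀ t ∈ Icc (-B) (-b), ∀ x,
      f k t (x + 2 * Real.pi) = f k t x)
    (h3 : ∀ b B : ℝ, 0 < b → b < B → ∀ η > 0, ∃ δ > 0, ∀ᶠ k in atTop, ∀ t ∈ Icc (-B) (-b),
      ∀ t' ∈ Icc (-B) (-b), ∀ x x',
        |t - t'| ≤ δ → |x - x'| ≤ δ → |f k t x - f k t' x'| ≤ η)
    (φ : ℕ → ℕ) (hφ : StrictMono φ) (a : ℤ × ℤ × ℕ → ℝ)
    (ha : ∀ p, Tendsto (fun k => F f (φ k) p) atTop (𝓝 (a p))) (b B : ℝ) (hb : 0 < b)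
    (hB : b < B) (η : ℝ) (hη : 0 < η) :
    ∃ N : ℕ, ∀ k, N ≤ k → ∀ l, N ≤ l → ∀ t ∈ Icc (-B) (-b), ∀ x,
      |f (φ k) t x - f (φ l) t x| ≤ η := by
  obtain ⟨δ, hδ, h4⟩ := h3 b (B + 1) hb (by linarith) (η / 4) (by positivity)
  obtain ⟨n, hn⟩ := exists_nat_one_div_lt hδ
  obtain ⟨c, hc⟩ : ∃ c : ℝ, c = (n : ℝ) + 1 := ⟨_, rfl⟩
  have hc1 : 1 ≤ c := by
    rw [hc]
    have : (0 : ℝ) ≤ n := Nat.cast_nonneg n
    linarith
  have hc0 : 0 < c := by linarith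
  rw [← hc] at hn
  have h5 : ∀ᶠ k in atTop, ∀ p ∈ Finset.Icc ⌊-B * c⌋ ⌊-b * c⌋ ×ˢ
      Finset.Icc (0 : ℤ) ⌊2 * Real.pi * c⌋, |F f (φ k) (p.1, p.2, n) - a (p.1, p.2, n)| ≤ η / 4 := by
    rw [Filter.eventually_all_finset]
    intro p _
    have h6 := Metric.tendsto_atTop.1 (ha (p.1, p.2, n)) (η / 4) (by positivity)
    obtain ⟨N, hN⟩ := h6
    refine eventually_atTop.2 ⟨N, fun k hk => ?_⟩
    have h7 := hN k hk
    rw [Real.dist_eq] at h7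
    exact h7.le
  have h6 := (h5.and (hφ.tendsto_atTop.eventually h4)).and
    (hφ.tendsto_atTop.eventually (h2 b B hb hB))
  obtain ⟨N, hN⟩ := eventually_atTop.1 h6
  refine ⟨N, fun k hk l hl t ht x => ?_⟩
  obtain ⟨⟨k1, k2⟩, k3⟩ := hN k hk
  obtain ⟨⟨l1, l2⟩, l3⟩ := hN l hl
  have hper : Function.Periodic (fun x => f (φ k) t x - f (φ l) t x) (2 * Real.pi) := by
    intro y
    show f (φ k) t (y + 2 * Real.pi) - f (φ l) t (y + 2 * Real.pi) = f (φ k) t y - f (φ l) t y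
    rw [k3 t ht y, l3 t ht y]
  obtain ⟨y, hy, hxy⟩ := hper.exists_mem_Ico₀ Real.two_pi_pos x
  have hxy' : f (φ k) t x - f (φ l) t x = f (φ k) t y - f (φ l) t y := hxy
  rw [hxy']
  -- the grid point
  obtain ⟨i, hi⟩ : ∃ i : ℤ, i = ⌊t * c⌋ := ⟨_, rfl⟩
  obtain ⟨j, hj⟩ : ∃ j : ℤ, j = ⌊y * c⌋ := ⟨_, rfl⟩
  have hi1 : (i : ℝ) ≤ t * c := by
    rw [hi]
    exact Int.floor_le _
  have hi2 : t * c < (i : ℝ) + 1 := by
    rw [hi]
    exact Int.lt_floor_add_one _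
  have hj1 : (j : ℝ) ≤ y * c := by
    rw [hj]
    exact Int.floor_le _
  have hj2 : y * c < (j : ℝ) + 1 := by
    rw [hj]
    exact Int.lt_floor_add_one _
  have hpmem : ((i, j) : ℤ × ℤ) ∈ Finset.Icc ⌊-B * c⌋ ⌊-b * c⌋ ×ˢ
      Finset.Icc (0 : ℤ) ⌊2 * Real.pi * c⌋ := by
    rw [Finset.mem_product, Finset.mem_Icc, Finset.mem_Icc]
    refine ⟨⟨?_, ?_⟩, ?_, ?_⟩
    · show ⌊-B * c⌋ ≤ i
      rw [hi]
      exact Int.floor_le_floor (mul_le_mul_of_nonneg_right ht.1 hc0.le)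
    · show i ≤ ⌊-b * c⌋
      rw [hi]
      exact Int.floor_le_floor (mul_le_mul_of_nonneg_right ht.2 hc0.le)
    · show 0 ≤ j
      rw [hj]
      exact Int.floor_nonneg.2 (mul_nonneg hy.1 hc0.le)
    · show j ≤ ⌊2 * Real.pi * c⌋
      rw [hj]
      exact Int.floor_le_floor (mul_le_mul_of_nonneg_right hy.2.le hc0.le)
  have hq1 : (i : ℝ) / c ≤ t := by
    rw [div_le_iff₀ hc0]
    exact hi1
  have hq2 : t < (i : ℝ) / c + 1 / c := by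
    rw [← add_div, lt_div_iff₀ hc0]
    exact hi2
  have hy1 : (j : ℝ) / c ≤ y := by
    rw [div_le_iff₀ hc0]
    exact hj1
  have hy2 : y < (j : ℝ) / c + 1 / c := by
    rw [← add_div, lt_div_iff₀ hc0]
    exact hj2
  have hc' : 1 / c ≤ 1 := by
    rw [div_le_one hc0]
    exact hc1
  have hineg : i < 0 := by
    have h7 : (i : ℝ) < 0 := by
      have h8 : t * c < 0 := mul_neg_of_neg_of_pos (by linarith [ht.2]) hc0
      linarith
    exact_mod_cast h7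
  have hF : ∀ m, F f m (i, j, n) = f m ((i : ℝ) / c) ((j : ℝ) / c) := by
    intro m
    rw [F, if_pos hineg, hc]
  have e1 := k1 (i, j) hpmem
  have e2 := l1 (i, j) hpmem
  rw [hF] at e1 e2
  have htt : t ∈ Icc (-(B + 1)) (-b) := ⟨by linarith [ht.1], ht.2⟩
  have hqq : (i : ℝ) / c ∈ Icc (-(B + 1)) (-b) := ⟨by linarith [ht.1], by linarith [ht.2]⟩
  have d1 : |t - (i : ℝ) / c| ≤ δ := by
    rw [abs_of_nonneg (by linarith)]
    linarith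
  have d2 : |y - (j : ℝ) / c| ≤ δ := by
    rw [abs_of_nonneg (by linarith)]
    linarith
  have e3 := k2 t htt _ hqq y _ d1 d2
  have e4 := l2 t htt _ hqq y _ d1 d2
  have g1 := abs_le.1 e1
  have g2 := abs_le.1 e2
  have g3 := abs_le.1 e3
  have g4 := abs_le.1 e4
  exact abs_le.2 ⟨by linarith [g1.1, g2.2, g3.1, g4.2], by linarith [g1.2, g2.1, g3.2, g4.1]⟩

end ARZM

theorem specARZ : SpecARZ := by
  intro f h1 h2 h3
  obtain ⟨φ, hφ, a, ha⟩ := ARZM.sub f h1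
  have huc := ARZM.uc f h2 h3 φ hφ a ha
  have hlim : ∀ t < 0, ∀ x, ∃ l, Tendsto (fun k => f (φ k) t x) atTop (𝓝 l) := by
    intro t ht x
    refine cauchySeq_tendsto_of_complete ?_
    rw [Metric.cauchySeq_iff]
    intro η hη
    obtain ⟨N, hN⟩ := huc (-t / 2) (-(2 * t)) (by linarith) (by linarith) (η / 2) (by positivity)
    refine ⟨N, fun k hk l hl => ?_⟩
    have h4 := hN k hk l hl t ⟨by linarith, by linarith⟩ x
    rw [Real.dist_eq]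
    linarith
  choose v hv using hlim
  refine ⟨φ, hφ, fun t x => if h : t < 0 then v t h x else 0, ?_⟩
  intro b B hb hB η hη
  obtain ⟨N, hN⟩ := huc b B hb hB η hη
  refine eventually_atTop.2 ⟨N, fun k hk t ht x => ?_⟩
  have ht0 : t < 0 := by linarith [ht.2]
  show |f (φ k) t x - (if h : t < 0 then v t h x else 0)| ≤ η
  rw [dif_pos ht0]
  have h5 : Tendsto (fun l => |f (φ k) t x - f (φ l) t x|) atTop
      (𝓝 |f (φ k) t x - v t ht0 x|) := (tendsto_const_nhds.sub (hv t ht0 x)).abs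
  exact le_of_tendsto h5 (eventually_atTop.2 ⟨N, fun l hl => hN k hk l hl t ht x⟩)

end

end Pool.Agent.Lib.MPb879c5.PR
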