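import Pool.Agent.Lib.MP_b879c5_an.PR.Spec

/-!
# MP_b879c5_an, module AVI: differential inequalities for the averages
-/

set_option autoImplicit false

namespace Pool.Agent.Lib.MPb879c5.PR

open Set Filter MeasureTheory Topology
open Pool.Agent.Lib.MP_b879c5_an

noncomputable section

namespace AVIM

theorem cw (l : ℝ) : Continuous (wt l) := by
  have h := continuous_wt l 0
  simpa using h

theorem int_wt {l : ℝ} (hl : 0 < l) : ∫ z in (-l)..l, wt l z = 1 := by
  have h := integral_wt hl 0
  simpa using h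

theorem ii (l : ℝ) {q : ℝ → ℝ} (hq : Continuous q) (x : ℝ) :
    IntervalIntegrable (fun z => wt l z * q (x + z)) volume (-l) l :=
  ((cw l).mul (hq.comp (continuous_const.add continuous_id))).intervalIntegrable _ _

theorem mono {l : ℝ} (hl : 0 < l) {q q' : ℝ → ℝ} (hq : Continuous q) (hq' : Continuous q')
    (x : ℝ) (h : ∀ z ∈ Icc (-l) l, q (x + z) ≤ q' (x + z)) : Av l q x ≤ Av l q' x := by
  refine intervalIntegral.integral_mono_on (by linarith) (ii l hq x) (ii l hq' x) ?_
  intro z hz
  exact mul_le_mul_of_nonneg_left (h z hz) (wt_nonneg hl (_root_.abs_le.2 hz))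

theorem const {l : ℝ} (hl : 0 < l) (c x : ℝ) : Av l (fun _ => c) x = c := by
  unfold Av
  rw [intervalIntegral.integral_mul_const, int_wt hl, one_mul]

theorem conv (l : ℝ) (q : ℝ → ℝ) (x : ℝ) :
    Av l q x = ∫ z in (x - l)..(x + l), q z * wt l (z - x) := by
  have h := intervalIntegral.integral_comp_add_left (a := -l) (b := l)
    (fun z => q z * wt l (z - x)) x
  have e1 : x + -l = x - l := by ring
  rw [e1] at h
  rw [← h]
  unfold Av
  congr 1
  funext z
  have e2 : x + z - x = z := by ring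
  rw [e2]
  ring

theorem second {l : ℝ} (hl : 0 < l) {q : ℝ → ℝ} (hq : Continuous q) (x a : ℝ) :
    Av l (fun z => (q z - a) ^ 2) x
      = Av l (fun z => q z ^ 2) x - 2 * a * Av l q x + a ^ 2 := by
  unfold Av
  have h7 : ∀ z, wt l z * (q (x + z) - a) ^ 2 = wt l z * q (x + z) ^ 2
      - 2 * a * (wt l z * q (x + z)) + a ^ 2 * wt l z := by
    intro z
    ring
  simp_rw [h7]
  have i1 : IntervalIntegrable (fun z => wt l z * q (x + z) ^ 2) volume (-l) l :=
    ii l (hq.pow 2) x
  have i2 : IntervalIntegrable (fun z => 2 * a * (wt l z * q (x + z))) volume (-l) l :=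
    (ii l hq x).const_mul (2 * a)
  have i3 : IntervalIntegrable (fun z => a ^ 2 * wt l z) volume (-l) l :=
    (continuous_const.mul (cw l)).intervalIntegrable _ _
  rw [intervalIntegral.integral_add (i1.sub i2) i3, intervalIntegral.integral_sub i1 i2,
    intervalIntegral.integral_const_mul, intervalIntegral.integral_const_mul, int_wt hl, mul_one]

theorem sub_const {l : ℝ} (hl : 0 < l) {q : ℝ → ℝ} (hq : Continuous q) (x a : ℝ) :
    Av l (fun z => q z - a) x = Av l q x - a := by
  unfold Av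
  have h7 : ∀ z, wt l z * (q (x + z) - a) = wt l z * q (x + z) - a * wt l z := by
    intro z
    ring
  simp_rw [h7]
  have i3 : IntervalIntegrable (fun z => a * wt l z) volume (-l) l :=
    (continuous_const.mul (cw l)).intervalIntegrable _ _
  rw [intervalIntegral.integral_sub (ii l hq x) i3, intervalIntegral.integral_const_mul,
    int_wt hl, mul_one]

theorem wt_le {l y : ℝ} (hl : 0 < l) (hy : |y| ≤ l) : wt l y ≤ 2 / l := by
  have h1 : y ^ 2 ≤ l ^ 2 := by
    rw [← sq_abs y]
    exact pow_le_pow_left₀ (abs_nonneg y) hy 2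
  have h2 : (l ^ 2 - y ^ 2) ^ 3 ≤ (l ^ 2) ^ 3 :=
    pow_le_pow_left₀ (by linarith) (by nlinarith [sq_nonneg y]) 3
  have h3 : wt l y ≤ 35 / (32 * l ^ 7) * (l ^ 2) ^ 3 := by
    unfold wt
    exact mul_le_mul_of_nonneg_left h2 (by positivity)
  have h4 : 35 / (32 * l ^ 7) * (l ^ 2) ^ 3 = (35 / 32) / l := by
    field_simp
  rw [h4] at h3
  exact h3.trans (div_le_div_of_nonneg_right (by norm_num) hl.le)

variable {T : ℝ} {U : ℝ × ℝ → ℝ}

theorem wt_id (h : Sol T U) {r : ℝ} (hr : r ∈ Ioo 0 T) (l x : ℝ) :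
    Av l (fun z => Dt U (r, z)) x = -(∫ z in (x - l)..(x + l), U (r, z) * wt3 l (z - x))
      + (Av l (fun z => Dx U (r, z) ^ 2) x + Av l (fun z => U (r, z) ^ 2) x) := by
  have hc0 := h.sm.continuous_x hr
  have hc1 := h.sm.dx.continuous_x hr
  have hc3 := h.sm.dx.dx.dx.continuous_x hr
  rw [conv, conv, conv, ← h.ibp hr l x]
  have i3 : IntervalIntegrable (fun z => Dx (Dx (Dx U)) (r, z) * wt l (z - x)) volume
      (x - l) (x + l) := (hc3.mul (continuous_wt l x)).intervalIntegrable _ _
  have i1 : IntervalIntegrable (fun z => Dx U (r, z) ^ 2 * wt l (z - x)) volume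
      (x - l) (x + l) := ((hc1.pow 2).mul (continuous_wt l x)).intervalIntegrable _ _
  have i0 : IntervalIntegrable (fun z => U (r, z) ^ 2 * wt l (z - x)) volume
      (x - l) (x + l) := ((hc0.pow 2).mul (continuous_wt l x)).intervalIntegrable _ _
  rw [← intervalIntegral.integral_add i1 i0, ← intervalIntegral.integral_add i3 (i1.add i0)]
  congr 1
  funext z
  rw [h.pde r hr z]
  ring

theorem err {r l : ℝ} (hl : 0 < l) (x : ℝ) {S : ℝ}
    (hS : ∀ x, |U (r, x)| ≤ S) :
    |∫ z in (x - l)..(x + l), U (r, z) * wt3 l (z - x)| ≤ 420 * S / l ^ 3 := by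
  have hS0 : 0 ≤ S := (abs_nonneg _).trans (hS 0)
  have h1 : ‖∫ z in (x - l)..(x + l), U (r, z) * wt3 l (z - x)‖
      ≤ S * (210 / l ^ 4) * |(x + l) - (x - l)| := by
    refine intervalIntegral.norm_integral_le_of_norm_le_const ?_
    intro z hz
    rw [uIoc_of_le (by linarith)] at hz
    rw [Real.norm_eq_abs, abs_mul]
    exact mul_le_mul (hS z) (abs_wt3_le hl (abs_sub_le_of_mem ⟨hz.1.le, hz.2⟩))
      (abs_nonneg _) hS0
  rw [Real.norm_eq_abs] at h1
  refine h1.trans (le_of_eq ?_)
  have e : (x + l) - (x - l) = 2 * l := by ring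
  rw [e, abs_of_pos (by positivity)]
  field_simp
  ring

theorem a1 (h : Sol T U) {r l : ℝ} (hr : r ∈ Ioo 0 T) (hl : 0 < l) (hl1 : l ≤ 1) (x : ℝ) :
    Av l (fun z => Dx U (r, z) ^ 2) x ≤ 2 / l * II U r := by
  have hc1 := h.sm.dx.continuous_x hr
  have hpi := Real.pi_gt_three
  have hper : Function.Periodic (fun y => (Dx U (r, y)) ^ 2) (2 * Real.pi) := by
    intro y
    simp only [Per.dx h.sm h.per r hr y]
  have h4 : ∫ z in (x - Real.pi)..(x - Real.pi + 2 * Real.pi), (Dx U (r, z)) ^ 2
      = II U r := by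
    have := hper.intervalIntegral_add_eq (x - Real.pi) 0
    rw [this, zero_add]
    rfl
  have h3 : ∫ z in (x - l)..(x + l), (Dx U (r, z)) ^ 2 ≤ II U r := by
    rw [← h4]
    refine intervalIntegral.integral_mono_interval (by linarith) (by linarith) (by linarith) ?_
      ((hc1.pow 2).intervalIntegrable _ _)
    exact Filter.Eventually.of_forall fun r => sq_nonneg _
  rw [conv]
  have h5 : ∫ z in (x - l)..(x + l), Dx U (r, z) ^ 2 * wt l (z - x)
      ≤ ∫ z in (x - l)..(x + l), (2 / l) * Dx U (r, z) ^ 2 := by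
    refine intervalIntegral.integral_mono_on (by linarith)
      (((hc1.pow 2).mul (continuous_wt l x)).intervalIntegrable _ _)
      ((continuous_const.mul (hc1.pow 2)).intervalIntegrable _ _) ?_
    intro z hz
    rw [mul_comm]
    exact mul_le_mul_of_nonneg_right (wt_le hl (abs_sub_le_of_mem hz)) (sq_nonneg _)
  rw [intervalIntegral.integral_const_mul] at h5
  exact h5.trans (mul_le_mul_of_nonneg_left h3 (by positivity))

theorem hol_sqrt {H l z d : ℝ} (hH : 0 ≤ H) (hz : |z| ≤ l) (hd : |d| ≤ H * Real.sqrt |z|) :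
    |d| ≤ H * Real.sqrt l :=
  hd.trans (mul_le_mul_of_nonneg_left (Real.sqrt_le_sqrt hz) hH)

end AVIM

theorem specAVI (hVAR : SpecVAR) : SpecAVI := by
  intro T U l S H r h hl hl1 hr hS hH hhol x
  have hc0 : Continuous (fun z => U (r, z)) := h.sm.continuous_x hr
  have hc1 : Continuous (fun z => Dx U (r, z)) := h.sm.dx.continuous_x hr
  have hp0 : ∀ x, (fun z => U (r, z)) (x + 2 * Real.pi) = (fun z => U (r, z)) x :=
    fun x => h.per r hr x
  have hp1 : ∀ x, (fun z => Dx U (r, z)) (x + 2 * Real.pi) = (fun z => Dx U (r, z)) x :=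
    fun x => Per.dx h.sm h.per r hr x
  have hS0 : 0 ≤ S := (abs_nonneg _).trans (hS 0)
  have v1 := hVAR (fun z => Dx U (r, z)) l hc1 hp1 hl hl1 x
  have v0 := (hVAR (fun z => U (r, z)) l hc0 hp0 hl hl1 x).1
  have hid := AVIM.wt_id h hr l x
  have herr := _root_.abs_le.1 (AVIM.err (U := U) (r := r) hl x hS)
  have hdist : ∀ z ∈ Icc (-l) l, |U (r, x + z) - U (r, x)| ≤ H * Real.sqrt l := by
    intro z hz
    have e := hhol (x + z) x
    have e2 : x + z - x = z := by ring
    rw [e2] at e
    exact AVIM.hol_sqrt hH (_root_.abs_le.2 hz) e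
  -- second moment
  have hsec := AVIM.second hl hc0 x (U (r, x))
  have hsm : Av l (fun z => (U (r, z) - U (r, x)) ^ 2) x ≤ H ^ 2 * l := by
    have e1 := AVIM.mono hl (q := fun z => (U (r, z) - U (r, x)) ^ 2)
      (q' := fun _ => H ^ 2 * l) ((hc0.sub continuous_const).pow 2) continuous_const x (by
        intro z hz
        have e2 := hdist z hz
        have e3 : |U (r, x + z) - U (r, x)| ^ 2 ≤ (H * Real.sqrt l) ^ 2 :=
          pow_le_pow_left₀ (abs_nonneg _) e2 2
        rw [sq_abs, mul_pow, Real.sq_sqrt hl.le] at e3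
        exact e3)
    rw [AVIM.const hl] at e1
    exact e1
  have hW2 : Av l (fun z => U (r, z) ^ 2) x ≤ Av l (fun z => U (r, z)) x ^ 2 + H ^ 2 * l := by
    nlinarith [sq_nonneg (Av l (fun z => U (r, z)) x - U (r, x))]
  -- bounds for the second moment of U
  have hU2 : Av l (fun z => U (r, z) ^ 2) x ≤ S ^ 2 := by
    have e1 := AVIM.mono hl (q := fun z => U (r, z) ^ 2) (q' := fun _ => S ^ 2)
      (hc0.pow 2) continuous_const x (by
        intro z _
        have e3 : |U (r, x + z)| ^ 2 ≤ S ^ 2 := pow_le_pow_left₀ (abs_nonneg _) (hS _) 2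
        rw [sq_abs] at e3
        exact e3)
    rw [AVIM.const hl] at e1
    exact e1
  have ha1 := AVIM.a1 h hr hl hl1 x
  have hv1 : Av l (fun z => Dx U (r, z)) x ^ 2 ≤ Av l (fun z => Dx U (r, z) ^ 2) x := v1.1
  have hv2 : Av l (fun z => Dx U (r, z) ^ 2) x
      ≤ Av l (fun z => Dx U (r, z)) x ^ 2 + Vl l (fun z => Dx U (r, z)) := v1.2
  have hv0 : Av l (fun z => U (r, z)) x ^ 2 ≤ Av l (fun z => U (r, z) ^ 2) x := v0
  refine ⟨?_, ?_, ?_, ?_, ?_⟩
  · rw [hid]
    linarith [herr.2]
  · rw [hid]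
    linarith [herr.1]
  · rw [← AVIM.sub_const hl hc0 x (U (r, x)), _root_.abs_le]
    constructor
    · have e1 := AVIM.mono hl (q := fun _ => -(H * Real.sqrt l))
        (q' := fun z => U (r, z) - U (r, x)) continuous_const (hc0.sub continuous_const) x (by
          intro z hz
          exact (_root_.abs_le.1 (hdist z hz)).1)
      rw [AVIM.const hl] at e1
      exact e1
    · have e1 := AVIM.mono hl (q := fun z => U (r, z) - U (r, x))
        (q' := fun _ => H * Real.sqrt l) (hc0.sub continuous_const) continuous_const x (by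
          intro z hz
          exact (_root_.abs_le.1 (hdist z hz)).2)
      rw [AVIM.const hl] at e1
      exact e1
  · rw [_root_.abs_le]
    constructor
    · have e1 := AVIM.mono hl (q := fun _ => -S) (q' := fun z => U (r, z)) continuous_const
        hc0 x (fun z _ => (_root_.abs_le.1 (hS (x + z))).1)
      rw [AVIM.const hl] at e1
      exact e1
    · have e1 := AVIM.mono hl (q := fun z => U (r, z)) (q' := fun _ => S) hc0
        continuous_const x (fun z _ => (_root_.abs_le.1 (hS (x + z))).2)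
      rw [AVIM.const hl] at e1
      exact e1
  · rw [hid, _root_.abs_le]
    have n1 : 0 ≤ Av l (fun z => Dx U (r, z) ^ 2) x := (sq_nonneg _).trans hv1
    have n0 : 0 ≤ Av l (fun z => U (r, z) ^ 2) x := (sq_nonneg _).trans hv0
    have n2 : 0 ≤ 2 / l * II U r := n1.trans ha1
    have n3 : 0 ≤ S ^ 2 := sq_nonneg S
    constructor
    · linarith [herr.2]
    · linarith [herr.1]

end

end Pool.Agent.Lib.MPb879c5.PR
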