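import Pool.Agent.Lib.MP_b879c5_an.PR.Spec

/-!
# BND: the band argument
-/

set_option autoImplicit false

namespace Pool.Agent.Lib.MPb879c5.PR

open Set Filter MeasureTheory Topology
open Pool.Agent.Lib.MP_b879c5_an

noncomputable section

namespace BNDM

/-- the values of `m` are between the lower and the upper limit -/
theorem between {la m : ℝ → ℝ} {ε : ℕ → ℝ} {φ : ℕ → ℕ}
    (hb1 : IsBoundedUnder (· ≤ ·) (𝓝[>] (0 : ℝ)) la) (hb2 : IsBoundedUnder (· ≥ ·) (𝓝[>] (0 : ℝ)) la)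
    (hε1 : ∀ k, 0 < ε k) (hε2 : Tendsto ε atTop (𝓝 0)) (hφ : StrictMono φ)
    (hm : ∀ b B : ℝ, 0 < b → b < B → ∀ η > 0, ∀ᶠ k in atTop, ∀ θ ∈ Icc b B,
      |la (θ * ε (φ k)) - m θ| ≤ η) {θ : ℝ} (hθ : 0 < θ) :
    liminf la (𝓝[>] (0 : ℝ)) ≤ m θ ∧ m θ ≤ limsup la (𝓝[>] (0 : ℝ)) := by
  have ht : Tendsto (fun k => θ * ε (φ k)) atTop (𝓝[>] (0 : ℝ)) := by
    rw [tendsto_nhdsWithin_iff]
    refine ⟨?_, Eventually.of_forall fun k => mul_pos hθ (hε1 _)⟩
    have := (hε2.comp hφ.tendsto_atTop).const_mul θ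
    rwa [mul_zero] at this
  constructor
  · refine le_of_forall_pos_le_add fun η hη => ?_
    have h1 : ∀ᶠ x in 𝓝[>] (0 : ℝ), liminf la (𝓝[>] (0 : ℝ)) - η / 2 < la x :=
      eventually_lt_of_lt_liminf (by linarith) hb2
    obtain ⟨k, hk1, hk2⟩ := ((ht.eventually h1).and
      (hm (θ / 2) (2 * θ) (by linarith) (by linarith) (η / 2) (by linarith))).exists
    have h2 := (abs_le.1 (hk2 θ ⟨by linarith, by linarith⟩)).2
    linarith
  · refine le_of_forall_pos_le_add fun η hη => ?_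
    have h1 : ∀ᶠ x in 𝓝[>] (0 : ℝ), la x < limsup la (𝓝[>] (0 : ℝ)) + η / 2 :=
      eventually_lt_of_limsup_lt (by linarith) hb1
    obtain ⟨k, hk1, hk2⟩ := ((ht.eventually h1).and
      (hm (θ / 2) (2 * θ) (by linarith) (by linarith) (η / 2) (by linarith))).exists
    have h2 := (abs_le.1 (hk2 θ ⟨by linarith, by linarith⟩)).1
    linarith

/-- a sequence tending to `0` -/
theorem exseq {P : ℕ → ℝ → Prop} (h : ∀ k, ∃ᶠ x in 𝓝[>] (0 : ℝ), P k x) :
    ∃ ε : ℕ → ℝ, (∀ k, 0 < ε k) ∧ Tendsto ε atTop (𝓝 0) ∧ ∀ k, P k (ε k) := by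
  have h1 : ∀ k : ℕ, ∃ x : ℝ, 0 < x ∧ x < 1 / ((k : ℝ) + 1) ∧ P k x := by
    intro k
    have h2 : ∀ᶠ x in 𝓝[>] (0 : ℝ), x ∈ Ioo (0 : ℝ) (1 / ((k : ℝ) + 1)) :=
      Ioo_mem_nhdsGT (by positivity)
    obtain ⟨x, hx1, hx2⟩ := ((h k).and_eventually h2).exists
    exact ⟨x, hx2.1, hx2.2, hx1⟩
  choose ε h1 h2 h3 using h1
  exact ⟨ε, h1, squeeze_zero (fun k => (h1 k).le) (fun k => (h2 k).le)
    tendsto_one_div_add_atTop_nhds_zero_nat, h3⟩

/-- the value at `1` from the values of the sequence -/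
theorem at_one {la m : ℝ → ℝ} {ε : ℕ → ℝ} {φ : ℕ → ℕ}
    (hm : ∀ b B : ℝ, 0 < b → b < B → ∀ η > 0, ∀ᶠ k in atTop, ∀ θ ∈ Icc b B,
      |la (θ * ε (φ k)) - m θ| ≤ η) : Tendsto (fun k => la (ε (φ k))) atTop (𝓝 (m 1)) := by
  rw [Metric.tendsto_atTop']
  intro η hη
  obtain ⟨N, hN⟩ := eventually_atTop.1 (hm (1 / 2) 2 (by norm_num) (by norm_num) (η / 2) (by linarith))
  refine ⟨N, fun k hk => ?_⟩
  have h1 := hN k hk.le 1 ⟨by norm_num, by norm_num⟩
  rw [one_mul] at h1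
  rw [Real.dist_eq]
  linarith

end BNDM

open BNDM in
theorem specBND : SpecBND := by
  intro la e₀ C he₀ hcont hC hSeq
  have hev : ∀ᶠ x in 𝓝[>] (0 : ℝ), x ∈ Ioo (0 : ℝ) e₀ := Ioo_mem_nhdsGT he₀
  have hb1 : IsBoundedUnder (· ≤ ·) (𝓝[>] (0 : ℝ)) la :=
    isBoundedUnder_of_eventually_le (a := C) (hev.mono fun x hx => (abs_le.1 (hC x hx)).2)
  have hb2 : IsBoundedUnder (· ≥ ·) (𝓝[>] (0 : ℝ)) la :=
    isBoundedUnder_of_eventually_ge (a := -C) (hev.mono fun x hx => (abs_le.1 (hC x hx)).1)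
  have hc1 : IsCoboundedUnder (· ≥ ·) (𝓝[>] (0 : ℝ)) la := hb1.isCoboundedUnder_ge
  have hc2 : IsCoboundedUnder (· ≤ ·) (𝓝[>] (0 : ℝ)) la := hb2.isCoboundedUnder_le
  have hpi := Real.pi_pos
  obtain ⟨lm, hlm⟩ : ∃ lm : ℝ, lm = liminf la (𝓝[>] (0 : ℝ)) := ⟨_, rfl⟩
  obtain ⟨lp, hlp⟩ : ∃ lp : ℝ, lp = limsup la (𝓝[>] (0 : ℝ)) := ⟨_, rfl⟩
  have hle : lm ≤ lp := by
    rw [hlm, hlp]
    exact liminf_le_limsup hb1 hb2
  have hlow : ∀ a : ℝ, lm < a → ∃ᶠ x in 𝓝[>] (0 : ℝ), la x < a := by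
    intro a ha
    rw [hlm] at ha
    exact frequently_lt_of_liminf_lt hc1 ha
  have hupp : ∀ a : ℝ, a < lp → ∃ᶠ x in 𝓝[>] (0 : ℝ), a < la x := by
    intro a ha
    rw [hlp] at ha
    exact frequently_lt_of_lt_limsup hc2 ha
  have hone : Tendsto (fun k : ℕ => 1 / ((k : ℝ) + 1)) atTop (𝓝 0) :=
    tendsto_one_div_add_atTop_nhds_zero_nat
  -- the lower limit
  have hA : lm = Real.pi ∨ lm = 2 * Real.pi := by
    obtain ⟨ε, h1, h2, h3⟩ := exseq (P := fun k x => la x < lm + 1 / ((k : ℝ) + 1))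
      fun k => hlow _ (by
        have : (0 : ℝ) < 1 / ((k : ℝ) + 1) := by positivity
        linarith)
    obtain ⟨φ, hφ, m, hm1, hm2, hm3, hm4⟩ := hSeq ε h1 h2
    have h4 : m 1 ≤ lm := by
      have h5 : Tendsto (fun k => lm + 1 / ((φ k : ℝ) + 1)) atTop (𝓝 (lm + 0)) :=
        (hone.comp hφ.tendsto_atTop).const_add lm
      rw [add_zero] at h5
      exact le_of_tendsto_of_tendsto' (at_one hm1) h5 fun k => (h3 (φ k)).le
    have h6 : ∀ θ, 0 < θ → lm ≤ m θ := fun θ hθ => by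
      rw [hlm]
      exact (between hb1 hb2 h1 h2 hφ hm1 hθ).1
    have h7 : m 1 = lm := le_antisymm h4 (h6 1 one_pos)
    rw [← h7]
    exact hm3 fun θ hθ hθ1 => le_antisymm (hm2 θ 1 hθ hθ1) (by rw [h7]; exact h6 θ hθ)
  -- the upper limit
  have hB : lp = Real.pi ∨ lp = 2 * Real.pi := by
    obtain ⟨ε, h1, h2, h3⟩ := exseq (P := fun k x => lp - 1 / ((k : ℝ) + 1) < la x)
      fun k => hupp _ (by
        have : (0 : ℝ) < 1 / ((k : ℝ) + 1) := by positivity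
        linarith)
    obtain ⟨φ, hφ, m, hm1, hm2, hm3, hm4⟩ := hSeq ε h1 h2
    have h4 : lp ≤ m 1 := by
      have h5 : Tendsto (fun k => lp - 1 / ((φ k : ℝ) + 1)) atTop (𝓝 (lp - 0)) :=
        (hone.comp hφ.tendsto_atTop).const_sub lp
      rw [sub_zero] at h5
      exact le_of_tendsto_of_tendsto' h5 (at_one hm1) fun k => (h3 (φ k)).le
    have h6 : ∀ θ, 0 < θ → m θ ≤ lp := fun θ hθ => by
      rw [hlp]
      exact (between hb1 hb2 h1 h2 hφ hm1 hθ).2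
    have h7 : m 1 = lp := le_antisymm (h6 1 one_pos) h4
    rw [← h7]
    exact hm4 fun θ hθ => le_antisymm (by rw [h7]; exact h6 θ (by linarith)) (hm2 1 θ one_pos hθ)
  have heq : lm = lp → Tendsto la (𝓝[>] 0) (𝓝 lp) := by
    intro h
    refine tendsto_of_le_liminf_of_limsup_le ?_ ?_ hb1 hb2
    · rw [← hlm, h]
    · rw [← hlp]
  rcases hA with hA | hA
  · rcases hB with hB | hB
    · left
      rw [← hB]
      exact heq (by rw [hA, hB])
    · exfalso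
      -- the band
      have hex : ∀ k : ℕ, ∃ᶠ δ in 𝓝[>] (0 : ℝ), ∃ e' : ℝ, δ < e' ∧ la e' < 5 * Real.pi / 4 ∧
          la δ = 3 * Real.pi / 2 ∧ ∀ x, δ < x → x ≤ e' → la x < 3 * Real.pi / 2 := by
        intro _
        refine (nhdsGT_basis (0 : ℝ)).frequently_iff.2 fun {r} hr => ?_
        have hr' : (0 : ℝ) < min r e₀ := lt_min hr he₀
        have h1 := hlow (5 * Real.pi / 4) (by linarith)
        have h2 : ∀ᶠ x in 𝓝[>] (0 : ℝ), x ∈ Ioo (0 : ℝ) (min r e₀) := Ioo_mem_nhdsGT hr'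
        obtain ⟨e', he1, he2⟩ := (h1.and_eventually h2).exists
        have h3 := hupp (3 * Real.pi / 2) (by linarith)
        have h4 : ∀ᶠ x in 𝓝[>] (0 : ℝ), x ∈ Ioo (0 : ℝ) e' := Ioo_mem_nhdsGT he2.1
        obtain ⟨e, he3, he4⟩ := (h3.and_eventually h4).exists
        have he5 : e' < r := lt_of_lt_of_le he2.2 (min_le_left _ _)
        have he6 : e' < e₀ := lt_of_lt_of_le he2.2 (min_le_right _ _)
        have hcI : ContinuousOn la (Icc e e') := hcont.mono fun x hx =>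
          ⟨lt_of_lt_of_le he4.1 hx.1, lt_of_le_of_lt hx.2 he6⟩
        have hne : (Icc e e' ∩ la ⁻¹' {3 * Real.pi / 2}).Nonempty := by
          obtain ⟨x, hx1, hx2⟩ := intermediate_value_Icc' he4.2.le hcI
            (⟨by linarith, by linarith⟩ : (3 * Real.pi / 2) ∈ Icc (la e') (la e))
          exact ⟨x, hx1, hx2⟩
        have hcpt : IsCompact (Icc e e' ∩ la ⁻¹' {3 * Real.pi / 2}) :=
          isCompact_Icc.of_isClosed_subset
            (hcI.preimage_isClosed_of_isClosed isClosed_Icc isClosed_singleton) inter_subset_left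
        obtain ⟨δ, ⟨hδ1, hδ2⟩, hδ3⟩ := hcpt.exists_isGreatest hne
        have hδ4 : la δ = 3 * Real.pi / 2 := hδ2
        have hδ5 : δ < e' := by
          refine lt_of_le_of_ne hδ1.2 fun h => ?_
          rw [h] at hδ4
          linarith
        refine ⟨δ, ⟨lt_of_lt_of_le he4.1 hδ1.1, hδ5.trans he5⟩, e', hδ5, he1, hδ4, ?_⟩
        intro x hx1 hx2
        by_contra hcon
        have hcon' : 3 * Real.pi / 2 ≤ la x := not_lt.1 hcon
        have hcI' : ContinuousOn la (Icc x e') := hcI.mono fun y hy =>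
          ⟨(hδ1.1.trans hx1.le).trans hy.1, hy.2⟩
        obtain ⟨y, hy1, hy2⟩ := intermediate_value_Icc' hx2 hcI'
          (⟨by linarith, hcon'⟩ : (3 * Real.pi / 2) ∈ Icc (la e') (la x))
        have := hδ3 ⟨⟨(hδ1.1.trans hx1.le).trans hy1.1, hy1.2⟩, hy2⟩
        linarith [hy1.1]
      obtain ⟨δ, h1, h2, h3⟩ := exseq hex
      choose e' h3 h4 h5 h6 using h3
      obtain ⟨φ, hφ, m, hm1, hm2, hm3, hm4⟩ := hSeq δ h1 h2
      have hm : m 1 = 3 * Real.pi / 2 := by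
        refine tendsto_nhds_unique (at_one hm1) ?_
        simp only [h5]
        exact tendsto_const_nhds
      have hnot : ¬ ∀ θ, 1 ≤ θ → m θ = m 1 := by
        intro h
        rcases hm4 h with h | h <;> rw [hm] at h <;> linarith
      push Not at hnot
      obtain ⟨θ, hθ1, hθ2⟩ := hnot
      have hθ3 : m 1 < m θ := lt_of_le_of_ne (hm2 1 θ one_pos hθ1) (Ne.symm hθ2)
      have hθ4 : 1 < θ := lt_of_le_of_ne hθ1 fun h => by
        rw [← h] at hθ3
        exact lt_irrefl _ hθ3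
      obtain ⟨η, hη0, hη1, hη2⟩ : ∃ η : ℝ, 0 < η ∧ η ≤ (m θ - m 1) / 2 ∧ η ≤ Real.pi / 8 :=
        ⟨min ((m θ - m 1) / 2) (Real.pi / 8), lt_min (by linarith) (by linarith),
          min_le_left _ _, min_le_right _ _⟩
      obtain ⟨k, hk⟩ := (hm1 (1 / 2) (θ + 1) (by norm_num) (by linarith) η hη0).exists
      have k1 := (abs_le.1 (hk θ ⟨by linarith, by linarith⟩)).1
      have k2 : 3 * Real.pi / 2 < la (θ * δ (φ k)) := by linarith
      have k3 : e' (φ k) < θ * δ (φ k) := by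
        by_contra hcon
        have := h6 (φ k) (θ * δ (φ k)) (by nlinarith [h1 (φ k)]) (not_lt.1 hcon)
        linarith
      have k4 : 1 ≤ e' (φ k) / δ (φ k) := by
        rw [le_div_iff₀ (h1 _), one_mul]
        exact (h3 _).le
      have k5 : e' (φ k) / δ (φ k) ≤ θ := by
        rw [div_le_iff₀ (h1 _)]
        exact k3.le
      have k6 := (abs_le.1 (hk (e' (φ k) / δ (φ k)) ⟨by linarith, by linarith⟩)).1
      rw [div_mul_cancel₀ _ (h1 _).ne'] at k6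
      have k7 := hm2 1 _ one_pos k4
      have k8 := h4 (φ k)
      linarith
  · rcases hB with hB | hB
    · exfalso
      linarith
    · right
      rw [← hB]
      exact heq (by rw [hA, hB])

end

end Pool.Agent.Lib.MPb879c5.PR
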