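import Pool.Agent.Lib.MP_b879c5_an.PR.Spec

set_option autoImplicit false

namespace Pool.Agent.Lib.MPb879c5.PR

open Set Filter Topology

theorem specCHO : SpecCHO := by
  classical
  intro T f h H
  let S : ℝ → Set ℝ := fun t => {η | 0 < η ∧ ∃ a, ∀ x, |f t x - h (x - a)| ≤ η}
  have hbd : ∀ t, BddBelow (S t) := fun t => ⟨0, fun η hη => hη.1.le⟩
  have key : ∀ t, t < T → (S t).Nonempty →
      ∃ a, ∀ x, |f t x - h (x - a)| ≤ sInf (S t) + (T - t) := by
    intro t ht hne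
    have hlt : sInf (S t) < sInf (S t) + (T - t) := by linarith
    obtain ⟨η, hη, hη2⟩ := exists_lt_of_csInf_lt hne hlt
    obtain ⟨a, ha⟩ := hη.2
    exact ⟨a, fun x => (ha x).trans hη2.le⟩
  let a : ℝ → ℝ := fun t =>
    if ht : ∃ a, ∀ x, |f t x - h (x - a)| ≤ sInf (S t) + (T - t) then ht.choose else 0
  refine ⟨a, fun η hη => ?_⟩
  have h1 : ∀ᶠ t in 𝓝[<] T, t < T := eventually_mem_nhdsWithin
  have h2 : ∀ᶠ t in 𝓝[<] T, T - η / 2 < t := by
    apply mem_nhdsWithin_of_mem_nhds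
    exact Ioi_mem_nhds (by linarith)
  filter_upwards [h1, h2, H (η / 2) (half_pos hη)] with t ht1 ht2 ht3
  have hmem : η / 2 ∈ S t := ⟨half_pos hη, ht3⟩
  have hI : sInf (S t) ≤ η / 2 := csInf_le (hbd t) hmem
  have hex := key t ht1 ⟨_, hmem⟩
  intro x
  have hat : a t = hex.choose := by
    show (if ht : ∃ a, ∀ x, |f t x - h (x - a)| ≤ sInf (S t) + (T - t) then ht.choose else 0) = _
    rw [dif_pos hex]
  rw [hat]
  refine (hex.choose_spec x).trans ?_
  linarith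

end Pool.Agent.Lib.MPb879c5.PR
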