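import Pool.Agent.Lib.MP_b879c5_an.PR.Spec

/-!
# MP_b879c5: module CLS (classification of the stationary profiles)
-/

set_option autoImplicit false

namespace Pool.Agent.Lib.MPb879c5.PR

open Set Filter MeasureTheory Topology
open Pool.Agent.Lib.MP_b879c5_an

namespace CLSM

theorem half (x : ℝ) : Real.cos (x / 2) ^ 2 = (1 + Real.cos x) / 2 := by
  rw [Real.cos_sq]
  have h : 2 * (x / 2) = x := by ring
  rw [h]
  ring

theorem small {A h₀ b : ℝ} (hs : 0 < Real.sin A) (h0 : 0 < h₀) (hb : 0 < b) :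
    ∃ h, 0 < h ∧ h ≤ h₀ ∧ h ≤ b ∧ Real.sin A / 2 * h < Real.cos (A - h) - Real.cos A := by
  have hs1 : Real.sin A ≤ 1 := Real.sin_le_one A
  obtain ⟨h, hh⟩ : ∃ h, h = min (min h₀ b) (Real.sin A / 4) := ⟨_, rfl⟩
  have h1 : 0 < h := by
    rw [hh]
    exact lt_min (lt_min h0 hb) (by linarith)
  have h2 : h ≤ Real.sin A / 4 := by rw [hh]; exact min_le_right _ _
  have h3 : h ≤ h₀ := by rw [hh]; exact (min_le_left _ _).trans (min_le_left _ _)
  have h4 : h ≤ b := by rw [hh]; exact (min_le_left _ _).trans (min_le_right _ _)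
  refine ⟨h, h1, h3, h4, ?_⟩
  have hle : h ≤ 1 / 4 := by linarith
  have h5 := Real.sin_gt_sub_cube h1
  have h6 := Real.one_sub_sq_div_two_le_cos (x := h)
  have h7 := Real.cos_le_one h
  have h8 := Real.cos_le_one A
  rw [Real.cos_sub]
  generalize Real.sin A = s at *
  generalize Real.cos A = c at *
  generalize Real.sin h = S at *
  generalize Real.cos h = C at *
  have h9 : c * (1 - C) ≤ h ^ 2 / 2 := by nlinarith
  have h10 : s * (h - h ^ 3 / 6) ≤ s * S := mul_le_mul_of_nonneg_left h5.le hs.le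
  have h11 : h ^ 2 ≤ 1 / 16 := by nlinarith
  have h12 : h ^ 3 = h * h ^ 2 := by ring
  have h13 : s * h ^ 3 ≤ s * h * (1 / 16) := by
    rw [h12, ← mul_assoc]
    exact mul_le_mul_of_nonneg_left h11 (by positivity)
  have h14 : h ^ 2 ≤ h * (s / 4) := by
    rw [sq]
    exact mul_le_mul_of_nonneg_left h2 h1.le
  have h15 : 0 < s * h := by positivity
  nlinarith

end CLSM

theorem specCLS : SpecCLS := by
  intro g hgc hper hA0 hB0 hK
  have h2pi : (0 : ℝ) < 2 * Real.pi := by positivity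
  have hA : ∀ x, ∃ z, g z = 1 ∧ 2 * g x - 1 = Real.cos (x - z) := by
    intro x
    obtain ⟨z, hz, hx⟩ := hA0 x
    refine ⟨z, hz, ?_⟩
    rw [hx, CLSM.half]
    ring
  have hB : ∀ x z, g z = 1 → Real.cos (x - z) ≤ 2 * g x - 1 := by
    intro x z hz
    have h := hB0 x z hz
    rw [CLSM.half] at h
    linarith
  have hP : ∀ (z : ℝ) (k : ℤ), g z = 1 → g (z + k * (2 * Real.pi)) = 1 := by
    intro z k hz
    have h : Function.Periodic g (2 * Real.pi) := hper
    rw [h.int_mul k z, hz]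
  by_cases hall : ∀ x, g x = 1
  · exact Or.inl hall
  right
  obtain ⟨x₁, hx₁⟩ := not_forall.mp hall
  obtain ⟨z₀, hz₀, -⟩ := hA 0
  have hcl : IsClosed {z | g z = 1} := isClosed_eq hgc continuous_const
  -- the nearest point of `Z` on the left
  have hnb : ({z | g z = 1} ∩ Iic x₁).Nonempty := by
    obtain ⟨k, hk, -⟩ := existsUnique_add_zsmul_mem_Ico h2pi z₀ (x₁ - 2 * Real.pi)
    rw [zsmul_eq_mul] at hk
    exact ⟨_, hP z₀ k hz₀, by have := hk.2; simp only [mem_Iic]; linarith⟩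
  have hnb2 : ({z | g z = 1} ∩ Ici x₁).Nonempty := by
    obtain ⟨k, hk, -⟩ := existsUnique_add_zsmul_mem_Ico h2pi z₀ x₁
    rw [zsmul_eq_mul] at hk
    exact ⟨_, hP z₀ k hz₀, hk.1⟩
  have hbd1 : BddAbove ({z | g z = 1} ∩ Iic x₁) := ⟨x₁, fun z hz => hz.2⟩
  have hbd2 : BddBelow ({z | g z = 1} ∩ Ici x₁) := ⟨x₁, fun z hz => hz.2⟩
  obtain ⟨α, hα⟩ : ∃ α, α = sSup ({z | g z = 1} ∩ Iic x₁) := ⟨_, rfl⟩
  obtain ⟨β, hβ⟩ : ∃ β, β = sInf ({z | g z = 1} ∩ Ici x₁) := ⟨_, rfl⟩
  have hαm : α ∈ {z | g z = 1} ∩ Iic x₁ := by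
    rw [hα]
    exact (hcl.inter isClosed_Iic).csSup_mem hnb hbd1
  have hβm : β ∈ {z | g z = 1} ∩ Ici x₁ := by
    rw [hβ]
    exact (hcl.inter isClosed_Ici).csInf_mem hnb2 hbd2
  have hα1 : g α = 1 := hαm.1
  have hβ1 : g β = 1 := hβm.1
  have hαx : α < x₁ := lt_of_le_of_ne hαm.2 (fun h => hx₁ (h ▸ hα1))
  have hxβ : x₁ < β := lt_of_le_of_ne hβm.2 (fun h => hx₁ (h.symm ▸ hβ1))
  have hgap : ∀ z, g z = 1 → z ≤ α ∨ β ≤ z := by
    intro z hz
    rcases le_total z x₁ with h | h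
    · left
      rw [hα]
      exact le_csSup hbd1 ⟨hz, h⟩
    · right
      rw [hβ]
      exact csInf_le hbd2 ⟨hz, h⟩
  have hlen : β - α ≤ 2 * Real.pi := by
    have h1 : g (α + 2 * Real.pi) = 1 := by rw [hper, hα1]
    rcases hgap _ h1 with h | h <;> linarith
  -- the upper bound
  have hup : ∀ x d : ℝ, 0 ≤ d → d ≤ x - α → d ≤ β - x → 2 * g x - 1 ≤ Real.cos d := by
    intro x d hd h1 h2
    obtain ⟨z, hz, hx⟩ := hA x
    obtain ⟨k, hk, -⟩ := existsUnique_add_zsmul_mem_Ico h2pi z (x - Real.pi)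
    rw [zsmul_eq_mul] at hk
    have hz' := hP z k hz
    have hcos : Real.cos (x - z) = Real.cos (x - (z + k * (2 * Real.pi))) := by
      have h3 : x - (z + k * (2 * Real.pi)) = (x - z) - k * (2 * Real.pi) := by ring
      rw [h3, Real.cos_sub_int_mul_two_pi]
    rw [hx, hcos]
    generalize z + k * (2 * Real.pi) = z' at *
    rcases hgap z' hz' with h | h
    · exact Real.cos_le_cos_of_nonneg_of_le_pi hd (by linarith [hk.1]) (by linarith)
    · rw [← Real.cos_neg, neg_sub]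
      exact Real.cos_le_cos_of_nonneg_of_le_pi hd (by linarith [hk.2]) (by linarith)
  -- the length is `2π`
  have hlen2 : β - α = 2 * Real.pi := by
    by_contra hne
    have hlt : β - α < 2 * Real.pi := lt_of_le_of_ne hlen hne
    obtain ⟨A, hAd⟩ : ∃ A, A = (β - α) / 2 := ⟨_, rfl⟩
    obtain ⟨μ, hμ⟩ : ∃ μ, μ = (α + β) / 2 := ⟨_, rfl⟩
    have hA0 : 0 < A := by rw [hAd]; linarith
    have hs : 0 < Real.sin A := Real.sin_pos_of_pos_of_lt_pi hA0 (by rw [hAd]; linarith)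
    obtain ⟨h₀, hh0, hk⟩ := hK (Real.sin A / 2) (by linarith)
    obtain ⟨h, h1, h2, h3, h4⟩ := CLSM.small hs hh0 hA0
    have h5 : 2 * g (μ + h) - 1 = Real.cos (A - h) := by
      refine le_antisymm (hup _ _ (by linarith) (by rw [hμ, hAd]; linarith)
        (by rw [hμ, hAd]; linarith)) ?_
      have h6 := hB (μ + h) β hβ1
      have h7 : μ + h - β = -(A - h) := by rw [hμ, hAd]; ring
      rw [h7, Real.cos_neg] at h6
      exact h6
    have h5' : 2 * g (μ - h) - 1 = Real.cos (A - h) := by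
      refine le_antisymm (hup _ _ (by linarith) (by rw [hμ, hAd]; linarith)
        (by rw [hμ, hAd]; linarith)) ?_
      have h6 := hB (μ - h) α hα1
      have h7 : μ - h - α = A - h := by rw [hμ, hAd]; ring
      rw [h7] at h6
      exact h6
    have h5'' : 2 * g μ - 1 ≤ Real.cos A :=
      hup _ _ hA0.le (by rw [hμ, hAd]; linarith) (by rw [hμ, hAd]; linarith)
    have h8 := le_abs_self (g (μ + h) + g (μ - h) - 2 * g μ)
    have h9 := hk h h1 h2 μ
    linarith
  -- conclusion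
  refine ⟨α, fun x => ?_⟩
  obtain ⟨z, hz, hx⟩ := hA x
  obtain ⟨k, hk, -⟩ := existsUnique_add_zsmul_mem_Ico h2pi z α
  rw [zsmul_eq_mul] at hk
  have hz' := hP z k hz
  have hzα : z + k * (2 * Real.pi) = α := by
    rcases hgap _ hz' with h | h
    · exact le_antisymm h hk.1
    · exact absurd hk.2 (by linarith)
  have hcos : Real.cos (x - z) = Real.cos (x - α) := by
    have h3 : x - z = (x - α) + k * (2 * Real.pi) := by rw [← hzα]; ring
    rw [h3, Real.cos_add_int_mul_two_pi]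
  rw [CLSM.half, ← hcos, ← hx]
  ring

end Pool.Agent.Lib.MPb879c5.PR

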