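import Pool.Agent.Lib.MP_b879c5_an.PR.Spec

/-!
# MP_b879c5_an, module CMA: supersolutions lie above the fundamental solution
-/

set_option autoImplicit false

namespace Pool.Agent.Lib.MPb879c5.PR

open Set Filter MeasureTheory Topology
open Pool.Agent.Lib.MP_b879c5_an

noncomputable section

theorem CMAM.chain {s t : ℝ} {W Wt Wx : ℝ → ℝ → ℝ} (h : Dfb s t W Wt Wx) {X : ℝ → ℝ}
    {X' r : ℝ} (hr : r ∈ Icc s t) (hX : HasDerivAt X X' r) :
    HasDerivAt (fun r => W r (X r)) (Wt r (X r) + Wx r (X r) * X') r := by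
  have h0 : HasDerivAt (fun r : ℝ => (r, X r)) ((1 : ℝ), X') r := (hasDerivAt_id' r).prodMk hX
  have h1 := (h r hr (X r)).comp_hasDerivAt r h0
  have h2 : (Wt r (X r) • ContinuousLinearMap.fst ℝ ℝ ℝ
      + Wx r (X r) • ContinuousLinearMap.snd ℝ ℝ ℝ) ((1 : ℝ), X')
      = Wt r (X r) + Wx r (X r) * X' := by
    simp
  rw [h2] at h1
  exact h1

theorem CMAM.Xp_start (y s v c : ℝ) : Xp y s v c s = y := by
  unfold Xp
  simp

theorem CMAM.K_start (y s v : ℝ) : K y s v y s = v := by
  unfold K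
  simp

theorem CMAM.Xp_cont (y s v c : ℝ) : ContinuousAt (Xp y s v c) s := by
  have h1 : ContinuousAt (fun r : ℝ => c * (r - s) / (1 - v * (r - s))) s :=
    ContinuousAt.div (by fun_prop) (by fun_prop) (by simp)
  have h2 : ContinuousAt (fun r : ℝ => Real.arctan (c * (r - s) / (1 - v * (r - s)))) s :=
    Real.continuous_arctan.continuousAt.comp h1
  exact continuousAt_const.add (continuousAt_const.mul h2)

/-- the inequality at distance less than `π` -/
theorem CMAM.near (hKFN : SpecKFN) (hGRO : SpecGRO) (s t M κ : ℝ) (W Wt Wx : ℝ → ℝ → ℝ)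
    (F : ℝ → ℝ) (y : ℝ) (hst : s < t) (hκ : 0 < κ) (hM : 0 ≤ M) (hW : Dfb s t W Wt Wx)
    (hWM : ∀ r ∈ Icc s t, ∀ x, |W r x| ≤ M) (hF : ContinuousOn F (Icc s t))
    (hF0 : ∀ r ∈ Icc s t, 0 ≤ F r)
    (hsup : ∀ r ∈ Icc s t, ∀ x, Wx r x ^ 2 + W r x ^ 2 - F r ≤ Wt r x)
    (hy : W s y * (t - s) ≤ 1 - κ) (x : ℝ) (hx : |x - y| < Real.pi) :
    K y s (W s y) x t - Real.exp ((M + M / κ) * (t - s)) * (∫ r in s..t, F r) ≤ W t x := by
  obtain ⟨h1, h2, h3, h4, -, h6, h7, -⟩ := hKFN
  have hs : s ∈ Icc s t := ⟨le_rfl, hst.le⟩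
  have ht : t ∈ Icc s t := ⟨hst.le, le_rfl⟩
  have hlt : ∀ r, s ≤ r → r ≤ t → W s y * (r - s) < 1 := by
    intro r hr1 hr2
    rcases le_or_gt (W s y) 0 with hv | hv
    · have : W s y * (r - s) ≤ 0 := mul_nonpos_of_nonpos_of_nonneg hv (by linarith)
      linarith
    · have : W s y * (r - s) ≤ W s y * (t - s) :=
        mul_le_mul_of_nonneg_left (by linarith) hv.le
      linarith
  have hvM : W s y ≤ M := (le_abs_self _).trans (hWM s hs y)
  obtain ⟨c, hc⟩ := h7 y s (W s y) t x hst (hlt t hst.le le_rfl) hx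
  obtain ⟨L, hL⟩ := h6 y s (W s y) c t hst (hlt t hst.le le_rfl)
  have hX : ∀ r ∈ Ioc s t, HasDerivAt (Xp y s (W s y) c)
      (-2 * Kx y s (W s y) (Xp y s (W s y) c r) r) r := fun r hr =>
    h2 y s (W s y) c r hr.1 (hlt r hr.1.le hr.2)
  have hKd : ∀ r ∈ Ioc s t, HasDerivAt (fun r => K y s (W s y) (Xp y s (W s y) c r) r)
      (Kx y s (W s y) (Xp y s (W s y) c r) r ^ 2 + K y s (W s y) (Xp y s (W s y) c r) r ^ 2
        + Kx y s (W s y) (Xp y s (W s y) c r) r
          * (-2 * Kx y s (W s y) (Xp y s (W s y) c r) r)) r := fun r hr =>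
    h1 y s (W s y) r _ (Xp y s (W s y) c) hr.1 (hlt r hr.1.le hr.2) (hX r hr)
  have hWd : ∀ r ∈ Ioc s t, HasDerivAt (fun r => W r (Xp y s (W s y) c r))
      (Wt r (Xp y s (W s y) c r) + Wx r (Xp y s (W s y) c r)
        * (-2 * Kx y s (W s y) (Xp y s (W s y) c r) r)) r := fun r hr =>
    CMAM.chain hW (Ioc_subset_Icc_self hr) (hX r hr)
  have hDd := fun r (hr : r ∈ Ioc s t) => (hKd r hr).sub (hWd r hr)
  have hD0 : K y s (W s y) (Xp y s (W s y) c s) s - W s (Xp y s (W s y) c s) = 0 := by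
    rw [CMAM.Xp_start, CMAM.K_start]
    ring
  have hcont : ContinuousOn
      (fun r => K y s (W s y) (Xp y s (W s y) c r) r - W r (Xp y s (W s y) c r)) (Icc s t) := by
    intro r hr
    rcases eq_or_lt_of_le hr.1 with hsr | hsr
    · subst hsr
      have e1 : Tendsto (fun r => K y s (W s y) (Xp y s (W s y) c r) r) (𝓝[>] s)
          (𝓝 (W s y)) := by
        refine h3 y s (W s y) L (Xp y s (W s y) c) ?_
        filter_upwards [Ioc_mem_nhdsGT hst] with r hr
        exact hL r hr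
      have e2 : Tendsto (fun r => (r, Xp y s (W s y) c r)) (𝓝[>] s)
          (𝓝 (s, Xp y s (W s y) c s)) := by
        refine Tendsto.mono_left ?_ nhdsWithin_le_nhds
        exact (continuousAt_id.prodMk (CMAM.Xp_cont y s (W s y) c))
      have e3 : Tendsto (fun r => W r (Xp y s (W s y) c r)) (𝓝[>] s)
          (𝓝 (W s (Xp y s (W s y) c s))) :=
        Tendsto.comp (hW s hs (Xp y s (W s y) c s)).continuousAt e2
      have e4 : ContinuousWithinAt
          (fun r => K y s (W s y) (Xp y s (W s y) c r) r - W r (Xp y s (W s y) c r))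
          (Ioi s) s := by
        have e5 := e1.sub e3
        show Tendsto _ _ (𝓝 (K y s (W s y) (Xp y s (W s y) c s) s
          - W s (Xp y s (W s y) c s)))
        have e6 : K y s (W s y) (Xp y s (W s y) c s) s = W s y := by
          rw [CMAM.Xp_start, CMAM.K_start]
        rw [e6]
        exact e5
      exact (continuousWithinAt_Ioi_iff_Ici.1 e4).mono Icc_subset_Ici_self
    · exact (hDd r ⟨hsr, hr.2⟩).continuousAt.continuousWithinAt
  have hgro := hGRO
    (fun r => K y s (W s y) (Xp y s (W s y) c r) r - W r (Xp y s (W s y) c r))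
    (fun r => Kx y s (W s y) (Xp y s (W s y) c r) r ^ 2
        + K y s (W s y) (Xp y s (W s y) c r) r ^ 2
        + Kx y s (W s y) (Xp y s (W s y) c r) r
          * (-2 * Kx y s (W s y) (Xp y s (W s y) c r) r)
        - (Wt r (Xp y s (W s y) c r) + Wx r (Xp y s (W s y) c r)
        * (-2 * Kx y s (W s y) (Xp y s (W s y) c r) r)))
    (fun r => K y s (W s y) (Xp y s (W s y) c r) r + W r (Xp y s (W s y) c r))
    F s t (M + M / κ) hst (by positivity) hcont hD0.le
    (fun r hr => hDd r (Ioo_subset_Ioc_self hr))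
    (by
      intro r hr
      have hs1 := hsup r (Ioo_subset_Icc_self hr) (Xp y s (W s y) c r)
      nlinarith [sq_nonneg (Kx y s (W s y) (Xp y s (W s y) c r) r
        - Wx r (Xp y s (W s y) c r))])
    (by
      intro r hr
      have k1 := h4 y s (W s y) (Xp y s (W s y) c r) t κ M hst hκ hy hvM hM r
        (Ioo_subset_Ioc_self hr)
      have k2 := (le_abs_self _).trans (hWM r (Ioo_subset_Icc_self hr) (Xp y s (W s y) c r))
      show K y s (W s y) (Xp y s (W s y) c r) r + W r (Xp y s (W s y) c r) ≤ M + M / κ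
      linarith)
    hF hF0
  have hfin : K y s (W s y) (Xp y s (W s y) c t) t - W t (Xp y s (W s y) c t)
      ≤ Real.exp ((M + M / κ) * (t - s)) * ∫ r in s..t, F r := hgro
  rw [hc] at hfin
  linarith

theorem CMAM.K_cont (y s v t : ℝ) : Continuous (fun x => K y s v x t) := by
  unfold K
  fun_prop

theorem specCMA (hKFN : SpecKFN) (hGRO : SpecGRO) : SpecCMA := by
  intro s t M κ W Wt Wx F y hst hκ hM hW hper hWM hF hF0 hsup hy x
  have ht : t ∈ Icc s t := ⟨hst.le, le_rfl⟩
  have hWc : Continuous (fun x => W t x) := by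
    rw [continuous_iff_continuousAt]
    intro x
    have e1 : ContinuousAt (fun p : ℝ × ℝ => W p.1 p.2) (t, x) := (hW t ht x).continuousAt
    have e2 : ContinuousAt (fun x : ℝ => (t, x)) x := by fun_prop
    exact ContinuousAt.comp (g := fun p : ℝ × ℝ => W p.1 p.2) (f := fun x : ℝ => (t, x)) e1 e2
  have hfper : Function.Periodic (fun x => K y s (W s y) x t
      - Real.exp ((M + M / κ) * (t - s)) * (∫ r in s..t, F r) - W t x) (2 * Real.pi) := by
    intro x
    have k1 := (hKFN.2.2.2.2.2.2.2 y s (W s y) t x).1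
    have k2 := hper t ht x
    show K y s (W s y) (x + 2 * Real.pi) t - _ - W t (x + 2 * Real.pi)
      = K y s (W s y) x t - _ - W t x
    rw [k1, k2]
  obtain ⟨x', hx', he⟩ := hfper.exists_mem_Ico Real.two_pi_pos x (y - Real.pi)
  have hclosed : IsClosed {x | K y s (W s y) x t
      - Real.exp ((M + M / κ) * (t - s)) * (∫ r in s..t, F r) ≤ W t x} :=
    isClosed_le ((CMAM.K_cont y s (W s y) t).sub continuous_const) hWc
  have hsub : Ioo (y - Real.pi) (y + Real.pi) ⊆ {x | K y s (W s y) x t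
      - Real.exp ((M + M / κ) * (t - s)) * (∫ r in s..t, F r) ≤ W t x} := by
    intro z hz
    refine CMAM.near hKFN hGRO s t M κ W Wt Wx F y hst hκ hM hW hWM hF hF0 hsup hy z ?_
    rw [abs_lt]
    constructor
    · linarith [hz.1]
    · linarith [hz.2]
  have hcl := closure_minimal hsub hclosed
  rw [closure_Ioo (by linarith [Real.pi_pos])] at hcl
  have hx2 : x' ∈ Icc (y - Real.pi) (y + Real.pi) := ⟨hx'.1, by linarith [hx'.2]⟩
  have h5 : K y s (W s y) x' t
      - Real.exp ((M + M / κ) * (t - s)) * (∫ r in s..t, F r) ≤ W t x' := hcl hx2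
  have h6 : K y s (W s y) x t - Real.exp ((M + M / κ) * (t - s)) * (∫ r in s..t, F r) - W t x
      = K y s (W s y) x' t - Real.exp ((M + M / κ) * (t - s)) * (∫ r in s..t, F r)
        - W t x' := he
  linarith

end

end Pool.Agent.Lib.MPb879c5.PR
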