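import Pool.Agent.Lib.MP_b879c5_an.PR.Spec

/-!
# CMB (MP_b879c5_an): subsolutions lie below some fundamental solution
-/

set_option autoImplicit false

namespace Pool.Agent.Lib.MPb879c5.PR

open Set Filter MeasureTheory Topology

namespace CMBM

lemma mulLt (v s r t κ : ℝ) (hκ : 0 < κ) (hr : s ≤ r) (hrt : r ≤ t) (hv : v * (t - s) ≤ 1 - κ) :
    v * (r - s) < 1 := by
  rcases le_or_gt v 0 with h | h
  · have : v * (r - s) ≤ 0 := mul_nonpos_of_nonpos_of_nonneg h (by linarith)
    linarith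
  · have : v * (r - s) ≤ v * (t - s) := mul_le_mul_of_nonneg_left (by linarith) h.le
    linarith

lemma K_start (y s v : ℝ) : K y s v y s = v := by
  unfold K
  simp

lemma K_cont (y s v r : ℝ) (X : ℝ → ℝ) (S : Set ℝ) (hr : s < r) (hv : v * (r - s) < 1)
    (hX : ContinuousWithinAt X S r) : ContinuousWithinAt (fun r => K y s v (X r) r) S r := by
  unfold K
  have hid : ContinuousWithinAt (fun r : ℝ => r - s) S r :=
    (continuous_id.sub continuous_const).continuousWithinAt
  have h1 : ContinuousWithinAt (fun r : ℝ => 1 - v * (r - s)) S r :=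
    continuousWithinAt_const.sub (continuousWithinAt_const.mul hid)
  have h2 : ContinuousWithinAt (fun r => (X r - y) / 2) S r :=
    (hX.sub continuousWithinAt_const).div_const 2
  have h3 : ContinuousWithinAt (fun r => Real.cos ((X r - y) / 2)) S r :=
    Real.continuous_cos.continuousAt.comp_continuousWithinAt h2
  have h4 : ContinuousWithinAt (fun r => Real.sin ((X r - y) / 2)) S r :=
    Real.continuous_sin.continuousAt.comp_continuousWithinAt h2
  have h5 : (1 - v * (r - s)) ≠ 0 := ne_of_gt (by linarith)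
  have h6 : r - s ≠ 0 := ne_of_gt (by linarith)
  exact ((h3.pow 2).mul (continuousWithinAt_const.div h1 h5)).sub ((h4.pow 2).div hid h6)

end CMBM

open CMBM in
theorem specCMB (hKFN : SpecKFN) (hGRO : SpecGRO) (hODE : SpecODE) : SpecCMB := by
  obtain ⟨hK1, -, hK3, hK4, -, -, -, -⟩ := hKFN
  intro s t M κ L M₁ W Wt Wx F hst hκ hM hW hWM hF hF0 hsub hvs hLip hWxc hWxM x
  obtain ⟨X, hXt, hXc, hXd⟩ := hODE (fun r x => -2 * Wx r x) s t (2 * L) (2 * M₁) hst
    (by
      intro r hr x x'
      have h := hLip r hr x x'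
      have e : -2 * Wx r x - -2 * Wx r x' = -2 * (Wx r x - Wx r x') := by ring
      show |-2 * Wx r x - -2 * Wx r x'| ≤ 2 * L * |x - x'|
      rw [e, abs_mul]
      have e2 : |(-2 : ℝ)| = 2 := by norm_num
      rw [e2]
      linarith)
    (fun x => continuousOn_const.mul (hWxc x))
    (by
      intro r hr x
      show |-2 * Wx r x| ≤ 2 * M₁
      rw [abs_mul]
      have e2 : |(-2 : ℝ)| = 2 := by norm_num
      rw [e2]
      linarith [hWxM r hr x]) x
  obtain ⟨v, hv⟩ : ∃ v, v = W s (X s) := ⟨_, rfl⟩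
  have hvle : v * (t - s) ≤ 1 - κ := by rw [hv]; exact hvs (X s)
  have hvM : v ≤ M := by rw [hv]; exact (le_abs_self _).trans (hWM s (left_mem_Icc.2 hst.le) _)
  have hmul : ∀ r ∈ Icc s t, v * (r - s) < 1 := fun r hr => mulLt v s r t κ hκ hr.1 hr.2 hvle
  refine ⟨X s, ?_⟩
  rw [← hv]
  obtain ⟨D, hD⟩ : ∃ D : ℝ → ℝ, ∀ r, D r = W r (X r) - K (X s) s v (X r) r := ⟨_, fun _ => rfl⟩
  -- the speed
  have hspeed : ∀ r ∈ Ioc s t, |X r - X s| ≤ 2 * M₁ * (r - s) := by
    intro r hr
    obtain ⟨c, hc1, hc2⟩ := exists_hasDerivAt_eq_slope X (fun r => -2 * Wx r (X r)) hr.1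
      (hXc.mono (Icc_subset_Icc le_rfl hr.2))
      (fun u hu => hXd u ⟨hu.1, hu.2.trans_le hr.2⟩)
    have hrs : 0 < r - s := by linarith [hr.1]
    have h1 : X r - X s = -2 * Wx c (X c) * (r - s) := by
      rw [hc2]
      field_simp
    have h2 := hWxM c ⟨hc1.1.le, hc1.2.le.trans hr.2⟩ (X c)
    rw [h1, abs_mul, abs_mul, abs_of_pos hrs]
    have e2 : |(-2 : ℝ)| = 2 := by norm_num
    rw [e2]
    exact mul_le_mul_of_nonneg_right (by linarith) hrs.le
  -- continuity of `K` along `X`
  have hKc : ContinuousOn (fun r => K (X s) s v (X r) r) (Icc s t) := by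
    intro r hr
    rcases hr.1.lt_or_eq with h | h
    · exact K_cont (X s) s v r X _ h (hmul r hr) (hXc r hr)
    · subst h
      have h1 : Tendsto (fun r => K (X s) s v (X r) r) (𝓝[>] s) (𝓝 v) := by
        apply hK3 (X s) s v (2 * M₁) X
        have hmem : Ioc s t ∈ 𝓝[>] s := Ioc_mem_nhdsGT hst
        filter_upwards [hmem] with r hr'
        exact hspeed r hr'
      have h2 : ContinuousWithinAt (fun r => K (X s) s v (X r) r) (Ioi s) s := by
        show Tendsto (fun r => K (X s) s v (X r) r) (𝓝[>] s) (𝓝 (K (X s) s v (X s) s))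
        rw [K_start]
        exact h1
      exact (continuousWithinAt_Ioi_iff_Ici.1 h2).mono Icc_subset_Ici_self
  have hWc : ContinuousOn (fun r => W r (X r)) (Icc s t) := by
    intro r hr
    have h1 : ContinuousAt (fun p : ℝ × ℝ => W p.1 p.2) (r, X r) := (hW r hr (X r)).continuousAt
    have h2 : ContinuousWithinAt (fun r => (r, X r)) (Icc s t) r :=
      continuousWithinAt_id.prodMk (hXc r hr)
    exact ContinuousAt.comp_continuousWithinAt (f := fun r => (r, X r))
      (g := fun p : ℝ × ℝ => W p.1 p.2) h1 h2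
  have hDc : ContinuousOn D (Icc s t) := (hWc.sub hKc).congr fun r _ => hD r
  have hDs : D s ≤ 0 := by
    rw [hD, K_start, ← hv, sub_self]
  have hWd : ∀ r ∈ Ioo s t, HasDerivAt (fun r => W r (X r))
      (Wt r (X r) + Wx r (X r) * (-2 * Wx r (X r))) r := by
    intro r hr
    have h1 := hW r (Ioo_subset_Icc_self hr) (X r)
    have h2 : HasDerivAt (fun r => (r, X r)) ((1 : ℝ), -2 * Wx r (X r)) r :=
      (hasDerivAt_id r).prodMk (hXd r hr)
    have h3 := HasFDerivAt.comp_hasDerivAt (f := fun r => (r, X r))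
      (l := fun p : ℝ × ℝ => W p.1 p.2) r h1 h2
    have e : (Wt r (X r) • ContinuousLinearMap.fst ℝ ℝ ℝ
        + Wx r (X r) • ContinuousLinearMap.snd ℝ ℝ ℝ) ((1 : ℝ), -2 * Wx r (X r))
        = Wt r (X r) + Wx r (X r) * (-2 * Wx r (X r)) := by
      simp
    rw [e] at h3
    exact h3
  have key := hGRO D (fun r => (Wt r (X r) + Wx r (X r) * (-2 * Wx r (X r)))
      - (Kx (X s) s v (X r) r ^ 2 + K (X s) s v (X r) r ^ 2
        + Kx (X s) s v (X r) r * (-2 * Wx r (X r))))
    (fun r => W r (X r) + K (X s) s v (X r) r) F s t (M + M / κ) hst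
    (add_nonneg hM (div_nonneg hM hκ.le)) hDc hDs
    (by
      intro r hr
      have h1 := (hWd r hr).sub (hK1 (X s) s v r (-2 * Wx r (X r)) X hr.1
        (hmul r (Ioo_subset_Icc_self hr)) (hXd r hr))
      have e : D = fun r => W r (X r) - K (X s) s v (X r) r := funext hD
      rw [e]
      exact h1)
    (by
      intro r hr
      have h1 := hsub r (Ioo_subset_Icc_self hr) (X r)
      rw [hD r]
      nlinarith [sq_nonneg (Wx r (X r) - Kx (X s) s v (X r) r)])
    (by
      intro r hr
      have h1 := (le_abs_self _).trans (hWM r (Ioo_subset_Icc_self hr) (X r))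
      have h2 := hK4 (X s) s v (X r) t κ M hst hκ hvle hvM hM r (Ioo_subset_Ioc_self hr)
      show W r (X r) + K (X s) s v (X r) r ≤ M + M / κ
      linarith) hF hF0
  rw [hD t, hXt] at key
  linarith

end Pool.Agent.Lib.MPb879c5.PR
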