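import Pool.Agent.Lib.MP_b879c5_an.PR.Spec

/-!
# MP_b879c5_an, PR, module DAT
-/

set_option autoImplicit false

namespace Pool.Agent.Lib.MPb879c5.PR

open Set Filter MeasureTheory Topology
open Pool.Agent.Lib.MP_b879c5_an

namespace DATM

lemma tendsto_sub (T : ℝ) : Tendsto (fun t : ℝ => T - t) (𝓝[<] T) (𝓝 0) := by
  have h : Continuous (fun t : ℝ => T - t) := by fun_prop
  have h1 := h.tendsto T
  rw [sub_self] at h1
  exact h1.mono_left nhdsWithin_le_nhds

lemma tendsto_up (T : ℝ) :
    Tendsto (fun t : ℝ => C4 * (T - t) ^ (1 / 7 : ℝ)) (𝓝[<] T) (𝓝 0) := by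
  have h1 : Continuous (fun x : ℝ => x ^ (1 / 7 : ℝ)) :=
    Real.continuous_rpow_const (by norm_num)
  have h2 := (h1.tendsto 0).comp (tendsto_sub T)
  rw [Real.zero_rpow (by norm_num)] at h2
  have h3 := h2.const_mul C4
  rw [mul_zero] at h3
  exact h3

lemma tendsto_lo {T : ℝ} (hT : 0 < T) :
    Tendsto (fun t : ℝ => C4 * ((T - t) / T + ((T - t) * (1 + Real.log (T / (T - t)))) ^ (1 / 7 : ℝ)))
      (𝓝[<] T) (𝓝 0) := by
  have h0 := tendsto_sub T
  have h1 : Continuous (fun x : ℝ => x ^ (1 / 7 : ℝ)) :=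
    Real.continuous_rpow_const (by norm_num)
  have hc : Continuous (fun s : ℝ => s * (1 + Real.log T) - s * Real.log s) :=
    (continuous_id.mul continuous_const).sub Real.continuous_mul_log
  have h2 := (hc.tendsto 0).comp h0
  have h3 : Tendsto (fun t : ℝ => (T - t) * (1 + Real.log (T / (T - t)))) (𝓝[<] T) (𝓝 0) := by
    have h4 : Tendsto (fun t : ℝ => (T - t) * (1 + Real.log T) - (T - t) * Real.log (T - t))
        (𝓝[<] T) (𝓝 0) := by
      have h5 : (0 : ℝ) * (1 + Real.log T) - 0 * Real.log 0 = 0 := by ring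
      rw [h5] at h2
      exact h2
    refine h4.congr' ?_
    filter_upwards [self_mem_nhdsWithin] with t ht
    have ht' : T - t ≠ 0 := by
      have : t < T := ht
      linarith
    rw [Real.log_div hT.ne' ht']
    ring
  have h6 := (h1.tendsto 0).comp h3
  rw [Real.zero_rpow (by norm_num)] at h6
  have h7 := (h0.div_const T).add h6
  rw [zero_div, add_zero] at h7
  have h8 := h7.const_mul C4
  rw [mul_zero] at h8
  exact h8

end DATM

open DATM in
theorem specDAT : SpecDAT := by
  intro T U hT hsol hb hG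
  obtain ⟨Cg, hCg⟩ := hG
  have hC1 := C1_pos
  have hC2 := C2_pos
  have hs1 : 0 ≤ Real.sqrt C1 := Real.sqrt_nonneg _
  have hg : Cg ≤ |Cg| := le_abs_self _
  have hg0 : 0 ≤ |Cg| := abs_nonneg _
  have hIoo : ∀ t ∈ Ico (T / 2) T, t ∈ Ioo 0 T := fun t ht => ⟨by linarith [ht.1], ht.2⟩
  have hnear : ∀ᶠ t in 𝓝[<] T, t ∈ Ioo (T / 2) T := Ioo_mem_nhdsLT (by linarith)
  have hsup : ∀ t ∈ Ico (T / 2) T, ∀ x, (T - t) * |U (t, x)| ≤ C2 := by
    intro t ht x
    have hTt : 0 < T - t := by linarith [ht.2]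
    have h1 := hsol.abs_le_late (hIoo t ht) ht.1 x
    rw [le_div_iff₀ hTt] at h1
    linarith
  refine ⟨1 + C1 + Real.sqrt C1 + 2 * C2 + |Cg|, 1 / 162, hT, hsol, by linarith, by norm_num,
    ?_, ?_, ?_, ?_, ?_, ?_, ?_⟩
  · intro t ht x
    have := hsup t ht x
    linarith
  · intro t ht x y
    have hTt : 0 < T - t := by linarith [ht.2]
    rcases le_or_gt |x - y| Real.pi with hxy | hxy
    · have h1 := hsol.osc_small (hIoo t ht) (l := |x - y|) (c := y) (x := x) hxy
        ⟨by linarith [neg_abs_le (x - y)], by linarith [le_abs_self (x - y)]⟩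
      have h2 := hsol.sqrt_late (hIoo t ht) ht.1 (abs_nonneg (x - y))
      have h3 := h1.trans h2
      rw [le_div_iff₀ hTt, Real.sqrt_mul hC1.le] at h3
      have h4 := Real.sqrt_nonneg |x - y|
      nlinarith
    · have h1 := hsup t ht x
      have h2 := hsup t ht y
      have h3 : |U (t, x) - U (t, y)| ≤ |U (t, x)| + |U (t, y)| := abs_sub _ _
      have h4 : (1 : ℝ) ≤ Real.sqrt |x - y| := by
        rw [Real.one_le_sqrt]
        linarith [Real.pi_gt_three]
      have h5 : (T - t) * |U (t, x) - U (t, y)| ≤ (T - t) * (|U (t, x)| + |U (t, y)|) :=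
        mul_le_mul_of_nonneg_left h3 hTt.le
      nlinarith
  · intro t ht
    have hTt : 0 < T - t := by linarith [ht.2]
    have h1 := hsol.II_le (hIoo t ht) hTt (by linarith [ht.1]) le_rfl
    rw [le_div_iff₀ (by positivity)] at h1
    linarith
  · intro η hη
    have h1 := (tendsto_up T).eventually (gt_mem_nhds hη)
    filter_upwards [h1, hnear] with t h2 h3 x
    have h4 := hsol.sharp_upper (t := t) ⟨by linarith [h3.1], h3.2⟩ h3.1.le x
    linarith
  · intro η hη
    have h1 := (tendsto_lo hT).eventually (gt_mem_nhds hη)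
    filter_upwards [h1, hnear] with t h2 h3 x
    have h4 := hsol.sharp_lower (t := t) ⟨by linarith [h3.1], h3.2⟩ h3.1.le x
    linarith
  · have h1 := (tendsto_sub T).eventually (gt_mem_nhds (show (0 : ℝ) < T / 2106 by positivity))
    filter_upwards [h1, hnear] with t h2 h3
    have hTt : 0 < T - t := by linarith [h3.2]
    have h4 := hsol.mean_lower hb (t := t) ⟨by linarith [h3.1], h3.2⟩ h3.1.le
    have h5 : (T - t) * ((1 / 81) / (T - t) - 13 / T) ≤ (T - t) * mI U t :=
      mul_le_mul_of_nonneg_left h4 hTt.le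
    have h6 : (T - t) * ((1 / 81) / (T - t) - 13 / T) = 1 / 81 - 13 * ((T - t) / T) := by
      field_simp
    have h7 : (T - t) / T ≤ 1 / 2106 := by
      rw [div_le_iff₀ hT]
      linarith
    rw [h6] at h5
    show 1 / 162 ≤ (T - t) * mI U t
    linarith
  · intro t ht
    have := hCg t ht
    linarith

end Pool.Agent.Lib.MPb879c5.PR
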