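import Pool.Agent.Lib.MP_b879c5_an.PR.Spec

/-!
# MP_b879c5_an, module EQC: equicontinuity of the rescaled solutions
-/

set_option autoImplicit false

namespace Pool.Agent.Lib.MPb879c5.PR

open Set Filter MeasureTheory Topology
open Pool.Agent.Lib.MP_b879c5_an

namespace EQCM

/-- the rescaled average -/
noncomputable def g (T : ℝ) (U : ℝ × ℝ → ℝ) (e l x t : ℝ) : ℝ :=
  e * Av l (fun z => U (T + e * t, z)) x

lemma g_deriv (hAVD : SpecAVD) {T : ℝ} {U : ℝ × ℝ → ℝ} {e l x t : ℝ} (hS : Sol T U) (hl : 0 < l)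
    (hr : T + e * t ∈ Ioo 0 T) :
    HasDerivAt (g T U e l x) (e * (e * Av l (fun z => Dt U (T + e * t, z)) x)) t := by
  have h1 := hAVD.1 T U l hS.sm hl (T + e * t) hr x
  have h2 : HasDerivAt (fun s : ℝ => (T + e * s, x)) ((e : ℝ), (0 : ℝ)) t := by
    have h3 : HasDerivAt (fun s : ℝ => T + e * s) e t := by
      have h4 := ((hasDerivAt_id t).const_mul e).const_add T
      simpa using h4
    exact h3.prodMk (hasDerivAt_const t x)
  have h5 := h1.comp_hasDerivAt t h2
  have h6 := h5.const_mul e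
  have h7 : e * ((Av l (fun z => Dt U (T + e * t, z)) x • ContinuousLinearMap.fst ℝ ℝ ℝ
      + Av l (fun z => Dx U (T + e * t, z)) x • ContinuousLinearMap.snd ℝ ℝ ℝ) (e, 0))
      = e * (e * Av l (fun z => Dt U (T + e * t, z)) x) := by
    simp [mul_comm]
  rw [h7] at h6
  exact h6

/-- all the bounds at one time -/
lemma bounds (hAVI : SpecAVI) {T : ℝ} {U : ℝ × ℝ → ℝ} {C c : ℝ} (hD : Dat T U C c) {b B e l t : ℝ}
    (hb : 0 < b) (hB : b < B) (he : 0 < e) (he1 : e < 1) (he2 : e < T / (2 * B))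
    (hl : 0 < l) (hl1 : l ≤ 1) (ht : t ∈ Icc (-B) (-b)) (x : ℝ) :
    T + e * t ∈ Ioo 0 T ∧
    |R T U e t x - g T U e l x t| ≤ C / b * Real.sqrt l ∧
    |e * (e * Av l (fun z => Dt U (T + e * t, z)) x)|
      ≤ 420 * C / (l ^ 3 * b) + 2 * C / (l * b ^ 2) + C ^ 2 / b ^ 2 ∧
    ∀ y, |R T U e t x - R T U e t y| ≤ C / b * Real.sqrt |x - y| := by
  have hT := hD.hT
  have hB0 : 0 < B := hb.trans hB
  have hC0 : 0 < C := lt_of_lt_of_le one_pos hD.hC
  have ht0 : 0 < -t := by linarith [ht.2]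
  have htb : b ≤ -t := by linarith [ht.2]
  have htB : -t ≤ B := by linarith [ht.1]
  have h1 : e * (-t) < T / 2 := by
    have h2 : e * (-t) ≤ e * B := mul_le_mul_of_nonneg_left htB he.le
    have h3 : e * B < T / (2 * B) * B := mul_lt_mul_of_pos_right he2 hB0
    have h4 : T / (2 * B) * B = T / 2 := by field_simp
    linarith
  have h5 : 0 < e * (-t) := mul_pos he ht0
  have hr : T + e * t ∈ Ico (T / 2) T := ⟨by linarith, by linarith⟩
  have hr' : T + e * t ∈ Ioo 0 T := ⟨by linarith [hr.1], hr.2⟩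
  have hd : T - (T + e * t) = e * (-t) := by ring
  obtain ⟨S, hSdef⟩ : ∃ S, S = C / (e * (-t)) := ⟨_, rfl⟩
  have hS0 : 0 ≤ S := by rw [hSdef]; positivity
  have heS : e * S = C / (-t) := by
    rw [hSdef]; field_simp
  have hCt : C / (-t) ≤ C / b := div_le_div_of_nonneg_left hC0.le hb htb
  have hCt0 : 0 ≤ C / (-t) := by positivity
  have heS' : e * S ≤ C / b := by rw [heS]; exact hCt
  have heS0 : 0 ≤ e * S := by positivity
  have hbd : ∀ y, |U (T + e * t, y)| ≤ S := by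
    intro y
    have h6 := hD.sup _ hr y
    rw [hd] at h6
    rw [hSdef, le_div_iff₀ h5]
    linarith
  have hho : ∀ y z, |U (T + e * t, y) - U (T + e * t, z)| ≤ S * Real.sqrt |y - z| := by
    intro y z
    have h6 := hD.hol _ hr y z
    rw [hd] at h6
    rw [hSdef, div_mul_eq_mul_div, le_div_iff₀ h5]
    linarith
  have hII : II U (T + e * t) ≤ C / (e * (-t)) ^ 2 := by
    have h6 := hD.hii _ hr
    rw [hd] at h6
    rw [le_div_iff₀ (by positivity)]
    linarith
  obtain ⟨-, -, a3, -, a5⟩ := hAVI T U l S S (T + e * t) hD.sol hl hl1 hr' hbd hS0 hho x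
  refine ⟨hr', ?_, ?_, ?_⟩
  · have h7 : R T U e t x - g T U e l x t
        = -(e * (Av l (fun z => U (T + e * t, z)) x - U (T + e * t, x))) := by
      unfold R g; ring
    rw [h7, abs_neg, abs_mul, abs_of_pos he]
    calc e * |Av l (fun z => U (T + e * t, z)) x - U (T + e * t, x)|
        ≤ e * (S * Real.sqrt l) := mul_le_mul_of_nonneg_left a3 he.le
      _ = (e * S) * Real.sqrt l := by ring
      _ ≤ C / b * Real.sqrt l := mul_le_mul_of_nonneg_right heS' (Real.sqrt_nonneg _)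
  · rw [abs_mul, abs_mul, abs_of_pos he]
    have h8 : e * (e * |Av l (fun z => Dt U (T + e * t, z)) x|)
        ≤ e * (e * (420 * S / l ^ 3 + 2 / l * (C / (e * (-t)) ^ 2) + S ^ 2)) := by
      refine mul_le_mul_of_nonneg_left (mul_le_mul_of_nonneg_left ?_ he.le) he.le
      have h9 : 2 / l * II U (T + e * t) ≤ 2 / l * (C / (e * (-t)) ^ 2) :=
        mul_le_mul_of_nonneg_left hII (by positivity)
      linarith
    refine h8.trans ?_
    have h10 : e * (e * (420 * S / l ^ 3 + 2 / l * (C / (e * (-t)) ^ 2) + S ^ 2))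
        = e * (e * S) * (420 / l ^ 3) + 2 / l * (C / (-t) ^ 2) + (e * S) ^ 2 := by
      have : (-t) ≠ 0 := ht0.ne'
      field_simp
    rw [h10]
    have h11 : e * (e * S) * (420 / l ^ 3) ≤ 420 * C / (l ^ 3 * b) := by
      have h12 : e * (e * S) ≤ 1 * (C / b) := mul_le_mul he1.le heS' heS0 zero_le_one
      have h13 : e * (e * S) * (420 / l ^ 3) ≤ 1 * (C / b) * (420 / l ^ 3) :=
        mul_le_mul_of_nonneg_right h12 (by positivity)
      have h14 : 1 * (C / b) * (420 / l ^ 3) = 420 * C / (l ^ 3 * b) := by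
        field_simp
      linarith
    have h15 : 2 / l * (C / (-t) ^ 2) ≤ 2 * C / (l * b ^ 2) := by
      have h16 : b ^ 2 ≤ (-t) ^ 2 := pow_le_pow_left₀ hb.le htb 2
      have h17 : C / (-t) ^ 2 ≤ C / b ^ 2 := div_le_div_of_nonneg_left hC0.le (by positivity) h16
      have h18 : 2 / l * (C / (-t) ^ 2) ≤ 2 / l * (C / b ^ 2) :=
        mul_le_mul_of_nonneg_left h17 (by positivity)
      have h19 : 2 / l * (C / b ^ 2) = 2 * C / (l * b ^ 2) := by
        field_simp
      linarith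
    have h20 : (e * S) ^ 2 ≤ C ^ 2 / b ^ 2 := by
      rw [← div_pow]
      exact pow_le_pow_left₀ heS0 heS' 2
    linarith
  · intro y
    have h7 : R T U e t x - R T U e t y = e * (U (T + e * t, x) - U (T + e * t, y)) := by
      unfold R; ring
    rw [h7, abs_mul, abs_of_pos he]
    calc e * |U (T + e * t, x) - U (T + e * t, y)|
        ≤ e * (S * Real.sqrt |x - y|) := mul_le_mul_of_nonneg_left (hho x y) he.le
      _ = (e * S) * Real.sqrt |x - y| := by ring
      _ ≤ C / b * Real.sqrt |x - y| := mul_le_mul_of_nonneg_right heS' (Real.sqrt_nonneg _)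

end EQCM

open EQCM

theorem specEQC (hAVD : SpecAVD) (hAVI : SpecAVI) : SpecEQC := by
  intro T U C c hD b B hb hB η hη
  have hT := hD.hT
  have hB0 : 0 < B := hb.trans hB
  have hC0 : 0 < C := lt_of_lt_of_le one_pos hD.hC
  obtain ⟨m, hm⟩ : ∃ m, m = (η * b / (4 * C)) := ⟨_, rfl⟩
  have hm0 : 0 < m := by rw [hm]; positivity
  have hmC : C / b * m = η / 4 := by rw [hm]; field_simp
  obtain ⟨l, hldef⟩ : ∃ l, l = min 1 (m ^ 2) := ⟨_, rfl⟩
  have hl0 : 0 < l := by rw [hldef]; exact lt_min one_pos (by positivity)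
  have hl1 : l ≤ 1 := by rw [hldef]; exact min_le_left _ _
  have hlm : Real.sqrt l ≤ m := by
    have h1 : l ≤ m ^ 2 := by rw [hldef]; exact min_le_right _ _
    calc Real.sqrt l ≤ Real.sqrt (m ^ 2) := Real.sqrt_le_sqrt h1
      _ = m := Real.sqrt_sq hm0.le
  obtain ⟨Λ, hΛ⟩ : ∃ Λ, Λ = 420 * C / (l ^ 3 * b) + 2 * C / (l * b ^ 2) + C ^ 2 / b ^ 2 := ⟨_, rfl⟩
  have hΛ0 : 0 < Λ := by rw [hΛ]; positivity
  refine ⟨min (η / (4 * Λ)) (m ^ 2), lt_min (by positivity) (by positivity),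
    min 1 (T / (2 * B)), lt_min one_pos (by positivity), ?_⟩
  intro e he he₀ t ht t' ht' x x' htt hxx
  have he1 : e < 1 := lt_of_lt_of_le he₀ (min_le_left _ _)
  have he2 : e < T / (2 * B) := lt_of_lt_of_le he₀ (min_le_right _ _)
  have hkey : ∀ s ∈ Icc (-B) (-b), ∀ y, _ := fun s hs y =>
    bounds hAVI hD hb hB he he1 he2 hl0 hl1 hs y
  have h1 : |R T U e t x - g T U e l x t| ≤ η / 4 := by
    have h2 := (hkey t ht x).2.1
    have h3 := mul_le_mul_of_nonneg_left hlm (by positivity : 0 ≤ C / b)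
    linarith
  have h4 : |R T U e t' x - g T U e l x t'| ≤ η / 4 := by
    have h2 := (hkey t' ht' x).2.1
    have h3 := mul_le_mul_of_nonneg_left hlm (by positivity : 0 ≤ C / b)
    linarith
  have h5 : |g T U e l x t' - g T U e l x t| ≤ η / 4 := by
    have h6 := Convex.norm_image_sub_le_of_norm_hasDerivWithin_le (f := g T U e l x)
      (f' := fun s => e * (e * Av l (fun z => Dt U (T + e * s, z)) x)) (C := Λ)
      (s := Icc (-B) (-b)) (x := t) (y := t')
      (fun s hs => (g_deriv hAVD hD.sol hl0 (hkey s hs x).1).hasDerivWithinAt)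
      (fun s hs => by
        rw [Real.norm_eq_abs, hΛ]
        exact (hkey s hs x).2.2.1)
      (convex_Icc _ _) ht ht'
    rw [Real.norm_eq_abs, Real.norm_eq_abs] at h6
    have h7 : |t' - t| ≤ η / (4 * Λ) := by
      rw [abs_sub_comm]
      exact htt.trans (min_le_left _ _)
    have h8 : Λ * |t' - t| ≤ Λ * (η / (4 * Λ)) := mul_le_mul_of_nonneg_left h7 hΛ0.le
    have h9 : Λ * (η / (4 * Λ)) = η / 4 := by field_simp
    linarith
  have h10 : |R T U e t' x - R T U e t' x'| ≤ η / 4 := by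
    have h2 := (hkey t' ht' x).2.2.2 x'
    have h3 : Real.sqrt |x - x'| ≤ m := by
      have h11 : |x - x'| ≤ m ^ 2 := hxx.trans (min_le_right _ _)
      calc Real.sqrt |x - x'| ≤ Real.sqrt (m ^ 2) := Real.sqrt_le_sqrt h11
        _ = m := Real.sqrt_sq hm0.le
    have h4 := mul_le_mul_of_nonneg_left h3 (by positivity : 0 ≤ C / b)
    linarith
  rw [abs_le] at h1 h4 h5 h10 ⊢
  constructor <;> linarith [h1.1, h1.2, h4.1, h4.2, h5.1, h5.2, h10.1, h10.2]

end Pool.Agent.Lib.MPb879c5.PR
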