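import Pool.Agent.Lib.MP_b879c5_an.PR.Spec

set_option autoImplicit false

namespace Pool.Agent.Lib.MPb879c5.PR

open Set Filter MeasureTheory Topology
open Pool.Agent.Lib.MP_b879c5_an

noncomputable section

namespace FINM

theorem lam_eq (T : ℝ) (U : ℝ × ℝ → ℝ) (e : ℝ) : lam T U e = e * mI U (T - e) := by
  unfold lam mI
  rw [intervalIntegral.integral_const_mul]

theorem two_pi_pos : 0 < 2 * Real.pi := by
  have := Real.pi_pos
  linarith

theorem lam_cont {T : ℝ} {U : ℝ × ℝ → ℝ} {C c : ℝ} (D : Dat T U C c) :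
    ContinuousOn (lam T U) (Ioo 0 (T / 2)) := by
  intro e he
  have hT := D.hT
  have h1 : T - e ∈ Ioo 0 T := ⟨by linarith [he.2], by linarith [he.1]⟩
  have h2 : ContinuousAt (mI U) (T - e) := (D.sol.sm.hasDerivAt_integral h1).continuousAt
  have h3 : ContinuousAt (fun e => e * mI U (T - e)) e := by
    refine continuousAt_id.mul ?_
    exact ContinuousAt.comp (f := fun e => T - e) (g := mI U) h2 (by fun_prop)
  have h4 : lam T U = fun e => e * mI U (T - e) := by
    funext e
    exact lam_eq T U e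
  rw [h4]
  exact h3.continuousWithinAt

theorem lam_bound {T : ℝ} {U : ℝ × ℝ → ℝ} {C c : ℝ} (D : Dat T U C c) :
    ∀ e ∈ Ioo 0 (T / 2), |lam T U e| ≤ C * |2 * Real.pi - 0| := by
  intro e he
  unfold lam
  rw [← Real.norm_eq_abs]
  apply intervalIntegral.norm_integral_le_of_norm_le_const
  intro x _
  have h1 := D.sup (T - e) ⟨by linarith [he.2], by linarith [he.1]⟩ x
  have h2 : T - (T - e) = e := by ring
  rw [h2] at h1
  rw [Real.norm_eq_abs, abs_mul, abs_of_pos he.1]
  exact h1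

theorem lim_int {T : ℝ} {U : ℝ × ℝ → ℝ} {C c : ℝ} (D : Dat T U C c) {ε : ℕ → ℝ} {v : ℝ → ℝ → ℝ}
    (hpos : ∀ k, 0 < ε k) (h0 : Tendsto ε atTop (𝓝 0)) (hC : Conv (fun k => R T U (ε k)) v)
    (hA : Anc0 C c v) {L : ℝ} (hL : Tendsto (lam T U) (𝓝[>] 0) (𝓝 L)) {θ : ℝ} (hθ : 0 < θ) :
    (∫ x in (0)..(2 * Real.pi), θ * v (-θ) x) = L := by
  have hθ0 : Tendsto (fun k => θ * ε k) atTop (𝓝 0) := by
    have := h0.const_mul θ
    simpa using this
  have hθ1 : Tendsto (fun k => θ * ε k) atTop (𝓝[>] 0) := by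
    rw [tendsto_nhdsWithin_iff]
    exact ⟨hθ0, Eventually.of_forall fun k => mul_pos hθ (hpos k)⟩
  have h1 : Tendsto (fun k => lam T U (θ * ε k)) atTop (𝓝 L) := hL.comp hθ1
  have h2 : Tendsto (fun k => lam T U (θ * ε k)) atTop
      (𝓝 (∫ x in (0)..(2 * Real.pi), θ * v (-θ) x)) := by
    rw [Metric.tendsto_nhds]
    intro δ hδ
    have hpi := two_pi_pos
    have hden : 0 < θ * (2 * Real.pi) := mul_pos hθ hpi
    set η := δ / (2 * (θ * (2 * Real.pi))) with hη
    have hηpos : 0 < η := by positivity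
    have h3 := hC (θ / 2) (2 * θ) (by linarith) (by linarith) η hηpos
    have h4 : ∀ᶠ k in atTop, θ * ε k < T := by
      have := (tendsto_order.1 hθ0).2 T D.hT
      exact this
    filter_upwards [h3, h4] with k hk3 hk4
    have hk5 := hk3 (-θ) ⟨by linarith, by linarith⟩
    have hmem : T - θ * ε k ∈ Ioo 0 T := ⟨by linarith, by have := mul_pos hθ (hpos k); linarith⟩
    have hcU : Continuous (fun x => U (T - θ * ε k, x)) := D.sol.sm.continuous_x hmem
    have hcv : Continuous (v (-θ)) := hA.cont (-θ) (by linarith)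
    rw [Real.dist_eq]
    unfold lam
    rw [← intervalIntegral.integral_sub]
    · have hb : ‖∫ x in (0)..(2 * Real.pi), (θ * ε k * U (T - θ * ε k, x) - θ * v (-θ) x)‖
          ≤ (θ * η) * |2 * Real.pi - 0| := by
        apply intervalIntegral.norm_integral_le_of_norm_le_const
        intro x _
        have h6 := hk5 x
        unfold R at h6
        have h7 : T + ε k * -θ = T - θ * ε k := by ring
        rw [h7] at h6
        have h8 : θ * ε k * U (T - θ * ε k, x) - θ * v (-θ) x
            = θ * (ε k * U (T - θ * ε k, x) - v (-θ) x) := by ring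
        rw [h8, Real.norm_eq_abs, abs_mul, abs_of_pos hθ]
        exact mul_le_mul_of_nonneg_left h6 hθ.le
      rw [Real.norm_eq_abs] at hb
      refine lt_of_le_of_lt hb ?_
      rw [sub_zero, abs_of_pos hpi, hη]
      have h9 : θ * (δ / (2 * (θ * (2 * Real.pi)))) * (2 * Real.pi) = δ / 2 := by
        field_simp
      rw [h9]
      linarith
    · exact (hcU.const_smul (θ * ε k)).intervalIntegrable _ _
    · exact (hcv.const_smul θ).intervalIntegrable _ _
  exact tendsto_nhds_unique h2 h1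

theorem core (hSUB : SpecSUB) (hLIM : SpecLIM) (hLKA : SpecLKA) (hLKB : SpecLKB)
    {T : ℝ} {U : ℝ × ℝ → ℝ} {C c : ℝ} (D : Dat T U C c) {L : ℝ}
    (hL : Tendsto (lam T U) (𝓝[>] 0) (𝓝 L)) (Q : ℝ → Prop) (hQ : ¬ ∀ᶠ t in 𝓝[<] T, Q t) :
    ∃ (ε : ℕ → ℝ) (v : ℝ → ℝ → ℝ), (∀ k, ¬ Q (T - ε k)) ∧ Conv (fun k => R T U (ε k)) v ∧
      Anc0 C c v ∧ KA v ∧ KB v ∧ ∀ θ, 0 < θ → (∫ x in (0)..(2 * Real.pi), θ * v (-θ) x) = L := by
  have h1 : ∃ᶠ t in 𝓝[<] T, ¬ Q t := Filter.not_eventually.mp hQ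
  have h2 : ∃ᶠ t in 𝓝[<] T, ¬ Q t ∧ t < T := h1.and_eventually eventually_mem_nhdsWithin
  obtain ⟨t, ht1, ht2⟩ := exists_seq_forall_of_frequently h2
  have ht3 : Tendsto t atTop (𝓝 T) := ht1.mono_right nhdsWithin_le_nhds
  set e : ℕ → ℝ := fun k => T - t k with he
  have hepos : ∀ k, 0 < e k := fun k => by
    have := (ht2 k).2
    simp only [he]
    linarith
  have he0 : Tendsto e atTop (𝓝 0) := by
    have := (tendsto_const_nhds (x := T)).sub ht3
    simpa using this
  obtain ⟨φ, hφ, v, hv⟩ := hSUB T U C c D e hepos he0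
  have hpos' : ∀ k, 0 < e (φ k) := fun k => hepos _
  have h0' : Tendsto (fun k => e (φ k)) atTop (𝓝 0) := he0.comp hφ.tendsto_atTop
  have hA := hLIM T U C c D (fun k => e (φ k)) v hpos' h0' hv
  refine ⟨fun k => e (φ k), v, ?_, hv, hA, hLKA T U C c D _ v hpos' h0' hv,
    hLKB T U C c D _ v hpos' h0' hv, ?_⟩
  · intro k
    have h5 : T - e (φ k) = t (φ k) := by simp [he]
    show ¬ Q (T - e (φ k))
    rw [h5]
    exact (ht2 (φ k)).1
  · intro θ hθ
    exact lim_int D hpos' h0' hv hA hL hθ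

/-- `Conv` at time `-1`. -/
theorem conv_one {T : ℝ} {U : ℝ × ℝ → ℝ} {ε : ℕ → ℝ} {v : ℝ → ℝ → ℝ}
    (hC : Conv (fun k => R T U (ε k)) v) {η : ℝ} (hη : 0 < η) :
    ∃ k, ∀ x, |(T - (T - ε k)) * U (T - ε k, x) - v (-1) x| ≤ η := by
  have h3 := hC (1 / 2) 2 (by norm_num) (by norm_num) η hη
  obtain ⟨k, hk⟩ := h3.exists
  refine ⟨k, fun x => ?_⟩
  have h4 : |R T U (ε k) (-1) x - v (-1) x| ≤ η := hk (-1) ⟨by norm_num, by norm_num⟩ x
  unfold R at h4
  have h5 : T + ε k * -1 = T - ε k := by ring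
  have h6 : T - (T - ε k) = ε k := by ring
  rw [h5] at h4
  rw [h6]
  exact h4

theorem int_one {v : ℝ → ℝ → ℝ} {L : ℝ}
    (h : ∀ θ, 0 < θ → (∫ x in (0)..(2 * Real.pi), θ * v (-θ) x) = L) :
    (∫ x in (0)..(2 * Real.pi), v (-1) x) = L := by
  have := h 1 one_pos
  simpa using this

end FINM

open FINM

theorem specFIN (hSUB : SpecSUB) (hLIM : SpecLIM) (hLKA : SpecLKA) (hLKB : SpecLKB)
    (hMON : SpecMON) (hSTA : SpecSTA) (hMEA : SpecMEA) (hLAM : SpecLAM) (hBND : SpecBND) :
    SpecFIN := by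
  intro T U C c D
  have hT := D.hT
  rcases hBND (lam T U) (T / 2) (C * |2 * Real.pi - 0|) (by linarith) (lam_cont D) (lam_bound D)
    (hLAM T U C c D) with hL | hL
  · right
    intro η hη
    by_contra hcon
    obtain ⟨ε, v, hQ, hC, hA, hKA, hKB, hint⟩ := core hSUB hLIM hLKA hLKB D hL _ hcon
    have hst : ∀ t, -1 ≤ t → t < 0 → ∀ x, -t * v t x = v (-1) x := by
      intro t ht1 ht2
      rcases ht1.eq_or_lt with h | h
      · intro x
        rw [← h]
        ring
      · have h1 : ∀ x, -t * v t x ≤ v (-1) x := by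
          intro x
          have := hMON C c v hA hKA hKB (-1) t h ht2 x
          linarith
        have h2 : Continuous (fun x => -t * v t x) := (hA.cont t ht2).const_smul (-t)
        have h3 : Continuous (v (-1)) := hA.cont (-1) (by norm_num)
        refine hMEA.1 (fun x => -t * v t x) (v (-1)) h2 h3 ?_ ?_ h1 ?_
        · intro x
          show -t * v t (x + 2 * Real.pi) = -t * v t x
          rw [hA.per t ht2 x]
        · intro x
          exact hA.per (-1) (by norm_num) x
        · rw [int_one hint]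
          have h4 := hint (-t) (by linarith)
          rw [neg_neg] at h4
          exact h4
    obtain ⟨k, hk⟩ := conv_one hC hη
    rcases hSTA C c v D.hc hA hKA hKB (Or.inl hst) with h1 | ⟨a, ha⟩
    · have h2 := int_one hint
      have h3 : (∫ x in (0)..(2 * Real.pi), v (-1) x) = 2 * Real.pi := by
        have h4 : (fun x => v (-1) x) = fun _ => (1 : ℝ) := by
          funext x
          exact h1 x
        rw [h4]
        simp
      rw [h3] at h2
      have := Real.pi_pos
      linarith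
    · apply hQ k
      refine ⟨a, fun x => ?_⟩
      have := hk x
      rw [ha x] at this
      exact this
  · left
    intro η hη
    by_contra hcon
    obtain ⟨ε, v, hQ, hC, hA, hKA, hKB, hint⟩ := core hSUB hLIM hLKA hLKB D hL _ hcon
    have h3 : Continuous (v (-1)) := hA.cont (-1) (by norm_num)
    have hone : ∀ x, v (-1) x = 1 := by
      refine hMEA.1 (v (-1)) (fun _ => 1) h3 continuous_const ?_ (fun x => rfl) ?_ ?_
      · intro x
        exact hA.per (-1) (by norm_num) x
      · intro x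
        have := hA.le (-1) (by norm_num) x
        linarith
      · rw [int_one hint]
        simp
    obtain ⟨k, hk⟩ := conv_one hC hη
    apply hQ k
    intro x
    have := hk x
    rw [hone x] at this
    exact this

end

end Pool.Agent.Lib.MPb879c5.PR
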