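import Pool.Agent.Lib.MP_b879c5_an.PR.Spec

/-!
# GRO (MP_b879c5_an): a Grönwall inequality
-/

set_option autoImplicit false

namespace Pool.Agent.Lib.MPb879c5.PR

open Set Filter MeasureTheory Topology

namespace GROM

lemma core (D D' b F : ℝ → ℝ) (a t B : ℝ) (hat : a < t) (hB : 0 ≤ B)
    (hD : ContinuousOn D (Icc a t)) (hDa : D a ≤ 0) (hpos : ∀ r ∈ Ioo a t, 0 < D r)
    (hd : ∀ r ∈ Ioo a t, HasDerivAt D (D' r) r) (hle : ∀ r ∈ Ioo a t, D' r ≤ b r * D r + F r)
    (hb : ∀ r ∈ Ioo a t, b r ≤ B) (hF : ContinuousOn F (Icc a t)) (hF0 : ∀ r ∈ Icc a t, 0 ≤ F r) :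
    D t ≤ Real.exp (B * (t - a)) * ∫ r in a..t, F r := by
  have hFi : IntervalIntegrable F volume a t := by
    apply ContinuousOn.intervalIntegrable
    rw [uIcc_of_le hat.le]
    exact hF
  have hprim : ContinuousOn (fun r => ∫ x in a..r, F x) (Icc a t) := by
    have h := intervalIntegral.continuousOn_primitive_interval' (μ := volume) hFi left_mem_uIcc
    rw [uIcc_of_le hat.le] at h
    exact h
  have hprimd : ∀ r ∈ Ioo a t, HasDerivAt (fun r => ∫ x in a..r, F x) (F r) r := by
    intro r hr
    have hF' : ContinuousOn F (Ioo a t) := hF.mono Ioo_subset_Icc_self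
    apply intervalIntegral.integral_hasDerivAt_right
    · exact hFi.mono_set (by
        rw [uIcc_of_le hat.le, uIcc_of_le hr.1.le]
        exact Icc_subset_Icc le_rfl hr.2.le)
    · exact hF'.stronglyMeasurableAtFilter isOpen_Ioo r hr
    · exact hF'.continuousAt (isOpen_Ioo.mem_nhds hr)
  obtain ⟨G, hG⟩ : ∃ G : ℝ → ℝ, ∀ r, G r = Real.exp (-(B * (r - a))) * D r - ∫ x in a..r, F x :=
    ⟨_, fun _ => rfl⟩
  have hGc : ContinuousOn G (Icc a t) := by
    have h1 : ContinuousOn (fun r => Real.exp (-(B * (r - a))) * D r - ∫ x in a..r, F x)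
        (Icc a t) := by
      refine ContinuousOn.sub (ContinuousOn.mul ?_ hD) hprim
      exact (by fun_prop : Continuous fun r : ℝ => Real.exp (-(B * (r - a)))).continuousOn
    exact h1.congr fun r _ => hG r
  have hGd : ∀ r ∈ Ioo a t, HasDerivAt G
      ((Real.exp (-(B * (r - a))) * (-B)) * D r + Real.exp (-(B * (r - a))) * D' r - F r) r := by
    intro r hr
    have e1 : HasDerivAt (fun r : ℝ => -(B * (r - a))) (-B) r := by
      have h := (((hasDerivAt_id r).sub_const a).const_mul B).neg
      rw [mul_one] at h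
      exact h
    have e2 := e1.exp
    have e3 := (e2.mul (hd r hr)).sub (hprimd r hr)
    have e4 : G = fun r => Real.exp (-(B * (r - a))) * D r - ∫ x in a..r, F x := funext hG
    rw [e4]
    exact e3
  have hanti : AntitoneOn G (Icc a t) := by
    apply antitoneOn_of_deriv_nonpos (convex_Icc a t) hGc
    · intro r hr
      rw [interior_Icc] at hr
      exact (hGd r hr).differentiableAt.differentiableWithinAt
    · intro r hr
      rw [interior_Icc] at hr
      rw [(hGd r hr).deriv]
      have h1 := hle r hr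
      have h2 := hb r hr
      have h3 := hpos r hr
      have h4 := hF0 r (Ioo_subset_Icc_self hr)
      have h5 : 0 < Real.exp (-(B * (r - a))) := Real.exp_pos _
      have h6 : Real.exp (-(B * (r - a))) ≤ 1 := by
        rw [Real.exp_le_one_iff]
        have := mul_nonneg hB (sub_nonneg.2 hr.1.le)
        linarith
      have h7 : b r * D r ≤ B * D r := mul_le_mul_of_nonneg_right h2 h3.le
      have h8 : Real.exp (-(B * (r - a))) * D' r ≤ Real.exp (-(B * (r - a))) * (B * D r + F r) :=
        mul_le_mul_of_nonneg_left (by linarith) h5.le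
      have h9 : Real.exp (-(B * (r - a))) * F r ≤ 1 * F r := mul_le_mul_of_nonneg_right h6 h4
      nlinarith
  have hfin := hanti (left_mem_Icc.2 hat.le) (right_mem_Icc.2 hat.le) hat.le
  rw [hG t, hG a] at hfin
  simp only [sub_self, mul_zero, neg_zero, Real.exp_zero, one_mul, intervalIntegral.integral_same,
    sub_zero] at hfin
  have h1 : Real.exp (-(B * (t - a))) * D t ≤ ∫ x in a..t, F x := by linarith
  have h2 : D t = Real.exp (B * (t - a)) * (Real.exp (-(B * (t - a))) * D t) := by
    rw [← mul_assoc, ← Real.exp_add]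
    simp
  rw [h2]
  exact mul_le_mul_of_nonneg_left h1 (Real.exp_pos _).le

end GROM

open GROM in
theorem specGRO : SpecGRO := by
  intro D D' b F s t B hst hB hD hDs hd hle hb hF hF0
  have hFi : IntervalIntegrable F volume s t := by
    apply ContinuousOn.intervalIntegrable
    rw [uIcc_of_le hst.le]
    exact hF
  have hI0 : ∀ a ∈ Icc s t, 0 ≤ ∫ r in a..t, F r := by
    intro a ha
    apply intervalIntegral.integral_nonneg ha.2
    intro u hu
    exact hF0 u ⟨ha.1.trans hu.1, hu.2⟩
  rcases le_or_gt (D t) 0 with h | h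
  · exact h.trans (mul_nonneg (Real.exp_pos _).le (hI0 s (left_mem_Icc.2 hst.le)))
  · have hcl : IsClosed (Icc s t ∩ D ⁻¹' Iic 0) := hD.preimage_isClosed_of_isClosed isClosed_Icc isClosed_Iic
    have hcomp : IsCompact (Icc s t ∩ D ⁻¹' Iic 0) :=
      isCompact_Icc.of_isClosed_subset hcl inter_subset_left
    obtain ⟨a, ⟨ha1, ha2⟩, ha3⟩ := hcomp.exists_isGreatest ⟨s, left_mem_Icc.2 hst.le, hDs⟩
    have hat : a < t := by
      rcases ha1.2.lt_or_eq with h1 | h1
      · exact h1
      · exfalso
        rw [h1] at ha2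
        exact absurd ha2 (not_le.2 h)
    have hsub : Icc a t ⊆ Icc s t := Icc_subset_Icc ha1.1 le_rfl
    have hsub' : Ioo a t ⊆ Ioo s t := Ioo_subset_Ioo ha1.1 le_rfl
    have key := core D D' b F a t B hat hB (hD.mono hsub) ha2
      (by
        intro r hr
        by_contra hcon
        have hmem : r ∈ Icc s t ∩ D ⁻¹' Iic 0 :=
          ⟨hsub (Ioo_subset_Icc_self hr), not_lt.1 hcon⟩
        exact absurd (ha3 hmem) (not_le.2 hr.1))
      (fun r hr => hd r (hsub' hr)) (fun r hr => hle r (hsub' hr)) (fun r hr => hb r (hsub' hr))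
      (hF.mono hsub) (fun r hr => hF0 r (hsub hr))
    have h1 : ∫ r in a..t, F r ≤ ∫ r in s..t, F r := by
      have hsa : IntervalIntegrable F volume s a := hFi.mono_set (by
        rw [uIcc_of_le hst.le, uIcc_of_le ha1.1]
        exact Icc_subset_Icc le_rfl ha1.2)
      have hat' : IntervalIntegrable F volume a t := hFi.mono_set (by
        rw [uIcc_of_le hst.le, uIcc_of_le ha1.2]
        exact Icc_subset_Icc ha1.1 le_rfl)
      rw [← intervalIntegral.integral_add_adjacent_intervals hsa hat']
      have : 0 ≤ ∫ r in s..a, F r := by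
        apply intervalIntegral.integral_nonneg ha1.1
        intro u hu
        exact hF0 u ⟨hu.1, hu.2.trans ha1.2⟩
      linarith
    have h2 : Real.exp (B * (t - a)) ≤ Real.exp (B * (t - s)) := by
      apply Real.exp_le_exp.2
      exact mul_le_mul_of_nonneg_left (by linarith [ha1.1]) hB
    calc D t ≤ Real.exp (B * (t - a)) * ∫ r in a..t, F r := key
      _ ≤ Real.exp (B * (t - s)) * ∫ r in s..t, F r :=
        mul_le_mul h2 h1 (hI0 a ha1) (Real.exp_pos _).le

end Pool.Agent.Lib.MPb879c5.PR
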