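import Pool.Agent.Lib.MP_b879c5_an.PR.SpecI

/-!
# MP_b879c5_an, module HON: uniform convergence implies H^1 convergence
-/

set_option autoImplicit false

namespace Pool.Agent.Lib.MPb879c5.PR

open Set Filter MeasureTheory Topology
open Pool.Agent.Lib.MP_b879c5_an
open scoped ContDiff

noncomputable section

namespace HONM

lemma om_nonneg (q : ℝ → ℝ) (s : ℝ) : 0 ≤ om q s := by
  unfold om
  apply intervalIntegral.integral_nonneg (by positivity)
  intro y _
  positivity

lemma om_smul (k : ℝ) (q : ℝ → ℝ) (s : ℝ) : om (fun x => k * q x) s = k ^ 2 * om q s := by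
  unfold om
  rw [← intervalIntegral.integral_const_mul]
  apply intervalIntegral.integral_congr
  intro y _
  ring

lemma gag_smul (k : ℝ) (q : ℝ → ℝ) : Gag (fun x => k * q x) = k ^ 2 * Gag q := by
  unfold Gag
  rw [← intervalIntegral.integral_const_mul]
  apply intervalIntegral.integral_congr
  intro s _
  simp only
  rw [om_smul]
  ring

lemma om_add {q r : ℝ → ℝ} (hq : Continuous q) (hr : Continuous r) (s : ℝ) :
    om (fun x => q x + r x) s ≤ 2 * om q s + 2 * om r s := by
  unfold om
  have i1 : IntervalIntegrable (fun y => 2 * (q (y + s) - q y) ^ 2) volume 0 (2 * Real.pi) :=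
    (by fun_prop : Continuous fun y => 2 * (q (y + s) - q y) ^ 2).intervalIntegrable _ _
  have i2 : IntervalIntegrable (fun y => 2 * (r (y + s) - r y) ^ 2) volume 0 (2 * Real.pi) :=
    (by fun_prop : Continuous fun y => 2 * (r (y + s) - r y) ^ 2).intervalIntegrable _ _
  rw [← intervalIntegral.integral_const_mul, ← intervalIntegral.integral_const_mul,
    ← intervalIntegral.integral_add i1 i2]
  apply intervalIntegral.integral_mono_on (by positivity)
  · exact (by fun_prop : Continuous fun y =>
      (q (y + s) + r (y + s) - (q y + r y)) ^ 2).intervalIntegrable _ _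
  · exact i1.add i2
  · intro y _
    nlinarith [sq_nonneg ((q (y + s) - q y) - (r (y + s) - r y))]

lemma gag_add {q r : ℝ → ℝ} (hq : Continuous q) (hr : Continuous r)
    (h1 : IntervalIntegrable (fun s => om q s / s ^ 2) volume (-Real.pi) Real.pi)
    (h2 : IntervalIntegrable (fun s => om r s / s ^ 2) volume (-Real.pi) Real.pi)
    (h3 : IntervalIntegrable (fun s => om (fun x => q x + r x) s / s ^ 2) volume
      (-Real.pi) Real.pi) :
    Gag (fun x => q x + r x) ≤ 2 * Gag q + 2 * Gag r := by
  unfold Gag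
  rw [← intervalIntegral.integral_const_mul, ← intervalIntegral.integral_const_mul,
    ← intervalIntegral.integral_add (h1.const_mul 2) (h2.const_mul 2)]
  apply intervalIntegral.integral_mono_on (by linarith [Real.pi_pos]) h3
    ((h1.const_mul 2).add (h2.const_mul 2))
  intro s _
  have h := om_add hq hr s
  have e : 2 * (om q s / s ^ 2) + 2 * (om r s / s ^ 2) = (2 * om q s + 2 * om r s) / s ^ 2 := by
    ring
  rw [e]
  exact div_le_div_of_nonneg_right h (sq_nonneg s)

/-- the profile -/
def g2 (a x : ℝ) : ℝ := -(Real.cos (x - a) / 2)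

lemma deriv_g2 (a : ℝ) : deriv (g2 a) = fun x => Real.sin (x - a) / 2 := by
  funext x
  have h1 : HasDerivAt (fun x : ℝ => x - a) 1 x := (hasDerivAt_id x).sub_const a
  have h2 := (((Real.hasDerivAt_cos (x - a)).comp x h1).div_const 2).neg
  have h3 : HasDerivAt (g2 a) (-(-Real.sin (x - a) * 1 / 2)) x := h2
  rw [h3.deriv]
  ring

lemma pc2_g2 (a : ℝ) : PC2 (g2 a) := by
  refine ⟨?_, fun x => ?_⟩
  · unfold g2
    fun_prop
  · unfold g2
    rw [show x + 2 * Real.pi - a = (x - a) + 2 * Real.pi by ring, Real.cos_add_two_pi]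

lemma om_g2 (a s : ℝ) : om (fun x => Real.sin (x - a) / 2) s ≤ Real.pi / 2 * s ^ 2 := by
  unfold om
  have h1 : (∫ y in (0)..(2 * Real.pi), (Real.sin (y + s - a) / 2 - Real.sin (y - a) / 2) ^ 2) ≤
      ∫ _ in (0)..(2 * Real.pi), s ^ 2 / 4 := by
    apply intervalIntegral.integral_mono_on (by positivity)
    · exact (by fun_prop : Continuous fun y =>
        (Real.sin (y + s - a) / 2 - Real.sin (y - a) / 2) ^ 2).intervalIntegrable _ _
    · exact continuous_const.intervalIntegrable _ _
    · intro y _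
      have h2 : |Real.sin (y + s - a) - Real.sin (y - a)| ≤ |s| := by
        have h3 := Real.abs_sin_sub_sin_le (y + s - a) (y - a)
        have e : y + s - a - (y - a) = s := by ring
        rwa [e] at h3
      have h4 : (Real.sin (y + s - a) / 2 - Real.sin (y - a) / 2) ^ 2 =
          |Real.sin (y + s - a) - Real.sin (y - a)| ^ 2 / 4 := by
        rw [sq_abs]
        ring
      rw [h4, ← sq_abs s]
      exact div_le_div_of_nonneg_right (pow_le_pow_left₀ (abs_nonneg _) h2 2) (by norm_num)
  refine h1.trans (le_of_eq ?_)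
  rw [intervalIntegral.integral_const, smul_eq_mul]
  ring

lemma gag_g2 (a : ℝ)
    (h : IntervalIntegrable (fun s => om (fun x => Real.sin (x - a) / 2) s / s ^ 2) volume
      (-Real.pi) Real.pi) :
    Gag (fun x => Real.sin (x - a) / 2) ≤ Real.pi ^ 2 := by
  unfold Gag
  have h1 : (∫ s in (-Real.pi)..Real.pi, om (fun x => Real.sin (x - a) / 2) s / s ^ 2) ≤
      ∫ _ in (-Real.pi)..Real.pi, Real.pi / 2 := by
    apply intervalIntegral.integral_mono_on (by linarith [Real.pi_pos]) h
      (continuous_const.intervalIntegrable _ _)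
    intro s _
    rcases eq_or_ne s 0 with rfl | hs
    · simp
      positivity
    · rw [div_le_iff₀ (by positivity)]
      exact om_g2 a s
  refine h1.trans (le_of_eq ?_)
  rw [intervalIntegral.integral_const, smul_eq_mul]
  ring

lemma pc2_U {T : ℝ} {U : ℝ × ℝ → ℝ} (hs : Sol T U) {t : ℝ} (ht : t ∈ Ioo 0 T) (k : ℝ) :
    PC2 (fun x => k * U (t, x)) := by
  refine ⟨?_, fun x => by rw [hs.per t ht x]⟩
  have h1 : ContDiff ℝ ∞ (fun x : ℝ => U (t, x)) := by
    rw [contDiff_iff_contDiffAt]
    intro x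
    have hc : ContDiffAt ℝ ∞ U (t, x) := hs.sm.contDiffAt ((isOpen_Om T).mem_nhds (mem_Om.mpr ht))
    exact hc.comp x (f := fun x : ℝ => (t, x)) (by fun_prop)
  exact (contDiff_const.mul h1).of_le (by exact_mod_cast (ENat.LEInfty.out : (2 : WithTop ℕ∞) ≤ ∞))

lemma deriv_U {T : ℝ} {U : ℝ × ℝ → ℝ} (hs : Sol T U) {t : ℝ} (ht : t ∈ Ioo 0 T) (k : ℝ) :
    deriv (fun x => k * U (t, x)) = fun x => k * Dx U (t, x) := by
  funext x
  exact ((hs.sm.hasDerivAt_x ht x).const_mul k).deriv

end HONM

open HONM in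
theorem specHON (hL2D : SpecL2D) : SpecHON := by
  intro T U C c hD η hη
  obtain ⟨L1, L2, _⟩ := hL2D
  have hC := hD.hC
  have hpi := Real.pi_pos
  set G : ℝ := 2 * C + 2 * Real.pi ^ 2 with hG
  have hG0 : 0 < G := by positivity
  set δ : ℝ := min Real.pi (η / (4 * G)) with hδ
  have hδ0 : 0 < δ := lt_min hpi (by positivity)
  have hδ1 : δ ≤ Real.pi := min_le_left _ _
  have hδ2 : 2 * δ * G ≤ η / 2 := by
    have h : δ ≤ η / (4 * G) := min_le_right _ _
    rw [le_div_iff₀ (by positivity)] at h
    linarith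
  refine ⟨δ * Real.sqrt (η / (32 * Real.pi)), by positivity, ?_⟩
  intro t ht a hx
  have ht' : t ∈ Ioo 0 T := ⟨by linarith [ht.1, hD.hT], ht.2⟩
  have p1 : PC2 (fun x => (T - t) * U (t, x)) := pc2_U hD.sol ht' (T - t)
  have d1 : deriv (fun x => (T - t) * U (t, x)) = fun x => (T - t) * Dx U (t, x) :=
    deriv_U hD.sol ht' (T - t)
  have p2 := pc2_g2 a
  have d2 := deriv_g2 a
  set f : ℝ → ℝ := fun x => (T - t) * U (t, x) - Real.cos ((x - a) / 2) ^ 2 with hf
  have ef : f = fun x => ((T - t) * U (t, x) + g2 a x) - 1 / 2 := by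
    funext x
    have h := Real.cos_sq ((x - a) / 2)
    rw [show 2 * ((x - a) / 2) = x - a by ring] at h
    simp only [hf, g2, h]
    ring
  have pf : PC2 f := by
    rw [ef]
    refine ⟨(p1.sm.add p2.sm).sub contDiff_const, fun x => ?_⟩
    have h1 := p1.per x
    have h2 := p2.per x
    rw [h1, h2]
  have hd1 : Differentiable ℝ (fun x => (T - t) * U (t, x)) := p1.sm.differentiable (by norm_num)
  have hd2 : Differentiable ℝ (g2 a) := p2.sm.differentiable (by norm_num)
  have df : deriv f = fun x => (T - t) * Dx U (t, x) + Real.sin (x - a) / 2 := by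
    funext x
    have h1 : HasDerivAt (fun x => (T - t) * U (t, x)) ((T - t) * Dx U (t, x)) x := by
      have h := (hd1 x).hasDerivAt
      rw [d1] at h
      exact h
    have h2 : HasDerivAt (g2 a) (Real.sin (x - a) / 2) x := by
      have h := (hd2 x).hasDerivAt
      rw [d2] at h
      exact h
    have h3 := (h1.add h2).sub_const (1 / 2)
    rw [ef]
    exact h3.deriv
  have i1 := L2 _ p1
  have i2 := L2 _ p2
  have i3 := L2 _ pf
  rw [d1] at i1
  rw [d2] at i2
  rw [df] at i3
  have c1 : Continuous (fun x => (T - t) * Dx U (t, x)) := by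
    rw [← d1]
    exact p1.sm.continuous_deriv (by norm_num)
  have c2 : Continuous (fun x => Real.sin (x - a) / 2) := by fun_prop
  have g1 := gag_add c1 c2 i1 i2 i3
  have g3 : Gag (fun x => (T - t) * Dx U (t, x)) ≤ C := by
    have e := gag_smul (T - t) (fun x => Dx U (t, x))
    rw [e]
    exact hD.gag t ht
  have g4 := gag_g2 a i2
  have g5 : Gag (deriv f) ≤ G := by
    rw [df]
    linarith
  have main := L1 f (δ * Real.sqrt (η / (32 * Real.pi))) δ pf hx hδ0 hδ1
  have e1 : (∫ y in (0)..(2 * Real.pi), deriv f y ^ 2) =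
      ∫ x in (0)..(2 * Real.pi), ((T - t) * Dx U (t, x) + Real.sin (x - a) / 2) ^ 2 := by
    rw [df]
  rw [e1] at main
  have e2 : 16 * Real.pi * (δ * Real.sqrt (η / (32 * Real.pi))) ^ 2 / δ ^ 2 = η / 2 := by
    rw [mul_pow, Real.sq_sqrt (by positivity)]
    field_simp
    ring
  have e3 : 2 * δ * Gag (deriv f) ≤ 2 * δ * G := mul_le_mul_of_nonneg_left g5 (by positivity)
  linarith

end

end Pool.Agent.Lib.MPb879c5.PR
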