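import Pool.Agent.Lib.MP_b879c5_an.PR.SpecI

/-!
# MP_b879c5_an : module ISO (the flat profile)
-/

set_option autoImplicit false

namespace Pool.Agent.Lib.MPb879c5.PR

open Set Filter MeasureTheory Topology
open Pool.Agent.Lib.MP_b879c5_an

namespace ISOM

/-- A nonnegative bounded `f` with `f' ≥ c f / (T - r)` vanishes. -/
theorem grow {f f' : ℝ → ℝ} {t₀ T c C : ℝ} (hc : 0 < c)
    (hd : ∀ r ∈ Ioo t₀ T, HasDerivAt f (f' r) r) (h0 : ∀ r ∈ Ioo t₀ T, 0 ≤ f r)
    (hg : ∀ r ∈ Ioo t₀ T, c * f r / (T - r) ≤ f' r) (hC : ∀ r ∈ Ioo t₀ T, f r ≤ C) :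
    ∀ r ∈ Ioo t₀ T, f r = 0 := by
  have hmono : MonotoneOn f (Ioo t₀ T) := by
    refine monotoneOn_of_deriv_nonneg (convex_Ioo _ _) ?_ ?_ ?_
    · exact fun r hr => (hd r hr).continuousAt.continuousWithinAt
    · rw [interior_Ioo]
      exact fun r hr => (hd r hr).differentiableAt.differentiableWithinAt
    · rw [interior_Ioo]
      intro r hr
      rw [(hd r hr).deriv]
      refine le_trans ?_ (hg r hr)
      exact div_nonneg (mul_nonneg hc.le (h0 r hr)) (by linarith [hr.2])
  intro t₁ ht₁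
  by_contra hne
  have hA : 0 < f t₁ := lt_of_le_of_ne (h0 t₁ ht₁) (Ne.symm hne)
  set A := f t₁ with hAdef
  have hTt : 0 < T - t₁ := by linarith [ht₁.2]
  have hAC : A ≤ C := hC t₁ ht₁
  have hcA : 0 < c * A := mul_pos hc hA
  set E : ℝ := C / (c * A) + 1 with hE
  have hEpos : 0 < E := by
    have : 0 < C / (c * A) := div_pos (lt_of_lt_of_le hA hAC) hcA
    linarith
  have hexp : Real.exp (-E) < 1 := by
    rw [Real.exp_lt_one_iff]
    linarith
  set t : ℝ := T - (T - t₁) * Real.exp (-E) with ht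
  have hTt' : T - t = (T - t₁) * Real.exp (-E) := by rw [ht]; ring
  have hpos : 0 < (T - t₁) * Real.exp (-E) := mul_pos hTt (Real.exp_pos _)
  have ht1 : t₁ ≤ t := by
    have : (T - t₁) * Real.exp (-E) ≤ (T - t₁) * 1 := mul_le_mul_of_nonneg_left hexp.le hTt.le
    linarith
  have htT : t < T := by linarith
  have hsub : ∀ r ∈ Icc t₁ t, r ∈ Ioo t₀ T := fun r hr =>
    ⟨lt_of_lt_of_le ht₁.1 hr.1, lt_of_le_of_lt hr.2 htT⟩
  have hder : ∀ r ∈ Icc t₁ t, HasDerivAt (fun r => f r + c * A * Real.log (T - r))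
      (f' r + c * A * (-1 / (T - r))) r := by
    intro r hr
    have hr2 := hsub r hr
    have h2 : HasDerivAt (fun r => T - r) (-1) r := by
      simpa using (hasDerivAt_id r).const_sub T
    have h3 : HasDerivAt (fun r => Real.log (T - r)) (-1 / (T - r)) r :=
      h2.log (by linarith [hr2.2])
    exact (hd r hr2).add (h3.const_mul (c * A))
  have hG : MonotoneOn (fun r => f r + c * A * Real.log (T - r)) (Icc t₁ t) := by
    refine monotoneOn_of_deriv_nonneg (convex_Icc _ _) ?_ ?_ ?_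
    · exact fun r hr => (hder r hr).continuousAt.continuousWithinAt
    · intro r hr
      exact (hder r (interior_subset hr)).differentiableAt.differentiableWithinAt
    · intro r hr
      have hr1 := interior_subset hr
      have hr2 := hsub r hr1
      rw [(hder r hr1).deriv]
      have h4 : A ≤ f r := hmono ht₁ hr2 hr1.1
      have h5 := hg r hr2
      have hTr : 0 < T - r := by linarith [hr2.2]
      have h6 : c * A * (-1 / (T - r)) = -(c * A / (T - r)) := by ring
      rw [h6]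
      have h7 : c * A / (T - r) ≤ c * f r / (T - r) :=
        div_le_div_of_nonneg_right (mul_le_mul_of_nonneg_left h4 hc.le) hTr.le
      linarith
  have h8 := hG (left_mem_Icc.2 ht1) (right_mem_Icc.2 ht1) ht1
  have h9 : Real.log (T - t) = Real.log (T - t₁) + -E := by
    rw [hTt', Real.log_mul hTt.ne' (Real.exp_pos _).ne', Real.log_exp]
  have h10 : f t ≤ C := hC t (hsub t (right_mem_Icc.2 ht1))
  simp only [] at h8
  rw [h9, ← hAdef] at h8
  have h11 : c * A * E = C + c * A := by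
    rw [hE]
    field_simp
  have h12 : c * A * (Real.log (T - t₁) + -E) = c * A * Real.log (T - t₁) - c * A * E := by ring
  rw [h12, h11] at h8
  linarith

/-- Backwards Grönwall. -/
theorem back {f f' : ℝ → ℝ} {a b L : ℝ} (hab : a ≤ b)
    (hd : ∀ r ∈ Icc a b, HasDerivAt f (f' r) r) (hg : ∀ r ∈ Icc a b, -(L * f r) ≤ f' r)
    (hb : f b ≤ 0) : f a ≤ 0 := by
  have hder : ∀ r ∈ Icc a b, HasDerivAt (fun r => Real.exp (L * r) * f r)
      (Real.exp (L * r) * L * f r + Real.exp (L * r) * f' r) r := by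
    intro r hr
    have h2 : HasDerivAt (fun r => L * r) L r := by
      simpa using (hasDerivAt_id r).const_mul L
    exact h2.exp.mul (hd r hr)
  have hG : MonotoneOn (fun r => Real.exp (L * r) * f r) (Icc a b) := by
    refine monotoneOn_of_deriv_nonneg (convex_Icc _ _) ?_ ?_ ?_
    · exact fun r hr => (hder r hr).continuousAt.continuousWithinAt
    · intro r hr
      exact (hder r (interior_subset hr)).differentiableAt.differentiableWithinAt
    · intro r hr
      have hr1 := interior_subset hr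
      rw [(hder r hr1).deriv]
      have h5 := hg r hr1
      have h6 : Real.exp (L * r) * L * f r + Real.exp (L * r) * f' r =
          Real.exp (L * r) * (L * f r + f' r) := by ring
      rw [h6]
      exact mul_nonneg (Real.exp_pos _).le (by linarith)
  have h8 : Real.exp (L * a) * f a ≤ Real.exp (L * b) * f b :=
    hG (left_mem_Icc.2 hab) (right_mem_Icc.2 hab) hab
  have h9 : Real.exp (L * b) * f b ≤ 0 := mul_nonpos_of_nonneg_of_nonpos (Real.exp_pos _).le hb
  by_contra h
  push Not at h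
  have := mul_pos (Real.exp_pos (L * a)) h
  linarith

/-- Lower bound for the cubic term. -/
theorem cubic_ge {T : ℝ} {U : ℝ × ℝ → ℝ} (h : Sol T U) {t : ℝ} (ht : t ∈ Ioo 0 T) {m : ℝ}
    (hm : ∀ x, m ≤ U (t, x)) :
    m * II U t ≤ ∫ x in (0)..(2 * Real.pi), U (t, x) * (Dx U (t, x)) ^ 2 := by
  have hc0 := h.sm.continuous_x ht
  have hc1 := h.sm.dx.continuous_x ht
  unfold II
  rw [← intervalIntegral.integral_const_mul]
  apply intervalIntegral.integral_mono_on two_pi_pos'.le
    ((continuous_const.mul (hc1.pow 2)).intervalIntegrable _ _)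
    ((hc0.mul (hc1.pow 2)).intervalIntegrable _ _)
  intro x _
  exact mul_le_mul_of_nonneg_right (hm x) (sq_nonneg _)

end ISOM

open ISOM in
theorem specISO : SpecISO := by
  intro T U δ hT h hδ hev
  -- near `T`
  obtain ⟨t₀, ht₀, hlow⟩ : ∃ t₀ < T, ∀ t ∈ Ioo t₀ T, ∀ x, 1 / 2 + δ ≤ (T - t) * U (t, x) := by
    rw [eventually_nhdsWithin_iff, Metric.eventually_nhds_iff] at hev
    obtain ⟨ε, hε, h1⟩ := hev
    refine ⟨T - ε, by linarith, fun t ht => h1 ?_ ht.2⟩
    rw [Real.dist_eq, abs_sub_comm, abs_of_pos (by linarith [ht.2])]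
    linarith [ht.1]
  set t₂ := max t₀ (T / 2) with ht₂
  have ht₂T : t₂ < T := max_lt ht₀ (by linarith)
  have h2 : ∀ t ∈ Ioo t₂ T, t ∈ Ioo 0 T ∧ T / 2 ≤ t ∧ ∀ x, 1 / 2 + δ ≤ (T - t) * U (t, x) := by
    intro t ht
    have h3 : T / 2 < t := lt_of_le_of_lt (le_max_right _ _) ht.1
    exact ⟨⟨by linarith, ht.2⟩, h3.le, hlow t ⟨lt_of_le_of_lt (le_max_left _ _) ht.1, ht.2⟩⟩
  -- the energy vanishes near `T`
  have hI0 : ∀ t ∈ Ioo t₂ T, II U t = 0 := by
    have hJ := grow (f := fun t => (T - t) ^ 2 * II U t)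
      (f' := fun t => 2 * (T - t) * (-1) * II U t +
        (T - t) ^ 2 * (4 * ∫ x in (0)..(2 * Real.pi), U (t, x) * (Dx U (t, x)) ^ 2))
      (t₀ := t₂) (T := T) (c := 4 * δ) (C := C1) (by linarith) ?_ ?_ ?_ ?_
    · intro t ht
      have h4 := hJ t ht
      have h5 : 0 < (T - t) ^ 2 := pow_pos (by linarith [ht.2]) 2
      exact (mul_eq_zero.1 h4).resolve_left h5.ne'
    · intro r hr
      obtain ⟨hr0, -, -⟩ := h2 r hr
      have h3 : HasDerivAt (fun r => T - r) (-1) r := by
        simpa using (hasDerivAt_id r).const_sub T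
      have h4 : HasDerivAt (fun t => (T - t) ^ 2 * II U t)
          (((2 : ℕ) : ℝ) * (T - r) ^ (2 - 1) * (-1) * II U r +
            (T - r) ^ 2 * (4 * ∫ x in (0)..(2 * Real.pi), U (r, x) * (Dx U (r, x)) ^ 2)) r :=
        (h3.pow 2).mul (h.hasDerivAt_I hr0)
      refine h4.congr_deriv ?_
      push_cast
      ring
    · intro r hr
      exact mul_nonneg (sq_nonneg _) (II_nonneg U r)
    · intro r hr
      obtain ⟨hr0, -, hr1⟩ := h2 r hr
      have hTr : 0 < T - r := by linarith [hr.2]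
      have h3 := cubic_ge h hr0 (m := (1 / 2 + δ) / (T - r)) (by
        intro x
        rw [div_le_iff₀ hTr, mul_comm]
        exact hr1 x)
      have h4 := II_nonneg U r
      have h5 : (T - r) ^ 2 * (4 * ((1 / 2 + δ) / (T - r) * II U r)) ≤
          (T - r) ^ 2 * (4 * ∫ x in (0)..(2 * Real.pi), U (r, x) * (Dx U (r, x)) ^ 2) := by
        apply mul_le_mul_of_nonneg_left _ (sq_nonneg _)
        linarith
      have h6 : (T - r) ^ 2 * (4 * ((1 / 2 + δ) / (T - r) * II U r)) =
          (2 + 4 * δ) * (T - r) * II U r := by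
        field_simp
        ring
      have h7 : 4 * δ * ((T - r) ^ 2 * II U r) / (T - r) = 4 * δ * (T - r) * II U r := by
        field_simp
      rw [h7]
      rw [h6] at h5
      nlinarith [h5]
    · intro r hr
      obtain ⟨hr0, hr2, -⟩ := h2 r hr
      have hTr : 0 < T - r := by linarith [hr.2]
      have h3 := h.II_le hr0 hTr (by linarith) le_rfl
      rw [le_div_iff₀ (by positivity)] at h3
      linarith
  -- bounds in compact time intervals
  have hbd : ∀ t ∈ Ioo 0 T, ∃ t₁, t ≤ t₁ ∧ t₁ ∈ Ioo t₂ T ∧ ∃ M : ℝ, ∀ r ∈ Icc t t₁, r ∈ Ioo 0 T ∧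
      ∀ x, -M ≤ U (r, x) := by
    intro t ht
    have h3 : max t t₂ < T := max_lt ht.2 ht₂T
    refine ⟨(max t t₂ + T) / 2, ?_, ⟨?_, by linarith⟩, C2 / min t (T - (max t t₂ + T) / 2), ?_⟩
    · have := le_max_left t t₂
      linarith
    · have := le_max_right t t₂
      linarith
    · intro r hr
      have hr0 : r ∈ Ioo 0 T := ⟨lt_of_lt_of_le ht.1 hr.1, by linarith [hr.2]⟩
      refine ⟨hr0, fun x => ?_⟩
      have h4 : 0 < min t (T - (max t t₂ + T) / 2) := lt_min ht.1 (by linarith)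
      have h5 := h.abs_le' hr0 h4 ((min_le_left _ _).trans hr.1)
        ((min_le_right _ _).trans (by linarith [hr.2])) x
      exact (abs_le.1 h5).1
  have hI : ∀ t ∈ Ioo 0 T, II U t = 0 := by
    intro t ht
    obtain ⟨t₁, htt, ht₁, M, hM⟩ := hbd t ht
    apply le_antisymm _ (II_nonneg U t)
    apply back (f := II U)
      (f' := fun t => 4 * ∫ x in (0)..(2 * Real.pi), U (t, x) * (Dx U (t, x)) ^ 2)
      (L := 4 * M) htt
    · intro r hr
      exact h.hasDerivAt_I (hM r hr).1
    · intro r hr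
      have h3 := cubic_ge h (hM r hr).1 (hM r hr).2
      linarith
    · exact (hI0 t₁ ht₁).le
  -- `U` does not depend on `x`
  have hU : ∀ t ∈ Ioo 0 T, ∀ x, U (t, x) = mI U t / (2 * Real.pi) := by
    intro t ht x
    have h3 := h.sub_mean_le ht x
    rw [hI t ht, mul_zero, Real.sqrt_zero] at h3
    exact sub_eq_zero.1 (abs_nonpos_iff.1 h3)
  have hpi := two_pi_pos'
  have hJ : ∀ t ∈ Ioo 0 T, JI U t = 2 * Real.pi * (mI U t / (2 * Real.pi)) ^ 2 := by
    intro t ht
    unfold JI
    simp_rw [hU t ht]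
    rw [intervalIntegral.integral_const, smul_eq_mul, sub_zero]
  have hk : ∀ t ∈ Ioo 0 T, HasDerivAt (fun r => ((T - r) * (mI U r / (2 * Real.pi)) - 1) ^ 2)
      (2 * (mI U t / (2 * Real.pi)) * ((T - t) * (mI U t / (2 * Real.pi)) - 1) ^ 2) t := by
    intro t ht
    have h3 : HasDerivAt (fun r => T - r) (-1) t := by
      simpa using (hasDerivAt_id t).const_sub T
    have h4 := (h.hasDerivAt_m ht).div_const (2 * Real.pi)
    have h5 : HasDerivAt (fun r => ((T - r) * (mI U r / (2 * Real.pi)) - 1) ^ 2)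
        (((2 : ℕ) : ℝ) * ((T - t) * (mI U t / (2 * Real.pi)) - 1) ^ (2 - 1) *
          (-1 * (mI U t / (2 * Real.pi)) + (T - t) * ((II U t + JI U t) / (2 * Real.pi)))) t :=
      ((h3.mul h4).sub_const 1).pow 2
    refine h5.congr_deriv ?_
    rw [hI t ht, hJ t ht, zero_add, mul_div_cancel_left₀ _ hpi.ne']
    push_cast
    ring
  have hk0 : ∀ t ∈ Ioo t₂ T, ((T - t) * (mI U t / (2 * Real.pi)) - 1) ^ 2 = 0 := by
    apply grow (f := fun t => ((T - t) * (mI U t / (2 * Real.pi)) - 1) ^ 2)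
      (f' := fun t => 2 * (mI U t / (2 * Real.pi)) * ((T - t) * (mI U t / (2 * Real.pi)) - 1) ^ 2)
      (c := 1 + 2 * δ) (C := 1) (by linarith)
    · intro r hr
      exact hk r (h2 r hr).1
    · intro r hr
      exact sq_nonneg _
    · intro r hr
      obtain ⟨hr0, -, hr1⟩ := h2 r hr
      have hTr : 0 < T - r := by linarith [hr.2]
      have h3 := hr1 0
      rw [hU r hr0] at h3
      have h4 : (1 + 2 * δ) / (T - r) ≤ 2 * (mI U r / (2 * Real.pi)) := by
        rw [div_le_iff₀ hTr]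
        linarith
      calc (1 + 2 * δ) * ((T - r) * (mI U r / (2 * Real.pi)) - 1) ^ 2 / (T - r)
          = (1 + 2 * δ) / (T - r) * ((T - r) * (mI U r / (2 * Real.pi)) - 1) ^ 2 := by ring
        _ ≤ _ := mul_le_mul_of_nonneg_right h4 (sq_nonneg _)
    · intro r hr
      obtain ⟨hr0, -, hr1⟩ := h2 r hr
      have h3 := hr1 0
      rw [hU r hr0] at h3
      have h4 : (T - r) * (mI U r / (2 * Real.pi)) ≤ 1 := by
        rw [← mul_div_assoc, div_le_one hpi]
        exact h.m_upper hr0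
      show ((T - r) * (mI U r / (2 * Real.pi)) - 1) ^ 2 ≤ 1
      rw [sq_le_one_iff_abs_le_one, abs_le]
      constructor <;> linarith
  intro t ht x
  have hTt : 0 < T - t := by linarith [ht.2]
  have hfin : ((T - t) * (mI U t / (2 * Real.pi)) - 1) ^ 2 ≤ 0 := by
    obtain ⟨t₁, htt, ht₁, M, hM⟩ := hbd t ht
    apply back (f := fun t => ((T - t) * (mI U t / (2 * Real.pi)) - 1) ^ 2)
      (f' := fun t => 2 * (mI U t / (2 * Real.pi)) * ((T - t) * (mI U t / (2 * Real.pi)) - 1) ^ 2)
      (L := 2 * M) htt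
    · intro r hr
      exact hk r (hM r hr).1
    · intro r hr
      have h3 := (hM r hr).2 0
      rw [hU r (hM r hr).1] at h3
      have h4 := sq_nonneg ((T - r) * (mI U r / (2 * Real.pi)) - 1)
      nlinarith [h3, h4]
    · exact (hk0 t₁ ht₁).le
  have h3 : (T - t) * (mI U t / (2 * Real.pi)) - 1 = 0 := by
    have := le_antisymm hfin (sq_nonneg _)
    exact pow_eq_zero_iff (two_ne_zero) |>.1 this
  rw [hU t ht x, eq_div_iff hTt.ne', mul_comm]
  linarith

end Pool.Agent.Lib.MPb879c5.PR
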