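import Pool.Agent.Lib.MP_b879c5_an.PR.Spec

/-!
Module IVL: the commutator tends to zero.
-/

set_option autoImplicit false

namespace Pool.Agent.Lib.MPb879c5.PR

open Set Filter MeasureTheory Topology
open Pool.Agent.Lib.MP_b879c5_an

noncomputable section

namespace IVLM

theorem om_smul (a : ℝ) (q : ℝ → ℝ) (s : ℝ) : om (fun x => a * q x) s = a ^ 2 * om q s := by
  unfold om
  rw [← intervalIntegral.integral_const_mul]
  refine intervalIntegral.integral_congr fun y _ => ?_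
  simp only
  ring

theorem Gag_smul (a : ℝ) (q : ℝ → ℝ) : Gag (fun x => a * q x) = a ^ 2 * Gag q := by
  unfold Gag
  rw [← intervalIntegral.integral_const_mul]
  refine intervalIntegral.integral_congr fun s _ => ?_
  rw [om_smul]
  ring

theorem Vl_smul (l a : ℝ) (q : ℝ → ℝ) : Vl l (fun x => a * q x) = a ^ 2 * Vl l q := by
  unfold Vl
  have h : ∫ s in (-(2 * l))..(2 * l), om (fun x => a * q x) s
      = a ^ 2 * ∫ s in (-(2 * l))..(2 * l), om q s := by
    rw [← intervalIntegral.integral_const_mul]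
    refine intervalIntegral.integral_congr fun s _ => ?_
    exact om_smul a q s
  rw [h]
  ring

theorem contDiff_x {T : ℝ} {G : ℝ × ℝ → ℝ} (h : Sm T G) {t : ℝ} (ht : t ∈ Ioo 0 T) :
    ContDiff ℝ 2 (fun y => G (t, y)) := by
  have h1 : ContDiffOn ℝ 2 G (Om T) := h.of_le ENat.LEInfty.out
  have h2 : ContDiff ℝ 2 (fun y : ℝ => (t, y)) := contDiff_const.prodMk contDiff_id
  have h3 : ContDiffOn ℝ 2 (G ∘ fun y : ℝ => (t, y)) univ :=
    h1.comp h2.contDiffOn (fun y _ => mem_Om.mpr ht)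
  exact contDiffOn_univ.mp h3

theorem deriv_R {T : ℝ} {U : ℝ × ℝ → ℝ} (h : Sm T U) {e r : ℝ} (hr : T + e * r ∈ Ioo 0 T) :
    deriv (R T U e r) = fun x => e * Dx U (T + e * r, x) := by
  funext x
  exact ((h.hasDerivAt_x hr x).const_mul e).deriv

theorem pc2_R {T : ℝ} {U : ℝ × ℝ → ℝ} (h : Sol T U) {e r : ℝ} (hr : T + e * r ∈ Ioo 0 T) :
    PC2 (R T U e r) := by
  refine ⟨?_, ?_⟩
  · exact contDiff_const.mul (contDiff_x h.sm hr)
  · intro x
    unfold R
    rw [h.per _ hr x]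

theorem gag_le {T : ℝ} {U : ℝ × ℝ → ℝ} {C c : ℝ} (hD : Dat T U C c) {e r t : ℝ} (he : 0 < e)
    (ht : t < 0) (hrt : r ≤ t) (hr : T + e * r ∈ Ico (T / 2) T) :
    Gag (fun x => e * Dx U (T + e * r, x)) ≤ C / t ^ 2 := by
  have h1 := hD.gag _ hr
  have e1 : T - (T + e * r) = -(e * r) := by ring
  rw [e1] at h1
  have hr0 : r < 0 := lt_of_le_of_lt hrt ht
  have e2 : (-(e * r)) ^ 2 * Gag (fun x => Dx U (T + e * r, x))
      = r ^ 2 * (e ^ 2 * Gag (fun x => Dx U (T + e * r, x))) := by ring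
  rw [e2, ← Gag_smul e (fun x => Dx U (T + e * r, x))] at h1
  have hC : 0 ≤ C := zero_le_one.trans hD.hC
  have ht2 : 0 < t ^ 2 := by
    have := ht.ne
    positivity
  have hr2 : t ^ 2 ≤ r ^ 2 := by nlinarith
  have hr2' : 0 < r ^ 2 := lt_of_lt_of_le ht2 hr2
  have h2 : Gag (fun x => e * Dx U (T + e * r, x)) ≤ C / r ^ 2 := by
    rw [le_div_iff₀ hr2']
    linarith
  exact h2.trans (div_le_div_of_nonneg_left hC ht2 hr2)

theorem meas {T : ℝ} {U : ℝ × ℝ → ℝ} (h : Sm T U)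
    (hAV : ∀ (T : ℝ) (G : ℝ × ℝ → ℝ) (l : ℝ), Sm T G → 0 < l →
      ContinuousOn (fun r => Vl l (fun x => G (r, x))) (Ioo 0 T))
    {e l s t : ℝ} (he : 0 < e) (hl : 0 < l) (ht : t < 0)
    (hs : T / 2 ≤ T + e * s) (hT : 0 < T) :
    ContinuousOn (fun r => Vl l (fun x => e * Dx U (T + e * r, x))) (Icc s t) := by
  have h1 := hAV T (Dx U) l h.dx hl
  have h2 : ContinuousOn (fun r : ℝ => T + e * r) (Icc s t) := by fun_prop
  have h3 : MapsTo (fun r : ℝ => T + e * r) (Icc s t) (Ioo 0 T) := by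
    intro r hr
    have h4 : e * s ≤ e * r := mul_le_mul_of_nonneg_left hr.1 he.le
    have h5 : e * r < 0 := mul_neg_of_pos_of_neg he (lt_of_le_of_lt hr.2 ht)
    exact ⟨by change 0 < T + e * r; linarith, by change T + e * r < T; linarith⟩
  have h6 := h1.comp h2 h3
  have h7 : (fun r => Vl l (fun x => e * Dx U (T + e * r, x)))
      = fun r => e ^ 2 * (((fun r => Vl l (fun x => Dx U (r, x))) ∘ fun r : ℝ => T + e * r) r) := by
    funext r
    rw [Vl_smul]
    rfl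
  rw [h7]
  exact continuousOn_const.mul h6

end IVLM

open IVLM in
theorem specIVL (hL2D : SpecL2D) (hVLC : SpecVLC) (hAVD : SpecAVD) : SpecIVL := by
  intro T U C c hD ε v hε hε0 hConv s t hst ht η hη l₁ hl₁
  have hT := hD.hT
  have hC0 : 0 ≤ C := zero_le_one.trans hD.hC
  have hs0 : s < 0 := hst.trans ht
  -- large indices
  obtain ⟨k₀, hk₀⟩ : ∃ k₀, ∀ k ≥ k₀, T / 2 ≤ T + ε k * s := by
    have h1 : Tendsto (fun k => T + ε k * s) atTop (𝓝 (T + 0 * s)) :=
      tendsto_const_nhds.add (hε0.mul_const s)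
    have h2 : T / 2 < T + 0 * s := by rw [zero_mul, add_zero]; linarith
    obtain ⟨k₀, hk₀⟩ := (h1.eventually (eventually_gt_nhds h2)).exists_forall_of_atTop
    exact ⟨k₀, fun k hk => (hk₀ k hk).le⟩
  have hmem : ∀ k, ∀ r ∈ Icc s t, T + ε (k + k₀) * r ∈ Ico (T / 2) T := by
    intro k r hr
    have h1 := hk₀ (k + k₀) (Nat.le_add_left _ _)
    have h4 : ε (k + k₀) * s ≤ ε (k + k₀) * r := mul_le_mul_of_nonneg_left hr.1 (hε _).le
    have h5 : ε (k + k₀) * r < 0 := mul_neg_of_pos_of_neg (hε _) (lt_of_le_of_lt hr.2 ht)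
    exact ⟨by linarith, by linarith⟩
  have hmem' : ∀ k, ∀ r ∈ Icc s t, T + ε (k + k₀) * r ∈ Ioo 0 T := by
    intro k r hr
    have := hmem k r hr
    exact ⟨by linarith [this.1], this.2⟩
  have hpc : ∀ k, ∀ r ∈ Icc s t, PC2 (R T U (ε (k + k₀)) r) := fun k r hr =>
    pc2_R hD.sol (hmem' k r hr)
  have hder : ∀ k, ∀ r ∈ Icc s t, deriv (R T U (ε (k + k₀)) r)
      = fun x => ε (k + k₀) * Dx U (T + ε (k + k₀) * r, x) := fun k r hr =>
    deriv_R hD.sol.sm (hmem' k r hr)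
  have hgag : ∀ k, ∀ r ∈ Icc s t, Gag (deriv (R T U (ε (k + k₀)) r)) ≤ C / t ^ 2 := by
    intro k r hr
    rw [hder k r hr]
    exact gag_le hD (hε _) ht hr.2 (hmem k r hr)
  -- the limits
  have hlim : ∀ r, r ∈ Icc s t → ∃ Φ : ℝ → ℝ,
      (∀ l, 0 < l → l ≤ 1 → Tendsto (fun k => Vl l (deriv (R T U (ε (k + k₀)) r))) atTop
        (𝓝 (Φ l))) ∧ Tendsto Φ (𝓝[>] 0) (𝓝 0) := by
    intro r hr
    refine hVLC (fun k => R T U (ε (k + k₀)) r) (v r) (C / t ^ 2) (fun k => hpc k r hr) ?_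
      (fun k => hgag k r hr)
    intro η' hη'
    have h1 := hConv (-t) (-s) (by linarith) (by linarith) η' hη'
    have h2 := (tendsto_add_atTop_nat k₀).eventually h1
    filter_upwards [h2] with k hk x
    exact hk r ⟨by linarith [hr.1], by linarith [hr.2]⟩ x
  choose! Φ hΦ1 hΦ2 using hlim
  have hbd : ∀ k, ∀ l, 0 < l → l ≤ 1 → ∀ r ∈ Icc s t,
      0 ≤ Vl l (deriv (R T U (ε (k + k₀)) r)) ∧
      Vl l (deriv (R T U (ε (k + k₀)) r)) ≤ 4 * (C / t ^ 2) := by
    intro k l hl hl1 r hr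
    have h1 := hL2D.2.2 (R T U (ε (k + k₀)) r) l (hpc k r hr) hl hl1
    exact ⟨h1.1, h1.2.trans (mul_le_mul_of_nonneg_left (hgag k r hr) (by norm_num))⟩
  have hΦb : ∀ l, 0 < l → l ≤ 1 → ∀ r ∈ Icc s t, 0 ≤ Φ r l ∧ Φ r l ≤ 4 * (C / t ^ 2) := by
    intro l hl hl1 r hr
    have h1 := hΦ1 r hr l hl hl1
    exact ⟨ge_of_tendsto' h1 fun k => (hbd k l hl hl1 r hr).1,
      le_of_tendsto' h1 fun k => (hbd k l hl hl1 r hr).2⟩
  have hsub : uIoc s t ⊆ Icc s t := by
    rw [uIoc_of_le hst.le]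
    exact Ioc_subset_Icc_self
  -- measurability
  have hmeasF : ∀ k l, 0 < l → AEStronglyMeasurable
      (fun r => Vl l (fun x => ε (k + k₀) * Dx U (T + ε (k + k₀) * r, x)))
      (volume.restrict (uIoc s t)) := by
    intro k l hl
    have h1 := meas hD.sol.sm hAVD.2 (hε (k + k₀)) hl ht
      (hk₀ (k + k₀) (Nat.le_add_left _ _)) hT
    exact (h1.mono hsub).aestronglyMeasurable measurableSet_uIoc
  have hptw : ∀ l, 0 < l → l ≤ 1 → ∀ r ∈ Icc s t,
      Tendsto (fun k => Vl l (fun x => ε (k + k₀) * Dx U (T + ε (k + k₀) * r, x))) atTop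
        (𝓝 (Φ r l)) := by
    intro l hl hl1 r hr
    have h1 := hΦ1 r hr l hl hl1
    have h2 : (fun k => Vl l (deriv (R T U (ε (k + k₀)) r)))
        = fun k => Vl l (fun x => ε (k + k₀) * Dx U (T + ε (k + k₀) * r, x)) := by
      funext k
      rw [hder k r hr]
    rwa [h2] at h1
  have hmeasΦ : ∀ l, 0 < l → l ≤ 1 → AEStronglyMeasurable (fun r => Φ r l)
      (volume.restrict (uIoc s t)) := by
    intro l hl hl1
    refine aestronglyMeasurable_of_tendsto_ae atTop (fun k => hmeasF k l hl) ?_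
    refine (ae_restrict_iff' measurableSet_uIoc).mpr (Eventually.of_forall fun r hr => ?_)
    exact hptw l hl hl1 r (hsub hr)
  -- first limit
  have hD1 : ∀ l, 0 < l → l ≤ 1 → Tendsto (fun k => ∫ r in s..t,
      Vl l (fun x => ε (k + k₀) * Dx U (T + ε (k + k₀) * r, x))) atTop
      (𝓝 (∫ r in s..t, Φ r l)) := by
    intro l hl hl1
    refine intervalIntegral.tendsto_integral_filter_of_dominated_convergence
      (fun _ => 4 * (C / t ^ 2)) (Eventually.of_forall fun k => hmeasF k l hl) ?_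
      intervalIntegrable_const ?_
    · refine Eventually.of_forall fun k => Eventually.of_forall fun r hr => ?_
      have h1 := hbd k l hl hl1 r (hsub hr)
      rw [hder k r (hsub hr)] at h1
      rw [Real.norm_eq_abs, abs_of_nonneg h1.1]
      exact h1.2
    · exact Eventually.of_forall fun r hr => hptw l hl hl1 r (hsub hr)
  -- second limit
  have hln0 : ∀ n : ℕ, 0 < 1 / ((n : ℝ) + 1) := fun n => by positivity
  have hln1 : ∀ n : ℕ, 1 / ((n : ℝ) + 1) ≤ 1 := fun n => by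
    rw [div_le_one (by positivity)]
    have : (0 : ℝ) ≤ n := Nat.cast_nonneg n
    linarith
  have hlt : Tendsto (fun n : ℕ => 1 / ((n : ℝ) + 1)) atTop (𝓝 0) :=
    tendsto_one_div_add_atTop_nhds_zero_nat
  have hlt' : Tendsto (fun n : ℕ => 1 / ((n : ℝ) + 1)) atTop (𝓝[>] 0) :=
    tendsto_nhdsWithin_iff.mpr ⟨hlt, Eventually.of_forall hln0⟩
  have hD2 : Tendsto (fun n : ℕ => ∫ r in s..t, Φ r (1 / ((n : ℝ) + 1))) atTop
      (𝓝 (∫ r in s..t, (0 : ℝ))) := by
    refine intervalIntegral.tendsto_integral_filter_of_dominated_convergence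
      (fun _ => 4 * (C / t ^ 2)) (Eventually.of_forall fun n => hmeasΦ _ (hln0 n) (hln1 n)) ?_
      intervalIntegrable_const ?_
    · refine Eventually.of_forall fun n => Eventually.of_forall fun r hr => ?_
      have h1 := hΦb _ (hln0 n) (hln1 n) r (hsub hr)
      rw [Real.norm_eq_abs, abs_of_nonneg h1.1]
      exact h1.2
    · exact Eventually.of_forall fun r hr => (hΦ2 r (hsub hr)).comp hlt'
  rw [intervalIntegral.integral_zero] at hD2
  have hev1 := hD2.eventually (eventually_lt_nhds hη)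
  have hev2 := hlt.eventually (eventually_lt_nhds hl₁)
  obtain ⟨n, hn1, hn2⟩ := (hev1.and hev2).exists
  refine ⟨1 / ((n : ℝ) + 1), hln0 n, hn2, hln1 n, ?_⟩
  have hev3 := (hD1 _ (hln0 n) (hln1 n)).eventually (eventually_lt_nhds hn1)
  obtain ⟨k₁, hk₁⟩ := hev3.exists_forall_of_atTop
  refine eventually_atTop.mpr ⟨k₁ + k₀, fun k hk => ?_⟩
  have h1 := hk₁ (k - k₀) (by omega)
  have h2 : k - k₀ + k₀ = k := by omega
  rw [h2] at h1
  exact h1.le

end

end Pool.Agent.Lib.MPb879c5.PR
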