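import Pool.Agent.Lib.MP_b879c5_an.PR.Spec

/-!
# MP_b879c5_an, module KFN: calculus for the fundamental solution `K`
-/

set_option autoImplicit false

namespace Pool.Agent.Lib.MPb879c5.PR

open Set Filter MeasureTheory Topology
open Pool.Agent.Lib.MP_b879c5_an

noncomputable section

namespace KFNM

/-- The denominator is positive on `(s,t]` (and stays away from zero). -/
theorem den_ge (s v t r : ℝ) (hr : r ∈ Ioc s t) : min 1 (1 - v * (t - s)) ≤ 1 - v * (r - s) := by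
  obtain ⟨h1, h2⟩ := hr
  rcases le_or_gt v 0 with hv | hv
  · have h3 : v * (r - s) ≤ 0 := mul_nonpos_of_nonpos_of_nonneg hv (by linarith)
    exact le_trans (min_le_left _ _) (by linarith)
  · have h3 : v * (r - s) ≤ v * (t - s) := mul_le_mul_of_nonneg_left (by linarith) hv.le
    exact le_trans (min_le_right _ _) (by linarith)

theorem p1 (y s v t X' : ℝ) (X : ℝ → ℝ) (hst : s < t) (hv : v * (t - s) < 1) (hX : HasDerivAt X X' t) :
    HasDerivAt (fun r => K y s v (X r) r)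
      (Kx y s v (X t) t ^ 2 + K y s v (X t) t ^ 2 + Kx y s v (X t) t * X') t := by
  have hd : (1 - v * (t - s)) ≠ 0 := by
    have : 0 < 1 - v * (t - s) := by linarith
    exact this.ne'
  have hτ : t - s ≠ 0 := by
    have : 0 < t - s := by linarith
    exact this.ne'
  have h1 : HasDerivAt (fun r => (X r - y) / 2) (X' / 2) t := (hX.sub_const y).div_const 2
  have h2 := (h1.cos).pow 2
  have h3 := (h1.sin).pow 2
  have h4 : HasDerivAt (fun r : ℝ => r - s) 1 t := (hasDerivAt_id t).sub_const s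
  have h5 : HasDerivAt (fun r : ℝ => 1 - v * (r - s)) (-(v * 1)) t := (h4.const_mul v).const_sub 1
  have h6 := (hasDerivAt_const t v).div h5 hd
  have h7 := (h2.mul h6).sub (h3.div h4 hτ)
  have hsin : Real.sin (X t - y) = 2 * Real.sin ((X t - y) / 2) * Real.cos ((X t - y) / 2) := by
    rw [← Real.sin_two_mul]
    congr 1
    ring
  have hcs := Real.sin_sq_add_cos_sq ((X t - y) / 2)
  have hcs2 : Real.sin ((X t - y) / 2) ^ 2 = 1 - Real.cos ((X t - y) / 2) ^ 2 := by linarith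
  have hcs4 : Real.sin ((X t - y) / 2) ^ 4 = (1 - Real.cos ((X t - y) / 2) ^ 2) ^ 2 := by
    rw [← hcs2]; ring
  refine HasDerivAt.congr_deriv (f := fun r => K y s v (X r) r) h7 ?_
  simp only [K, Kx, Pi.pow_apply, Pi.mul_apply, Pi.div_apply]
  rw [hsin]
  generalize Real.sin ((X t - y) / 2) = S at hcs2 hcs4 ⊢
  generalize Real.cos ((X t - y) / 2) = c at hcs2 hcs4 ⊢
  have e1 : (0 * (1 - v * (t - s)) - v * -(v * 1)) / (1 - v * (t - s)) ^ 2 = (v / (1 - v * (t - s))) ^ 2 := by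
    rw [div_pow]; ring_nf
  have e2 : ((2 : ℕ) * S ^ (2 - 1) * (c * (X' / 2)) * (t - s) - S ^ 2 * 1) / (t - s) ^ 2
      = S * c * X' * (1 / (t - s)) - S ^ 2 * (1 / (t - s)) ^ 2 := by
    field_simp
    push_cast
    ring
  have e3 : S ^ 2 / (t - s) = S ^ 2 * (1 / (t - s)) := by ring
  rw [e1, e2, e3]
  generalize v / (1 - v * (t - s)) = a
  generalize 1 / (t - s) = b
  push_cast
  simp only [Nat.add_one_sub_one, pow_one]
  have key : a ^ 2 * c ^ 2 + b ^ 2 * S ^ 2 = S ^ 2 * c ^ 2 * (a + b) ^ 2 + (c ^ 2 * a - S ^ 2 * b) ^ 2 := by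
    have h8 : S ^ 2 * c ^ 2 * (a + b) ^ 2 + (c ^ 2 * a - S ^ 2 * b) ^ 2
        = a ^ 2 * c ^ 2 * (S ^ 2 + c ^ 2) + b ^ 2 * S ^ 2 * (S ^ 2 + c ^ 2) := by ring
    have h9 : S ^ 2 + c ^ 2 = 1 := by rw [hcs2]; ring
    rw [h8, h9]; ring
  linear_combination key

theorem p2 (y s v c r : ℝ) (hsr : s < r) (hv : v * (r - s) < 1) :
    HasDerivAt (Xp y s v c) (-2 * Kx y s v (Xp y s v c r) r) r := by
  have hd : (1 - v * (r - s)) ≠ 0 := by
    have : 0 < 1 - v * (r - s) := by linarith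
    exact this.ne'
  have hτ : r - s ≠ 0 := by
    have : 0 < r - s := by linarith
    exact this.ne'
  have h4 : HasDerivAt (fun r : ℝ => r - s) 1 r := (hasDerivAt_id r).sub_const s
  have h5 : HasDerivAt (fun r : ℝ => 1 - v * (r - s)) (-(v * 1)) r := (h4.const_mul v).const_sub 1
  have h6 := ((h4.const_mul c).div h5 hd).arctan.const_mul 2
  have h7 := h6.const_add y
  refine HasDerivAt.congr_deriv (f := Xp y s v c) h7 ?_
  simp only [Kx, Xp, Pi.div_apply]
  set z : ℝ := c * (r - s) / (1 - v * (r - s)) with hz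
  have e1 : y + 2 * Real.arctan z - y = 2 * Real.arctan z := by ring
  have hpos : 0 < 1 + z ^ 2 := by positivity
  have hsq : Real.sqrt (1 + z ^ 2) ^ 2 = 1 + z ^ 2 := Real.sq_sqrt hpos.le
  have e2 : Real.sin (2 * Real.arctan z) = 2 * z / (1 + z ^ 2) := by
    rw [Real.sin_two_mul, Real.sin_arctan, Real.cos_arctan]
    have h8 : 2 * (z / Real.sqrt (1 + z ^ 2)) * (1 / Real.sqrt (1 + z ^ 2))
        = 2 * z / (Real.sqrt (1 + z ^ 2) ^ 2) := by ring
    rw [h8, hsq]
  have e3 : v / (1 - v * (r - s)) + 1 / (r - s) = 1 / ((r - s) * (1 - v * (r - s))) := by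
    field_simp
    ring
  rw [e1, e2, e3]
  have e4 : 2 * z / (1 + z ^ 2) = (1 / (1 + z ^ 2)) * (2 * (c * (r - s) / (1 - v * (r - s)))) := by
    rw [hz]; ring
  rw [e4]
  field_simp
  ring

theorem p3 (y s v L : ℝ) (X : ℝ → ℝ) (h : ∀ᶠ r in 𝓝[>] s, |X r - y| ≤ L * (r - s)) :
    Tendsto (fun r => K y s v (X r) r) (𝓝[>] s) (𝓝 v) := by
  have hr0 : Tendsto (fun r : ℝ => r - s) (𝓝[>] s) (𝓝 0) := by
    have h1 : Tendsto (fun r : ℝ => r - s) (𝓝 s) (𝓝 (s - s)) := (continuous_id.sub continuous_const).tendsto s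
    rw [sub_self] at h1
    exact h1.mono_left nhdsWithin_le_nhds
  have hL0 : Tendsto (fun r : ℝ => L * (r - s)) (𝓝[>] s) (𝓝 0) := by
    have := hr0.const_mul L
    rwa [mul_zero] at this
  have hX0 : Tendsto (fun r => X r - y) (𝓝[>] s) (𝓝 0) := by
    refine squeeze_zero_norm' ?_ hL0
    filter_upwards [h] with r hr
    rw [Real.norm_eq_abs]
    exact hr
  have hX1 : Tendsto (fun r => (X r - y) / 2) (𝓝[>] s) (𝓝 0) := by
    have := hX0.div_const 2
    rwa [zero_div] at this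
  have hcos : Tendsto (fun r => Real.cos ((X r - y) / 2) ^ 2) (𝓝[>] s) (𝓝 1) := by
    have h1 := ((Real.continuous_cos.tendsto 0).comp hX1).pow 2
    rw [Real.cos_zero, one_pow] at h1
    exact h1
  have hden : Tendsto (fun r : ℝ => v / (1 - v * (r - s))) (𝓝[>] s) (𝓝 v) := by
    have h1 : Tendsto (fun r : ℝ => 1 - v * (r - s)) (𝓝[>] s) (𝓝 (1 - v * 0)) := (hr0.const_mul v).const_sub 1
    rw [mul_zero, sub_zero] at h1
    have h2 := (tendsto_const_nhds (x := v) (f := 𝓝[>] s)).div h1 one_ne_zero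
    rw [div_one] at h2
    exact h2
  have hsin : Tendsto (fun r => Real.sin ((X r - y) / 2) ^ 2 / (r - s)) (𝓝[>] s) (𝓝 0) := by
    have hb : Tendsto (fun r : ℝ => L ^ 2 / 4 * (r - s)) (𝓝[>] s) (𝓝 0) := by
      have := hr0.const_mul (L ^ 2 / 4)
      rwa [mul_zero] at this
    refine squeeze_zero' ?_ ?_ hb
    · filter_upwards [self_mem_nhdsWithin] with r hr
      have : 0 < r - s := sub_pos.2 hr
      positivity
    · filter_upwards [self_mem_nhdsWithin, h] with r hr hr2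
      have hpos : 0 < r - s := sub_pos.2 hr
      rw [div_le_iff₀ hpos]
      have h1 : Real.sin ((X r - y) / 2) ^ 2 ≤ ((X r - y) / 2) ^ 2 := Real.sin_sq_le_sq
      have h2 : (X r - y) ^ 2 ≤ (L * (r - s)) ^ 2 := by
        rw [← sq_abs (X r - y)]
        exact pow_le_pow_left₀ (abs_nonneg _) hr2 2
      nlinarith [h1, h2]
  have h9 := (hcos.mul hden).sub hsin
  rw [one_mul, sub_zero] at h9
  exact h9

theorem p4 (y s v x t κ M : ℝ) (_hst : s < t) (hκ : 0 < κ) (hv : v * (t - s) ≤ 1 - κ) (hM : v ≤ M)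
    (hM0 : 0 ≤ M) : ∀ r ∈ Ioc s t, K y s v x r ≤ M / κ := by
  intro r hr
  obtain ⟨h1, h2⟩ := hr
  have hpos : 0 < r - s := by linarith
  have hs : 0 ≤ Real.sin ((x - y) / 2) ^ 2 / (r - s) := by positivity
  have hq : 0 ≤ M / κ := by positivity
  have hc : 0 ≤ Real.cos ((x - y) / 2) ^ 2 := by positivity
  have hc1 : Real.cos ((x - y) / 2) ^ 2 ≤ 1 := Real.cos_sq_le_one _
  have hmain : Real.cos ((x - y) / 2) ^ 2 * (v / (1 - v * (r - s))) ≤ M / κ := by
    rcases le_or_gt v 0 with hv0 | hv0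
    · have h3 : v * (r - s) ≤ 0 := mul_nonpos_of_nonpos_of_nonneg hv0 hpos.le
      have h4 : v / (1 - v * (r - s)) ≤ 0 := div_nonpos_of_nonpos_of_nonneg hv0 (by linarith)
      exact le_trans (mul_nonpos_of_nonneg_of_nonpos hc h4) hq
    · have h3 : v * (r - s) ≤ v * (t - s) := mul_le_mul_of_nonneg_left (by linarith) hv0.le
      have h4 : κ ≤ 1 - v * (r - s) := by linarith
      have h5 : v / (1 - v * (r - s)) ≤ M / κ := div_le_div₀ hM0 hM hκ h4
      calc Real.cos ((x - y) / 2) ^ 2 * (v / (1 - v * (r - s)))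
          ≤ Real.cos ((x - y) / 2) ^ 2 * (M / κ) := mul_le_mul_of_nonneg_left h5 hc
        _ ≤ 1 * (M / κ) := mul_le_mul_of_nonneg_right hc1 hq
        _ = M / κ := one_mul _
  show Real.cos ((x - y) / 2) ^ 2 * (v / (1 - v * (r - s))) - Real.sin ((x - y) / 2) ^ 2 / (r - s) ≤ M / κ
  linarith

theorem p5 (T e y s v x t : ℝ) (he : 0 < e) :
    e * K y (T + e * s) v x (T + e * t) = K y s (e * v) x t := by
  have h1 : T + e * t - (T + e * s) = e * (t - s) := by ring
  simp only [K]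
  rw [h1]
  have h2 : e * (Real.sin ((x - y) / 2) ^ 2 / (e * (t - s))) = Real.sin ((x - y) / 2) ^ 2 / (t - s) := by
    rw [← mul_div_assoc, mul_div_mul_left _ _ he.ne']
  have h3 : e * v * (t - s) = v * (e * (t - s)) := by ring
  rw [mul_sub, h2, h3]
  ring

theorem abs_arctan_le (z : ℝ) : |Real.arctan z| ≤ |z| := by
  have key : ∀ w : ℝ, 0 ≤ w → Real.arctan w ≤ w := by
    intro w hw
    have h1 : 0 ≤ Real.arctan w := Real.arctan_nonneg.2 hw
    have h2 := Real.le_tan h1 (Real.arctan_lt_pi_div_two w)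
    rwa [Real.tan_arctan] at h2
  rcases le_total 0 z with hz | hz
  · rw [abs_of_nonneg hz, abs_of_nonneg (Real.arctan_nonneg.2 hz)]
    exact key z hz
  · have h1 := key (-z) (by linarith)
    rw [Real.arctan_neg] at h1
    rw [abs_of_nonpos hz, abs_of_nonpos (by
      have := Real.arctan_nonneg.2 (show 0 ≤ -z by linarith)
      rw [Real.arctan_neg] at this
      linarith)]
    exact h1

theorem p6 (y s v c t : ℝ) (_hst : s < t) (hv : v * (t - s) < 1) :
    ∃ L, ∀ r ∈ Ioc s t, |Xp y s v c r - y| ≤ L * (r - s) := by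
  have hδ : 0 < min 1 (1 - v * (t - s)) := lt_min one_pos (by linarith)
  refine ⟨2 * (|c| / min 1 (1 - v * (t - s))), fun r hr => ?_⟩
  have h1 := den_ge s v t r hr
  have hpos : 0 < r - s := by linarith [hr.1]
  have hd : 0 < 1 - v * (r - s) := lt_of_lt_of_le hδ h1
  have e1 : Xp y s v c r - y = 2 * Real.arctan (c * (r - s) / (1 - v * (r - s))) := by
    simp only [Xp]; ring
  rw [e1, abs_mul, abs_two]
  have h2 := abs_arctan_le (c * (r - s) / (1 - v * (r - s)))
  have h3 : |c * (r - s) / (1 - v * (r - s))| = |c| / (1 - v * (r - s)) * (r - s) := by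
    rw [abs_div, abs_mul, abs_of_pos hpos, abs_of_pos hd]; ring
  have h4 : |c| / (1 - v * (r - s)) ≤ |c| / min 1 (1 - v * (t - s)) :=
    div_le_div_of_nonneg_left (abs_nonneg c) hδ h1
  have h5 : |c| / (1 - v * (r - s)) * (r - s) ≤ |c| / min 1 (1 - v * (t - s)) * (r - s) :=
    mul_le_mul_of_nonneg_right h4 hpos.le
  rw [h3] at h2
  linarith

theorem p7 (y s v t x : ℝ) (hst : s < t) (hv : v * (t - s) < 1) (hx : |x - y| < Real.pi) :
    ∃ c, Xp y s v c t = x := by
  have hd : (1 - v * (t - s)) ≠ 0 := by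
    have : 0 < 1 - v * (t - s) := by linarith
    exact this.ne'
  have hτ : t - s ≠ 0 := by
    have : 0 < t - s := by linarith
    exact this.ne'
  refine ⟨Real.tan ((x - y) / 2) * (1 - v * (t - s)) / (t - s), ?_⟩
  rw [abs_lt] at hx
  have e1 : Real.tan ((x - y) / 2) * (1 - v * (t - s)) / (t - s) * (t - s) / (1 - v * (t - s))
      = Real.tan ((x - y) / 2) := by
    rw [div_mul_cancel₀ _ hτ, mul_div_cancel_right₀ _ hd]
  simp only [Xp]
  rw [e1, Real.arctan_tan (by linarith [hx.1]) (by linarith [hx.2])]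
  ring

theorem p8 (y s v t x : ℝ) : K y s v (x + 2 * Real.pi) t = K y s v x t ∧
    K (y + 2 * Real.pi) s v x t = K y s v x t := by
  have e1 : (x + 2 * Real.pi - y) / 2 = (x - y) / 2 + Real.pi := by ring
  have e2 : (x - (y + 2 * Real.pi)) / 2 = (x - y) / 2 - Real.pi := by ring
  constructor
  · simp only [K]
    rw [e1, Real.cos_add_pi, Real.sin_add_pi, neg_sq, neg_sq]
  · simp only [K]
    rw [e2, Real.cos_sub_pi, Real.sin_sub_pi, neg_sq, neg_sq]

end KFNM

theorem specKFN : SpecKFN :=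
  ⟨KFNM.p1, KFNM.p2, KFNM.p3, KFNM.p4, KFNM.p5, KFNM.p6, KFNM.p7, KFNM.p8⟩

end

end Pool.Agent.Lib.MPb879c5.PR
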