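import Pool.Agent.Lib.MP_b879c5_an.PR.Spec

/-!
# MP_b879c5_an : module KNK (no kinks)
-/

set_option autoImplicit false

namespace Pool.Agent.Lib.MPb879c5.PR

open Set Filter MeasureTheory Topology
open Pool.Agent.Lib.MP_b879c5_an

namespace KNKM

theorem second {f : ℝ → ℝ} (hf : PC2 f) {h : ℝ} (hh : 0 < h) (h1 : h ≤ 1) (x : ℝ) :
    (f (x + h) + f (x - h) - 2 * f x) ^ 2 ≤ h ^ 2 * Vl h (deriv f) := by
  set p := deriv f with hp
  have hpc : Continuous p := hf.sm.continuous_deriv (by norm_num)
  have hfd : ∀ y, HasDerivAt f (p y) y := fun y =>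
    (hf.sm.differentiable (by norm_num) y).hasDerivAt
  have hper : ∀ y, p (y + 2 * Real.pi) = p y := by
    intro y
    have h2 : (fun y => f (y + 2 * Real.pi)) = f := funext hf.per
    have h3 := deriv_comp_add_const f (2 * Real.pi) y
    rw [h2] at h3
    exact h3.symm
  have hpi : (1 : ℝ) < 2 * Real.pi := by
    have := Real.pi_gt_three
    linarith
  -- FTC
  have hftc : ∀ a b : ℝ, ∫ y in a..b, p (x + y) = f (x + b) - f (x + a) := by
    intro a b
    rw [intervalIntegral.integral_comp_add_left (fun y => p y) x]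
    exact intervalIntegral.integral_eq_sub_of_hasDerivAt (fun y _ => hfd y)
      (hpc.intervalIntegrable _ _)
  set D : ℝ := f (x + h) + f (x - h) - 2 * f x with hD
  have hG1 : ∀ b : ℝ, ∫ a in (0)..h, (p (x + a) - p (x + b)) = (f (x + h) - f x) - h * p (x + b) := by
    intro b
    rw [intervalIntegral.integral_sub, hftc, intervalIntegral.integral_const, add_zero, sub_zero,
      smul_eq_mul]
    · exact (hpc.comp (continuous_const.add continuous_id)).intervalIntegrable _ _
    · exact intervalIntegrable_const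
  have hG2 : ∫ b in (-h)..0, (∫ a in (0)..h, (p (x + a) - p (x + b))) = h * D := by
    simp_rw [hG1]
    rw [intervalIntegral.integral_sub, intervalIntegral.integral_const,
      intervalIntegral.integral_const_mul, hftc, add_zero, smul_eq_mul, hD, ← sub_eq_add_neg]
    · ring
    · exact intervalIntegrable_const
    · exact (continuous_const.mul
        (hpc.comp (continuous_const.add continuous_id))).intervalIntegrable _ _
  -- Cauchy-Schwarz
  have hQc : Continuous fun b : ℝ => ∫ a in (0)..h, (p (x + a) - p (x + b)) ^ 2 := by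
    apply intervalIntegral.continuous_parametric_intervalIntegral_of_continuous'
    unfold Function.uncurry
    fun_prop
  have hQc' : Continuous fun b : ℝ =>
      ∫ s in (-(2 * h))..(2 * h), (p (x + b + s) - p (x + b)) ^ 2 := by
    apply intervalIntegral.continuous_parametric_intervalIntegral_of_continuous'
    unfold Function.uncurry
    fun_prop
  have hGc : Continuous fun b : ℝ => ∫ a in (0)..h, (p (x + a) - p (x + b)) := by
    simp_rw [hG1]
    fun_prop
  have hC1 : (h * D) ^ 2 ≤ h * ∫ b in (-h)..0, (∫ a in (0)..h, (p (x + a) - p (x + b))) ^ 2 := by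
    have h2 := sq_integral_le (a := -h) (b := 0) (by linarith) hGc.continuousOn
    rw [hG2, zero_sub, neg_neg] at h2
    exact h2
  have hC2 : ∫ b in (-h)..0, (∫ a in (0)..h, (p (x + a) - p (x + b))) ^ 2 ≤
      ∫ b in (-h)..0, h * ∫ a in (0)..h, (p (x + a) - p (x + b)) ^ 2 := by
    apply intervalIntegral.integral_mono_on (by linarith)
      ((hGc.pow 2).intervalIntegrable _ _) ((continuous_const.mul hQc).intervalIntegrable _ _)
    intro b _
    have h2 := sq_integral_le (f := fun a => p (x + a) - p (x + b)) (a := 0) (b := h) hh.le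
      (by fun_prop)
    rwa [sub_zero] at h2
  -- change of variables
  have hC3 : ∫ b in (-h)..0, (∫ a in (0)..h, (p (x + a) - p (x + b)) ^ 2) ≤
      ∫ b in (-h)..0, (∫ s in (-(2 * h))..(2 * h), (p (x + b + s) - p (x + b)) ^ 2) := by
    apply intervalIntegral.integral_mono_on (by linarith)
      (hQc.intervalIntegrable _ _) (hQc'.intervalIntegrable _ _)
    intro b hb
    have h2 : ∫ a in (0)..h, (p (x + a) - p (x + b)) ^ 2 =
        ∫ s in (-b)..(h - b), (p (x + b + s) - p (x + b)) ^ 2 := by
      have h3 := intervalIntegral.integral_comp_add_left (a := -b) (b := h - b)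
        (fun a => (p (x + a) - p (x + b)) ^ 2) b
      rw [add_neg_cancel, add_sub_cancel] at h3
      rw [← h3]
      apply intervalIntegral.integral_congr
      intro s _
      show (p (x + (b + s)) - p (x + b)) ^ 2 = (p (x + b + s) - p (x + b)) ^ 2
      rw [add_assoc]
    rw [h2]
    apply intervalIntegral.integral_mono_interval
    · linarith [hb.2]
    · linarith
    · linarith [hb.1]
    · exact Filter.Eventually.of_forall fun s => sq_nonneg _
    · apply Continuous.intervalIntegrable
      fun_prop
  have hC4 : ∫ b in (-h)..0, (∫ s in (-(2 * h))..(2 * h), (p (x + b + s) - p (x + b)) ^ 2) =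
      ∫ s in (-(2 * h))..(2 * h), (∫ b in (-h)..0, (p (x + b + s) - p (x + b)) ^ 2) := by
    apply intervalIntegral_intervalIntegral_swap
    have hc : Continuous (Function.uncurry fun b s : ℝ => (p (x + b + s) - p (x + b)) ^ 2) := by
      unfold Function.uncurry
      fun_prop
    exact (hc.continuousOn.integrableOn_compact (isCompact_uIcc.prod isCompact_uIcc)).mono_set
      (Set.prod_mono uIoc_subset_uIcc uIoc_subset_uIcc)
  have hinc : Continuous fun s : ℝ => ∫ b in (-h)..0, (p (x + b + s) - p (x + b)) ^ 2 := by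
    apply intervalIntegral.continuous_parametric_intervalIntegral_of_continuous'
    unfold Function.uncurry
    fun_prop
  have homc : Continuous fun s : ℝ => om p s := by
    unfold om
    apply intervalIntegral.continuous_parametric_intervalIntegral_of_continuous'
    unfold Function.uncurry
    fun_prop
  have hC5 : ∫ s in (-(2 * h))..(2 * h), (∫ b in (-h)..0, (p (x + b + s) - p (x + b)) ^ 2) ≤
      ∫ s in (-(2 * h))..(2 * h), om p s := by
    apply intervalIntegral.integral_mono_on (by linarith)
      (hinc.intervalIntegrable _ _) (homc.intervalIntegrable _ _)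
    intro s _
    have h3 := intervalIntegral.integral_comp_add_left (a := -h) (b := 0)
      (fun y => (p (y + s) - p y) ^ 2) x
    rw [h3, add_zero]
    have h4 : Function.Periodic (fun y => (p (y + s) - p y) ^ 2) (2 * Real.pi) := by
      intro y
      show (p (y + 2 * Real.pi + s) - p (y + 2 * Real.pi)) ^ 2 = (p (y + s) - p y) ^ 2
      rw [add_right_comm, hper, hper]
    have h5 := h4.intervalIntegral_add_eq (x + -h) 0
    rw [zero_add] at h5
    unfold om
    rw [← h5]
    apply intervalIntegral.integral_mono_interval le_rfl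
    · linarith
    · linarith
    · exact Filter.Eventually.of_forall fun s => sq_nonneg _
    · apply Continuous.intervalIntegrable
      fun_prop
  have hV : h ^ 2 * Vl h p = ∫ s in (-(2 * h))..(2 * h), om p s := by
    unfold Vl
    field_simp
  rw [intervalIntegral.integral_const_mul] at hC2
  rw [hV]
  have h6 : (h * D) ^ 2 ≤ h * (h * ∫ s in (-(2 * h))..(2 * h), om p s) := by
    refine hC1.trans (mul_le_mul_of_nonneg_left (hC2.trans ?_) hh.le)
    exact mul_le_mul_of_nonneg_left ((hC3.trans hC4.le).trans hC5) hh.le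
  have h7 : 0 < h ^ 2 := by positivity
  have h8 : h ^ 2 * D ^ 2 ≤ h ^ 2 * ∫ s in (-(2 * h))..(2 * h), om p s := by
    nlinarith [h6]
  exact le_of_mul_le_mul_left h8 h7

end KNKM

open KNKM in
theorem specKNK (hVLC : SpecVLC) : SpecKNK := by
  intro C g hg η hη
  have hgk : ∀ k : ℕ, ∃ f, PC2 f ∧ (∀ x, |f x - g x| ≤ 1 / ((k : ℝ) + 1)) ∧ Gag (deriv f) ≤ C :=
    fun k => hg _ (by positivity)
  choose f hf1 hf2 hf3 using hgk
  have hlim : Tendsto (fun k : ℕ => 1 / ((k : ℝ) + 1)) atTop (𝓝 0) :=
    tendsto_one_div_add_atTop_nhds_zero_nat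
  obtain ⟨Φ, hΦ1, hΦ2⟩ := hVLC f g C hf1 (by
    intro ε hε
    filter_upwards [(tendsto_order.1 hlim).2 ε hε] with k hk x
    exact (hf2 k x).trans hk.le) hf3
  have hη2 : 0 < η ^ 2 := by positivity
  have h1 := (tendsto_order.1 hΦ2).2 _ hη2
  rw [eventually_nhdsWithin_iff, Metric.eventually_nhds_iff] at h1
  obtain ⟨ε, hε, h1⟩ := h1
  refine ⟨min (ε / 2) 1, by positivity, fun h hh hh0 x => ?_⟩
  have hhε : h < ε := by
    have := hh0.trans (min_le_left _ _)
    linarith
  have hh1 : h ≤ 1 := hh0.trans (min_le_right _ _)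
  have h2 : Φ h < η ^ 2 := h1 (by rw [Real.dist_eq, sub_zero, abs_of_pos hh]; exact hhε) hh
  have h3 : ∀ k, |g (x + h) + g (x - h) - 2 * g x| ≤
      h * Real.sqrt (Vl h (deriv (f k))) + 4 * (1 / ((k : ℝ) + 1)) := by
    intro k
    have h4 := second (hf1 k) hh hh1 x
    have h5 : |f k (x + h) + f k (x - h) - 2 * f k x| ≤ h * Real.sqrt (Vl h (deriv (f k))) := by
      have h9 : h * Real.sqrt (Vl h (deriv (f k))) = Real.sqrt (h ^ 2 * Vl h (deriv (f k))) := by
        rw [Real.sqrt_mul (sq_nonneg h), Real.sqrt_sq hh.le]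
      rw [h9]
      exact Real.abs_le_sqrt h4
    have a1 := hf2 k (x + h)
    have a2 := hf2 k (x - h)
    have a3 := hf2 k x
    rw [abs_le] at a1 a2 a3 h5 ⊢
    constructor <;> linarith [a1.1, a1.2, a2.1, a2.2, a3.1, a3.2, h5.1, h5.2]
  have h6 : Tendsto (fun k => h * Real.sqrt (Vl h (deriv (f k))) + 4 * (1 / ((k : ℝ) + 1))) atTop
      (𝓝 (h * Real.sqrt (Φ h) + 4 * 0)) :=
    (((Real.continuous_sqrt.tendsto _).comp (hΦ1 h hh hh1)).const_mul h).add (hlim.const_mul 4)
  have h7 := ge_of_tendsto' h6 h3
  rw [mul_zero, add_zero] at h7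
  refine h7.trans ?_
  rw [mul_comm η h]
  apply mul_le_mul_of_nonneg_left _ hh.le
  rw [← Real.sqrt_sq hη.le]
  exact Real.sqrt_le_sqrt h2.le

end Pool.Agent.Lib.MPb879c5.PR
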