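import Pool.Agent.Lib.MP_b879c5_an.PR.Spec

/-!
# MP_b879c5_an, module L2D: interpolation, and two elementary facts on the Gagliardo integral
-/

set_option autoImplicit false

namespace Pool.Agent.Lib.MPb879c5.PR

open Set Filter MeasureTheory Topology
open Pool.Agent.Lib.MP_b879c5_an

noncomputable section

namespace L2DM

lemma om_nonneg (q : ℝ → ℝ) (s : ℝ) : 0 ≤ om q s := by
  unfold om
  apply intervalIntegral.integral_nonneg (by positivity)
  intro y _
  positivity

lemma cont_om {q : ℝ → ℝ} (hq : Continuous q) : Continuous (om q) := by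
  have h : Continuous (Function.uncurry fun (s y : ℝ) => (q (y + s) - q y) ^ 2) := by
    unfold Function.uncurry
    fun_prop
  exact intervalIntegral.continuous_parametric_intervalIntegral_of_continuous' h 0 (2 * Real.pi)

lemma cont_deriv {f : ℝ → ℝ} (hf : PC2 f) : Continuous (deriv f) :=
  hf.sm.continuous_deriv (by norm_num)

lemma per_deriv {f : ℝ → ℝ} {c : ℝ} (h : ∀ x, f (x + c) = f x) (x : ℝ) :
    deriv f (x + c) = deriv f x := by
  have h1 : (fun x => f (x + c)) = f := funext h
  have h2 : deriv (fun x => f (x + c)) x = deriv f (x + c) := deriv_comp_add_const f c x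
  rw [← h2, h1]

lemma lip {f : ℝ → ℝ} (hf : PC2 f) : ∃ L : ℝ, 0 ≤ L ∧
    ∀ y s : ℝ, |deriv f (y + s) - deriv f y| ≤ L * |s| := by
  have h1 : ContDiff ℝ 1 (deriv f) := by
    have h := hf.sm
    have e : (2 : WithTop ℕ∞) = 1 + 1 := by norm_num
    rw [e, contDiff_succ_iff_deriv] at h
    exact h.2.2
  have h2 : Continuous (deriv (deriv f)) := h1.continuous_deriv le_rfl
  have h3 : Function.Periodic (deriv (deriv f)) (2 * Real.pi) := per_deriv (per_deriv hf.per)
  obtain ⟨L, hL⟩ := (isCompact_Icc (a := (0 : ℝ)) (b := 2 * Real.pi)).exists_bound_of_continuousOn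
    h2.continuousOn
  have hpi : (0 : ℝ) < 2 * Real.pi := by positivity
  have hb : ∀ x, ‖deriv (deriv f) x‖ ≤ L := by
    intro x
    obtain ⟨y, hy, hxy⟩ := h3.exists_mem_Ico₀ hpi x
    rw [hxy]
    exact hL y ⟨hy.1, hy.2.le⟩
  refine ⟨L, (norm_nonneg _).trans (hb 0), fun y s => ?_⟩
  have h4 := Convex.norm_image_sub_le_of_norm_deriv_le (f := deriv f) (C := L) (s := univ)
    (x := y) (y := y + s)
    (fun x _ => (h1.differentiable (by norm_num)).differentiableAt) (fun x _ => hb x) convex_univ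
    (mem_univ _) (mem_univ _)
  simpa [Real.norm_eq_abs] using h4

lemma om_bound {q : ℝ → ℝ} (hq : Continuous q) {L : ℝ}
    (h : ∀ y s : ℝ, |q (y + s) - q y| ≤ L * |s|) (s : ℝ) :
    om q s ≤ 2 * Real.pi * L ^ 2 * s ^ 2 := by
  unfold om
  have hpi : (0 : ℝ) ≤ 2 * Real.pi := by positivity
  have h1 : (∫ y in (0)..(2 * Real.pi), (q (y + s) - q y) ^ 2) ≤
      ∫ _ in (0)..(2 * Real.pi), L ^ 2 * s ^ 2 := by
    apply intervalIntegral.integral_mono_on hpi
    · exact (by fun_prop : Continuous fun y => (q (y + s) - q y) ^ 2).intervalIntegrable _ _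
    · exact continuous_const.intervalIntegrable _ _
    · intro y _
      have h2 := h y s
      have h3 : (q (y + s) - q y) ^ 2 = |q (y + s) - q y| ^ 2 := (sq_abs _).symm
      have h4 : L ^ 2 * s ^ 2 = (L * |s|) ^ 2 := by rw [mul_pow, sq_abs]
      rw [h3, h4]
      exact pow_le_pow_left₀ (abs_nonneg _) h2 2
  refine h1.trans (le_of_eq ?_)
  rw [intervalIntegral.integral_const, smul_eq_mul]
  ring

lemma ratio_nonneg (q : ℝ → ℝ) (s : ℝ) : 0 ≤ om q s / s ^ 2 := div_nonneg (om_nonneg q s) (sq_nonneg s)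

lemma integrable {f : ℝ → ℝ} (hf : PC2 f) :
    IntervalIntegrable (fun s => om (deriv f) s / s ^ 2) volume (-Real.pi) Real.pi := by
  obtain ⟨L, hL, hlip⟩ := lip hf
  have hq := cont_deriv hf
  have hpi : -Real.pi ≤ Real.pi := by linarith [Real.pi_pos]
  rw [intervalIntegrable_iff_integrableOn_Ioc_of_le hpi]
  refine Measure.integrableOn_of_bounded (M := 2 * Real.pi * L ^ 2) (by simp) ?_ ?_
  · exact ((cont_om hq).measurable.div (by fun_prop)).aestronglyMeasurable
  · refine Eventually.of_forall fun s => ?_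
    rw [Real.norm_eq_abs, abs_of_nonneg (ratio_nonneg _ s)]
    rcases eq_or_ne s 0 with rfl | hs
    · have : om (deriv f) 0 / (0 : ℝ) ^ 2 = 0 := by simp
      rw [this]
      positivity
    · rw [div_le_iff₀ (by positivity)]
      exact om_bound hq hlip s

/-- comparison with the Gagliardo integral -/
lemma sub_int {f : ℝ → ℝ} (hf : PC2 f) {α β B : ℝ} (h1 : -Real.pi ≤ α) (h2 : α ≤ β)
    (h3 : β ≤ Real.pi) (hB : ∀ s ∈ Icc α β, |s| ≤ B) :
    (∫ s in α..β, om (deriv f) s) ≤ B ^ 2 * Gag (deriv f) := by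
  have hq := cont_deriv hf
  have hI := integrable hf
  have hsub : IntervalIntegrable (fun s => om (deriv f) s / s ^ 2) volume α β := by
    refine hI.mono_set ?_
    rw [uIcc_of_le h2, uIcc_of_le (by linarith)]
    exact Icc_subset_Icc h1 h3
  have e1 : (∫ s in α..β, om (deriv f) s) ≤ ∫ s in α..β, B ^ 2 * (om (deriv f) s / s ^ 2) := by
    apply intervalIntegral.integral_mono_on h2
    · exact (cont_om hq).intervalIntegrable _ _
    · exact hsub.const_mul _
    · intro s hs
      rcases eq_or_ne s 0 with rfl | hs0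
      · have : om (deriv f) 0 = 0 := by simp [om]
        rw [this]
        simp
      · have h4 : s ^ 2 ≤ B ^ 2 := by
          rw [← sq_abs s]
          exact pow_le_pow_left₀ (abs_nonneg _) (hB s hs) 2
        have h5 : 0 < s ^ 2 := by positivity
        have h6 := om_nonneg (deriv f) s
        have h7 : om (deriv f) s = s ^ 2 * (om (deriv f) s / s ^ 2) := by field_simp
        calc om (deriv f) s = s ^ 2 * (om (deriv f) s / s ^ 2) := h7
          _ ≤ B ^ 2 * (om (deriv f) s / s ^ 2) :=
            mul_le_mul_of_nonneg_right h4 (ratio_nonneg _ s)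
  have e2 : (∫ s in α..β, om (deriv f) s / s ^ 2) ≤ Gag (deriv f) := by
    unfold Gag
    exact intervalIntegral.integral_mono_interval h1 h2 h3
      (Eventually.of_forall fun s => ratio_nonneg _ s) hI
  refine e1.trans ?_
  rw [intervalIntegral.integral_const_mul]
  exact mul_le_mul_of_nonneg_left e2 (sq_nonneg B)

lemma cs {h : ℝ → ℝ} (hh : Continuous h) {δ : ℝ} (hδ : 0 < δ) :
    (∫ s in (0)..δ, h s) ^ 2 ≤ δ * ∫ s in (0)..δ, h s ^ 2 := by
  set I : ℝ := ∫ s in (0)..δ, h s with hI
  set m : ℝ := I / δ with hm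
  have h0 : 0 ≤ ∫ s in (0)..δ, (h s - m) ^ 2 :=
    intervalIntegral.integral_nonneg hδ.le fun s _ => sq_nonneg _
  have i1 : IntervalIntegrable (fun s => h s ^ 2) volume 0 δ :=
    (by fun_prop : Continuous fun s => h s ^ 2).intervalIntegrable _ _
  have i2 : IntervalIntegrable (fun s => 2 * m * h s) volume 0 δ :=
    (by fun_prop : Continuous fun s => 2 * m * h s).intervalIntegrable _ _
  have i3 : IntervalIntegrable (fun _ : ℝ => m ^ 2) volume 0 δ :=
    continuous_const.intervalIntegrable _ _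
  have e : (∫ s in (0)..δ, (h s - m) ^ 2) = (∫ s in (0)..δ, h s ^ 2) - 2 * m * I + m ^ 2 * δ := by
    have e1 : (fun s => (h s - m) ^ 2) = fun s => (h s ^ 2 - 2 * m * h s) + m ^ 2 := by
      funext s
      ring
    rw [e1, intervalIntegral.integral_add (i1.sub i2) i3, intervalIntegral.integral_sub i1 i2,
      intervalIntegral.integral_const_mul, intervalIntegral.integral_const, smul_eq_mul]
    ring
  rw [e] at h0
  have h1 : 2 * m * I = 2 * I ^ 2 / δ := by rw [hm]; ring
  have h2 : m ^ 2 * δ = I ^ 2 / δ := by rw [hm]; field_simp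
  rw [h1, h2] at h0
  have h3 : I ^ 2 / δ ≤ ∫ s in (0)..δ, h s ^ 2 := by
    have : 2 * I ^ 2 / δ = 2 * (I ^ 2 / δ) := by ring
    linarith
  rw [div_le_iff₀ hδ] at h3
  linarith

lemma point {f : ℝ → ℝ} (hf : PC2 f) {A δ : ℝ} (hA : ∀ x, |f x| ≤ A) (hδ : 0 < δ) (y : ℝ) :
    deriv f y ^ 2 ≤ 8 * A ^ 2 / δ ^ 2 +
      2 / δ * ∫ s in (0)..δ, (deriv f (y + s) - deriv f y) ^ 2 := by
  have hq := cont_deriv hf
  have hdiff : Differentiable ℝ f := hf.sm.differentiable (by norm_num)
  have hc : Continuous fun s => deriv f (y + s) - deriv f y := by fun_prop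
  have e1 : (∫ s in (0)..δ, (deriv f (y + s) - deriv f y)) = f (y + δ) - f y - δ * deriv f y := by
    rw [intervalIntegral.integral_sub
      ((by fun_prop : Continuous fun s => deriv f (y + s)).intervalIntegrable _ _)
      (continuous_const.intervalIntegrable _ _), intervalIntegral.integral_const,
      intervalIntegral.integral_comp_add_left (fun x => deriv f x) y,
      intervalIntegral.integral_deriv_eq_sub (fun x _ => hdiff x) (hq.intervalIntegrable _ _)]
    simp
  have h1 := cs hc hδ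
  rw [e1] at h1
  set J : ℝ := ∫ s in (0)..δ, (deriv f (y + s) - deriv f y) ^ 2 with hJ
  set D : ℝ := f (y + δ) - f y with hD
  have hD2 : D ^ 2 ≤ 4 * A ^ 2 := by
    have h2 : |D| ≤ 2 * A := by
      have h3 := hA (y + δ)
      have h4 := hA y
      rw [abs_le] at h3 h4 ⊢
      constructor <;> linarith [h3.1, h3.2, h4.1, h4.2]
    have h5 : D ^ 2 = |D| ^ 2 := (sq_abs _).symm
    rw [h5]
    calc |D| ^ 2 ≤ (2 * A) ^ 2 := pow_le_pow_left₀ (abs_nonneg _) h2 2
      _ = 4 * A ^ 2 := by ring
  have h6 : (δ * deriv f y) ^ 2 ≤ 8 * A ^ 2 + 2 * (δ * J) := by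
    nlinarith [sq_nonneg (2 * D - δ * deriv f y)]
  have h7 : 0 < δ ^ 2 := by positivity
  have h8 : 8 * A ^ 2 / δ ^ 2 + 2 / δ * J = (8 * A ^ 2 + 2 * (δ * J)) / δ ^ 2 := by
    field_simp
  rw [h8, le_div_iff₀ h7]
  nlinarith

lemma swap {q : ℝ → ℝ} (hq : Continuous q) (δ : ℝ) :
    (∫ y in (0)..(2 * Real.pi), ∫ s in (0)..δ, (q (y + s) - q y) ^ 2) =
      ∫ s in (0)..δ, om q s := by
  unfold om
  apply intervalIntegral_intervalIntegral_swap
  have hc : Continuous (Function.uncurry fun (y s : ℝ) => (q (y + s) - q y) ^ 2) := by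
    unfold Function.uncurry
    fun_prop
  refine (hc.continuousOn.integrableOn_compact
    ((isCompact_uIcc (a := (0 : ℝ)) (b := 2 * Real.pi)).prod
      (isCompact_uIcc (a := (0 : ℝ)) (b := δ)))).mono_set ?_
  exact prod_mono uIoc_subset_uIcc uIoc_subset_uIcc

end L2DM

open L2DM in
theorem specL2D : SpecL2D := by
  refine ⟨?_, fun f hf => integrable hf, ?_⟩
  · intro f A δ hf hA hδ hδπ
    have hq := cont_deriv hf
    have hpi : (0 : ℝ) ≤ 2 * Real.pi := by positivity
    have hc2 : Continuous fun y => ∫ s in (0)..δ, (deriv f (y + s) - deriv f y) ^ 2 := by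
      have h : Continuous (Function.uncurry fun (y s : ℝ) => (deriv f (y + s) - deriv f y) ^ 2) := by
        unfold Function.uncurry
        fun_prop
      exact intervalIntegral.continuous_parametric_intervalIntegral_of_continuous' h 0 δ
    have h1 : (∫ y in (0)..(2 * Real.pi), deriv f y ^ 2) ≤
        ∫ y in (0)..(2 * Real.pi), (8 * A ^ 2 / δ ^ 2 +
          2 / δ * ∫ s in (0)..δ, (deriv f (y + s) - deriv f y) ^ 2) := by
      apply intervalIntegral.integral_mono_on hpi
      · exact (hq.pow 2).intervalIntegrable _ _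
      · exact (continuous_const.add (continuous_const.mul hc2)).intervalIntegrable _ _
      · intro y _
        exact point hf hA hδ y
    have h2 : (∫ y in (0)..(2 * Real.pi), (8 * A ^ 2 / δ ^ 2 +
          2 / δ * ∫ s in (0)..δ, (deriv f (y + s) - deriv f y) ^ 2)) =
        16 * Real.pi * A ^ 2 / δ ^ 2 + 2 / δ * ∫ s in (0)..δ, om (deriv f) s := by
      have i1 : IntervalIntegrable (fun _ : ℝ => 8 * A ^ 2 / δ ^ 2) volume 0 (2 * Real.pi) :=
        continuous_const.intervalIntegrable _ _
      have i2 : IntervalIntegrable (fun y : ℝ => 2 / δ *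
          ∫ s in (0)..δ, (deriv f (y + s) - deriv f y) ^ 2) volume 0 (2 * Real.pi) :=
        (continuous_const.mul hc2).intervalIntegrable _ _
      rw [intervalIntegral.integral_add i1 i2, intervalIntegral.integral_const,
        intervalIntegral.integral_const_mul, swap hq δ, smul_eq_mul]
      ring
    rw [h2] at h1
    have h3 := sub_int hf (α := 0) (β := δ) (B := δ) (by linarith [Real.pi_pos]) hδ.le hδπ
      (fun s hs => by rw [abs_of_nonneg hs.1]; exact hs.2)
    have h4 : 2 / δ * ∫ s in (0)..δ, om (deriv f) s ≤ 2 / δ * (δ ^ 2 * Gag (deriv f)) :=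
      mul_le_mul_of_nonneg_left h3 (by positivity)
    have h5 : 2 / δ * (δ ^ 2 * Gag (deriv f)) = 2 * δ * Gag (deriv f) := by
      field_simp
    linarith
  · intro f l hf hl hl1
    have hpi3 : (3 : ℝ) < Real.pi := Real.pi_gt_three
    have h3 := sub_int hf (α := -(2 * l)) (β := 2 * l) (B := 2 * l) (by linarith) (by linarith)
      (by linarith) (fun s hs => abs_le.2 hs)
    have h0 : 0 ≤ ∫ s in (-(2 * l))..(2 * l), om (deriv f) s :=
      intervalIntegral.integral_nonneg (by linarith) fun s _ => om_nonneg _ s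
    unfold Vl
    refine ⟨div_nonneg h0 (sq_nonneg l), ?_⟩
    rw [div_le_iff₀ (by positivity)]
    calc (∫ s in (-(2 * l))..(2 * l), om (deriv f) s) ≤ (2 * l) ^ 2 * Gag (deriv f) := h3
      _ = 4 * Gag (deriv f) * l ^ 2 := by ring

end

end Pool.Agent.Lib.MPb879c5.PR
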