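import Pool.Agent.Lib.MP_b879c5_an.PR.Spec

/-!
# LAM: the sequential property (MP_b879c5_an)
-/

set_option autoImplicit false

namespace Pool.Agent.Lib.MPb879c5.PR

open Set Filter MeasureTheory Topology
open Pool.Agent.Lib.MP_b879c5_an

namespace LAMM

/-- the integral of the rescaled limit -/
noncomputable def mm (v : ℝ → ℝ → ℝ) (θ : ℝ) : ℝ := ∫ x in (0)..(2 * Real.pi), θ * v (-θ) x

lemma cont_mm {C c : ℝ} {v : ℝ → ℝ → ℝ} (hA : Anc0 C c v) {θ : ℝ} (h : 0 < θ) :
    Continuous fun x => θ * v (-θ) x :=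
  continuous_const.mul (hA.cont (-θ) (by linarith))

lemma lam_eq (T : ℝ) (U : ℝ × ℝ → ℝ) (θ e : ℝ) :
    lam T U (θ * e) = ∫ x in (0)..(2 * Real.pi), θ * R T U e (-θ) x := by
  unfold lam R
  have h : T - θ * e = T + e * (-θ) := by ring
  rw [h]
  apply intervalIntegral.integral_congr
  intro x _
  ring

lemma mono {C c : ℝ} {v : ℝ → ℝ → ℝ} (hMON : SpecMON) (hA : Anc0 C c v) (hKA : KA v) (hKB : KB v)
    {θ θ' : ℝ} (h : 0 < θ) (h' : θ ≤ θ') (x : ℝ) : θ * v (-θ) x ≤ θ' * v (-θ') x := by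
  rcases h'.lt_or_eq with h1 | h1
  · have := hMON C c v hA hKA hKB (-θ') (-θ) (by linarith) (by linarith) x
    rw [neg_neg, neg_neg] at this
    exact this
  · rw [h1]

lemma mm_mono {C c : ℝ} {v : ℝ → ℝ → ℝ} (hMON : SpecMON) (hA : Anc0 C c v) (hKA : KA v) (hKB : KB v)
    {θ θ' : ℝ} (h : 0 < θ) (h' : θ ≤ θ') : mm v θ ≤ mm v θ' := by
  unfold mm
  apply intervalIntegral.integral_mono_on (by positivity)
    ((cont_mm hA h).intervalIntegrable _ _) ((cont_mm hA (h.trans_le h')).intervalIntegrable _ _)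
  intro x _
  exact mono hMON hA hKA hKB h h' x

lemma eq_of_mm {C c : ℝ} {v : ℝ → ℝ → ℝ} (hMON : SpecMON) (hMEA : SpecMEA) (hA : Anc0 C c v)
    (hKA : KA v) (hKB : KB v) {θ θ' : ℝ} (h : 0 < θ) (h' : θ ≤ θ') (he : mm v θ = mm v θ') (x : ℝ) :
    θ * v (-θ) x = θ' * v (-θ') x := by
  have h2 : 0 < θ' := h.trans_le h'
  refine hMEA.1 (fun x => θ * v (-θ) x) (fun x => θ' * v (-θ') x) (cont_mm hA h) (cont_mm hA h2)
    (fun x => ?_) (fun x => ?_) (fun x => mono hMON hA hKA hKB h h' x) he x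
  · show θ * v (-θ) (x + 2 * Real.pi) = θ * v (-θ) x
    rw [hA.per (-θ) (by linarith)]
  · show θ' * v (-θ') (x + 2 * Real.pi) = θ' * v (-θ') x
    rw [hA.per (-θ') (by linarith)]

lemma value (hMEA : SpecMEA) (v : ℝ → ℝ → ℝ)
    (h : (∀ x, v (-1) x = 1) ∨ ∃ a, ∀ x, v (-1) x = Real.cos ((x - a) / 2) ^ 2) :
    mm v 1 = Real.pi ∨ mm v 1 = 2 * Real.pi := by
  unfold mm
  rcases h with h | ⟨a, h⟩
  · right
    have : (fun x => 1 * v (-1) x) = fun _ => (1 : ℝ) := by
      funext x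
      rw [h x, one_mul]
    rw [this, intervalIntegral.integral_const]
    simp
  · left
    have : (fun x => 1 * v (-1) x) = fun x => Real.cos ((x - a) / 2) ^ 2 := by
      funext x
      rw [h x, one_mul]
    rw [this]
    exact hMEA.2 a

end LAMM

open LAMM in
theorem specLAM (hSUB : SpecSUB) (hLIM : SpecLIM) (hLKA : SpecLKA) (hLKB : SpecLKB)
    (hMON : SpecMON) (hSTA : SpecSTA) (hMEA : SpecMEA) : SpecLAM := by
  intro T U C c hD ε hε hε0
  obtain ⟨φ, hφ, v, hv⟩ := hSUB T U C c hD ε hε hε0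
  have hε' : ∀ k, 0 < ε (φ k) := fun k => hε _
  have hε0' : Tendsto (fun k => ε (φ k)) atTop (𝓝 0) := hε0.comp hφ.tendsto_atTop
  have hA : Anc0 C c v := hLIM T U C c hD (fun k => ε (φ k)) v hε' hε0' hv
  have hKA : KA v := hLKA T U C c hD (fun k => ε (φ k)) v hε' hε0' hv
  have hKB : KB v := hLKB T U C c hD (fun k => ε (φ k)) v hε' hε0' hv
  refine ⟨φ, hφ, mm v, ?_, ?_, ?_, ?_⟩
  · intro b B hb hbB η hη
    have hB : 0 < B := hb.trans hbB
    have hη' : 0 < η / (2 * Real.pi * B) := by positivity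
    have h1 := hv b B hb hbB _ hη'
    have h2 : ∀ᶠ k in atTop, ε (φ k) < T / B := hε0'.eventually (gt_mem_nhds (div_pos hD.hT hB))
    filter_upwards [h1, h2] with k h3 h4
    intro θ hθ
    have hθ0 : 0 < θ := hb.trans_le hθ.1
    have h5 : T + ε (φ k) * (-θ) ∈ Ioo 0 T := by
      have e1 : ε (φ k) * B < T := by
        rw [lt_div_iff₀ hB] at h4
        exact h4
      have e2 : ε (φ k) * θ ≤ ε (φ k) * B := mul_le_mul_of_nonneg_left hθ.2 (hε' k).le
      have e3 : 0 < ε (φ k) * θ := mul_pos (hε' k) hθ0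
      constructor
      · nlinarith
      · nlinarith
    have hc : Continuous fun x => θ * R T U (ε (φ k)) (-θ) x := by
      unfold R
      exact continuous_const.mul (continuous_const.mul (hD.sol.sm.continuous_x h5))
    rw [lam_eq]
    unfold mm
    rw [← intervalIntegral.integral_sub (hc.intervalIntegrable _ _)
      ((cont_mm hA hθ0).intervalIntegrable _ _)]
    have h6 : ∀ x ∈ Set.uIoc 0 (2 * Real.pi),
        ‖θ * R T U (ε (φ k)) (-θ) x - θ * v (-θ) x‖ ≤ B * (η / (2 * Real.pi * B)) := by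
      intro x _
      rw [← mul_sub, norm_mul, Real.norm_eq_abs, Real.norm_eq_abs, abs_of_pos hθ0]
      have e1 := h3 (-θ) ⟨by linarith [hθ.2], by linarith [hθ.1]⟩ x
      exact mul_le_mul hθ.2 e1 (abs_nonneg _) hB.le
    have h7 := intervalIntegral.norm_integral_le_of_norm_le_const h6
    rw [Real.norm_eq_abs] at h7
    refine h7.trans (le_of_eq ?_)
    rw [sub_zero, abs_of_pos (by positivity)]
    field_simp
  · intro θ θ' h h'
    exact mm_mono hMON hA hKA hKB h h'
  · intro h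
    apply value hMEA v
    apply hSTA C c v hD.hc hA hKA hKB
    left
    intro t ht ht0 x
    have h1 := eq_of_mm hMON hMEA hA hKA hKB (θ := -t) (θ' := 1) (by linarith) (by linarith)
      (h (-t) (by linarith) (by linarith)) x
    rw [neg_neg, one_mul] at h1
    exact h1
  · intro h
    apply value hMEA v
    apply hSTA C c v hD.hc hA hKA hKB
    right
    intro t ht x
    have h1 := eq_of_mm hMON hMEA hA hKA hKB (θ := 1) (θ' := -t) one_pos (by linarith)
      (h (-t) (by linarith)).symm x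
    rw [neg_neg, one_mul] at h1
    exact h1.symm

end Pool.Agent.Lib.MPb879c5.PR
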