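import Pool.Agent.Lib.MP_b879c5_an.PR.Spec

/-!
# MP_b879c5_an, module LIM: first properties of the limits of the rescaled solutions
-/

set_option autoImplicit false

namespace Pool.Agent.Lib.MPb879c5.PR

open Set Filter MeasureTheory Topology
open Pool.Agent.Lib.MP_b879c5_an

namespace LIMM

variable {T : ℝ} {U : ℝ × ℝ → ℝ} {C c : ℝ}

lemma pt {f : ℕ → ℝ → ℝ → ℝ} {v : ℝ → ℝ → ℝ} (h : Conv f v) {t : ℝ} (ht : t < 0) {η : ℝ}
    (hη : 0 < η) : ∀ᶠ k in atTop, ∀ x, |f k t x - v t x| ≤ η := by
  have h1 := h (-t / 2) (-2 * t) (by linarith) (by linarith) η hη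
  filter_upwards [h1] with k hk x
  exact hk t ⟨by linarith, by linarith⟩ x

lemma ptt {f : ℕ → ℝ → ℝ → ℝ} {v : ℝ → ℝ → ℝ} (h : Conv f v) {t : ℝ} (ht : t < 0) (x : ℝ) :
    Tendsto (fun k => f k t x) atTop (𝓝 (v t x)) := by
  rw [Metric.tendsto_atTop']
  intro η hη
  have h1 := pt h ht (half_pos hη)
  obtain ⟨N, hN⟩ := eventually_atTop.mp h1
  refine ⟨N, fun n hn => ?_⟩
  rw [Real.dist_eq]
  have := hN n hn.le x
  linarith

lemma tend {ε : ℕ → ℝ} (hε : ∀ k, 0 < ε k) (hl : Tendsto ε atTop (𝓝 0)) {t : ℝ} (ht : t < 0) :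
    Tendsto (fun k => T + ε k * t) atTop (𝓝[<] T) := by
  rw [tendsto_nhdsWithin_iff]
  constructor
  · have h1 : Tendsto (fun k => T + ε k * t) atTop (𝓝 (T + 0 * t)) :=
      (hl.mul_const t).const_add T
    simpa using h1
  · refine Eventually.of_forall fun k => ?_
    have := mul_neg_of_pos_of_neg (hε k) ht
    show T + ε k * t < T
    linarith

lemma late {ε : ℕ → ℝ} (hT : 0 < T) (hε : ∀ k, 0 < ε k) (hl : Tendsto ε atTop (𝓝 0)) {t : ℝ}
    (ht : t < 0) : ∀ᶠ k in atTop, T + ε k * t ∈ Ico (T / 2) T := by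
  have h1 := tend (T := T) hε hl ht
  have h2 : ∀ᶠ r in 𝓝[<] T, r ∈ Ico (T / 2) T :=
    mem_of_superset (Ioo_mem_nhdsLT (by linarith : T / 2 < T)) Ioo_subset_Ico_self
  exact h1.eventually h2

lemma resc (e t x : ℝ) : -t * R T U e t x = (T - (T + e * t)) * U (T + e * t, x) := by
  unfold R; ring

lemma Ico_Ioo {r : ℝ} (hT : 0 < T) (hr : r ∈ Ico (T / 2) T) : r ∈ Ioo 0 T :=
  ⟨by linarith [hr.1], hr.2⟩

lemma cont_R (hS : Sol T U) {e t : ℝ} (hr : T + e * t ∈ Ioo 0 T) :
    Continuous (fun x => R T U e t x) := by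
  unfold R
  exact (hS.sm.continuous_x hr).const_smul e

lemma contDiff_U (hS : Sol T U) {r : ℝ} (hr : r ∈ Ioo 0 T) :
    ContDiff ℝ 2 (fun x => U (r, x)) := by
  rw [contDiff_iff_contDiffAt]
  intro x
  have h1 : ContDiffAt ℝ ((⊤ : ℕ∞) : WithTop ℕ∞) U (r, x) :=
    hS.sm.contDiffAt ((isOpen_Om T).mem_nhds (mem_Om.mpr hr))
  have h2 : ContDiffAt ℝ 2 U (r, x) := h1.of_le (by norm_cast)
  have h3 : ContDiff ℝ 2 (fun y : ℝ => (r, y)) := contDiff_const.prodMk contDiff_id
  exact h2.comp x h3.contDiffAt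

lemma om_smul (a : ℝ) (p : ℝ → ℝ) (s : ℝ) : om (fun x => a * p x) s = a ^ 2 * om p s := by
  unfold om
  rw [← intervalIntegral.integral_const_mul]
  refine intervalIntegral.integral_congr fun y _ => ?_
  show (a * p (y + s) - a * p y) ^ 2 = a ^ 2 * (p (y + s) - p y) ^ 2
  ring

lemma Gag_smul (a : ℝ) (p : ℝ → ℝ) : Gag (fun x => a * p x) = a ^ 2 * Gag p := by
  unfold Gag
  rw [← intervalIntegral.integral_const_mul]
  refine intervalIntegral.integral_congr fun s _ => ?_
  show om (fun x => a * p x) s / s ^ 2 = a ^ 2 * (om p s / s ^ 2)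
  rw [om_smul]; ring

end LIMM

open LIMM

theorem specLIM : SpecLIM := by
  intro T U C c hD ε v hε hl hv
  have hT := hD.hT
  have hS := hD.sol
  have hcont : ∀ t < 0, Continuous (v t) := by
    intro t ht
    have h1 : TendstoUniformly (fun k x => R T U (ε k) t x) (v t) atTop := by
      rw [Metric.tendstoUniformly_iff]
      intro η hη
      filter_upwards [pt hv ht (half_pos hη)] with k hk x
      rw [dist_comm, Real.dist_eq]
      have := hk x
      linarith
    refine h1.continuous ?_
    refine Eventually.frequently ?_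
    filter_upwards [late hT hε hl ht] with k hk
    exact cont_R hS (Ico_Ioo hT hk)
  have hper : ∀ t < 0, ∀ x, v t (x + 2 * Real.pi) = v t x := by
    intro t ht x
    have h1 := ptt hv ht (x + 2 * Real.pi)
    have h2 := ptt hv ht x
    refine tendsto_nhds_unique (h1.congr' ?_) h2
    filter_upwards [late hT hε hl ht] with k hk
    unfold R
    rw [hS.per _ (Ico_Ioo hT hk) x]
  refine ⟨hper, hcont, ?_, ?_, ?_, ?_⟩
  · intro t ht x
    have h1 : Tendsto (fun k => -t * R T U (ε k) t x) atTop (𝓝 (-t * v t x)) :=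
      (ptt hv ht x).const_mul (-t)
    have h2 : 0 ≤ -t * v t x := by
      refine le_of_forall_pos_le_add fun η hη => ?_
      have h3 : -η ≤ -t * v t x := by
        refine ge_of_tendsto h1 ?_
        filter_upwards [(tend (T := T) hε hl ht).eventually (hD.lo η hη)] with k hk
        rw [resc]
        exact hk x
      linarith
    have h4 : 0 < -t := by linarith
    by_contra hneg
    have h5 : v t x < 0 := not_le.mp hneg
    have h6 := mul_neg_of_pos_of_neg h4 h5
    linarith
  · intro t ht x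
    have h1 : Tendsto (fun k => -t * R T U (ε k) t x) atTop (𝓝 (-t * v t x)) :=
      (ptt hv ht x).const_mul (-t)
    refine le_of_forall_pos_le_add fun η hη => ?_
    refine le_of_tendsto h1 ?_
    filter_upwards [(tend (T := T) hε hl ht).eventually (hD.up η hη)] with k hk
    rw [resc]
    exact hk x
  · intro t ht
    have h4 : 0 < -t := by linarith
    have hpi : (0 : ℝ) < 2 * Real.pi := by positivity
    refine le_of_forall_pos_le_add fun η hη => ?_
    have hη' : 0 < η / (-t * (2 * Real.pi)) := by positivity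
    obtain ⟨k, hk1, hk2, hk3⟩ := ((late hT hε hl ht).and ((pt hv ht hη').and
      ((tend (T := T) hε hl ht).eventually hD.mean))).exists
    have hc1 := cont_R hS (Ico_Ioo hT hk1)
    have hc2 := hcont t ht
    have e1 : (T - (T + ε k * t)) * (∫ x in (0)..(2 * Real.pi), U (T + ε k * t, x))
        = -t * ∫ x in (0)..(2 * Real.pi), R T U (ε k) t x := by
      rw [← intervalIntegral.integral_const_mul, ← intervalIntegral.integral_const_mul]
      refine intervalIntegral.integral_congr fun y _ => ?_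
      exact (resc (T := T) (U := U) (ε k) t y).symm
    rw [e1] at hk3
    have h5 : (∫ x in (0)..(2 * Real.pi), R T U (ε k) t x)
        ≤ ∫ x in (0)..(2 * Real.pi), (v t x + η / (-t * (2 * Real.pi))) := by
      refine intervalIntegral.integral_mono_on hpi.le (hc1.intervalIntegrable _ _)
        ((hc2.add continuous_const).intervalIntegrable _ _) fun x _ => ?_
      have := (abs_le.mp (hk2 x)).2
      linarith
    rw [intervalIntegral.integral_add (hc2.intervalIntegrable _ _)
      (continuous_const.intervalIntegrable _ _), intervalIntegral.integral_const] at h5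
    have h6 : (2 * Real.pi - 0) • (η / (-t * (2 * Real.pi))) = η / (-t) := by
      rw [smul_eq_mul]
      have : (-t) ≠ 0 := h4.ne'
      field_simp
      ring
    rw [h6] at h5
    have h7 := mul_le_mul_of_nonneg_left h5 h4.le
    have h8 : -t * ((∫ x in (0)..(2 * Real.pi), v t x) + η / -t)
        = -t * (∫ x in (0)..(2 * Real.pi), v t x) + η := by
      have : (-t) ≠ 0 := h4.ne'
      rw [mul_add, mul_div_cancel₀ _ this]
    linarith
  · intro t ht η hη
    have h4 : 0 < -t := by linarith
    obtain ⟨k, hk1, hk2⟩ := ((late hT hε hl ht).and (pt hv ht (div_pos hη h4))).exists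
    have hr := Ico_Ioo hT hk1
    refine ⟨fun x => (T - (T + ε k * t)) * U (T + ε k * t, x),
      ⟨contDiff_const.mul (contDiff_U hS hr), fun x => ?_⟩, fun x => ?_, ?_⟩
    · show (T - (T + ε k * t)) * U (T + ε k * t, x + 2 * Real.pi) = _
      rw [hS.per _ hr x]
    · show |(T - (T + ε k * t)) * U (T + ε k * t, x) - -t * v t x| ≤ η
      rw [← resc, ← mul_sub, abs_mul, abs_of_pos h4]
      have h5 := mul_le_mul_of_nonneg_left (hk2 x) h4.le
      rw [mul_div_cancel₀ _ h4.ne'] at h5
      exact h5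
    · have hd : deriv (fun x => (T - (T + ε k * t)) * U (T + ε k * t, x))
          = fun x => (T - (T + ε k * t)) * Dx U (T + ε k * t, x) := by
        funext x
        exact ((hS.sm.hasDerivAt_x hr x).const_mul _).deriv
      rw [hd, Gag_smul]
      exact hD.gag _ hk1

end Pool.Agent.Lib.MPb879c5.PR
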