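import Pool.Agent.Lib.MP_b879c5_an.PR.Spec

/-!
# MP_b879c5, part PR, module LKA: the limits satisfy the lower Hopf-Lax inequality
-/

set_option autoImplicit false

namespace Pool.Agent.Lib.MPb879c5.PR

open Set Filter MeasureTheory Topology
open Pool.Agent.Lib.MP_b879c5_an

namespace LKAM

lemma Av_per (T : ℝ) (U : ℝ × ℝ → ℝ) (hU : Per T U) (l r : ℝ) (hr : r ∈ Ioo 0 T) (x : ℝ) :
    Av l (fun z => U (r, z)) (x + 2 * Real.pi) = Av l (fun z => U (r, z)) x := by
  unfold Av
  congr 1
  funext z
  have h1 : U (r, x + 2 * Real.pi + z) = U (r, x + z) := by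
    rw [show x + 2 * Real.pi + z = (x + z) + 2 * Real.pi by ring]
    exact hU r hr (x + z)
  show wt l z * U (r, x + 2 * Real.pi + z) = wt l z * U (r, x + z)
  rw [h1]

lemma core (hKFN : SpecKFN) (hCMA : SpecCMA) (hAVD : SpecAVD) (hAVI : SpecAVI)
    (T : ℝ) (U : ℝ × ℝ → ℝ) (C c : ℝ) (hD : Dat T U C c) (s t : ℝ) (hst : s < t) (ht : t < 0)
    (x y e l : ℝ) (he : 0 < e) (hl : 0 < l) (hl1 : l ≤ 1) (heT : e * (-s) ≤ T / 2)
    (hup : ∀ z, (e * (-s)) * |U (T + e * s, z)| ≤ 1 + (-t) / (2 * (-s))) :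
    K y s (e * Av l (fun z => U (T + e * s, z)) y) x t
      - Real.exp ((C / (-t)) * (1 + 1 / ((-t) / (2 * (-s)))) * (t - s)) *
        (420 * (C / (-t)) / l ^ 3 * (t - s)) * e
      ≤ e * Av l (fun z => U (T + e * t, z)) x ∧
    |e * Av l (fun z => U (T + e * t, z)) x - R T U e t x| ≤ C / (-t) * Real.sqrt l ∧
    |e * Av l (fun z => U (T + e * s, z)) y - R T U e s y| ≤ C / (-t) * Real.sqrt l := by
  have hC0 : 0 < C := lt_of_lt_of_le one_pos hD.hC
  have hT := hD.hT
  set a : ℝ := -s with ha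
  set b : ℝ := -t with hb
  have hb0 : 0 < b := by rw [hb]; linarith
  have hab : b < a := by rw [ha, hb]; linarith
  have ha0 : 0 < a := by linarith
  set κ : ℝ := b / (2 * a) with hκ
  have hκ0 : 0 < κ := by positivity
  set M : ℝ := C / (e * b) with hM
  have hM0 : 0 ≤ M := by positivity
  have heM : e * M = C / b := by
    rw [hM]
    field_simp
  have hs' : T + e * s = T - e * a := by rw [ha]; ring
  have ht' : T + e * t = T - e * b := by rw [hb]; ring
  have heb : 0 < e * b := by positivity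
  have heab : e * b < e * a := by nlinarith
  -- the range of times
  have hIco : ∀ r ∈ Icc (T + e * s) (T + e * t), r ∈ Ico (T / 2) T := by
    intro r hr
    rw [hs', ht'] at hr
    exact ⟨by linarith [hr.1], by linarith [hr.2]⟩
  have hIoo : ∀ r ∈ Icc (T + e * s) (T + e * t), r ∈ Ioo 0 T := by
    intro r hr
    have := hIco r hr
    exact ⟨by linarith [this.1], this.2⟩
  have hTr : ∀ r ∈ Icc (T + e * s) (T + e * t), e * b ≤ T - r := by
    intro r hr
    rw [ht'] at hr
    linarith [hr.2]
  have hS : ∀ r ∈ Icc (T + e * s) (T + e * t), ∀ x, |U (r, x)| ≤ M := by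
    intro r hr x
    rw [hM, le_div_iff₀ heb]
    have h1 := hD.sup r (hIco r hr) x
    have h2 := mul_le_mul_of_nonneg_right (hTr r hr) (abs_nonneg (U (r, x)))
    linarith
  have hH : ∀ r ∈ Icc (T + e * s) (T + e * t), ∀ x y,
      |U (r, x) - U (r, y)| ≤ M * Real.sqrt |x - y| := by
    intro r hr x y
    have h1 := hD.hol r (hIco r hr) x y
    have h2 := mul_le_mul_of_nonneg_right (hTr r hr) (abs_nonneg (U (r, x) - U (r, y)))
    rw [hM, div_mul_eq_mul_div, le_div_iff₀ heb]
    linarith
  have havi : ∀ r ∈ Icc (T + e * s) (T + e * t), ∀ x, _ := fun r hr =>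
    hAVI T U l M M r hD.sol hl hl1 (hIoo r hr) (hS r hr) hM0 (hH r hr)
  have hsk : T + e * s ∈ Icc (T + e * s) (T + e * t) := ⟨le_rfl, by rw [hs', ht']; linarith⟩
  have htk : T + e * t ∈ Icc (T + e * s) (T + e * t) := ⟨by rw [hs', ht']; linarith, le_rfl⟩
  have hlt : T + e * s < T + e * t := by rw [hs', ht']; linarith
  refine ⟨?_, ?_, ?_⟩
  · -- the value at the initial time
    have h8 : Av l (fun z => U (T + e * s, z)) y * (T + e * t - (T + e * s)) ≤ 1 - κ := by
      have hSs : ∀ z, |U (T + e * s, z)| ≤ (1 + κ) / (e * a) := by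
        intro z
        rw [le_div_iff₀ (by positivity), mul_comm]
        exact hup z
      have h9 := (hAVI T U l ((1 + κ) / (e * a)) M (T + e * s) hD.sol hl hl1 (hIoo _ hsk) hSs hM0
        (hH _ hsk) y).2.2.2.1
      have h10 : Av l (fun z => U (T + e * s, z)) y ≤ (1 + κ) / (e * a) := (le_abs_self _).trans h9
      have h11 : T + e * t - (T + e * s) = e * (a - b) := by rw [ha, hb]; ring
      rw [h11]
      have h12 : Av l (fun z => U (T + e * s, z)) y * (e * (a - b)) ≤
          (1 + κ) / (e * a) * (e * (a - b)) :=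
        mul_le_mul_of_nonneg_right h10 (mul_nonneg he.le (by linarith))
      have h13 : (1 + κ) / (e * a) * (e * (a - b)) = (1 + κ) * (1 - 2 * κ) := by
        rw [hκ]
        field_simp
      rw [h13] at h12
      nlinarith [sq_nonneg κ]
    have h1 := hCMA (T + e * s) (T + e * t) M κ (fun r x => Av l (fun z => U (r, z)) x)
      (fun r x => Av l (fun z => Dt U (r, z)) x) (fun r x => Av l (fun z => Dx U (r, z)) x)
      (fun _ => 420 * M / l ^ 3) y hlt hκ0 hM0
      (fun r hr x => hAVD.1 T U l hD.sol.sm hl r (hIoo r hr) x)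
      (fun r hr x => Av_per T U hD.sol.per l r (hIoo r hr) x)
      (fun r hr x => (havi r hr x).2.2.2.1) continuousOn_const
      (fun r hr => by positivity) (fun r hr x => (havi r hr x).1) h8 x
    have h5 := hKFN.2.2.2.2.1 T e y s (Av l (fun z => U (T + e * s, z)) y) x t he
    rw [← h5]
    have h2 := mul_le_mul_of_nonneg_left h1 he.le
    refine le_trans (le_of_eq ?_) h2
    rw [intervalIntegral.integral_const, smul_eq_mul]
    have e1 : (M + M / κ) * (T + e * t - (T + e * s)) = C / b * (1 + 1 / κ) * (t - s) := by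
      rw [← heM]
      ring
    rw [e1]
    have e2 : (T + e * t - (T + e * s)) * (420 * M / l ^ 3) = 420 * (C / b) / l ^ 3 * (t - s) := by
      rw [← heM]
      ring
    rw [e2]
    ring
  · have h1 := (havi _ htk x).2.2.1
    have h2 : e * Av l (fun z => U (T + e * t, z)) x - R T U e t x =
        e * (Av l (fun z => U (T + e * t, z)) x - U (T + e * t, x)) := by
      unfold R
      ring
    rw [h2, abs_mul, abs_of_pos he, ← heM, mul_assoc]
    exact mul_le_mul_of_nonneg_left h1 he.le
  · have h1 := (havi _ hsk y).2.2.1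
    have h2 : e * Av l (fun z => U (T + e * s, z)) y - R T U e s y =
        e * (Av l (fun z => U (T + e * s, z)) y - U (T + e * s, y)) := by
      unfold R
      ring
    rw [h2, abs_mul, abs_of_pos he, ← heM, mul_assoc]
    exact mul_le_mul_of_nonneg_left h1 he.le

lemma K_cont (y s x t v₀ : ℝ) (h : v₀ * (t - s) < 1) :
    ContinuousAt (fun v => K y s v x t) v₀ := by
  unfold K
  have h1 : 1 - v₀ * (t - s) ≠ 0 := by
    intro h0
    linarith
  have h2 : ContinuousAt (fun v : ℝ => v / (1 - v * (t - s))) v₀ :=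
    ContinuousAt.div continuousAt_id (by fun_prop) h1
  exact (continuousAt_const.mul h2).sub continuousAt_const

end LKAM

theorem specLKA (hKFN : SpecKFN) (hCMA : SpecCMA) (hAVD : SpecAVD) (hAVI : SpecAVI) : SpecLKA := by
  intro T U C c hD ε v hε hε0 hconv s t hst ht x y
  have hC0 : 0 < C := lt_of_lt_of_le one_pos hD.hC
  have hb0 : 0 < -t := by linarith
  have ha0 : 0 < -s := by linarith
  set κ : ℝ := (-t) / (2 * (-s)) with hκ
  have hκ0 : 0 < κ := by positivity
  have hconvp : ∀ (r : ℝ), r < 0 → ∀ z, ∀ η > 0, ∀ᶠ k in atTop, |R T U (ε k) r z - v r z| ≤ η := by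
    intro r hr z η hη
    filter_upwards [hconv (-r / 2) (-2 * r) (by linarith) (by linarith) η hη] with k hk
    exact hk r ⟨by linarith, by linarith⟩ z
  -- the times tend to `T` from below
  have htend : Tendsto (fun k => T + ε k * s) atTop (𝓝[<] T) := by
    rw [tendsto_nhdsWithin_iff]
    constructor
    · have h1 : Tendsto (fun k => T + ε k * s) atTop (𝓝 (T + 0 * s)) :=
        (hε0.mul_const s).const_add T
      rwa [zero_mul, add_zero] at h1
    · refine Eventually.of_forall fun k => ?_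
      have := hε k
      show T + ε k * s < T
      nlinarith
  have hev1 : ∀ᶠ k in atTop, ∀ z, (ε k * (-s)) * |U (T + ε k * s, z)| ≤ 1 + κ := by
    filter_upwards [htend.eventually (hD.up κ hκ0), htend.eventually (hD.lo 1 one_pos)]
      with k h1 h2 z
    have e1 : T - (T + ε k * s) = ε k * (-s) := by ring
    have h3 := h1 z
    have h4 := h2 z
    rw [e1] at h3 h4
    have h5 : 0 ≤ ε k * (-s) := mul_nonneg (hε k).le ha0.le
    rw [← abs_of_nonneg h5, ← abs_mul, abs_le]
    constructor
    · linarith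
    · exact h3
  have hev2 : ∀ᶠ k in atTop, ε k * (-s) ≤ T / 2 := by
    have h1 : Tendsto (fun k => ε k * (-s)) atTop (𝓝 (0 * (-s))) := hε0.mul_const (-s)
    rw [zero_mul] at h1
    exact (h1.eventually (gt_mem_nhds (by linarith [hD.hT] : (0 : ℝ) < T / 2))).mono
      fun k hk => hk.le
  -- the bound for the limit at the initial time
  have hv1 : -s * v s y ≤ 1 + κ := by
    have h1 : Tendsto (fun k => R T U (ε k) s y) atTop (𝓝 (v s y)) := by
      rw [Metric.tendsto_atTop']
      intro η hη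
      obtain ⟨N, hN⟩ := eventually_atTop.1 (hconvp s (by linarith) y (η / 2) (by linarith))
      refine ⟨N, fun k hk => ?_⟩
      rw [Real.dist_eq]
      exact lt_of_le_of_lt (hN k hk.le) (by linarith)
    have h2 : Tendsto (fun k => -s * R T U (ε k) s y) atTop (𝓝 (-s * v s y)) := h1.const_mul (-s)
    refine le_of_tendsto h2 ?_
    filter_upwards [hev1] with k hk
    have h3 := hk y
    have h4 : -s * R T U (ε k) s y ≤ (ε k * (-s)) * |U (T + ε k * s, y)| := by
      unfold R
      have h5 : -s * (ε k * U (T + ε k * s, y)) = (ε k * (-s)) * U (T + ε k * s, y) := by ring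
      rw [h5]
      exact mul_le_mul_of_nonneg_left (le_abs_self _) (mul_nonneg (hε k).le ha0.le)
    linarith
  have hv2 : v s y * (t - s) < 1 := by
    have h1 : v s y ≤ (1 + κ) / (-s) := by
      rw [le_div_iff₀ ha0]
      linarith
    have h2 : v s y * (t - s) ≤ (1 + κ) / (-s) * (t - s) :=
      mul_le_mul_of_nonneg_right h1 (by linarith)
    have h3 : (1 + κ) / (-s) * (t - s) = (1 + κ) * (1 - 2 * κ) := by
      have hs0 : s ≠ 0 := by linarith
      rw [hκ]
      field_simp
      ring
    rw [h3] at h2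
    nlinarith
  -- the limit
  refine le_of_forall_pos_le_add ?_
  intro η hη
  have hcont := LKAM.K_cont y s x t (v s y) hv2
  rw [Metric.continuousAt_iff] at hcont
  obtain ⟨δ, hδ, hδ'⟩ := hcont (η / 4) (by linarith)
  obtain ⟨l, hl, hl1, hl2⟩ : ∃ l : ℝ, 0 < l ∧ l ≤ 1 ∧
      C / (-t) * Real.sqrt l ≤ min (δ / 4) (η / 4) := by
    set m : ℝ := min (δ / 4) (η / 4) with hm
    have hm0 : 0 < m := lt_min (by linarith) (by linarith)
    set q : ℝ := m / (C / (-t)) with hq
    have hq0 : 0 < q := by positivity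
    refine ⟨min 1 (q ^ 2), lt_min one_pos (by positivity), min_le_left _ _, ?_⟩
    have h1 : Real.sqrt (min 1 (q ^ 2)) ≤ q := by
      refine (Real.sqrt_le_sqrt (min_le_right _ _)).trans ?_
      rw [Real.sqrt_sq hq0.le]
    have h2 : C / (-t) * Real.sqrt (min 1 (q ^ 2)) ≤ C / (-t) * q :=
      mul_le_mul_of_nonneg_left h1 (by positivity)
    refine h2.trans (le_of_eq ?_)
    have hCt : C / (-t) ≠ 0 := by positivity
    rw [hq, mul_div_cancel₀]
    exact hCt
  set E : ℝ := Real.exp ((C / (-t)) * (1 + 1 / κ) * (t - s)) *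
    (420 * (C / (-t)) / l ^ 3 * (t - s)) with hE
  have hE0 : Tendsto (fun k => E * ε k) atTop (𝓝 0) := by
    have := hε0.const_mul E
    rwa [mul_zero] at this
  have hev3 : ∀ᶠ k in atTop, E * ε k ≤ η / 4 :=
    (hE0.eventually (gt_mem_nhds (by linarith : (0 : ℝ) < η / 4))).mono fun k hk => hk.le
  obtain ⟨k, k1, k2, k3, k4, k5⟩ := (hev1.and (hev2.and (hev3.and
    ((hconvp s (by linarith) y (δ / 4) (by linarith)).and
      (hconvp t ht x (η / 4) (by linarith)))))).exists
  obtain ⟨g1, g2, g3⟩ := LKAM.core hKFN hCMA hAVD hAVI T U C c hD s t hst ht x y (ε k) l (hε k)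
    hl hl1 k2 k1
  have hl3 : C / (-t) * Real.sqrt l ≤ δ / 4 := hl2.trans (min_le_left _ _)
  have hl4 : C / (-t) * Real.sqrt l ≤ η / 4 := hl2.trans (min_le_right _ _)
  have a1 : dist (ε k * Av l (fun z => U (T + ε k * s, z)) y) (v s y) < δ := by
    rw [Real.dist_eq]
    have h1 : ε k * Av l (fun z => U (T + ε k * s, z)) y - v s y =
        (ε k * Av l (fun z => U (T + ε k * s, z)) y - R T U (ε k) s y) +
          (R T U (ε k) s y - v s y) := by ring
    rw [h1]
    refine lt_of_le_of_lt (abs_add_le _ _) ?_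
    linarith
  have a2 := hδ' a1
  rw [Real.dist_eq, abs_lt] at a2
  have a3 := abs_le.1 g2
  have a4 := abs_le.1 k5
  have g1' : K y s (ε k * Av l (fun z => U (T + ε k * s, z)) y) x t - E * ε k ≤
      ε k * Av l (fun z => U (T + ε k * t, z)) x := g1
  linarith [a2.1, a3.2, a4.2]

end Pool.Agent.Lib.MPb879c5.PR
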