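import Pool.Agent.Lib.MP_b879c5_an.PR.Spec

/-!
# MP_b879c5, PR: module LKB (the limits satisfy the upper Hopf-Lax inequality)
-/

set_option autoImplicit false

namespace Pool.Agent.Lib.MPb879c5.PR

open Set Filter MeasureTheory Topology
open Pool.Agent.Lib.MP_b879c5_an

namespace LKBM

theorem int_wt0 {l : ℝ} (hl : 0 < l) : ∫ z in (-l)..l, wt l z = 1 := by
  have h := integral_wt hl 0
  simpa using h

theorem cont_wt (l : ℝ) : Continuous fun z => wt l z := by
  unfold wt; fun_prop

theorem wint_le {f g : ℝ → ℝ} (hf : Continuous f) (hg : Continuous g) {l B : ℝ} (hl : 0 < l)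
    (h : ∀ z, f z ≤ g z + B) :
    (∫ z in (-l)..l, wt l z * f z) ≤ (∫ z in (-l)..l, wt l z * g z) + B := by
  have hw := cont_wt l
  have h1 : (∫ z in (-l)..l, wt l z * f z) ≤ ∫ z in (-l)..l, (wt l z * g z + wt l z * B) := by
    refine intervalIntegral.integral_mono_on (by linarith)
      ((hw.mul hf).intervalIntegrable _ _)
      (((hw.mul hg).add (hw.mul continuous_const)).intervalIntegrable _ _) (fun z hz => ?_)
    have hz' : |z| ≤ l := abs_le.2 ⟨hz.1, hz.2⟩
    have hn := wt_nonneg hl hz'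
    have := mul_le_mul_of_nonneg_left (h z) hn
    linarith
  refine h1.trans (le_of_eq ?_)
  have i1 : IntervalIntegrable (fun z => wt l z * g z) volume (-l) l :=
    (hw.mul hg).intervalIntegrable _ _
  have i2 : IntervalIntegrable (fun z => wt l z * B) volume (-l) l :=
    (hw.mul continuous_const).intervalIntegrable _ _
  rw [intervalIntegral.integral_add i1 i2, intervalIntegral.integral_mul_const,
    int_wt0 hl, one_mul]

theorem Av_le {q : ℝ → ℝ} (hq : Continuous q) {l B : ℝ} (hl : 0 < l) (h : ∀ x, q x ≤ B) (x : ℝ) :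
    Av l q x ≤ B := by
  have := wint_le (f := fun z => q (x + z)) (g := fun _ => 0) (hq.comp (continuous_const.add
    continuous_id)) continuous_const hl (B := B) (fun z => by simpa using h (x + z))
  simpa [Av] using this

theorem le_Av {q : ℝ → ℝ} (hq : Continuous q) {l B : ℝ} (hl : 0 < l) (h : ∀ x, -B ≤ q x) (x : ℝ) :
    -B ≤ Av l q x := by
  have := wint_le (f := fun _ => 0) (g := fun z => q (x + z)) continuous_const
    (hq.comp (continuous_const.add continuous_id)) hl (B := B)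
    (fun z => by
      have := h (x + z)
      show (0 : ℝ) ≤ q (x + z) + B
      linarith)
  simp only [mul_zero, intervalIntegral.integral_zero] at this
  have e : Av l q x = ∫ z in (-l)..l, wt l z * q (x + z) := rfl
  rw [e]
  linarith

theorem Av_abs {q : ℝ → ℝ} (hq : Continuous q) {l B : ℝ} (hl : 0 < l) (h : ∀ x, |q x| ≤ B)
    (x : ℝ) : |Av l q x| ≤ B :=
  abs_le.2 ⟨le_Av hq hl (fun y => (abs_le.1 (h y)).1) x, Av_le hq hl (fun y => (abs_le.1 (h y)).2) x⟩

theorem Av_lip1 {q : ℝ → ℝ} (hq : Continuous q) {l L : ℝ} (hl : 0 < l)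
    (h : ∀ x x', |q x - q x'| ≤ L * |x - x'|) (x x' : ℝ) :
    Av l q x ≤ Av l q x' + L * |x - x'| := by
  have := wint_le (f := fun z => q (x + z)) (g := fun z => q (x' + z))
    (hq.comp (continuous_const.add continuous_id))
    (hq.comp (continuous_const.add continuous_id)) hl (B := L * |x - x'|)
    (fun z => by
      have h1 := (abs_le.1 (h (x + z) (x' + z))).2
      have e : x + z - (x' + z) = x - x' := by ring
      rw [e] at h1
      show q (x + z) ≤ q (x' + z) + L * |x - x'|
      linarith)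
  simpa [Av] using this

theorem Av_lip {q : ℝ → ℝ} (hq : Continuous q) {l L : ℝ} (hl : 0 < l)
    (h : ∀ x x', |q x - q x'| ≤ L * |x - x'|) (x x' : ℝ) :
    |Av l q x - Av l q x'| ≤ L * |x - x'| := by
  rw [abs_le]
  have h1 := Av_lip1 hq hl h x x'
  have h2 := Av_lip1 hq hl h x' x
  rw [abs_sub_comm] at h2
  constructor <;> linarith

theorem bdd {T : ℝ} {G : ℝ × ℝ → ℝ} (hG : Sm T G) (hp : Per T G) {a b : ℝ} (ha : 0 < a)
    (hb : b < T) : ∃ B, 0 ≤ B ∧ ∀ r ∈ Icc a b, ∀ x, |G (r, x)| ≤ B := by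
  have hK : IsCompact (Icc a b ×ˢ Icc (0 : ℝ) (2 * Real.pi)) := isCompact_Icc.prod isCompact_Icc
  have hsub : Icc a b ×ˢ Icc (0 : ℝ) (2 * Real.pi) ⊆ Om T := by
    rintro ⟨r, x⟩ ⟨h1, -⟩
    exact mem_Om.2 ⟨lt_of_lt_of_le ha h1.1, lt_of_le_of_lt h1.2 hb⟩
  have hc : ContinuousOn G (Icc a b ×ˢ Icc (0 : ℝ) (2 * Real.pi)) :=
    (ContDiffOn.continuousOn hG).mono hsub
  obtain ⟨B, hB⟩ := hK.exists_bound_of_continuousOn hc
  refine ⟨max B 0, le_max_right _ _, fun r hr x => ?_⟩
  have hrT : r ∈ Ioo 0 T := ⟨lt_of_lt_of_le ha hr.1, lt_of_le_of_lt hr.2 hb⟩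
  have hper : Function.Periodic (fun y => G (r, y)) (2 * Real.pi) := fun y => hp r hrT y
  obtain ⟨y, hy, hxy⟩ := hper.exists_mem_Ico₀ (by positivity) x
  have hxy' : G (r, x) = G (r, y) := hxy
  rw [hxy']
  exact (hB (r, y) ⟨hr, ⟨hy.1, hy.2.le⟩⟩).trans (le_max_left _ _)

theorem Vl_nonneg (l : ℝ) (hl : 0 < l) (q : ℝ → ℝ) : 0 ≤ Vl l q := by
  unfold Vl om
  refine div_nonneg (intervalIntegral.integral_nonneg (by linarith) fun s _ => ?_) (sq_nonneg _)
  exact intervalIntegral.integral_nonneg (by positivity) fun y _ => sq_nonneg _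

theorem Vl_scale (l e : ℝ) (q : ℝ → ℝ) : Vl l (fun x => e * q x) = e ^ 2 * Vl l q := by
  have h1 : ∀ s, om (fun x => e * q x) s = e ^ 2 * om q s := by
    intro s
    unfold om
    rw [← intervalIntegral.integral_const_mul]
    congr 1
    funext y
    ring
  unfold Vl
  simp only [h1]
  rw [intervalIntegral.integral_const_mul]
  ring

theorem K_diff {y s x t a a' κ : ℝ} (hκ : 0 < κ) (ha : a * (t - s) ≤ 1 - κ)
    (ha' : a' * (t - s) ≤ 1 - κ) : K y s a x t ≤ K y s a' x t + |a - a'| / κ ^ 2 := by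
  have h1 : κ ≤ 1 - a * (t - s) := by linarith
  have h2 : κ ≤ 1 - a' * (t - s) := by linarith
  have p1 : 0 < 1 - a * (t - s) := by linarith
  have p2 : 0 < 1 - a' * (t - s) := by linarith
  have e : a / (1 - a * (t - s)) - a' / (1 - a' * (t - s)) =
      (a - a') / ((1 - a * (t - s)) * (1 - a' * (t - s))) := by
    rw [div_sub_div _ _ p1.ne' p2.ne']
    congr 1
    ring
  have h3 : (a - a') / ((1 - a * (t - s)) * (1 - a' * (t - s))) ≤ |a - a'| / κ ^ 2 := by
    have hk : κ ^ 2 ≤ (1 - a * (t - s)) * (1 - a' * (t - s)) := by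
      rw [sq]
      exact mul_le_mul h1 h2 hκ.le p1.le
    calc (a - a') / ((1 - a * (t - s)) * (1 - a' * (t - s)))
        ≤ |a - a'| / ((1 - a * (t - s)) * (1 - a' * (t - s))) :=
          div_le_div_of_nonneg_right (le_abs_self _) (mul_pos p1 p2).le
      _ ≤ |a - a'| / κ ^ 2 :=
          div_le_div_of_nonneg_left (abs_nonneg _) (by positivity) hk
  have hcos0 : 0 ≤ Real.cos ((x - y) / 2) ^ 2 := sq_nonneg _
  have hcos1 : Real.cos ((x - y) / 2) ^ 2 ≤ 1 := Real.cos_sq_le_one _
  have hn : 0 ≤ |a - a'| / κ ^ 2 := by positivity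
  unfold K
  have h4 : a / (1 - a * (t - s)) ≤ a' / (1 - a' * (t - s)) + |a - a'| / κ ^ 2 := by linarith
  have h5 := mul_le_mul_of_nonneg_left h4 hcos0
  have h6 : Real.cos ((x - y) / 2) ^ 2 * (|a - a'| / κ ^ 2) ≤ |a - a'| / κ ^ 2 :=
    mul_le_of_le_one_left hn hcos1
  rw [mul_add] at h5
  linarith

/-- one application of `CMB` -/
theorem step (hKFN : SpecKFN) (hCMB : SpecCMB) (hAVD : SpecAVD) (hAVI : SpecAVI)
    {T : ℝ} {U : ℝ × ℝ → ℝ} {C c : ℝ} (hD : Dat T U C c) {s t : ℝ} (hst : s < t) (ht : t < 0)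
    {e l : ℝ} (he : 0 < e) (heT : e * (-s) ≤ T / 2) (hl : 0 < l) (hl1 : l ≤ 1)
    (hup : ∀ y, (e * (-s)) * U (T + e * s, y) ≤ 1 + (-t) / (2 * (-s))) (x : ℝ) :
    ∃ y, e * Av l (fun z => U (T + e * t, z)) x ≤
        K y s (e * Av l (fun z => U (T + e * s, z)) y) x t +
        Real.exp (C / (-t) * (1 + 2 * (-s) / (-t)) * (t - s)) *
          (420 * e * C * (t - s) / (l ^ 3 * (-t)) +
            (∫ r in s..t, Vl l (fun z => e * Dx U (T + e * r, z))) + (C / (-t)) ^ 2 * l * (t - s)) ∧
      e * Av l (fun z => U (T + e * s, z)) y * (t - s) ≤ 1 - (-t) / (2 * (-s)) ∧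
      |e * Av l (fun z => U (T + e * t, z)) x - R T U e t x| ≤ C / (-t) * Real.sqrt l ∧
      |e * Av l (fun z => U (T + e * s, z)) y - R T U e s y| ≤ C / (-t) * Real.sqrt l := by
  have hT := hD.hT
  have hC := hD.hC
  have hτ : 0 < -t := by linarith
  have hS : 0 < -s := by linarith
  have hsm := hD.sol.sm
  have hper := hD.sol.per
  set κ : ℝ := (-t) / (2 * (-s)) with hκdef
  have hκ : 0 < κ := by positivity
  have hκ2 : κ * (2 * (-s)) = -t := by
    rw [hκdef, div_mul_cancel₀ _ (by positivity)]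
  set M : ℝ := C / (e * (-t)) with hMdef
  have hM : 0 ≤ M := by positivity
  have heM : e * M = C / (-t) := by
    rw [hMdef]; field_simp
  have hlt : T + e * s < T + e * t := by
    have := mul_lt_mul_of_pos_left hst he
    linarith
  have h0 : 0 < T + e * s := by nlinarith
  have h1 : T + e * t < T := by nlinarith
  have hI : ∀ r ∈ Icc (T + e * s) (T + e * t), r ∈ Ioo 0 T := fun r hr =>
    ⟨lt_of_lt_of_le h0 hr.1, lt_of_le_of_lt hr.2 h1⟩
  have hI2 : ∀ r ∈ Icc (T + e * s) (T + e * t), r ∈ Ico (T / 2) T := fun r hr =>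
    ⟨by have := hr.1; nlinarith, lt_of_le_of_lt hr.2 h1⟩
  have hTr : ∀ r ∈ Icc (T + e * s) (T + e * t), e * (-t) ≤ T - r := fun r hr => by
    have := hr.2; nlinarith
  have het : 0 < e * (-t) := by positivity
  have hUM : ∀ r ∈ Icc (T + e * s) (T + e * t), ∀ x, |U (r, x)| ≤ M := by
    intro r hr x
    rw [hMdef, le_div_iff₀ het]
    have a1 := hD.sup r (hI2 r hr) x
    have a2 := mul_le_mul_of_nonneg_right (hTr r hr) (abs_nonneg (U (r, x)))
    linarith
  have hUH : ∀ r ∈ Icc (T + e * s) (T + e * t), ∀ x y,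
      |U (r, x) - U (r, y)| ≤ M * Real.sqrt |x - y| := by
    intro r hr x y
    rw [hMdef, div_mul_eq_mul_div, le_div_iff₀ het]
    have a1 := hD.hol r (hI2 r hr) x y
    have a2 := mul_le_mul_of_nonneg_right (hTr r hr) (abs_nonneg (U (r, x) - U (r, y)))
    linarith
  -- the fields
  have hAV := hAVI
  have hd0 : ∀ r ∈ Icc (T + e * s) (T + e * t), ∀ x, _ := fun r hr x =>
    hAV T U l M M r hD.sol hl hl1 (hI r hr) (hUM r hr) hM (hUH r hr) x
  have hVc : ContinuousOn (fun r => Vl l (fun x => Dx U (r, x))) (Ioo 0 T) :=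
    hAVD.2 T (Dx U) l hsm.dx hl
  have hVc' : ContinuousOn (fun r => Vl l (fun x => Dx U (r, x)))
      (Icc (T + e * s) (T + e * t)) := hVc.mono hI
  obtain ⟨M₁, hM₁0, hM₁⟩ := bdd hsm.dx (Per.dx hsm hper) h0 h1
  obtain ⟨L, hL0, hL⟩ := bdd hsm.dx.dx (Per.dx hsm.dx (Per.dx hsm hper)) h0 h1
  have hlip : ∀ r ∈ Icc (T + e * s) (T + e * t), ∀ x x',
      |Dx U (r, x) - Dx U (r, x')| ≤ L * |x - x'| := by
    intro r hr x x'
    have hd : ∀ z ∈ (univ : Set ℝ), HasDerivWithinAt (fun y => Dx U (r, y)) (Dx (Dx U) (r, z))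
        univ z := fun z _ => (hsm.dx.hasDerivAt_x (hI r hr) z).hasDerivWithinAt
    have h := convex_univ.norm_image_sub_le_of_norm_hasDerivWithin_le hd
      (fun z _ => by rw [Real.norm_eq_abs]; exact hL r hr z) (mem_univ x') (mem_univ x)
    simpa [Real.norm_eq_abs] using h
  have hc0 : ∀ r ∈ Icc (T + e * s) (T + e * t), Continuous fun z => U (r, z) := fun r hr =>
    hsm.continuous_x (hI r hr)
  have hc1 : ∀ r ∈ Icc (T + e * s) (T + e * t), Continuous fun z => Dx U (r, z) := fun r hr =>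
    hsm.dx.continuous_x (hI r hr)
  have hs_mem : T + e * s ∈ Icc (T + e * s) (T + e * t) := ⟨le_refl _, hlt.le⟩
  have ht_mem : T + e * t ∈ Icc (T + e * s) (T + e * t) := ⟨hlt.le, le_refl _⟩
  have hdiff : (T + e * t) - (T + e * s) = e * (t - s) := by ring
  -- the bound at the initial time
  have hWs : ∀ y, e * Av l (fun z => U (T + e * s, z)) y * (t - s) ≤ 1 - κ := by
    intro y
    have hb : ∀ z, U (T + e * s, z) ≤ (1 + κ) / (e * (-s)) := by
      intro z
      rw [le_div_iff₀ (by positivity)]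
      have := hup z
      linarith
    have hA := Av_le (hc0 _ hs_mem) hl hb y
    have hts : 0 < t - s := by linarith
    have hA2 : e * Av l (fun z => U (T + e * s, z)) y ≤ (1 + κ) / (-s) := by
      have := mul_le_mul_of_nonneg_left hA he.le
      refine this.trans (le_of_eq ?_)
      field_simp
    have hA3 := mul_le_mul_of_nonneg_right hA2 hts.le
    refine hA3.trans ?_
    have e1 : (1 + κ) / (-s) * (t - s) = (1 + κ) * (1 - 2 * κ) := by
      rw [div_mul_eq_mul_div, div_eq_iff hS.ne']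
      nlinarith
    rw [e1]
    nlinarith [sq_nonneg κ]
  obtain ⟨y, hy⟩ := hCMB (T + e * s) (T + e * t) M κ L M₁
    (fun r x => Av l (fun z => U (r, z)) x) (fun r x => Av l (fun z => Dt U (r, z)) x)
    (fun r x => Av l (fun z => Dx U (r, z)) x)
    (fun r => 420 * M / l ^ 3 + Vl l (fun z => Dx U (r, z)) + M ^ 2 * l)
    hlt hκ hM
    (fun r hr x => hAVD.1 T U l hsm hl r (hI r hr) x)
    (fun r hr x => (hd0 r hr x).2.2.2.1)
    ((continuousOn_const.add hVc').add continuousOn_const)
    (fun r hr => by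
      have := Vl_nonneg l hl (fun z => Dx U (r, z))
      have h2 : 0 ≤ 420 * M / l ^ 3 := by positivity
      have h3 : 0 ≤ M ^ 2 * l := by positivity
      show 0 ≤ 420 * M / l ^ 3 + Vl l (fun z => Dx U (r, z)) + M ^ 2 * l
      linarith)
    (fun r hr x => (hd0 r hr x).2.1)
    (fun y => by
      rw [hdiff]
      have := hWs y
      show Av l (fun z => U (T + e * s, z)) y * (e * (t - s)) ≤ 1 - κ
      nlinarith)
    (fun r hr x x' => Av_lip (hc1 r hr) hl (hlip r hr) x x')
    (fun x r hr => by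
      have h := (hAVD.1 T (Dx U) l hsm.dx hl r (hI r hr) x).continuousAt
      have h2 : ContinuousAt (fun r : ℝ => (r, x)) r := by fun_prop
      exact (ContinuousAt.comp (x := r) (f := fun r : ℝ => (r, x)) h h2).continuousWithinAt)
    (fun r hr x => Av_abs (hc1 r hr) hl (hM₁ r hr) x) x
  refine ⟨y, ?_, hWs y, ?_, ?_⟩
  · have hy2 := mul_le_mul_of_nonneg_left hy he.le
    rw [mul_add] at hy2
    have hk5 := hKFN.2.2.2.2.1 T e y s (Av l (fun z => U (T + e * s, z)) y) x t he
    have e1 : (M + M / κ) * ((T + e * t) - (T + e * s)) =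
        C / (-t) * (1 + 2 * (-s) / (-t)) * (t - s) := by
      rw [hdiff, ← heM]
      have e2 : 1 / κ = 2 * (-s) / (-t) := by
        rw [hκdef]; field_simp
      rw [← e2]
      ring
    have hsub : (∫ r in (T + e * s)..(T + e * t),
        (420 * M / l ^ 3 + Vl l (fun z => Dx U (r, z)) + M ^ 2 * l)) =
        e * ∫ r in s..t, (420 * M / l ^ 3 + Vl l (fun z => Dx U (T + e * r, z)) + M ^ 2 * l) := by
      have := intervalIntegral.smul_integral_comp_add_mul (a := s) (b := t)
        (fun r => 420 * M / l ^ 3 + Vl l (fun z => Dx U (r, z)) + M ^ 2 * l) e T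
      rw [← this]
      rfl
    have hVi : IntervalIntegrable (fun r => Vl l (fun z => Dx U (T + e * r, z))) volume s t := by
      apply ContinuousOn.intervalIntegrable
      rw [uIcc_of_le hst.le]
      refine ContinuousOn.comp (g := fun r => Vl l (fun z => Dx U (r, z)))
        (f := fun r => T + e * r) hVc (by fun_prop) ?_
      intro r hr
      have a1 : e * s ≤ e * r := mul_le_mul_of_nonneg_left hr.1 he.le
      have a2 : e * r ≤ e * t := mul_le_mul_of_nonneg_left hr.2 he.le
      exact hI (T + e * r) ⟨by linarith, by linarith⟩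
    have hint : e * (e * ∫ r in s..t, (420 * M / l ^ 3 + Vl l (fun z => Dx U (T + e * r, z)) +
        M ^ 2 * l)) = 420 * e * C * (t - s) / (l ^ 3 * (-t)) +
            (∫ r in s..t, Vl l (fun z => e * Dx U (T + e * r, z))) +
            (C / (-t)) ^ 2 * l * (t - s) := by
      have i0 : IntervalIntegrable (fun _ : ℝ => 420 * M / l ^ 3) volume s t :=
        continuous_const.intervalIntegrable _ _
      have i2 : IntervalIntegrable (fun _ : ℝ => M ^ 2 * l) volume s t :=
        continuous_const.intervalIntegrable _ _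
      rw [intervalIntegral.integral_add (i0.add hVi) i2, intervalIntegral.integral_add i0 hVi,
        intervalIntegral.integral_const, intervalIntegral.integral_const]
      have e3 : (∫ r in s..t, Vl l (fun z => e * Dx U (T + e * r, z))) =
          e ^ 2 * ∫ r in s..t, Vl l (fun z => Dx U (T + e * r, z)) := by
        rw [← intervalIntegral.integral_const_mul]
        congr 1
        funext r
        exact Vl_scale l e _
      rw [e3]
      have e4 : (C / (-t)) ^ 2 = e ^ 2 * M ^ 2 := by rw [← heM]; ring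
      have e5 : 420 * e * C * (t - s) / (l ^ 3 * (-t)) = e ^ 2 * (420 * M / l ^ 3) * (t - s) := by
        have : C = e * M * (-t) := by rw [heM, div_mul_cancel₀ _ hτ.ne']
        rw [div_eq_iff (by positivity)]
        rw [this]
        field_simp
      rw [e4, e5]
      simp only [smul_eq_mul]
      ring
    rw [e1, hsub] at hy2
    have e6 : e * (Real.exp (C / (-t) * (1 + 2 * (-s) / (-t)) * (t - s)) *
        (e * ∫ r in s..t, (420 * M / l ^ 3 + Vl l (fun z => Dx U (T + e * r, z)) + M ^ 2 * l))) =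
        Real.exp (C / (-t) * (1 + 2 * (-s) / (-t)) * (t - s)) *
        (e * (e * ∫ r in s..t, (420 * M / l ^ 3 + Vl l (fun z => Dx U (T + e * r, z)) +
          M ^ 2 * l))) := by ring
    rw [e6, hint, hk5] at hy2
    exact hy2
  · have h := (hd0 _ ht_mem x).2.2.1
    have h2 := mul_le_mul_of_nonneg_left h he.le
    have e1 : e * Av l (fun z => U (T + e * t, z)) x - R T U e t x =
        e * (Av l (fun z => U (T + e * t, z)) x - U (T + e * t, x)) := by
      unfold R; ring
    rw [e1, abs_mul, abs_of_pos he]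
    refine h2.trans (le_of_eq ?_)
    rw [← heM]; ring
  · have h := (hd0 _ hs_mem y).2.2.1
    have h2 := mul_le_mul_of_nonneg_left h he.le
    have e1 : e * Av l (fun z => U (T + e * s, z)) y - R T U e s y =
        e * (Av l (fun z => U (T + e * s, z)) y - U (T + e * s, y)) := by
      unfold R; ring
    rw [e1, abs_mul, abs_of_pos he]
    refine h2.trans (le_of_eq ?_)
    rw [← heM]; ring

/-- the bound and regularity of the limit at one time -/
theorem lim_le {T : ℝ} {U : ℝ × ℝ → ℝ} {C c : ℝ} (hD : Dat T U C c) {ε : ℕ → ℝ}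
    {v : ℝ → ℝ → ℝ} (hε : ∀ k, 0 < ε k) (hε0 : Tendsto ε atTop (𝓝 0))
    (hv : Conv (fun k => R T U (ε k)) v) {s : ℝ} (hs : s < 0) :
    (∀ y, v s y * (-s) ≤ 1) ∧ Continuous (v s) ∧ (∀ y, v s (y + 2 * Real.pi) = v s y) := by
  have hT := hD.hT
  have hS : 0 < -s := by linarith
  have hmem : s ∈ Icc (-(-s + 1)) (-(-s)) := ⟨by linarith, by linarith⟩
  have hcv : ∀ η > 0, ∀ᶠ k in atTop, ∀ x, |R T U (ε k) s x - v s x| ≤ η := by
    intro η hη
    filter_upwards [hv (-s) (-s + 1) hS (by linarith) η hη] with k hk x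
    exact hk s hmem x
  have hsmall : ∀ᶠ k in atTop, ε k * (-s) ≤ T / 2 := by
    have h1 : Tendsto (fun k => ε k * (-s)) atTop (𝓝 0) := by
      simpa using hε0.mul_const (-s)
    exact h1.eventually_le_const (by positivity)
  have hI : ∀ k, ε k * (-s) ≤ T / 2 → T + ε k * s ∈ Ioo 0 T := by
    intro k hk
    have := mul_pos (hε k) hS
    exact ⟨by nlinarith, by nlinarith⟩
  have htend : Tendsto (fun k => T + ε k * s) atTop (𝓝[<] T) := by
    refine tendsto_nhdsWithin_iff.2 ⟨?_, Eventually.of_forall fun k => ?_⟩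
    · have := (hε0.mul_const s).const_add T
      simpa using this
    · have := mul_pos (hε k) hS
      show T + ε k * s < T
      nlinarith
  refine ⟨fun y => ?_, ?_, fun y => ?_⟩
  · refine le_of_forall_pos_le_add fun η hη => ?_
    have hη2 : 0 < η / 2 := by positivity
    have h1 := htend.eventually (hD.up (η / 2) hη2)
    have h2 := hcv (η / (2 * (-s))) (by positivity)
    obtain ⟨k, hk1, hk2⟩ := (h1.and h2).exists
    have a1 := hk1 y
    have a2 := (abs_le.1 (hk2 y)).1
    have a3 : (T - (T + ε k * s)) * U (T + ε k * s, y) = R T U (ε k) s y * (-s) := by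
      unfold R; ring
    rw [a3] at a1
    have a4 : v s y ≤ R T U (ε k) s y + η / (2 * (-s)) := by linarith
    have a5 := mul_le_mul_of_nonneg_right a4 hS.le
    have a6 : η / (2 * (-s)) * (-s) = η / 2 := by
      rw [← div_div, div_mul_cancel₀ _ hS.ne']
    rw [add_mul, a6] at a5
    linarith
  · have hu : TendstoUniformly (fun k => R T U (ε k) s) (v s) atTop := by
      rw [Metric.tendstoUniformly_iff]
      intro η hη
      filter_upwards [hcv (η / 2) (by positivity)] with k hk x
      rw [dist_comm, Real.dist_eq]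
      exact lt_of_le_of_lt (hk x) (by linarith)
    refine hu.continuous ?_
    refine Eventually.frequently ?_
    filter_upwards [hsmall] with k hk
    exact continuous_const.mul (hD.sol.sm.continuous_x (hI k hk))
  · refine eq_of_abs_sub_eq_zero ?_
    refine le_antisymm ?_ (abs_nonneg _)
    refine le_of_forall_pos_le_add fun η hη => ?_
    obtain ⟨k, hk1, hk2⟩ := (hsmall.and (hcv (η / 2) (by positivity))).exists
    have a1 : R T U (ε k) s (y + 2 * Real.pi) = R T U (ε k) s y := by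
      unfold R
      rw [hD.sol.per _ (hI k hk1) y]
    have a2 := abs_le.1 (hk2 (y + 2 * Real.pi))
    have a3 := abs_le.1 (hk2 y)
    rw [a1] at a2
    rw [abs_le]
    constructor <;> linarith [a2.1, a2.2, a3.1, a3.2]

end LKBM

open LKBM in
theorem specLKB (hKFN : SpecKFN) (hCMB : SpecCMB) (hAVD : SpecAVD) (hAVI : SpecAVI)
    (hIVL : SpecIVL) : SpecLKB := by
  intro T U C c hD ε v hε hε0 hv s t hst ht x
  have hT := hD.hT
  have hC := hD.hC
  have hs : s < 0 := by linarith
  have hτ : 0 < -t := by linarith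
  have hS : 0 < -s := by linarith
  have hd : 0 < t - s := by linarith
  obtain ⟨hvle, hvc, hvp⟩ := lim_le hD hε hε0 hv hs
  set κ : ℝ := (-t) / (2 * (-s)) with hκdef
  have hκ : 0 < κ := by positivity
  have hκ2 : κ * (2 * (-s)) = -t := by
    rw [hκdef, div_mul_cancel₀ _ (by positivity)]
  have hvd : ∀ y, v s y * (t - s) ≤ 1 - κ := by
    intro y
    have e1 : t - s = (1 - 2 * κ) * (-s) := by linarith
    have h2κ : 0 < 1 - 2 * κ := by
      by_contra h
      have := mul_nonpos_of_nonpos_of_nonneg (not_lt.1 h) hS.le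
      linarith
    have h1 := mul_le_mul_of_nonneg_left (hvle y) h2κ.le
    rw [e1]
    nlinarith
  -- the function to be maximised
  have hΨc : Continuous fun y => K y s (v s y) x t := by
    unfold K
    have hden : ∀ y, 1 - v s y * (t - s) ≠ 0 := fun y => by
      have := hvd y
      exact ne_of_gt (by linarith)
    have h1 : Continuous fun y => v s y / (1 - v s y * (t - s)) :=
      hvc.div (continuous_const.sub (hvc.mul continuous_const)) hden
    have h2 : Continuous fun y => Real.cos ((x - y) / 2) ^ 2 := by fun_prop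
    have h3 : Continuous fun y => Real.sin ((x - y) / 2) ^ 2 / (t - s) := by fun_prop
    exact (h2.mul h1).sub h3
  have hΨp : Function.Periodic (fun y => K y s (v s y) x t) (2 * Real.pi) := by
    intro y
    show K (y + 2 * Real.pi) s (v s (y + 2 * Real.pi)) x t = K y s (v s y) x t
    rw [hvp y]
    exact (hKFN.2.2.2.2.2.2.2 y s (v s y) t x).2
  obtain ⟨y₀, -, hy₀⟩ := (isCompact_Icc (a := (0 : ℝ)) (b := 2 * Real.pi)).exists_isMaxOn
    ⟨0, ⟨le_refl _, by positivity⟩⟩ hΨc.continuousOn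
  have hmax : ∀ y, K y s (v s y) x t ≤ K y₀ s (v s y₀) x t := by
    intro y
    obtain ⟨z, hz, hyz⟩ := hΨp.exists_mem_Ico₀ (by positivity) y
    have hyz' : K y s (v s y) x t = K z s (v s z) x t := hyz
    rw [hyz']
    exact hy₀ (show z ∈ Icc (0 : ℝ) (2 * Real.pi) from ⟨hz.1, hz.2.le⟩)
  refine ⟨y₀, ?_⟩
  refine le_of_forall_pos_le_add fun η hη => ?_
  -- constants
  set E : ℝ := Real.exp (C / (-t) * (1 + 2 * (-s) / (-t)) * (t - s)) with hE
  have hE0 : 0 < E := Real.exp_pos _
  have hCt : 0 < C / (-t) := by positivity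
  set Q : ℝ := 1 + 1 / κ ^ 2 with hQ
  have hQ0 : 0 < Q := by positivity
  set l₁ : ℝ := min ((η / (8 * (C / (-t)) * Q)) ^ 2)
    (η / (8 * (E * (C / (-t)) ^ 2 * (t - s)))) with hl₁
  have hl₁0 : 0 < l₁ := by
    refine lt_min (by positivity) (by positivity)
  obtain ⟨l, hl, hll, hl1, hI⟩ := hIVL T U C c hD ε v hε hε0 hv s t hst ht (η / (8 * E))
    (by positivity) l₁ hl₁0
  have hsq : C / (-t) * Real.sqrt l * Q ≤ η / 8 := by
    have h1 : Real.sqrt l ≤ η / (8 * (C / (-t)) * Q) := by
      refine Real.sqrt_le_iff.2 ⟨by positivity, ?_⟩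
      exact (hll.le).trans (min_le_left _ _)
    have h2 := mul_le_mul_of_nonneg_left h1 (mul_pos hCt hQ0).le
    have e1 : C / (-t) * Q * (η / (8 * (C / (-t)) * Q)) = η / 8 := by
      obtain ⟨D1, hD1⟩ : ∃ D1, D1 = C / (-t) := ⟨_, rfl⟩
      rw [← hD1]
      have h3 : D1 ≠ 0 := by rw [hD1]; exact hCt.ne'
      have h4 : Q ≠ 0 := hQ0.ne'
      field_simp
    have e2 : C / (-t) * Real.sqrt l * Q = C / (-t) * Q * Real.sqrt l := by ring
    rw [e2]
    exact h2.trans_eq e1
  have hlin : E * ((C / (-t)) ^ 2 * l * (t - s)) ≤ η / 8 := by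
    have h1 : l ≤ η / (8 * (E * (C / (-t)) ^ 2 * (t - s))) := (hll.le).trans (min_le_right _ _)
    rw [le_div_iff₀ (by positivity)] at h1
    linarith
  have hk1 : ∀ᶠ k in atTop, ε k * (-s) ≤ T / 2 := by
    have h1 : Tendsto (fun k => ε k * (-s)) atTop (𝓝 0) := by
      simpa using hε0.mul_const (-s)
    exact h1.eventually_le_const (by positivity)
  have hk2 : ∀ᶠ k in atTop, E * (420 * ε k * C * (t - s) / (l ^ 3 * (-t))) ≤ η / 8 := by
    have h1 : Tendsto (fun k => E * (420 * ε k * C * (t - s) / (l ^ 3 * (-t)))) atTop (𝓝 0) := by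
      have h2 := hε0.mul_const (E * (420 * C * (t - s) / (l ^ 3 * (-t))))
      rw [zero_mul] at h2
      refine h2.congr fun k => ?_
      ring
    exact h1.eventually_le_const (by positivity)
  have htend : Tendsto (fun k => T + ε k * s) atTop (𝓝[<] T) := by
    refine tendsto_nhdsWithin_iff.2 ⟨?_, Eventually.of_forall fun k => ?_⟩
    · have := (hε0.mul_const s).const_add T
      simpa using this
    · have := mul_pos (hε k) hS
      show T + ε k * s < T
      nlinarith
  have hk3 := htend.eventually (hD.up κ hκ)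
  have hk4 := hv (-t) (-s + 1) hτ (by linarith) (η / (8 * Q)) (by positivity)
  obtain ⟨k, hkI, hk1, hk2, hk3, hk4⟩ := (hI.and (hk1.and (hk2.and (hk3.and hk4)))).exists
  have hup : ∀ y, (ε k * (-s)) * U (T + ε k * s, y) ≤ 1 + (-t) / (2 * (-s)) := by
    intro y
    have h1 := hk3 y
    have e1 : T - (T + ε k * s) = ε k * (-s) := by ring
    rw [e1] at h1
    exact h1
  obtain ⟨y, h1, h2, h3, h4⟩ := step hKFN hCMB hAVD hAVI hD hst ht (hε k) hk1 hl hl1 hup x
  have hρt0 : |R T U (ε k) t x - v t x| ≤ η / (8 * Q) := hk4 t ⟨by linarith, by linarith⟩ x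
  have hρs0 : |R T U (ε k) s y - v s y| ≤ η / (8 * Q) := hk4 s ⟨by linarith, by linarith⟩ y
  have hρt := abs_le.1 hρt0
  have hρs := abs_le.1 hρs0
  set a : ℝ := ε k * Av l (fun z => U (T + ε k * s, z)) y with ha
  have hKd := K_diff (y := y) (s := s) (x := x) (t := t) hκ h2 (hvd y)
  have h4' := abs_le.1 h4
  have h3' := abs_le.1 h3
  have hda : |a - v s y| ≤ C / (-t) * Real.sqrt l + η / (8 * Q) := by
    rw [abs_le]
    constructor <;> linarith [hρs.1, hρs.2, h4'.1, h4'.2]
  have hda2 : |a - v s y| / κ ^ 2 ≤ (C / (-t) * Real.sqrt l + η / (8 * Q)) * (1 / κ ^ 2) := by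
    rw [div_eq_mul_one_div]
    exact mul_le_mul_of_nonneg_right hda (by positivity)
  have hQ1 : (C / (-t) * Real.sqrt l + η / (8 * Q)) * (1 / κ ^ 2) +
      (C / (-t) * Real.sqrt l + η / (8 * Q)) ≤ η / 4 := by
    have e1 : (C / (-t) * Real.sqrt l + η / (8 * Q)) * (1 / κ ^ 2) +
        (C / (-t) * Real.sqrt l + η / (8 * Q)) =
        C / (-t) * Real.sqrt l * Q + η / (8 * Q) * Q := by rw [hQ]; ring
    have e2 : η / (8 * Q) * Q = η / 8 := by
      field_simp
    rw [e1, e2]
    linarith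
  have hEI : E * (∫ r in s..t, Vl l (fun z => ε k * Dx U (T + ε k * r, z))) ≤ η / 8 := by
    have h5 := mul_le_mul_of_nonneg_left hkI hE0.le
    have e1 : E * (η / (8 * E)) = η / 8 := by field_simp
    rw [e1] at h5
    exact h5
  have hEtot : E * (420 * ε k * C * (t - s) / (l ^ 3 * (-t)) +
            (∫ r in s..t, Vl l (fun z => ε k * Dx U (T + ε k * r, z))) +
            (C / (-t)) ^ 2 * l * (t - s)) ≤ 3 * (η / 8) := by
    rw [mul_add, mul_add]
    linarith
  have hm := hmax y
  rw [← hE] at h1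
  have hq8 : η / (8 * Q) ≤ C / (-t) * Real.sqrt l + η / (8 * Q) := by
    have := mul_nonneg hCt.le (Real.sqrt_nonneg l)
    linarith
  linarith [hρt.1, hρt.2, h3'.1, h3'.2]

end Pool.Agent.Lib.MPb879c5.PR
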