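import Pool.Agent.Lib.MP_b879c5_an.PR.Spec

/-!
# MP_b879c5_an, PR, module MEA
-/

set_option autoImplicit false

namespace Pool.Agent.Lib.MPb879c5.PR

open Set Filter MeasureTheory Topology
open Pool.Agent.Lib.MP_b879c5_an

theorem specMEA : SpecMEA := by
  constructor
  · intro f g hf hg hfp hgp hle hint x
    have hpi : 0 < 2 * Real.pi := by positivity
    have hper : Function.Periodic (fun x => g x - f x) (2 * Real.pi) := by
      intro y
      simp only [hfp y, hgp y]
    obtain ⟨y, hy, hxy⟩ := hper.exists_mem_Ico₀ hpi x
    by_contra hne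
    have hlt : 0 < g y - f y := by
      rw [← hxy]
      have h1 := lt_of_le_of_ne (hle x) hne
      linarith
    have hpos : 0 < ∫ x in (0 : ℝ)..(2 * Real.pi), (g x - f x) :=
      intervalIntegral.integral_pos hpi (hg.sub hf).continuousOn
        (fun z _ => sub_nonneg.2 (hle z)) ⟨y, ⟨hy.1, hy.2.le⟩, hlt⟩
    rw [intervalIntegral.integral_sub (hg.intervalIntegrable _ _) (hf.intervalIntegrable _ _),
      hint, sub_self] at hpos
    exact lt_irrefl _ hpos
  · intro a
    have h1 : ∀ x : ℝ, Real.cos ((x - a) / 2) ^ 2 = (1 + Real.cos (x - a)) / 2 := by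
      intro x
      rw [Real.cos_sq]
      have : 2 * ((x - a) / 2) = x - a := by ring
      rw [this]
      ring
    have h2 : ∫ x in (0 : ℝ)..(2 * Real.pi), (1 + Real.cos (x - a)) / 2 =
        (fun x => (x + Real.sin (x - a)) / 2) (2 * Real.pi) -
          (fun x => (x + Real.sin (x - a)) / 2) 0 := by
      apply intervalIntegral.integral_eq_sub_of_hasDerivAt
        (f := fun x => (x + Real.sin (x - a)) / 2)
      · intro x _
        have e1 : HasDerivAt (fun x : ℝ => x - a) 1 x := (hasDerivAt_id x).sub_const a
        have e2 := e1.sin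
        have e3 := ((hasDerivAt_id x).add e2).div_const 2
        refine e3.congr_deriv ?_
        ring
      · exact (by fun_prop : Continuous fun x : ℝ => (1 + Real.cos (x - a)) / 2).intervalIntegrable
          _ _
    simp only [h1]
    rw [h2]
    have h3 : Real.sin (2 * Real.pi - a) = -Real.sin a := by
      rw [Real.sin_sub, Real.sin_two_pi, Real.cos_two_pi]
      ring
    have h4 : Real.sin (0 - a) = -Real.sin a := by rw [zero_sub, Real.sin_neg]
    simp only [h3, h4]
    ring

end Pool.Agent.Lib.MPb879c5.PR
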