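import Pool.Agent.Lib.MP_b879c5_an.PR.Spec

/-!
# MP_b879c5_an, module MON: monotonicity of `-t v(t, x)`
-/

set_option autoImplicit false

namespace Pool.Agent.Lib.MPb879c5.PR

open Set Filter MeasureTheory Topology
open Pool.Agent.Lib.MP_b879c5_an

namespace MONM

/-- `|r| V / (1 - V (r - s))` decreases in `r < 0` -/
theorem key {V s t t' : ℝ} (hV : 0 ≤ V) (h1 : -s * V ≤ 1) (htt : t' < t) (ht : t < 0) :
    -t * (V / (1 - V * (t - s))) ≤ -t' * (V / (1 - V * (t' - s))) := by
  rcases hV.eq_or_lt with h0 | h0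
  · rw [← h0]; simp
  · have ht' : t' < 0 := htt.trans ht
    have e1 : 0 < V * (-t) := mul_pos h0 (by linarith)
    have e2 : 0 < V * (-t') := mul_pos h0 (by linarith)
    have d1 : 0 < 1 - V * (t - s) := by nlinarith
    have d2 : 0 < 1 - V * (t' - s) := by nlinarith
    rw [← mul_div_assoc, ← mul_div_assoc, div_le_div_iff₀ d1 d2]
    have h2 : 0 ≤ V * (t - t') * (1 + V * s) :=
      mul_nonneg (mul_nonneg hV (by linarith)) (by nlinarith)
    have h3 : -t' * V * (1 - V * (t - s)) - -t * V * (1 - V * (t' - s)) =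
        V * (t - t') * (1 + V * s) := by ring
    linarith

end MONM

open MONM in
theorem specMON : SpecMON := by
  intro C c v hA hKA hKB t' t htt ht x
  refine le_of_forall_pos_le_add fun ε hε => ?_
  have ht' : t' < 0 := htt.trans ht
  obtain ⟨s, hsd⟩ : ∃ s : ℝ, s = t' - -t' / ε := ⟨_, rfl⟩
  have hpos : 0 < -t' / ε := div_pos (by linarith) hε
  have hs : s < t' := by linarith
  obtain ⟨y, hy⟩ := hKB s t (hs.trans htt) ht x
  have hB := hKA s t' hs ht' x y
  have hV0 : 0 ≤ v s y := hA.nn s (hs.trans ht') y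
  have hV1 : -s * v s y ≤ 1 := hA.le s (hs.trans ht') y
  have hk := key hV0 hV1 htt ht
  unfold K at hy hB
  have hc0 : 0 ≤ Real.cos ((x - y) / 2) ^ 2 := sq_nonneg _
  have hd0 : 0 ≤ Real.sin ((x - y) / 2) ^ 2 := sq_nonneg _
  have hcd : Real.sin ((x - y) / 2) ^ 2 + Real.cos ((x - y) / 2) ^ 2 = 1 :=
    Real.sin_sq_add_cos_sq _
  generalize Real.cos ((x - y) / 2) ^ 2 = p at *
  generalize Real.sin ((x - y) / 2) ^ 2 = q at *
  generalize v s y / (1 - v s y * (t - s)) = a at *
  generalize v s y / (1 - v s y * (t' - s)) = a' at *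
  have hts : 0 < t - s := by linarith
  have hts' : 0 < t' - s := by linarith
  have h1 : v t x ≤ p * a := by
    have : 0 ≤ q / (t - s) := div_nonneg hd0 hts.le
    linarith
  have h2 : q / (t' - s) ≤ 1 / (t' - s) := by
    apply div_le_div_of_nonneg_right _ hts'.le
    linarith
  have h3 : p * a' ≤ v t' x + 1 / (t' - s) := by linarith
  have h4 : -t * v t x ≤ -t * (p * a) := mul_le_mul_of_nonneg_left h1 (by linarith)
  have h5 : p * (-t * a) ≤ p * (-t' * a') := mul_le_mul_of_nonneg_left hk hc0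
  have h6 : -t' * (p * a') ≤ -t' * (v t' x + 1 / (t' - s)) :=
    mul_le_mul_of_nonneg_left h3 (by linarith)
  have h7 : -t' * (1 / (t' - s)) = ε := by
    have : t' - s = -t' / ε := by linarith
    rw [this]
    have hne : t' ≠ 0 := ne_of_lt ht'
    field_simp
  calc -t * v t x ≤ p * (-t * a) := by linarith
    _ ≤ p * (-t' * a') := h5
    _ = -t' * (p * a') := by ring
    _ ≤ -t' * (v t' x + 1 / (t' - s)) := h6
    _ = -t' * v t' x + ε := by rw [mul_add, h7]

end Pool.Agent.Lib.MPb879c5.PR
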