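import Pool.Agent.Lib.MP_b879c5_an.PR.Spec

/-!
Module ODE: global backward solutions of a bounded Lipschitz field.
-/

set_option autoImplicit false

namespace Pool.Agent.Lib.MPb879c5.PR

open Set Filter MeasureTheory Topology

theorem specODE : SpecODE := by
  intro b s t L M hst hlip hcont hbd x
  have hM : 0 ≤ M := (abs_nonneg _).trans (hbd s ⟨le_rfl, hst.le⟩ x)
  have hPL : IsPicardLindelof b (tmin := s) (tmax := t) ⟨t, ⟨hst.le, le_rfl⟩⟩ x
      ⟨M * (t - s), mul_nonneg hM (sub_nonneg.mpr hst.le)⟩ 0 ⟨M, hM⟩ ⟨max L 0, le_max_right _ _⟩ := by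
    refine ⟨?_, fun y _ => hcont y, fun r hr y _ => ?_, ?_⟩
    · intro r hr
      refine LipschitzOnWith.of_dist_le_mul fun y _ z _ => ?_
      rw [Real.dist_eq, Real.dist_eq]
      exact (hlip r hr y z).trans (mul_le_mul_of_nonneg_right (le_max_left _ _) (abs_nonneg _))
    · rw [Real.norm_eq_abs]
      exact hbd r hr y
    · change M * max (t - t) (t - s) ≤ M * (t - s) - 0
      rw [sub_self, max_eq_right (sub_nonneg.mpr hst.le), sub_zero]
  obtain ⟨X, hX0, hX⟩ := hPL.exists_eq_forall_mem_Icc_hasDerivWithinAt₀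
  exact ⟨X, hX0, fun r hr => (hX r hr).continuousWithinAt,
    fun r hr => (hX r (Ioo_subset_Icc_self hr)).hasDerivAt (Icc_mem_nhds hr.1 hr.2)⟩

end Pool.Agent.Lib.MPb879c5.PR
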