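import Pool.Agent.Lib.MP_b879c5_an.PR.Spec

/-!
# MP_b879c5_an, module STA: stationary limits
-/

set_option autoImplicit false

namespace Pool.Agent.Lib.MPb879c5.PR

open Set Filter MeasureTheory Topology
open Pool.Agent.Lib.MP_b879c5_an

theorem STAM.K_one (ρ a x y : ℝ) (h0 : 0 < ρ) (h1 : ρ < 1) :
    ρ * K y (-1) a x (-ρ) = Kg ρ a x y := by
  unfold K Kg
  have e1 : -ρ - -1 = 1 - ρ := by ring
  rw [e1]
  have h2 : (1 - ρ) ≠ 0 := by intro h; linarith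
  field_simp

theorem STAM.K_two (ρ a x y : ℝ) (h0 : 0 < ρ) (h1 : ρ < 1) :
    K y (-(1 / ρ)) (ρ * a) x (-1) = Kg ρ a x y := by
  unfold K Kg
  have e1 : (-1 : ℝ) - -(1 / ρ) = (1 - ρ) / ρ := by field_simp; ring
  have h2 : (1 - ρ) ≠ 0 := by intro h; linarith
  rw [e1]
  have e2 : 1 - ρ * a * ((1 - ρ) / ρ) = 1 - a * (1 - ρ) := by
    field_simp
  rw [e2, mul_comm ρ a]
  have e3 : Real.sin ((x - y) / 2) ^ 2 / ((1 - ρ) / ρ) = Real.sin ((x - y) / 2) ^ 2 * ρ / (1 - ρ) := by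
    field_simp
  rw [e3]

theorem specSTA (hKNK : SpecKNK) (hFIX : SpecFIX) (hCLS : SpecCLS) : SpecSTA := by
  intro C c v hc hA hKA hKB hst
  have hn : (-1 : ℝ) < 0 := by norm_num
  have hg1 : Continuous (v (-1)) := hA.cont (-1) hn
  have hg2 : ∀ x, v (-1) (x + 2 * Real.pi) = v (-1) x := hA.per (-1) hn
  have hg3 : ∀ x, 0 ≤ v (-1) x ∧ v (-1) x ≤ 1 := by
    intro x
    have h1 := hA.nn (-1) hn x
    have h2 := hA.le (-1) hn x
    constructor <;> linarith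
  have hg4 : ∃ x, v (-1) x ≠ 0 := by
    by_contra hcon
    push Not at hcon
    have h1 := hA.mean (-1) hn
    have h2 : (∫ x in (0)..(2 * Real.pi), v (-1) x) = 0 := by
      simp [hcon]
    rw [h2] at h1
    linarith
  have hAB : (∀ ρ : ℝ, 0 < ρ → ρ < 1 → ∀ x y, Kg ρ (v (-1) y) x y ≤ v (-1) x) ∧
      (∀ ρ : ℝ, 0 < ρ → ρ < 1 → ∀ x, ∃ y, v (-1) x ≤ Kg ρ (v (-1) y) x y) := by
    rcases hst with hst | hst
    · have hv : ∀ ρ : ℝ, 0 < ρ → ρ < 1 → ∀ x, ρ * v (-ρ) x = v (-1) x := by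
        intro ρ h0 h1 x
        have h2 := hst (-ρ) (by linarith) (by linarith) x
        rw [neg_neg] at h2
        exact h2
      constructor
      · intro ρ h0 h1 x y
        have h2 := hKA (-1) (-ρ) (by linarith) (by linarith) x y
        have h3 := mul_le_mul_of_nonneg_left h2 h0.le
        rwa [STAM.K_one ρ _ x y h0 h1, hv ρ h0 h1 x] at h3
      · intro ρ h0 h1 x
        obtain ⟨y, hy⟩ := hKB (-1) (-ρ) (by linarith) (by linarith) x
        have h3 := mul_le_mul_of_nonneg_left hy h0.le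
        rw [STAM.K_one ρ _ x y h0 h1, hv ρ h0 h1 x] at h3
        exact ⟨y, h3⟩
    · have hρ : ∀ ρ : ℝ, 0 < ρ → ρ < 1 → -(1 / ρ) < -1 := by
        intro ρ h0 h1
        have h2 : 1 < 1 / ρ := by rw [lt_div_iff₀ h0]; linarith
        linarith
      have hv : ∀ ρ : ℝ, 0 < ρ → ρ < 1 → ∀ x, v (-(1 / ρ)) x = ρ * v (-1) x := by
        intro ρ h0 h1 x
        have h2 := hst (-(1 / ρ)) (hρ ρ h0 h1).le x
        rw [neg_neg] at h2
        rw [← h2]
        field_simp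
      constructor
      · intro ρ h0 h1 x y
        have h2 := hKA (-(1 / ρ)) (-1) (hρ ρ h0 h1) hn x y
        rwa [hv ρ h0 h1 y, STAM.K_two ρ _ x y h0 h1] at h2
      · intro ρ h0 h1 x
        obtain ⟨y, hy⟩ := hKB (-(1 / ρ)) (-1) (hρ ρ h0 h1) hn x
        rw [hv ρ h0 h1 y, STAM.K_two ρ _ x y h0 h1] at hy
        exact ⟨y, hy⟩
  obtain ⟨f1, f2⟩ := hFIX (v (-1)) hg1 hg2 hg3 hg4 hAB.1 hAB.2
  have hin : InG C (v (-1)) := by
    have h1 := hA.inG (-1) hn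
    have h2 : (fun x => -(-1 : ℝ) * v (-1) x) = v (-1) := by
      funext x; ring
    rwa [h2] at h1
  exact hCLS (v (-1)) hg1 hg2 f1 f2 (hKNK C (v (-1)) hin)

end Pool.Agent.Lib.MPb879c5.PR
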