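import Pool.Agent.Lib.MP_b879c5_an.PR.Spec

/-!
# MP_b879c5_an, module SUB (helper87): subsequences
-/

set_option autoImplicit false

namespace Pool.Agent.Lib.MPb879c5.PR

open Set Filter MeasureTheory Topology
open Pool.Agent.Lib.MP_b879c5_an

theorem specSUB (hEQC : SpecEQC) (hARZ : SpecARZ) : SpecSUB := by
  intro T U C c hD ε hε hlim
  have hsmall : ∀ B : ℝ, 0 < B → ∀ᶠ k in atTop, ε k * B < T / 2 := by
    intro B hB
    have h1 : Tendsto (fun k => ε k * B) atTop (𝓝 (0 * B)) := hlim.mul_const B
    rw [zero_mul] at h1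
    exact h1.eventually_lt_const (by linarith [hD.hT])
  refine hARZ (fun k => R T U (ε k)) ?_ ?_ ?_
  · intro t ht x
    refine ⟨C / (-t), ?_⟩
    filter_upwards [hsmall (-t) (by linarith)] with k hk
    have h0 := hε k
    have h1 : T + ε k * t ∈ Ico (T / 2) T := by
      constructor
      · linarith
      · nlinarith
    have h2 := hD.sup _ h1 x
    have h3 : T - (T + ε k * t) = ε k * (-t) := by ring
    rw [h3] at h2
    unfold R
    rw [abs_mul, abs_of_pos h0, le_div_iff₀ (by linarith)]
    calc ε k * |U (T + ε k * t, x)| * -t = ε k * -t * |U (T + ε k * t, x)| := by ring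
      _ ≤ C := h2
  · intro b B hb hB
    filter_upwards [hsmall B (by linarith)] with k hk
    intro t ht x
    have h0 := hε k
    unfold R
    have h1 : T + ε k * t ∈ Ioo 0 T := by
      constructor
      · nlinarith [ht.1, ht.2, hD.hT]
      · nlinarith [ht.1, ht.2]
    rw [hD.sol.per _ h1 x]
  · intro b B hb hB η hη
    obtain ⟨δ, hδ, e₀, he₀, h⟩ := hEQC T U C c hD b B hb hB η hη
    refine ⟨δ, hδ, ?_⟩
    filter_upwards [hlim.eventually_lt_const he₀] with k hk
    intro t ht t' ht' x x' h1 h2
    exact h (ε k) (hε k) hk t ht t' ht' x x' h1 h2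

end Pool.Agent.Lib.MPb879c5.PR
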