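import Pool.Agent.Lib.MP_b879c5_an.PR.SpecI

/-!
# MP_b879c5_an, module SYM: the profile has no smaller period
-/

set_option autoImplicit false

namespace Pool.Agent.Lib.MPb879c5.PR

open Set Filter MeasureTheory Topology
open Pool.Agent.Lib.MP_b879c5_an

theorem specSYM : SpecSYM := by
  intro n T f hn hT hper hcon
  have hnR : (2 : ℝ) ≤ (n : ℝ) := by exact_mod_cast hn
  have hn0 : (0 : ℝ) < (n : ℝ) := by linarith
  have hpos : 0 < Real.pi / n := div_pos Real.pi_pos hn0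
  have hlt : Real.pi / n < Real.pi := by
    rw [div_lt_iff₀ hn0]
    nlinarith [Real.pi_pos]
  have hs : 0 < Real.sin (Real.pi / n) := Real.sin_pos_of_pos_of_lt_pi hpos hlt
  have hs2 : 0 < Real.sin (Real.pi / n) ^ 2 / 3 := by positivity
  have hev := hcon _ hs2
  have hev2 : ∀ᶠ t in 𝓝[<] T, t ∈ Ioo 0 T := Ioo_mem_nhdsLT hT
  obtain ⟨t, ⟨a, ha⟩, ht⟩ := (hev.and hev2).exists
  have h1 := ha a
  have h2 := ha (a + 2 * Real.pi / n)
  rw [hper t ht a] at h2
  have e1 : (a - a) / 2 = 0 := by ring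
  have e2 : (a + 2 * Real.pi / n - a) / 2 = Real.pi / n := by ring
  rw [e1, Real.cos_zero] at h1
  rw [e2] at h2
  have h3 := Real.sin_sq_add_cos_sq (Real.pi / n)
  rw [abs_le] at h1 h2
  have h4 := h1.1
  have h5 := h2.2
  nlinarith [hs2]

end Pool.Agent.Lib.MPb879c5.PR
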