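import Pool.Agent.Lib.MP_b879c5_an.PR.Spec

/-!
# MP_b879c5, module PR.VAR: variance of the weighted average
-/

set_option autoImplicit false

namespace Pool.Agent.Lib.MPb879c5.PR

open Set Filter MeasureTheory Topology
open Pool.Agent.Lib.MP_b879c5_an

noncomputable section

namespace VARM

theorem cont_wt (l : ℝ) : Continuous (fun z => wt l z) := by
  unfold wt
  fun_prop

theorem int_wt {l : ℝ} (hl : 0 < l) : ∫ z in (-l)..l, wt l z = 1 := by
  have h := integral_wt hl 0
  simpa using h

theorem wt_le {l z : ℝ} (hl : 0 < l) (hz : |z| ≤ l) : wt l z ≤ 35 / (32 * l) := by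
  have h0 : z ^ 2 ≤ l ^ 2 := by
    rw [← sq_abs z]
    exact pow_le_pow_left₀ (abs_nonneg z) hz 2
  have h1 : (l ^ 2 - z ^ 2) ^ 3 ≤ (l ^ 2) ^ 3 :=
    pow_le_pow_left₀ (by linarith) (by nlinarith [sq_nonneg z]) 3
  have h2 : wt l z ≤ 35 / (32 * l ^ 7) * (l ^ 2) ^ 3 := by
    unfold wt
    exact mul_le_mul_of_nonneg_left h1 (by positivity)
  have h3 : 35 / (32 * l ^ 7) * (l ^ 2) ^ 3 = 35 / (32 * l) := by
    field_simp
  rw [h3] at h2
  exact h2

/-- second moment about `c` -/
theorem moment {l : ℝ} (hl : 0 < l) {f : ℝ → ℝ} (hf : Continuous f) (c : ℝ) :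
    ∫ z in (-l)..l, wt l z * (f z - c) ^ 2 =
      (∫ z in (-l)..l, wt l z * f z ^ 2) - 2 * c * (∫ z in (-l)..l, wt l z * f z) + c ^ 2 := by
  have hw := cont_wt l
  have h1 : ∀ z, wt l z * (f z - c) ^ 2 =
      wt l z * f z ^ 2 - 2 * c * (wt l z * f z) + c ^ 2 * wt l z := by
    intro z
    ring
  simp_rw [h1]
  have i1 : IntervalIntegrable (fun z => wt l z * f z ^ 2) volume (-l) l :=
    (hw.mul (hf.pow 2)).intervalIntegrable _ _
  have i2 : IntervalIntegrable (fun z => 2 * c * (wt l z * f z)) volume (-l) l :=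
    (continuous_const.mul (hw.mul hf)).intervalIntegrable _ _
  have i3 : IntervalIntegrable (fun z => c ^ 2 * wt l z) volume (-l) l :=
    (continuous_const.mul hw).intervalIntegrable _ _
  rw [intervalIntegral.integral_add (i1.sub i2) i3, intervalIntegral.integral_sub i1 i2,
    intervalIntegral.integral_const_mul, intervalIntegral.integral_const_mul, int_wt hl, mul_one]

theorem abs_of_mem {l z : ℝ} (hz : z ∈ Icc (-l) l) : |z| ≤ l := abs_le.mpr hz

theorem var_nonneg {l : ℝ} (hl : 0 < l) {f : ℝ → ℝ} (hf : Continuous f) :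
    (∫ z in (-l)..l, wt l z * f z) ^ 2 ≤ ∫ z in (-l)..l, wt l z * f z ^ 2 := by
  have h1 := moment hl hf (∫ z in (-l)..l, wt l z * f z)
  have h2 : 0 ≤ ∫ z in (-l)..l, wt l z * (f z - ∫ z in (-l)..l, wt l z * f z) ^ 2 := by
    refine intervalIntegral.integral_nonneg (by linarith) fun z hz => ?_
    exact mul_nonneg (wt_nonneg hl (abs_of_mem hz)) (sq_nonneg _)
  nlinarith

theorem var_le {l : ℝ} (hl : 0 < l) {f : ℝ → ℝ} (hf : Continuous f) (c : ℝ) :
    (∫ z in (-l)..l, wt l z * f z ^ 2) - (∫ z in (-l)..l, wt l z * f z) ^ 2 ≤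
      35 / (32 * l) * ∫ z in (-l)..l, (f z - c) ^ 2 := by
  have h1 := moment hl hf c
  have h2 : ∫ z in (-l)..l, wt l z * (f z - c) ^ 2 ≤
      ∫ z in (-l)..l, 35 / (32 * l) * (f z - c) ^ 2 := by
    refine intervalIntegral.integral_mono_on (by linarith)
      (((cont_wt l).mul ((hf.sub continuous_const).pow 2)).intervalIntegrable _ _)
      ((continuous_const.mul ((hf.sub continuous_const).pow 2)).intervalIntegrable _ _) ?_
    intro z hz
    exact mul_le_mul_of_nonneg_right (wt_le hl (abs_of_mem hz)) (sq_nonneg _)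
  rw [intervalIntegral.integral_const_mul] at h2
  nlinarith [sq_nonneg (c - ∫ z in (-l)..l, wt l z * f z)]

/-- the inner integral, recentred -/
theorem inner_le {l : ℝ} (hl : 0 < l) {f : ℝ → ℝ} (hf : Continuous f) {z' : ℝ}
    (hz' : z' ∈ Icc (-l) l) :
    ∫ z in (-l)..l, (f z - f z') ^ 2 ≤ ∫ s in (-(2 * l))..(2 * l), (f (z' + s) - f z') ^ 2 := by
  have h1 : ∫ z in (-l)..l, (f z - f z') ^ 2 =
      ∫ s in (-l - z')..(l - z'), (f (z' + s) - f z') ^ 2 := by
    have h2 := intervalIntegral.integral_comp_add_left (fun z => (f z - f z') ^ 2) z'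
      (a := -l - z') (b := l - z')
    rw [h2]
    congr 1 <;> ring
  rw [h1]
  have hc : Continuous fun s => (f (z' + s) - f z') ^ 2 := by fun_prop
  refine intervalIntegral.integral_mono_interval ?_ ?_ ?_ ?_ (hc.intervalIntegrable _ _)
  · linarith [hz'.2]
  · linarith
  · linarith [hz'.1]
  · exact Eventually.of_forall fun s => sq_nonneg _

theorem om_le {q : ℝ → ℝ} (hq : Continuous q) (hper : ∀ x, q (x + 2 * Real.pi) = q x) {l : ℝ}
    (hl : 0 < l) (hl1 : l ≤ 1) (x s : ℝ) :
    ∫ z in (-l)..l, (q (x + (z + s)) - q (x + z)) ^ 2 ≤ om q s := by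
  have hpi := Real.pi_gt_three
  have hg : Function.Periodic (fun y => (q (y + s) - q y) ^ 2) (2 * Real.pi) := by
    intro y
    show (q (y + 2 * Real.pi + s) - q (y + 2 * Real.pi)) ^ 2 = (q (y + s) - q y) ^ 2
    rw [hper y, show y + 2 * Real.pi + s = y + s + 2 * Real.pi by ring, hper]
  have hc : Continuous fun y => (q (y + s) - q y) ^ 2 := by fun_prop
  have h1 : ∫ z in (-l)..l, (q (x + (z + s)) - q (x + z)) ^ 2 =
      ∫ y in (x + -l)..(x + l), (q (y + s) - q y) ^ 2 := by
    have h2 := intervalIntegral.integral_comp_add_left (fun y => (q (y + s) - q y) ^ 2) x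
      (a := -l) (b := l)
    rw [← h2]
    refine intervalIntegral.integral_congr fun z _ => ?_
    show (q (x + (z + s)) - q (x + z)) ^ 2 = (q (x + z + s) - q (x + z)) ^ 2
    rw [add_assoc]
  rw [h1]
  have h3 : om q s = ∫ y in (x + -l)..(x + -l + 2 * Real.pi), (q (y + s) - q y) ^ 2 := by
    have h4 := hg.intervalIntegral_add_eq 0 (x + -l)
    rw [zero_add] at h4
    exact h4
  rw [h3]
  refine intervalIntegral.integral_mono_interval le_rfl ?_ ?_ ?_ (hc.intervalIntegrable _ _)
  · linarith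
  · linarith
  · exact Eventually.of_forall fun y => sq_nonneg _

end VARM

open VARM in
theorem specVAR : SpecVAR := by
  intro q l hq hper hl hl1 x
  have hf : Continuous fun z => q (x + z) := by fun_prop
  refine ⟨var_nonneg hl hf, ?_⟩
  have hA2 : Av l (fun z => q z ^ 2) x = ∫ z in (-l)..l, wt l z * q (x + z) ^ 2 := rfl
  have hA1 : Av l q x = ∫ z in (-l)..l, wt l z * q (x + z) := rfl
  set D : ℝ := Av l (fun z => q z ^ 2) x - Av l q x ^ 2 with hD
  -- the pointwise bound
  have h1 : ∀ z' ∈ Icc (-l) l, D ≤ 35 / (32 * l) *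
      ∫ s in (-(2 * l))..(2 * l), (q (x + (z' + s)) - q (x + z')) ^ 2 := by
    intro z' hz'
    have h2 := var_le hl hf (q (x + z'))
    have h3 := inner_le hl hf hz'
    rw [hD, hA2, hA1]
    exact h2.trans (mul_le_mul_of_nonneg_left h3 (by positivity))
  have hc2 : Continuous (Function.uncurry fun z' s : ℝ => (q (x + (z' + s)) - q (x + z')) ^ 2) := by
    have : Continuous fun p : ℝ × ℝ => (q (x + (p.1 + p.2)) - q (x + p.1)) ^ 2 := by fun_prop
    exact this
  have hc2' : Continuous (Function.uncurry fun s z' : ℝ => (q (x + (z' + s)) - q (x + z')) ^ 2) := by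
    have : Continuous fun p : ℝ × ℝ => (q (x + (p.2 + p.1)) - q (x + p.2)) ^ 2 := by fun_prop
    exact this
  have hcH : Continuous fun z' => ∫ s in (-(2 * l))..(2 * l), (q (x + (z' + s)) - q (x + z')) ^ 2 :=
    intervalIntegral.continuous_parametric_intervalIntegral_of_continuous' hc2 _ _
  have h4 : ∫ _z in (-l)..l, D ≤ ∫ z' in (-l)..l, 35 / (32 * l) *
      ∫ s in (-(2 * l))..(2 * l), (q (x + (z' + s)) - q (x + z')) ^ 2 :=
    intervalIntegral.integral_mono_on (by linarith) (continuous_const.intervalIntegrable _ _)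
      ((continuous_const.mul hcH).intervalIntegrable _ _) h1
  rw [intervalIntegral.integral_const, intervalIntegral.integral_const_mul, smul_eq_mul] at h4
  have h5 : ∫ z' in (-l)..l, ∫ s in (-(2 * l))..(2 * l), (q (x + (z' + s)) - q (x + z')) ^ 2 =
      ∫ s in (-(2 * l))..(2 * l), ∫ z' in (-l)..l, (q (x + (z' + s)) - q (x + z')) ^ 2 := by
    refine intervalIntegral_intervalIntegral_swap ?_
    have hk : IsCompact (uIcc (-l) l ×ˢ uIcc (-(2 * l)) (2 * l)) :=
      isCompact_uIcc.prod isCompact_uIcc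
    have hi : IntegrableOn (Function.uncurry fun z' s : ℝ => (q (x + (z' + s)) - q (x + z')) ^ 2)
        (uIcc (-l) l ×ˢ uIcc (-(2 * l)) (2 * l)) volume := hc2.continuousOn.integrableOn_compact hk
    exact hi.mono_set (Set.prod_mono uIoc_subset_uIcc uIoc_subset_uIcc)
  have hcI : Continuous fun s => ∫ z' in (-l)..l, (q (x + (z' + s)) - q (x + z')) ^ 2 :=
    intervalIntegral.continuous_parametric_intervalIntegral_of_continuous' hc2' _ _
  have hcO : Continuous fun s => om q s := by
    have h6 : Continuous (Function.uncurry fun s y : ℝ => (q (y + s) - q y) ^ 2) := by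
      have : Continuous fun p : ℝ × ℝ => (q (p.2 + p.1) - q p.2) ^ 2 := by fun_prop
      exact this
    exact intervalIntegral.continuous_parametric_intervalIntegral_of_continuous' h6 _ _
  have h7 : ∫ s in (-(2 * l))..(2 * l), ∫ z' in (-l)..l, (q (x + (z' + s)) - q (x + z')) ^ 2 ≤
      ∫ s in (-(2 * l))..(2 * l), om q s :=
    intervalIntegral.integral_mono_on (by linarith) (hcI.intervalIntegrable _ _)
      (hcO.intervalIntegrable _ _) fun s _ => om_le hq hper hl hl1 x s
  set O : ℝ := ∫ s in (-(2 * l))..(2 * l), om q s with hO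
  have hO0 : 0 ≤ O := by
    refine intervalIntegral.integral_nonneg (by linarith) fun s _ => ?_
    exact intervalIntegral.integral_nonneg (by positivity) fun y _ => sq_nonneg _
  have h8 : 2 * l * D ≤ 35 / (32 * l) * O := by
    have h9 : 35 / (32 * l) * (∫ z' in (-l)..l,
        ∫ s in (-(2 * l))..(2 * l), (q (x + (z' + s)) - q (x + z')) ^ 2) ≤ 35 / (32 * l) * O := by
      rw [h5]
      exact mul_le_mul_of_nonneg_left h7 (by positivity)
    have h10 : (l - -l) * D = 2 * l * D := by ring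
    rw [h10] at h4
    exact h4.trans h9
  have h11 : D ≤ O / l ^ 2 := by
    rw [le_div_iff₀ (by positivity)]
    have h12 : 35 / (32 * l) * O * (32 * l) = 35 * O := by
      field_simp
    have h13 : 2 * l * D * (32 * l) ≤ 35 * O := by
      rw [← h12]
      exact mul_le_mul_of_nonneg_right h8 (by positivity)
    nlinarith
  have h14 : Vl l q = O / l ^ 2 := rfl
  rw [h14]
  linarith

end

end Pool.Agent.Lib.MPb879c5.PR
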