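import Pool.Agent.Lib.MP_b879c5_an.PR.Spec

/-!
# MP_b879c5_an, PR, module VLC: passage to the limit in `Vl`
-/

set_option autoImplicit false

namespace Pool.Agent.Lib.MPb879c5.PR

open Set Filter MeasureTheory Topology
open Pool.Agent.Lib.MP_b879c5_an

noncomputable section

namespace VLCM

/-- continuous and periodic -/
def CP (q : ℝ → ℝ) : Prop := Continuous q ∧ ∀ x, q (x + 2 * Real.pi) = q x

theorem cp_deriv {f : ℝ → ℝ} (h : PC2 f) : CP (deriv f) := by
  refine ⟨h.sm.continuous_deriv (by norm_num), ?_⟩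
  intro x
  have h1 : (fun x => f (x + 2 * Real.pi)) = f := funext h.per
  have h2 := deriv_comp_add_const f (2 * Real.pi) x
  rw [h1] at h2
  exact h2.symm

theorem sh_cont {q : ℝ → ℝ} (h : CP q) (s : ℝ) : Continuous fun y => (q (y + s) - q y) ^ 2 :=
  ((h.1.comp (continuous_id.add continuous_const)).sub h.1).pow 2

theorem om_cont {q : ℝ → ℝ} (h : CP q) : Continuous (om q) := by
  unfold om
  apply intervalIntegral.continuous_parametric_intervalIntegral_of_continuous'
    (f := fun s y => (q (y + s) - q y) ^ 2)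
  exact ((h.1.comp (continuous_snd.add continuous_fst)).sub (h.1.comp continuous_snd)).pow 2

theorem om_nonneg (q : ℝ → ℝ) (s : ℝ) : 0 ≤ om q s := by
  unfold om
  exact intervalIntegral.integral_nonneg (by positivity) fun _ _ => sq_nonneg _

theorem om_zero (q : ℝ → ℝ) : om q 0 = 0 := by
  unfold om
  simp

theorem sq_int_shift {q : ℝ → ℝ} (h : CP q) (s : ℝ) :
    ∫ y in (0 : ℝ)..(2 * Real.pi), q (y + s) ^ 2 = ∫ y in (0 : ℝ)..(2 * Real.pi), q y ^ 2 := by
  have hp : Function.Periodic (fun y => q y ^ 2) (2 * Real.pi) := by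
    intro y
    show q (y + 2 * Real.pi) ^ 2 = q y ^ 2
    rw [h.2]
  have h1 := intervalIntegral.integral_comp_add_right (a := 0) (b := 2 * Real.pi)
    (fun y => q y ^ 2) s
  have h2 := hp.intervalIntegral_add_eq s 0
  rw [zero_add] at h1
  rw [h1, add_comm (2 * Real.pi) s, h2, zero_add]

theorem om_le {q : ℝ → ℝ} (h : CP q) (s : ℝ) :
    om q s ≤ 4 * ∫ y in (0 : ℝ)..(2 * Real.pi), q y ^ 2 := by
  have hc1 : Continuous fun y => 2 * q (y + s) ^ 2 :=
    continuous_const.mul ((h.1.comp (continuous_id.add continuous_const)).pow 2)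
  have hc2 : Continuous fun y => 2 * q y ^ 2 := continuous_const.mul (h.1.pow 2)
  have h1 : om q s ≤ ∫ y in (0 : ℝ)..(2 * Real.pi), (2 * q (y + s) ^ 2 + 2 * q y ^ 2) := by
    unfold om
    apply intervalIntegral.integral_mono_on (by positivity) ((sh_cont h s).intervalIntegrable _ _)
      ((hc1.add hc2).intervalIntegrable _ _)
    intro y _
    show (q (y + s) - q y) ^ 2 ≤ 2 * q (y + s) ^ 2 + 2 * q y ^ 2
    nlinarith [sq_nonneg (q (y + s) + q y)]
  rw [intervalIntegral.integral_add (hc1.intervalIntegrable _ _) (hc2.intervalIntegrable _ _),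
    intervalIntegral.integral_const_mul, intervalIntegral.integral_const_mul,
    sq_int_shift h s] at h1
  linarith

theorem om_comp {p q : ℝ → ℝ} (hp : CP p) (hq : CP q) (hd : CP fun x => p x - q x) {θ : ℝ}
    (hθ : 0 < θ) (s : ℝ) :
    om p s ≤ (1 + θ) * om q s + (1 + 1 / θ) * om (fun x => p x - q x) s := by
  have e1 : Continuous fun y => (1 + θ) * (q (y + s) - q y) ^ 2 :=
    continuous_const.mul (sh_cont hq s)
  have e2 : Continuous fun y => (1 + 1 / θ) *
      ((fun x => p x - q x) (y + s) - (fun x => p x - q x) y) ^ 2 :=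
    continuous_const.mul (sh_cont hd s)
  unfold om
  rw [← intervalIntegral.integral_const_mul, ← intervalIntegral.integral_const_mul,
    ← intervalIntegral.integral_add (e1.intervalIntegrable _ _) (e2.intervalIntegrable _ _)]
  apply intervalIntegral.integral_mono_on (by positivity) ((sh_cont hp s).intervalIntegrable _ _)
    ((e1.add e2).intervalIntegrable _ _)
  intro y _
  show (p (y + s) - p y) ^ 2 ≤ (1 + θ) * (q (y + s) - q y) ^ 2
    + (1 + 1 / θ) * ((p (y + s) - q (y + s)) - (p y - q y)) ^ 2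
  obtain ⟨a, ha⟩ : ∃ a, a = q (y + s) - q y := ⟨_, rfl⟩
  obtain ⟨b, hb⟩ : ∃ b, b = (p (y + s) - q (y + s)) - (p y - q y) := ⟨_, rfl⟩
  have h1 : p (y + s) - p y = a + b := by rw [ha, hb]; ring
  rw [h1, ← ha, ← hb]
  have h2 : (1 + θ) * a ^ 2 + (1 + 1 / θ) * b ^ 2 - (a + b) ^ 2 = (θ * a - b) ^ 2 / θ := by
    field_simp
    ring
  have h3 : 0 ≤ (θ * a - b) ^ 2 / θ := by positivity
  linarith

theorem pc2_sub {f g : ℝ → ℝ} (hf : PC2 f) (hg : PC2 g) : PC2 fun x => f x - g x := by
  refine ⟨hf.sm.sub hg.sm, ?_⟩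
  intro x
  rw [hf.per, hg.per]

theorem deriv_subf {f g : ℝ → ℝ} (hf : PC2 f) (hg : PC2 g) :
    deriv (fun x => f x - g x) = fun x => deriv f x - deriv g x := by
  funext x
  exact deriv_fun_sub (hf.sm.differentiable (by norm_num) x) (hg.sm.differentiable (by norm_num) x)

theorem gag_nonneg (q : ℝ → ℝ) : 0 ≤ Gag q := by
  unfold Gag
  apply intervalIntegral.integral_nonneg (by linarith [Real.pi_pos])
  intro s _
  exact div_nonneg (om_nonneg q s) (sq_nonneg s)

theorem gag_sub (hL : SpecL2D) {f g : ℝ → ℝ} (hf : PC2 f) (hg : PC2 g) :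
    Gag (deriv fun x => f x - g x) ≤ 2 * Gag (deriv f) + 2 * Gag (deriv g) := by
  have hpi := Real.pi_pos
  have i1 := hL.2.1 _ (pc2_sub hf hg)
  have i2 := hL.2.1 f hf
  have i3 := hL.2.1 g hg
  unfold Gag
  rw [← intervalIntegral.integral_const_mul, ← intervalIntegral.integral_const_mul,
    ← intervalIntegral.integral_add (i2.const_mul 2) (i3.const_mul 2)]
  apply intervalIntegral.integral_mono_on (by linarith) i1 ((i2.const_mul 2).add (i3.const_mul 2))
  intro s _
  have h1 : om (deriv fun x => f x - g x) s ≤ 2 * om (deriv f) s + 2 * om (deriv g) s := by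
    rw [deriv_subf hf hg]
    unfold om
    have c1 := cp_deriv hf
    have c2 := cp_deriv hg
    have c3 := cp_deriv (pc2_sub hf hg)
    rw [deriv_subf hf hg] at c3
    have e1 : Continuous fun y => 2 * (deriv f (y + s) - deriv f y) ^ 2 :=
      continuous_const.mul (sh_cont c1 s)
    have e2 : Continuous fun y => 2 * (deriv g (y + s) - deriv g y) ^ 2 :=
      continuous_const.mul (sh_cont c2 s)
    rw [← intervalIntegral.integral_const_mul, ← intervalIntegral.integral_const_mul,
      ← intervalIntegral.integral_add (e1.intervalIntegrable _ _) (e2.intervalIntegrable _ _)]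
    apply intervalIntegral.integral_mono_on (by positivity)
      ((sh_cont c3 s).intervalIntegrable _ _) ((e1.add e2).intervalIntegrable _ _)
    intro y _
    show ((deriv f (y + s) - deriv g (y + s)) - (deriv f y - deriv g y)) ^ 2
      ≤ 2 * (deriv f (y + s) - deriv f y) ^ 2 + 2 * (deriv g (y + s) - deriv g y) ^ 2
    nlinarith [sq_nonneg ((deriv f (y + s) - deriv f y) + (deriv g (y + s) - deriv g y))]
  show om (deriv fun x => f x - g x) s / s ^ 2
    ≤ 2 * (om (deriv f) s / s ^ 2) + 2 * (om (deriv g) s / s ^ 2)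
  have h2 : 2 * (om (deriv f) s / s ^ 2) + 2 * (om (deriv g) s / s ^ 2)
      = (2 * om (deriv f) s + 2 * om (deriv g) s) / s ^ 2 := by ring
  rw [h2]
  exact div_le_div_of_nonneg_right h1 (sq_nonneg s)

theorem bdd {f : ℝ → ℝ} (hf : PC2 f) : ∃ A : ℝ, 0 ≤ A ∧ ∀ x, |f x| ≤ A := by
  have hc : Continuous f := hf.sm.continuous
  obtain ⟨x₀, -, hx₀⟩ := (isCompact_Icc (a := (0 : ℝ)) (b := 2 * Real.pi)).exists_isMaxOn
    ⟨0, by constructor <;> [exact le_rfl; positivity]⟩ hc.abs.continuousOn
  refine ⟨|f x₀|, abs_nonneg _, fun x => ?_⟩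
  have hp : Function.Periodic f (2 * Real.pi) := hf.per
  obtain ⟨y, hy, hxy⟩ := hp.exists_mem_Ico₀ (by positivity : 0 < 2 * Real.pi) x
  rw [hxy]
  exact hx₀ (Ico_subset_Icc_self hy)

end VLCM

open VLCM in
theorem specVLC (hL2D : SpecL2D) : SpecVLC := by
  intro g g' C hg hlim hC
  have hpi := Real.pi_pos
  have hC0 : 0 ≤ C := (gag_nonneg _).trans (hC 0)
  -- uniform Cauchy for g
  have hcau : ∀ A > 0, ∃ N, ∀ k ≥ N, ∀ j ≥ N, ∀ x, |g k x - g j x| ≤ A := by
    intro A hA
    obtain ⟨N, hN⟩ := eventually_atTop.1 (hlim (A / 2) (by linarith))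
    refine ⟨N, fun k hk j hj x => ?_⟩
    have h1 := abs_le.1 (hN k hk x)
    have h2 := abs_le.1 (hN j hj x)
    rw [abs_le]
    constructor <;> linarith [h1.1, h1.2, h2.1, h2.2]
  -- L² Cauchy
  have hL2 : ∀ ε > 0, ∃ N, ∀ k ≥ N, ∀ j ≥ N,
      (∫ y in (0 : ℝ)..(2 * Real.pi), (deriv (g k) y - deriv (g j) y) ^ 2) ≤ ε := by
    intro ε hε
    obtain ⟨δ, hδ, hδpi, hδC⟩ : ∃ δ : ℝ, 0 < δ ∧ δ ≤ Real.pi ∧ 8 * C * δ ≤ ε / 2 := by
      refine ⟨min Real.pi (ε / (16 * (C + 1))), lt_min hpi (by positivity), min_le_left _ _, ?_⟩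
      have h1 : min Real.pi (ε / (16 * (C + 1))) ≤ ε / (16 * (C + 1)) := min_le_right _ _
      calc 8 * C * min Real.pi (ε / (16 * (C + 1))) ≤ 8 * C * (ε / (16 * (C + 1))) :=
            mul_le_mul_of_nonneg_left h1 (by positivity)
        _ ≤ 8 * (C + 1) * (ε / (16 * (C + 1))) :=
            mul_le_mul_of_nonneg_right (by linarith) (by positivity)
        _ = ε / 2 := by field_simp; ring
    obtain ⟨A, hA, hA2⟩ : ∃ A : ℝ, 0 < A ∧ 16 * Real.pi * A ^ 2 / δ ^ 2 ≤ ε / 2 := by
      refine ⟨δ * √(ε / (32 * Real.pi)), by positivity, ?_⟩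
      rw [mul_pow, Real.sq_sqrt (by positivity)]
      apply le_of_eq
      field_simp
      ring
    obtain ⟨N, hN⟩ := hcau A hA
    refine ⟨N, fun k hk j hj => ?_⟩
    have h1 := hL2D.1 (fun x => g k x - g j x) A δ (pc2_sub (hg k) (hg j))
      (fun x => hN k hk j hj x) hδ hδpi
    have h2 := gag_sub hL2D (hg k) (hg j)
    have h3 : 2 * δ * Gag (deriv fun x => g k x - g j x) ≤ 8 * C * δ := by
      have h4 : Gag (deriv fun x => g k x - g j x) ≤ 4 * C := by
        linarith [hC k, hC j]
      calc 2 * δ * Gag (deriv fun x => g k x - g j x) ≤ 2 * δ * (4 * C) :=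
            mul_le_mul_of_nonneg_left h4 (by positivity)
        _ = 8 * C * δ := by ring
    have h5 : (∫ y in (0 : ℝ)..(2 * Real.pi), (deriv (g k) y - deriv (g j) y) ^ 2)
        = ∫ y in (0 : ℝ)..(2 * Real.pi), deriv (fun x => g k x - g j x) y ^ 2 := by
      rw [deriv_subf (hg k) (hg j)]
    rw [h5]
    linarith
  -- a bound
  obtain ⟨K0, M, hM0, hM⟩ : ∃ (K0 : ℕ) (M : ℝ), 0 < M ∧ ∀ k ≥ K0, ∀ s, om (deriv (g k)) s ≤ M := by
    obtain ⟨K0, hK0⟩ := hcau 1 one_pos
    obtain ⟨A, hA0, hA⟩ := bdd (hg K0)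
    refine ⟨K0, 4 * (16 * Real.pi * (A + 1) ^ 2 / Real.pi ^ 2 + 2 * Real.pi * C) + 1,
      by positivity, fun k hk s => ?_⟩
    have h1 : ∀ x, |g k x| ≤ A + 1 := by
      intro x
      have h2 := abs_le.1 (hK0 k hk K0 le_rfl x)
      have h3 := abs_le.1 (hA x)
      rw [abs_le]
      constructor <;> linarith [h2.1, h2.2, h3.1, h3.2]
    have h2 := hL2D.1 (g k) (A + 1) Real.pi (hg k) h1 hpi le_rfl
    have h3 := om_le (cp_deriv (hg k)) s
    have h4 : 2 * Real.pi * Gag (deriv (g k)) ≤ 2 * Real.pi * C :=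
      mul_le_mul_of_nonneg_left (hC k) (by positivity)
    linarith
  -- uniform Cauchy for om
  have homc : ∀ ε > 0, ∃ N, ∀ k ≥ N, ∀ j ≥ N, ∀ s,
      om (deriv (g k)) s ≤ om (deriv (g j)) s + ε := by
    intro ε hε
    obtain ⟨θ, hθ, hθM⟩ : ∃ θ : ℝ, 0 < θ ∧ θ * M = ε / 2 :=
      ⟨ε / (2 * M), by positivity, by field_simp⟩
    obtain ⟨N, hN⟩ := hL2 (ε / (8 * (1 + 1 / θ))) (by positivity)
    refine ⟨max N K0, fun k hk j hj s => ?_⟩
    have hd : CP fun x => deriv (g k) x - deriv (g j) x := by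
      have := cp_deriv (pc2_sub (hg k) (hg j))
      rwa [deriv_subf (hg k) (hg j)] at this
    have h1 := om_comp (cp_deriv (hg k)) (cp_deriv (hg j)) hd hθ s
    have h2 := om_le hd s
    have h3 := hN k (le_trans (le_max_left _ _) hk) j (le_trans (le_max_left _ _) hj)
    have h4 := hM j (le_trans (le_max_right _ _) hj) s
    have h5 : (1 + 1 / θ) * om (fun x => deriv (g k) x - deriv (g j) x) s ≤ ε / 2 := by
      have h6 : om (fun x => deriv (g k) x - deriv (g j) x) s ≤ 4 * (ε / (8 * (1 + 1 / θ))) := by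
        linarith
      calc (1 + 1 / θ) * om (fun x => deriv (g k) x - deriv (g j) x) s
          ≤ (1 + 1 / θ) * (4 * (ε / (8 * (1 + 1 / θ)))) :=
            mul_le_mul_of_nonneg_left h6 (by positivity)
        _ = ε / 2 := by field_simp; ring
    have h7 : θ * om (deriv (g j)) s ≤ ε / 2 := by
      rw [← hθM]
      exact mul_le_mul_of_nonneg_left h4 hθ.le
    linarith
  have hCS : ∀ s, ∃ w, Tendsto (fun k => om (deriv (g k)) s) atTop (𝓝 w) := by
    intro s
    apply cauchySeq_tendsto_of_complete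
    rw [Metric.cauchySeq_iff]
    intro ε hε
    obtain ⟨N, hN⟩ := homc (ε / 2) (by linarith)
    refine ⟨N, fun k hk j hj => ?_⟩
    rw [Real.dist_eq]
    have h1 := hN k hk j hj s
    have h2 := hN j hj k hk s
    rw [abs_lt]
    constructor <;> linarith
  choose ω hω using hCS
  have hω0 : ∀ s, 0 ≤ ω s := fun s => ge_of_tendsto' (hω s) fun k => om_nonneg _ s
  have hωz : ω 0 = 0 := by
    refine tendsto_nhds_unique (hω 0) ?_
    simp only [om_zero]
    exact tendsto_const_nhds
  have huni : TendstoUniformly (fun k s => om (deriv (g k)) s) ω atTop := by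
    rw [Metric.tendstoUniformly_iff]
    intro ε hε
    obtain ⟨N, hN⟩ := homc (ε / 2) (by linarith)
    filter_upwards [eventually_ge_atTop N] with k hk s
    have h1 : ω s ≤ om (deriv (g k)) s + ε / 2 := by
      refine le_of_tendsto (hω s) ?_
      filter_upwards [eventually_ge_atTop N] with j hj
      exact hN j hj k hk s
    have h2 : om (deriv (g k)) s - ε / 2 ≤ ω s := by
      refine ge_of_tendsto (hω s) ?_
      filter_upwards [eventually_ge_atTop N] with j hj
      have := hN k hk j hj s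
      linarith
    rw [Real.dist_eq, abs_lt]
    constructor <;> linarith
  have hωc : Continuous ω :=
    huni.continuous (Frequently.of_forall fun k => om_cont (cp_deriv (hg k)))
  -- integrability by Fatou
  have hint : IntervalIntegrable (fun s => ω s / s ^ 2) volume (-Real.pi) Real.pi := by
    rw [intervalIntegrable_iff_integrableOn_Ioc_of_le (by linarith)]
    refine ⟨(hωc.measurable.div (measurable_id.pow_const 2)).aestronglyMeasurable, ?_⟩
    rw [hasFiniteIntegral_iff_ofReal (Eventually.of_forall fun s => by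
      exact div_nonneg (hω0 s) (sq_nonneg s))]
    have h1 : ∫⁻ s in Ioc (-Real.pi) Real.pi, ENNReal.ofReal (ω s / s ^ 2) ≤
        liminf (fun k => ∫⁻ s in Ioc (-Real.pi) Real.pi,
          ENNReal.ofReal (om (deriv (g k)) s / s ^ 2)) atTop := by
      have h2 : ∀ s : ℝ, ENNReal.ofReal (ω s / s ^ 2) =
          liminf (fun k => ENNReal.ofReal (om (deriv (g k)) s / s ^ 2)) atTop := by
        intro s
        refine (Tendsto.liminf_eq ?_).symm
        exact ENNReal.tendsto_ofReal ((hω s).div_const _)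
      simp_rw [h2]
      apply lintegral_liminf_le
      intro k
      exact ((om_cont (cp_deriv (hg k))).measurable.div (measurable_id.pow_const 2)).ennreal_ofReal
    have h3 : liminf (fun k => ∫⁻ s in Ioc (-Real.pi) Real.pi,
          ENNReal.ofReal (om (deriv (g k)) s / s ^ 2)) atTop ≤ ENNReal.ofReal C := by
      have h4 : ∀ k, ∫⁻ s in Ioc (-Real.pi) Real.pi,
          ENNReal.ofReal (om (deriv (g k)) s / s ^ 2) ≤ ENNReal.ofReal C := by
        intro k
        have h5 := hL2D.2.1 (g k) (hg k)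
        rw [intervalIntegrable_iff_integrableOn_Ioc_of_le (by linarith)] at h5
        rw [← ofReal_integral_eq_lintegral_ofReal h5 (Eventually.of_forall fun s =>
          div_nonneg (om_nonneg _ s) (sq_nonneg s))]
        apply ENNReal.ofReal_le_ofReal
        rw [← intervalIntegral.integral_of_le (by linarith)]
        exact hC k
      calc liminf (fun k => ∫⁻ s in Ioc (-Real.pi) Real.pi,
          ENNReal.ofReal (om (deriv (g k)) s / s ^ 2)) atTop
          ≤ liminf (fun _ : ℕ => ENNReal.ofReal C) atTop :=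
            liminf_le_liminf (Eventually.of_forall h4)
        _ = ENNReal.ofReal C := liminf_const _
    exact (h1.trans h3).trans_lt ENNReal.ofReal_lt_top
  refine ⟨fun l => (∫ s in (-(2 * l))..(2 * l), ω s) / l ^ 2, ?_, ?_⟩
  · intro l hl hl1
    unfold Vl
    apply Tendsto.div_const
    apply intervalIntegral.tendsto_integral_filter_of_dominated_convergence (fun _ => M)
    · exact Eventually.of_forall fun k => (om_cont (cp_deriv (hg k))).aestronglyMeasurable
    · filter_upwards [eventually_ge_atTop K0] with k hk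
      exact Eventually.of_forall fun s _ => by
        rw [Real.norm_eq_abs, abs_of_nonneg (om_nonneg _ s)]
        exact hM k hk s
    · exact intervalIntegrable_const
    · exact Eventually.of_forall fun s _ => hω s
  · -- the tail
    have hmem : (0 : ℝ) ∈ uIcc (-Real.pi) Real.pi := by
      rw [uIcc_of_le (by linarith)]
      constructor <;> linarith
    have hprim := intervalIntegral.continuousOn_primitive_interval' hint hmem
    have hnh : uIcc (-Real.pi) Real.pi ∈ 𝓝 (0 : ℝ) := by
      rw [uIcc_of_le (by linarith)]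
      exact Icc_mem_nhds (by linarith) hpi
    have hcat := hprim.continuousAt hnh
    have hT : Tendsto (fun l : ℝ => 4 * ((∫ s in (0 : ℝ)..(2 * l), ω s / s ^ 2)
        - ∫ s in (0 : ℝ)..(-(2 * l)), ω s / s ^ 2)) (𝓝[>] 0) (𝓝 0) := by
      have e1 : Tendsto (fun l : ℝ => 2 * l) (𝓝[>] 0) (𝓝 0) := by
        have : Tendsto (fun l : ℝ => 2 * l) (𝓝 0) (𝓝 (2 * 0)) :=
          (continuous_const.mul continuous_id).tendsto 0
        rw [mul_zero] at this
        exact this.mono_left nhdsWithin_le_nhds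
      have e2 : Tendsto (fun l : ℝ => -(2 * l)) (𝓝[>] 0) (𝓝 0) := by
        have := e1.neg
        rwa [neg_zero] at this
      have e3 : Tendsto (fun b : ℝ => ∫ s in (0 : ℝ)..b, ω s / s ^ 2) (𝓝 0) (𝓝 0) := by
        have := hcat.tendsto
        rwa [intervalIntegral.integral_same] at this
      have e4 := ((e3.comp e1).sub (e3.comp e2)).const_mul 4
      rw [sub_zero, mul_zero] at e4
      exact e4
    have hev : ∀ᶠ l : ℝ in 𝓝[>] 0, 0 < l ∧ l ≤ 1 := by
      filter_upwards [self_mem_nhdsWithin,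
        Filter.Eventually.filter_mono nhdsWithin_le_nhds (Iio_mem_nhds (one_pos : (0 : ℝ) < 1))]
        with l h1 h2
      exact ⟨h1, le_of_lt h2⟩
    refine tendsto_of_tendsto_of_tendsto_of_le_of_le' tendsto_const_nhds hT ?_ ?_
    · filter_upwards [hev] with l hl
      apply div_nonneg _ (sq_nonneg l)
      exact intervalIntegral.integral_nonneg (by linarith [hl.1]) fun s _ => hω0 s
    · filter_upwards [hev] with l hl
      have hl0 := hl.1
      have hpi3 := Real.pi_gt_three
      have hsub : uIcc (-(2 * l)) (2 * l) ⊆ uIcc (-Real.pi) Real.pi := by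
        rw [uIcc_of_le (by linarith), uIcc_of_le (by linarith)]
        exact Icc_subset_Icc (by linarith [hl.2]) (by linarith [hl.2])
      have hi : IntervalIntegrable (fun s => ω s / s ^ 2) volume (-(2 * l)) (2 * l) :=
        hint.mono_set hsub
      have hi1 : IntervalIntegrable (fun s => ω s / s ^ 2) volume 0 (2 * l) := by
        apply hint.mono_set
        refine subset_trans ?_ hsub
        rw [uIcc_of_le (by linarith), uIcc_of_le (by linarith)]
        exact Icc_subset_Icc (by linarith) le_rfl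
      have hi2 : IntervalIntegrable (fun s => ω s / s ^ 2) volume 0 (-(2 * l)) := by
        apply hint.mono_set
        refine subset_trans ?_ hsub
        rw [uIcc_of_ge (by linarith), uIcc_of_le (by linarith)]
        exact Icc_subset_Icc le_rfl (by linarith)
      have h1 : (∫ s in (0 : ℝ)..(2 * l), ω s / s ^ 2) - (∫ s in (0 : ℝ)..(-(2 * l)), ω s / s ^ 2)
          = ∫ s in (-(2 * l))..(2 * l), ω s / s ^ 2 :=
        intervalIntegral.integral_interval_sub_left hi1 hi2
      rw [h1, div_le_iff₀ (by positivity)]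
      have h2 : (∫ s in (-(2 * l))..(2 * l), ω s)
          ≤ ∫ s in (-(2 * l))..(2 * l), 4 * l ^ 2 * (ω s / s ^ 2) := by
        apply intervalIntegral.integral_mono_on (by linarith) (hωc.intervalIntegrable _ _)
          (hi.const_mul _)
        intro s hs
        by_cases hs0 : s = 0
        · rw [hs0, hωz]
          simp
        · have h3 : s ^ 2 ≤ 4 * l ^ 2 := by nlinarith [hs.1, hs.2]
          have h4 : 0 < s ^ 2 := by positivity
          have h5 : ω s = s ^ 2 * (ω s / s ^ 2) := by field_simp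
          calc ω s = s ^ 2 * (ω s / s ^ 2) := h5
            _ ≤ 4 * l ^ 2 * (ω s / s ^ 2) :=
              mul_le_mul_of_nonneg_right h3 (div_nonneg (hω0 s) h4.le)
      rw [intervalIntegral.integral_const_mul] at h2
      linarith

end

end Pool.Agent.Lib.MPb879c5.PR
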