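import Pool.Agent.Lib.MP_b879c5_an.PR.Asm
import Pool.Agent.Lib.MP_b879c5_an.PR.KFN
import Pool.Agent.Lib.MP_b879c5_an.PR.GRO
import Pool.Agent.Lib.MP_b879c5_an.PR.ODE
import Pool.Agent.Lib.MP_b879c5_an.PR.CMA
import Pool.Agent.Lib.MP_b879c5_an.PR.CMB
import Pool.Agent.Lib.MP_b879c5_an.PR.L2D
import Pool.Agent.Lib.MP_b879c5_an.PR.VLC
import Pool.Agent.Lib.MP_b879c5_an.PR.KNK
import Pool.Agent.Lib.MP_b879c5_an.PR.VAR
import Pool.Agent.Lib.MP_b879c5_an.PR.AVD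
import Pool.Agent.Lib.MP_b879c5_an.PR.AVI
import Pool.Agent.Lib.MP_b879c5_an.PR.DAT
import Pool.Agent.Lib.MP_b879c5_an.PR.EQC
import Pool.Agent.Lib.MP_b879c5_an.PR.ARZ
import Pool.Agent.Lib.MP_b879c5_an.PR.SUB
import Pool.Agent.Lib.MP_b879c5_an.PR.LIM
import Pool.Agent.Lib.MP_b879c5_an.PR.LKA
import Pool.Agent.Lib.MP_b879c5_an.PR.IVL
import Pool.Agent.Lib.MP_b879c5_an.PR.LKB
import Pool.Agent.Lib.MP_b879c5_an.PR.MON
import Pool.Agent.Lib.MP_b879c5_an.PR.FIX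
import Pool.Agent.Lib.MP_b879c5_an.PR.CLS
import Pool.Agent.Lib.MP_b879c5_an.PR.STA
import Pool.Agent.Lib.MP_b879c5_an.PR.MEA
import Pool.Agent.Lib.MP_b879c5_an.PR.LAM
import Pool.Agent.Lib.MP_b879c5_an.PR.BND
import Pool.Agent.Lib.MP_b879c5_an.PR.FIN
import Pool.Agent.Lib.MP_b879c5_an.PR.CHO
import Pool.Agent.Lib.MP_b879c5_an.PR.ISO
import Pool.Agent.Lib.MP_b879c5_an.PR.HON
import Pool.Agent.Lib.MP_b879c5_an.PR.SYM

/-!
All modules put together (MP_b879c5_an, helper42).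
-/

set_option autoImplicit false

namespace Pool.Agent.Lib.MPb879c5.PR

open Set Filter MeasureTheory Topology
open Pool.Agent.Lib.MP_b879c5_an

noncomputable section

theorem allCMA : SpecCMA := specCMA specKFN specGRO
theorem allCMB : SpecCMB := specCMB specKFN specGRO specODE
theorem allVLC : SpecVLC := specVLC specL2D
theorem allKNK : SpecKNK := specKNK allVLC
theorem allAVI : SpecAVI := specAVI specVAR
theorem allEQC : SpecEQC := specEQC specAVD allAVI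
theorem allSUB : SpecSUB := specSUB allEQC specARZ
theorem allLKA : SpecLKA := specLKA specKFN allCMA specAVD allAVI
theorem allIVL : SpecIVL := specIVL specL2D allVLC specAVD
theorem allLKB : SpecLKB := specLKB specKFN allCMB specAVD allAVI allIVL
theorem allSTA : SpecSTA := specSTA allKNK specFIX specCLS
theorem allLAM : SpecLAM := specLAM allSUB specLIM allLKA allLKB specMON allSTA specMEA
theorem allFIN : SpecFIN := specFIN allSUB specLIM allLKA allLKB specMON allSTA specMEA allLAM specBND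
theorem allHON : SpecHON := specHON specL2D

/-- The final statement for `Sol`. -/
theorem final_all (T : ℝ) (U : ℝ × ℝ → ℝ) (hT : 0 < T) (hU : Sol T U) (hb : Blow T U)
    (hne : ¬ ∀ t ∈ Ioo 0 T, ∀ x, U (t, x) = 1 / (T - t)) :
    (∀ δ > 0, ∃ᶠ t in 𝓝[<] T, ∃ x, (T - t) * U (t, x) < 1 / 2 + δ) ∧
    ((∃ C, ∀ᶠ t in 𝓝[<] T, (T - t) ^ 2 * Gag (fun x => Dx U (t, x)) ≤ C) →
      ∃ a : ℝ → ℝ, (∀ η > 0, ∀ᶠ t in 𝓝[<] T, ∀ x, |(T - t) * U (t, x) - Real.cos ((x - a t) / 2) ^ 2| ≤ η) ∧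
        ∀ η > 0, ∀ᶠ t in 𝓝[<] T,
          (∫ x in (0)..(2 * Real.pi), ((T - t) * Dx U (t, x) + Real.sin (x - a t) / 2) ^ 2) ≤ η) ∧
    (∀ n : ℕ, 2 ≤ n → (∀ t ∈ Ioo 0 T, ∀ x, U (t, x + 2 * Real.pi / n) = U (t, x)) →
      ∀ C, ∃ᶠ t in 𝓝[<] T, C < (T - t) ^ 2 * Gag (fun x => Dx U (t, x))) :=
  final specDAT allFIN specISO allHON specSYM specCHO T U hT hU hb hne

end

end Pool.Agent.Lib.MPb879c5.PR
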