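import Pool.Agent.Lib.MP_b879c5_an.PR.Spec

/-!
# MP_b879c5_an, module AVD: differentiation of the averages
-/

set_option autoImplicit false

namespace Pool.Agent.Lib.MPb879c5.PR

open Set Filter MeasureTheory Topology
open Pool.Agent.Lib.MP_b879c5_an

noncomputable section

namespace AVDM

variable {T : ℝ} {G : ℝ × ℝ → ℝ}

theorem cw (l : ℝ) : Continuous (wt l) := by
  have h := continuous_wt l 0
  simpa using h

theorem fder (h : Sm T G) {r : ℝ} (hr : r ∈ Ioo 0 T) (x : ℝ) :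
    HasFDerivAt G (Dt G (r, x) • ContinuousLinearMap.fst ℝ ℝ ℝ
      + Dx G (r, x) • ContinuousLinearMap.snd ℝ ℝ ℝ) (r, x) := by
  have h1 := (h.differentiableAt (x := x) hr).hasFDerivAt
  have h2 : fderiv ℝ G (r, x) = Dt G (r, x) • ContinuousLinearMap.fst ℝ ℝ ℝ
      + Dx G (r, x) • ContinuousLinearMap.snd ℝ ℝ ℝ := by
    apply ContinuousLinearMap.ext
    rintro ⟨a, b⟩
    have e : ((a, b) : ℝ × ℝ) = a • ((1 : ℝ), (0 : ℝ)) + b • ((0 : ℝ), (1 : ℝ)) := by
      simp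
    have e1 : fderiv ℝ G (r, x) (a, b) = a * Dt G (r, x) + b * Dx G (r, x) := by
      rw [e, map_add, map_smul, map_smul]
      rfl
    rw [e1]
    simp
    ring
  rw [h2] at h1
  exact h1

theorem der (h : Sm T G) {l z : ℝ} {p : ℝ × ℝ} (hp : p.1 ∈ Ioo 0 T) :
    HasFDerivAt (fun p : ℝ × ℝ => wt l z * G (p.1, p.2 + z))
      ((wt l z * Dt G (p.1, p.2 + z)) • ContinuousLinearMap.fst ℝ ℝ ℝ
      + (wt l z * Dx G (p.1, p.2 + z)) • ContinuousLinearMap.snd ℝ ℝ ℝ) p := by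
  have h1 := fder h hp (p.2 + z)
  have e : ((p.1, p.2 + z) : ℝ × ℝ) = p + ((0 : ℝ), z) := by
    ext
    · simp
    · simp
  have h2 : HasFDerivAt (fun q : ℝ × ℝ => G (q + ((0 : ℝ), z)))
      (Dt G (p.1, p.2 + z) • ContinuousLinearMap.fst ℝ ℝ ℝ
      + Dx G (p.1, p.2 + z) • ContinuousLinearMap.snd ℝ ℝ ℝ) p := by
    rw [hasFDerivAt_comp_add_right, ← e]
    exact h1
  have h3 := h2.const_mul (wt l z)
  rw [smul_add, smul_smul, smul_smul] at h3
  have h4 : (fun q : ℝ × ℝ => wt l z * G (q + ((0 : ℝ), z)))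
      = fun p : ℝ × ℝ => wt l z * G (p.1, p.2 + z) := by
    funext q
    have e' : ((q.1, q.2 + z) : ℝ × ℝ) = q + ((0 : ℝ), z) := by
      ext
      · simp
      · simp
    rw [e']
  rw [h4] at h3
  exact h3

theorem main (h : Sm T G) {l : ℝ} (hl : 0 < l) {r : ℝ} (hr : r ∈ Ioo 0 T) (x : ℝ) :
    HasFDerivAt (fun p : ℝ × ℝ => Av l (fun z => G (p.1, z)) p.2)
      (Av l (fun z => Dt G (r, z)) x • ContinuousLinearMap.fst ℝ ℝ ℝ
        + Av l (fun z => Dx G (r, z)) x • ContinuousLinearMap.snd ℝ ℝ ℝ) (r, x) := by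
  have ht0 := hr.1
  have htT := hr.2
  have hm : 0 < min r (T - r) := lt_min ht0 (by linarith)
  have hm1 : min r (T - r) ≤ r := min_le_left _ _
  have hm2 : min r (T - r) ≤ T - r := min_le_right _ _
  set ε := min r (T - r) / 2 with hε
  have hεpos : 0 < ε := by positivity
  have hball : ∀ p ∈ Metric.ball ((r, x) : ℝ × ℝ) ε, p.1 ∈ Icc (r - ε) (r + ε) ∧
      p.2 ∈ Icc (x - ε) (x + ε) := by
    intro p hp
    rw [Metric.mem_ball, Prod.dist_eq, max_lt_iff, Real.dist_eq, Real.dist_eq, abs_lt,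
      abs_lt] at hp
    exact ⟨⟨by linarith [hp.1.1], by linarith [hp.1.2]⟩,
      ⟨by linarith [hp.2.1], by linarith [hp.2.2]⟩⟩
  have hIcc : ∀ s ∈ Icc (r - ε) (r + ε), s ∈ Ioo 0 T := by
    intro s hs
    exact ⟨by linarith [hs.1], by linarith [hs.2]⟩
  have hK : IsCompact (Icc (r - ε) (r + ε) ×ˢ Icc (x - ε - l) (x + ε + l)) :=
    isCompact_Icc.prod isCompact_Icc
  have hsub : ∀ p ∈ Icc (r - ε) (r + ε) ×ˢ Icc (x - ε - l) (x + ε + l), p ∈ Om T := by
    rintro ⟨s, y⟩ ⟨hs, _⟩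
    exact mem_Om.mpr (hIcc s hs)
  obtain ⟨C1, hC1⟩ := hK.exists_bound_of_continuousOn (h.dt.continuousOn.mono hsub)
  obtain ⟨C2, hC2⟩ := hK.exists_bound_of_continuousOn (h.dx.continuousOn.mono hsub)
  obtain ⟨C3, hC3⟩ := (isCompact_Icc (a := -l) (b := l)).exists_bound_of_continuousOn
    (cw l).continuousOn
  have hcF : ∀ s ∈ Ioo 0 T, ∀ y : ℝ, Continuous (fun z => wt l z * G (s, y + z)) := by
    intro s hs y
    exact (cw l).mul ((h.continuous_x hs).comp (continuous_const.add continuous_id))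
  have hcT : Continuous (fun z => wt l z * Dt G (r, x + z)) :=
    (cw l).mul ((h.dt.continuous_x hr).comp (continuous_const.add continuous_id))
  have hcX : Continuous (fun z => wt l z * Dx G (r, x + z)) :=
    (cw l).mul ((h.dx.continuous_x hr).comp (continuous_const.add continuous_id))
  have key := intervalIntegral.hasFDerivAt_integral_of_dominated_of_fderiv_le
    (μ := volume) (a := -l) (b := l) (x₀ := ((r, x) : ℝ × ℝ))
    (s := Metric.ball ((r, x) : ℝ × ℝ) ε)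
    (F := fun (p : ℝ × ℝ) (z : ℝ) => wt l z * G (p.1, p.2 + z))
    (F' := fun (p : ℝ × ℝ) (z : ℝ) =>
      (wt l z * Dt G (p.1, p.2 + z)) • ContinuousLinearMap.fst ℝ ℝ ℝ
      + (wt l z * Dx G (p.1, p.2 + z)) • ContinuousLinearMap.snd ℝ ℝ ℝ)
    (bound := fun _ => C3 * C1 + C3 * C2)
    (Metric.ball_mem_nhds _ hεpos)
    (by
      filter_upwards [Metric.ball_mem_nhds ((r, x) : ℝ × ℝ) hεpos] with p hp
      exact (hcF p.1 (hIcc _ (hball p hp).1) p.2).aestronglyMeasurable)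
    ((hcF r hr x).intervalIntegrable _ _)
    (((hcT.smul continuous_const).add (hcX.smul continuous_const)).aestronglyMeasurable)
    (by
      refine Filter.Eventually.of_forall fun z hz p hp => ?_
      rw [uIoc_of_le (by linarith)] at hz
      obtain ⟨hp1, hp2⟩ := hball p hp
      have hzI : z ∈ Icc (-l) l := ⟨hz.1.le, hz.2⟩
      have hmem : ((p.1, p.2 + z) : ℝ × ℝ)
          ∈ Icc (r - ε) (r + ε) ×ˢ Icc (x - ε - l) (x + ε + l) :=
        ⟨hp1, ⟨by linarith [hp2.1, hzI.1], by linarith [hp2.2, hzI.2]⟩⟩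
      have b1 := hC1 _ hmem
      have b2 := hC2 _ hmem
      have b3 := hC3 z hzI
      have n3 : 0 ≤ C3 := (norm_nonneg _).trans b3
      refine (norm_add_le _ _).trans (add_le_add ?_ ?_)
      · rw [norm_smul, norm_mul]
        calc ‖wt l z‖ * ‖Dt G (p.1, p.2 + z)‖ * ‖ContinuousLinearMap.fst ℝ ℝ ℝ‖
            ≤ C3 * C1 * 1 := by
              refine mul_le_mul (mul_le_mul b3 b1 (norm_nonneg _) n3)
                (ContinuousLinearMap.norm_fst_le ℝ ℝ ℝ) (norm_nonneg _) ?_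
              exact mul_nonneg n3 ((norm_nonneg _).trans b1)
          _ = C3 * C1 := mul_one _
      · rw [norm_smul, norm_mul]
        calc ‖wt l z‖ * ‖Dx G (p.1, p.2 + z)‖ * ‖ContinuousLinearMap.snd ℝ ℝ ℝ‖
            ≤ C3 * C2 * 1 := by
              refine mul_le_mul (mul_le_mul b3 b2 (norm_nonneg _) n3)
                (ContinuousLinearMap.norm_snd_le ℝ ℝ ℝ) (norm_nonneg _) ?_
              exact mul_nonneg n3 ((norm_nonneg _).trans b2)
          _ = C3 * C2 := mul_one _)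
    (intervalIntegrable_const)
    (by
      refine Filter.Eventually.of_forall fun z _ p hp => ?_
      exact der h (hIcc _ (hball p hp).1))
  have i1 : IntervalIntegrable (fun z =>
      (wt l z * Dt G (r, x + z)) • ContinuousLinearMap.fst ℝ ℝ ℝ) volume (-l) l :=
    (hcT.smul continuous_const).intervalIntegrable _ _
  have i2 : IntervalIntegrable (fun z =>
      (wt l z * Dx G (r, x + z)) • ContinuousLinearMap.snd ℝ ℝ ℝ) volume (-l) l :=
    (hcX.smul continuous_const).intervalIntegrable _ _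
  have e : (∫ z in (-l)..l, ((wt l z * Dt G (r, x + z)) • ContinuousLinearMap.fst ℝ ℝ ℝ
      + (wt l z * Dx G (r, x + z)) • ContinuousLinearMap.snd ℝ ℝ ℝ))
      = Av l (fun z => Dt G (r, z)) x • ContinuousLinearMap.fst ℝ ℝ ℝ
        + Av l (fun z => Dx G (r, z)) x • ContinuousLinearMap.snd ℝ ℝ ℝ := by
    rw [intervalIntegral.integral_add i1 i2, intervalIntegral.integral_smul_const,
      intervalIntegral.integral_smul_const]
    rfl
  rw [← e]
  exact key

theorem cont (h : Sm T G) (l : ℝ) :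
    ContinuousOn (fun r => Vl l (fun x => G (r, x))) (Ioo 0 T) := by
  rw [continuousOn_iff_continuous_restrict]
  have hG : Continuous (fun p : Ioo (0 : ℝ) T × ℝ => G ((p.1 : ℝ), p.2)) := by
    rw [continuous_iff_continuousAt]
    rintro ⟨⟨r, hr⟩, x⟩
    have h1 : ContinuousAt G (r, x) := (h.differentiableAt hr).continuousAt
    exact ContinuousAt.comp (g := G) (f := fun p : Ioo (0 : ℝ) T × ℝ => ((p.1 : ℝ), p.2)) h1
      (by fun_prop)
  have h2 : Continuous (fun q : (Ioo (0 : ℝ) T × ℝ) × ℝ =>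
      (G ((q.1.1 : ℝ), q.2 + q.1.2) - G ((q.1.1 : ℝ), q.2)) ^ 2) := by
    have e1 : Continuous (fun q : (Ioo (0 : ℝ) T × ℝ) × ℝ => G ((q.1.1 : ℝ), q.2 + q.1.2)) :=
      hG.comp (f := fun q : (Ioo (0 : ℝ) T × ℝ) × ℝ => (q.1.1, q.2 + q.1.2)) (by fun_prop)
    have e2 : Continuous (fun q : (Ioo (0 : ℝ) T × ℝ) × ℝ => G ((q.1.1 : ℝ), q.2)) :=
      hG.comp (f := fun q : (Ioo (0 : ℝ) T × ℝ) × ℝ => (q.1.1, q.2)) (by fun_prop)
    exact (e1.sub e2).pow 2
  have h3 : Continuous (fun q : Ioo (0 : ℝ) T × ℝ => om (fun x => G ((q.1 : ℝ), x)) q.2) :=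
    intervalIntegral.continuous_parametric_intervalIntegral_of_continuous'
      (f := fun (q : Ioo (0 : ℝ) T × ℝ) (y : ℝ) =>
        (G ((q.1 : ℝ), y + q.2) - G ((q.1 : ℝ), y)) ^ 2) h2 0 (2 * Real.pi)
  have h4 : Continuous (fun r : Ioo (0 : ℝ) T =>
      ∫ s in (-(2 * l))..(2 * l), om (fun x => G ((r : ℝ), x)) s) :=
    intervalIntegral.continuous_parametric_intervalIntegral_of_continuous'
      (f := fun (r : Ioo (0 : ℝ) T) (s : ℝ) => om (fun x => G ((r : ℝ), x)) s) h3 _ _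
  exact h4.div_const _

end AVDM

theorem specAVD : SpecAVD :=
  ⟨fun _ _ _ h hl _ hr x => AVDM.main h hl hr x, fun _ _ l h _ => AVDM.cont h l⟩

end

end Pool.Agent.Lib.MPb879c5.PR
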