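import Pool.Agent.Lib.MP_b879c5_an.PR.SpecI

/-!
Assembly (MP_b879c5_an, helper42): time shift and the final statement for `Sol`.
-/

set_option autoImplicit false

namespace Pool.Agent.Lib.MPb879c5.PR

open Set Filter MeasureTheory Topology
open Pool.Agent.Lib.MP_b879c5_an
open scoped ContDiff

noncomputable section

namespace AsmM

/-- time shift -/
def sh (t₀ : ℝ) (G : ℝ × ℝ → ℝ) : ℝ × ℝ → ℝ := fun p => G (t₀ + p.1, p.2)

lemma sh_hasFDerivAt {T t₀ : ℝ} {G : ℝ × ℝ → ℝ} (h : Sm T G) (h0 : 0 ≤ t₀) {t x : ℝ}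
    (ht : t ∈ Ioo 0 (T - t₀)) :
    HasFDerivAt (sh t₀ G) (fderiv ℝ G (t₀ + t, x)) (t, x) := by
  have ht' : t₀ + t ∈ Ioo 0 T := ⟨by linarith [ht.1], by linarith [ht.2]⟩
  have h1 := (h.differentiableAt (x := x) ht').hasFDerivAt
  have h2 : HasFDerivAt (fun p : ℝ × ℝ => ((t₀, (0 : ℝ)) : ℝ × ℝ) + p) (ContinuousLinearMap.id ℝ (ℝ × ℝ)) (t, x) :=
    (hasFDerivAt_id _).const_add _
  have h3 : HasFDerivAt G (fderiv ℝ G (t₀ + t, x)) ((fun p : ℝ × ℝ => ((t₀, (0 : ℝ)) : ℝ × ℝ) + p) (t, x)) := by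
    simpa using h1
  have h4 := HasFDerivAt.comp (t, x) (g := G) (f := fun p : ℝ × ℝ => ((t₀, (0 : ℝ)) : ℝ × ℝ) + p) h3 h2
  have h5 : (G ∘ fun p : ℝ × ℝ => ((t₀, (0 : ℝ)) : ℝ × ℝ) + p) = sh t₀ G := by
    funext p
    show G ((t₀, (0 : ℝ)) + p) = G (t₀ + p.1, p.2)
    have : ((t₀, (0 : ℝ)) : ℝ × ℝ) + p = (t₀ + p.1, p.2) := by
      ext <;> simp
    rw [this]
  rw [h5] at h4
  simpa using h4

lemma sh_dx {T t₀ : ℝ} {G : ℝ × ℝ → ℝ} (h : Sm T G) (h0 : 0 ≤ t₀) {t x : ℝ}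
    (ht : t ∈ Ioo 0 (T - t₀)) : Dx (sh t₀ G) (t, x) = Dx G (t₀ + t, x) := by
  unfold Dx; rw [(sh_hasFDerivAt h h0 ht).fderiv]

lemma sh_dt {T t₀ : ℝ} {G : ℝ × ℝ → ℝ} (h : Sm T G) (h0 : 0 ≤ t₀) {t x : ℝ}
    (ht : t ∈ Ioo 0 (T - t₀)) : Dt (sh t₀ G) (t, x) = Dt G (t₀ + t, x) := by
  unfold Dt; rw [(sh_hasFDerivAt h h0 ht).fderiv]

lemma sh_sm {T t₀ : ℝ} {G : ℝ × ℝ → ℝ} (h : Sm T G) (h0 : 0 ≤ t₀) : Sm (T - t₀) (sh t₀ G) := by
  unfold Sm at *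
  refine ContDiffOn.comp (g := G) (f := fun p : ℝ × ℝ => (t₀ + p.1, p.2)) h ?_ ?_
  · exact ContDiff.contDiffOn (by fun_prop)
  · rintro ⟨t, x⟩ hp
    have ht : t ∈ Ioo 0 (T - t₀) := mem_Om.mp hp
    exact mem_Om.mpr ⟨by have := ht.1; show 0 < t₀ + t; linarith, by have := ht.2; show t₀ + t < T; linarith⟩

/-- `Dx` only depends on the germ -/
lemma dx_congr {T : ℝ} {G H : ℝ × ℝ → ℝ} (h : ∀ t ∈ Ioo 0 T, ∀ x, G (t, x) = H (t, x)) {t x : ℝ}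
    (ht : t ∈ Ioo 0 T) : Dx G (t, x) = Dx H (t, x) := by
  unfold Dx
  have he : G =ᶠ[𝓝 (t, x)] H := by
    filter_upwards [(isOpen_Om T).mem_nhds (mem_Om.mpr ht : (t, x) ∈ Om T)] with p hp
    exact h p.1 (mem_Om.mp (by simpa using hp)) p.2
  rw [he.fderiv_eq]

lemma sh_sol {T t₀ : ℝ} {U : ℝ × ℝ → ℝ} (h : Sol T U) (h0 : 0 ≤ t₀) : Sol (T - t₀) (sh t₀ U) := by
  have hm : ∀ t ∈ Ioo 0 (T - t₀), t₀ + t ∈ Ioo 0 T := fun t ht => ⟨by linarith [ht.1], by linarith [ht.2]⟩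
  refine ⟨sh_sm h.sm h0, ?_, ?_⟩
  · intro t ht x
    exact h.per _ (hm t ht) x
  · intro t ht x
    have e1 : ∀ r ∈ Ioo 0 (T - t₀), ∀ y, Dx (sh t₀ U) (r, y) = sh t₀ (Dx U) (r, y) :=
      fun r hr y => sh_dx h.sm h0 hr
    have e2 : ∀ r ∈ Ioo 0 (T - t₀), ∀ y, Dx (Dx (sh t₀ U)) (r, y) = sh t₀ (Dx (Dx U)) (r, y) := by
      intro r hr y
      rw [dx_congr e1 hr, sh_dx h.sm.dx h0 hr]; rfl
    have e3 : ∀ r ∈ Ioo 0 (T - t₀), ∀ y, Dx (Dx (Dx (sh t₀ U))) (r, y) = sh t₀ (Dx (Dx (Dx U))) (r, y) := by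
      intro r hr y
      rw [dx_congr e2 hr, sh_dx h.sm.dx.dx h0 hr]; rfl
    rw [e3 t ht, e1 t ht, sh_dt h.sm h0 ht, h.pde _ (hm t ht) x]
    rfl

lemma tendsto_shift {T t₀ : ℝ} {P : ℝ → Prop} (h : ∀ᶠ t in 𝓝[<] (T - t₀), P t) :
    ∀ᶠ t in 𝓝[<] T, P (t - t₀) := by
  have h1 : Tendsto (fun t : ℝ => t - t₀) (𝓝[<] T) (𝓝[<] (T - t₀)) := by
    refine tendsto_nhdsWithin_of_tendsto_nhds_of_eventually_within _ ?_ ?_
    · exact ((continuous_id.sub continuous_const).tendsto T).mono_left nhdsWithin_le_nhds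
    · filter_upwards [self_mem_nhdsWithin] with t ht
      exact sub_lt_sub_right ht t₀
  exact h1.eventually h

end AsmM

/-- The final statement for `Sol`. -/
theorem final (hDAT : SpecDAT) (hFIN : SpecFIN) (hISO : SpecISO) (hHON : SpecHON) (hSYM : SpecSYM) (hCHO : SpecCHO)
    (T : ℝ) (U : ℝ × ℝ → ℝ) (hT : 0 < T) (hU : Sol T U) (hb : Blow T U)
    (hne : ¬ ∀ t ∈ Ioo 0 T, ∀ x, U (t, x) = 1 / (T - t)) :
    (∀ δ > 0, ∃ᶠ t in 𝓝[<] T, ∃ x, (T - t) * U (t, x) < 1 / 2 + δ) ∧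
    ((∃ C, ∀ᶠ t in 𝓝[<] T, (T - t) ^ 2 * Gag (fun x => Dx U (t, x)) ≤ C) →
      ∃ a : ℝ → ℝ, (∀ η > 0, ∀ᶠ t in 𝓝[<] T, ∀ x, |(T - t) * U (t, x) - Real.cos ((x - a t) / 2) ^ 2| ≤ η) ∧
        ∀ η > 0, ∀ᶠ t in 𝓝[<] T,
          (∫ x in (0)..(2 * Real.pi), ((T - t) * Dx U (t, x) + Real.sin (x - a t) / 2) ^ 2) ≤ η) ∧
    (∀ n : ℕ, 2 ≤ n → (∀ t ∈ Ioo 0 T, ∀ x, U (t, x + 2 * Real.pi / n) = U (t, x)) →
      ∀ C, ∃ᶠ t in 𝓝[<] T, C < (T - t) ^ 2 * Gag (fun x => Dx U (t, x))) := by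
  have hA : ∀ δ > 0, ∃ᶠ t in 𝓝[<] T, ∃ x, (T - t) * U (t, x) < 1 / 2 + δ := by
    intro δ hδ
    by_contra hcon
    rw [not_frequently] at hcon
    refine hne (hISO T U δ hT hU hδ ?_)
    filter_upwards [hcon] with t ht x
    by_contra hx
    exact ht ⟨x, not_le.mp hx⟩
  -- the dichotomy, for a bound near `T`
  have hB : (∃ C, ∀ᶠ t in 𝓝[<] T, (T - t) ^ 2 * Gag (fun x => Dx U (t, x)) ≤ C) →
      ∃ a : ℝ → ℝ, (∀ η > 0, ∀ᶠ t in 𝓝[<] T, ∀ x, |(T - t) * U (t, x) - Real.cos ((x - a t) / 2) ^ 2| ≤ η) ∧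
        ∀ η > 0, ∀ᶠ t in 𝓝[<] T,
          (∫ x in (0)..(2 * Real.pi), ((T - t) * Dx U (t, x) + Real.sin (x - a t) / 2) ^ 2) ≤ η := by
    rintro ⟨C₁, hC₁⟩
    obtain ⟨t₀, ht₀, hbd⟩ : ∃ t₀ ∈ Ioo 0 T, ∀ t ∈ Ioo t₀ T, (T - t) ^ 2 * Gag (fun x => Dx U (t, x)) ≤ C₁ := by
      obtain ⟨l, hl, hsub⟩ := (mem_nhdsLT_iff_exists_Ioo_subset' hT).mp hC₁
      refine ⟨max l (T / 2), ⟨lt_max_of_lt_right (by linarith), max_lt hl (by linarith)⟩, fun t ht => ?_⟩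
      exact hsub ⟨lt_of_le_of_lt (le_max_left _ _) ht.1, ht.2⟩
    have hT' : 0 < T - t₀ := by linarith [ht₀.2]
    set V := AsmM.sh t₀ U with hV
    have hSV : Sol (T - t₀) V := AsmM.sh_sol hU ht₀.1.le
    have hbV : Blow (T - t₀) V := by
      intro M s hs
      obtain ⟨t, ht, h1, x, hx⟩ := hb M (max (s + t₀) t₀) (max_lt (by linarith) ht₀.2)
      have h2 := lt_of_le_of_lt (le_max_left _ _) h1
      have h3 := lt_of_le_of_lt (le_max_right _ _) h1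
      refine ⟨t - t₀, ⟨by linarith, by linarith [ht.2]⟩, by linarith, x, ?_⟩
      have : V (t - t₀, x) = U (t, x) := by simp [hV, AsmM.sh]
      rwa [this]
    have hgV : ∃ C, ∀ t ∈ Ico ((T - t₀) / 2) (T - t₀), (T - t₀ - t) ^ 2 * Gag (fun x => Dx V (t, x)) ≤ C := by
      refine ⟨C₁, fun t ht => ?_⟩
      have ht1 : t ∈ Ioo 0 (T - t₀) := ⟨by linarith [ht.1], ht.2⟩
      have e1 : (fun x => Dx V (t, x)) = fun x => Dx U (t₀ + t, x) := by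
        funext x; exact AsmM.sh_dx hU.sm ht₀.1.le ht1
      rw [e1]
      have := hbd (t₀ + t) ⟨by linarith [ht1.1], by linarith [ht1.2]⟩
      have e2 : T - t₀ - t = T - (t₀ + t) := by ring
      rwa [e2]
    obtain ⟨C, c, hD⟩ := hDAT (T - t₀) V hT' hSV hbV hgV
    rcases hFIN (T - t₀) V C c hD with h1 | h2
    · exfalso
      have h3 : ∀ t ∈ Ioo 0 (T - t₀), ∀ x, V (t, x) = 1 / (T - t₀ - t) := by
        refine hISO (T - t₀) V (1 / 4) hT' hSV (by norm_num) ?_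
        filter_upwards [h1 (1 / 4) (by norm_num)] with t ht x
        have := (abs_le.mp (ht x)).1
        linarith
      refine hne (hISO T U (1 / 4) hT hU (by norm_num) ?_)
      have h4 : Ioo t₀ T ∈ 𝓝[<] T := Ioo_mem_nhdsLT ht₀.2
      filter_upwards [h4] with t ht x
      have h5 := h3 (t - t₀) ⟨by linarith [ht.1], by linarith [ht.2]⟩ x
      have h6 : V (t - t₀, x) = U (t, x) := by simp [hV, AsmM.sh]
      have h7 : T - t₀ - (t - t₀) = T - t := by ring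
      rw [h6, h7] at h5
      rw [h5]
      have h8 : T - t ≠ 0 := by have := ht.2; intro h; linarith
      rw [mul_one_div_cancel h8]
      norm_num
    · obtain ⟨a, ha⟩ := hCHO (T - t₀) (fun t x => (T - t₀ - t) * V (t, x)) (fun y => Real.cos (y / 2) ^ 2) h2
      refine ⟨fun t => a (t - t₀), fun η hη => ?_, fun η hη => ?_⟩
      · filter_upwards [AsmM.tendsto_shift (ha η hη)] with t ht x
        have h6 : V (t - t₀, x) = U (t, x) := by simp [hV, AsmM.sh]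
        have h7 : T - t₀ - (t - t₀) = T - t := by ring
        have := ht x
        simp only [h6, h7] at this
        exact this
      · obtain ⟨η', hη', hh⟩ := hHON (T - t₀) V C c hD η hη
        have h4 : Ico (t₀ + (T - t₀) / 2) T ∈ 𝓝[<] T := Ico_mem_nhdsLT (by linarith)
        filter_upwards [AsmM.tendsto_shift (ha η' hη'), h4] with t ht ht4
        have h5 := hh (t - t₀) ⟨by linarith [ht4.1], by linarith [ht4.2]⟩ (a (t - t₀)) ht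
        have h7 : T - t₀ - (t - t₀) = T - t := by ring
        have e1 : ∀ x, Dx V (t - t₀, x) = Dx U (t, x) := by
          intro x
          have := AsmM.sh_dx (x := x) hU.sm ht₀.1.le (t := t - t₀) ⟨by linarith [ht4.1, ht₀.2], by linarith [ht4.2]⟩
          rw [hV, this]; congr 2; ring
        simp only [h7, e1] at h5
        exact h5
  refine ⟨hA, hB, ?_⟩
  intro n hn hper C
  by_contra hcon
  rw [not_frequently] at hcon
  obtain ⟨a, ha, -⟩ := hB ⟨C, by filter_upwards [hcon] with t ht; exact not_lt.mp ht⟩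
  refine hSYM n T (fun t x => (T - t) * U (t, x)) hn hT (fun t ht x => by rw [hper t ht x]) ?_
  intro η hη
  filter_upwards [ha η hη] with t ht
  exact ⟨a t, ht⟩

end

end Pool.Agent.Lib.MPb879c5.PR
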