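import Pool.Agent.Lib.MP_b879c5_an.PR.Spec

/-!
Module FIX: fixed points of the two Hopf-Lax inequalities.
-/

set_option autoImplicit false

namespace Pool.Agent.Lib.MPb879c5.PR

open Set Filter MeasureTheory Topology

namespace FIXM

theorem cos_half (θ : ℝ) : Real.cos (θ / 2) ^ 2 = (1 + Real.cos θ) / 2 := by
  rw [Real.cos_sq]
  have : 2 * (θ / 2) = θ := by ring
  rw [this]
  ring

theorem sin_half (θ : ℝ) : Real.sin (θ / 2) ^ 2 = (1 - Real.cos θ) / 2 := by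
  rw [Real.sin_sq, cos_half]
  ring

theorem per_int (g : ℝ → ℝ) (hper : ∀ x, g (x + 2 * Real.pi) = g x) (y : ℝ) (k : ℤ) :
    g (y - k * (2 * Real.pi)) = g y := by
  have h : Function.Periodic g (2 * Real.pi) := hper
  exact h.sub_int_mul_eq k

/-- every `y` can be moved to `[0, 2π]` -/
theorem move (g : ℝ → ℝ) (hper : ∀ x, g (x + 2 * Real.pi) = g x) (ρ x y : ℝ) :
    ∃ y' ∈ Icc (0 : ℝ) (2 * Real.pi), Kg ρ (g y') x y' = Kg ρ (g y) x y := by
  have h2 : (0 : ℝ) < 2 * Real.pi := by positivity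
  refine ⟨y - (⌊y / (2 * Real.pi)⌋ : ℝ) * (2 * Real.pi), ⟨?_, ?_⟩, ?_⟩
  · have h := Int.floor_le (y / (2 * Real.pi))
    rw [le_div_iff₀ h2] at h
    linarith
  · have h := (Int.lt_floor_add_one (y / (2 * Real.pi))).le
    rw [div_le_iff₀ h2] at h
    linarith
  · unfold Kg
    rw [per_int g hper, cos_half, sin_half, cos_half, sin_half]
    have h : x - (y - (⌊y / (2 * Real.pi)⌋ : ℝ) * (2 * Real.pi)) =
        (x - y) + (⌊y / (2 * Real.pi)⌋ : ℝ) * (2 * Real.pi) := by ring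
    rw [h, Real.cos_add_int_mul_two_pi]

theorem A_le_one (a ρ : ℝ) (ha1 : a ≤ 1) (ha0 : 0 ≤ a) (hρ : 0 < ρ) (hρ1 : ρ < 1) :
    0 < 1 - a * (1 - ρ) ∧ a * ρ / (1 - a * (1 - ρ)) ≤ 1 := by
  have h : 0 < 1 - a * (1 - ρ) := by nlinarith
  refine ⟨h, ?_⟩
  rw [div_le_one h]
  linarith

theorem Kg_le (a ρ x y : ℝ) (ha1 : a ≤ 1) (ha0 : 0 ≤ a) (hρ : 0 < ρ) (hρ1 : ρ < 1) :
    Kg ρ a x y ≤ Real.cos ((x - y) / 2) ^ 2 * (a * ρ / (1 - a * (1 - ρ))) := by
  unfold Kg
  have h1 : 0 ≤ Real.sin ((x - y) / 2) ^ 2 * ρ / (1 - ρ) :=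
    div_nonneg (mul_nonneg (sq_nonneg _) hρ.le) (by linarith)
  linarith

end FIXM

open FIXM

theorem specFIX : SpecFIX := by
  intro g hg hper h01 hne hA hB
  have third : ∀ x z, g z = 1 → Real.cos ((x - z) / 2) ^ 2 ≤ g x := by
    intro x z hz
    refine le_of_forall_pos_le_add fun ε hε => ?_
    have hρ : 0 < ε / (1 + ε) := by positivity
    have hρ1 : ε / (1 + ε) < 1 := by
      rw [div_lt_one (by positivity)]
      linarith
    have h := hA (ε / (1 + ε)) hρ hρ1 x z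
    rw [hz] at h
    unfold Kg at h
    have e1 : 1 * (ε / (1 + ε)) / (1 - 1 * (1 - ε / (1 + ε))) = 1 := by
      have : 1 - 1 * (1 - ε / (1 + ε)) = ε / (1 + ε) := by ring
      rw [this, one_mul, div_self hρ.ne']
    have e2 : ε / (1 + ε) / (1 - ε / (1 + ε)) = ε := by
      field_simp
      ring
    rw [e1, mul_one, mul_div_assoc, e2] at h
    have h3 : Real.sin ((x - z) / 2) ^ 2 * ε ≤ ε := by
      have h4 : Real.sin ((x - z) / 2) ^ 2 ≤ 1 := Real.sin_sq_le_one _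
      nlinarith
    linarith
  have alt : ∀ x, g x = 0 ∨ ∃ z, g z = 1 ∧ g x = Real.cos ((x - z) / 2) ^ 2 := by
    intro x
    have hρ : ∀ n : ℕ, (0 : ℝ) < 1 / ((n : ℝ) + 2) := fun n => by positivity
    have hρ1 : ∀ n : ℕ, 1 / ((n : ℝ) + 2) < 1 := fun n => by
      rw [div_lt_one (by positivity)]
      have : (0 : ℝ) ≤ n := Nat.cast_nonneg n
      linarith
    have hch : ∀ n : ℕ, ∃ y ∈ Icc (0 : ℝ) (2 * Real.pi),
        g x ≤ Kg (1 / ((n : ℝ) + 2)) (g y) x y := by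
      intro n
      obtain ⟨y, hy⟩ := hB _ (hρ n) (hρ1 n) x
      obtain ⟨y', hy', he⟩ := move g hper (1 / ((n : ℝ) + 2)) x y
      exact ⟨y', hy', by rw [he]; exact hy⟩
    choose y hyI hy using hch
    obtain ⟨z, -, φ, hφ, hlim⟩ := isCompact_Icc.tendsto_subseq hyI
    have hub : ∀ n, g x ≤ Real.cos ((x - y n) / 2) ^ 2 *
        (g (y n) * (1 / ((n : ℝ) + 2)) / (1 - g (y n) * (1 - 1 / ((n : ℝ) + 2)))) := fun n =>
      (hy n).trans (Kg_le _ _ _ _ (h01 (y n)).2 (h01 (y n)).1 (hρ n) (hρ1 n))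
    rcases (h01 z).2.lt_or_eq with hlt | heq
    · left
      apply le_antisymm _ (h01 x).1
      have hgl : Tendsto (fun n => g (y (φ n))) atTop (𝓝 (g z)) :=
        (hg.tendsto z).comp hlim
      have hev : ∀ᶠ n in atTop, g (y (φ n)) < (1 + g z) / 2 :=
        hgl.eventually (gt_mem_nhds (by linarith))
      have hm : 0 < 1 - (1 + g z) / 2 := by linarith
      have hρ0 : Tendsto (fun n : ℕ => 1 / (((φ n : ℕ) : ℝ) + 2)) atTop (𝓝 0) := by
        have h1 : Tendsto (fun n : ℕ => 1 / ((n : ℝ) + 2)) atTop (𝓝 0) := by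
          have h2 : Tendsto (fun n : ℕ => (n : ℝ) + 2) atTop atTop :=
            tendsto_atTop_add_const_right _ _ tendsto_natCast_atTop_atTop
          simp only [one_div]
          exact tendsto_inv_atTop_zero.comp h2
        exact h1.comp hφ.tendsto_atTop
      have hlim0 : Tendsto (fun n : ℕ => 1 / (((φ n : ℕ) : ℝ) + 2) / (1 - (1 + g z) / 2)) atTop
          (𝓝 0) := by
        have := hρ0.div_const (1 - (1 + g z) / 2)
        rwa [zero_div] at this
      refine ge_of_tendsto hlim0 ?_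
      filter_upwards [hev] with n hn
      refine (hub (φ n)).trans ?_
      set a := g (y (φ n)) with ha
      set ρ := 1 / (((φ n : ℕ) : ℝ) + 2) with hρd
      have ha0 : 0 ≤ a := (h01 _).1
      have ha1 : a ≤ 1 := (h01 _).2
      have hp : 0 < ρ := hρ (φ n)
      have hp1 : ρ < 1 := hρ1 (φ n)
      have hd := (A_le_one a ρ ha1 ha0 hp hp1).1
      have h5 : a * ρ / (1 - a * (1 - ρ)) ≤ ρ / (1 - (1 + g z) / 2) := by
        apply div_le_div₀ hp.le _ hm _
        · nlinarith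
        · nlinarith [mul_nonneg ha0 hp.le]
      have h6 : 0 ≤ a * ρ / (1 - a * (1 - ρ)) := div_nonneg (mul_nonneg ha0 hp.le) hd.le
      calc Real.cos ((x - y (φ n)) / 2) ^ 2 * (a * ρ / (1 - a * (1 - ρ)))
          ≤ 1 * (a * ρ / (1 - a * (1 - ρ))) :=
            mul_le_mul_of_nonneg_right (Real.cos_sq_le_one _) h6
        _ = a * ρ / (1 - a * (1 - ρ)) := one_mul _
        _ ≤ _ := h5
    · right
      refine ⟨z, heq, le_antisymm ?_ (third x z heq)⟩
      have hc : Tendsto (fun n => Real.cos ((x - y (φ n)) / 2) ^ 2) atTop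
          (𝓝 (Real.cos ((x - z) / 2) ^ 2)) := by
        have hcont : Continuous (fun w : ℝ => Real.cos ((x - w) / 2) ^ 2) := by fun_prop
        exact (hcont.tendsto z).comp hlim
      refine ge_of_tendsto' hc fun n => ?_
      refine (hub (φ n)).trans ?_
      have h7 := (A_le_one (g (y (φ n))) _ (h01 _).2 (h01 _).1 (hρ (φ n)) (hρ1 (φ n))).2
      calc Real.cos ((x - y (φ n)) / 2) ^ 2 * (g (y (φ n)) * (1 / (((φ n : ℕ) : ℝ) + 2)) /
            (1 - g (y (φ n)) * (1 - 1 / (((φ n : ℕ) : ℝ) + 2))))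
          ≤ Real.cos ((x - y (φ n)) / 2) ^ 2 * 1 :=
            mul_le_mul_of_nonneg_left h7 (sq_nonneg _)
        _ = _ := mul_one _
  obtain ⟨x₀, hx₀⟩ := hne
  obtain ⟨z₀, hz₀, -⟩ := (alt x₀).resolve_left hx₀
  refine ⟨fun x => ?_, third⟩
  rcases alt x with h | h
  · refine ⟨z₀, hz₀, ?_⟩
    have h1 := third x z₀ hz₀
    rw [h] at h1
    rw [h]
    exact le_antisymm (sq_nonneg _) h1
  · exact h

end Pool.Agent.Lib.MPb879c5.PR
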