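import Pool.Agent.Lib.MP_b879c5_an.BlowUp

/-!
# Rigidity of the blow-up profile for `u_t = u_xxx + u_x^2 + u^2` (MP_b879c5_an): specification (captain helper42)

THEOREM. Let `u` be a classical `2π`-periodic solution of `u_t = u_xxx + u_x^2 + u^2` on `(0,T)`, unbounded near `T`, with
`(T - t)^2 ∫∫ |u_x(t, y+s) - u_x(t, y)|^2 / s^2 dy ds ≤ C` on `[T/2, T)` (the rescaled `H^(3/2)` norm stays bounded; `H^(3/2)` is the norm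
conserved by the linearised flow). Then either `(T - t) u(t, ·) → 1` uniformly or the uniform distance from `(T - t) u(t, ·)` to the set of
the functions `cos²((x - a)/2)` tends to `0` as `t → T`.

IDEA. Rescaling `R_e(t,x) = e u(T + e t, x)`, `t < 0`, kills the dispersion as `e → 0`. Limits `v` of `R_(e_k)` satisfy the two Hopf-Lax
inequalities (KA), (KB) below for the fundamental solution `K` of `K_t = K_x^2 + K^2`: (KA) is Jensen's inequality for a mollified equation,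
(KB) follows backward characteristics of the mollified solution, the commutator is controlled by the Gagliardo integral of `u_x` at small
distances, which tends to zero for the limit. (KA) + (KB) for `t < 0` give: `-t v(t,x)` is nonincreasing in `t`, and where it does not depend on `t`
it is `max_(z ∈ Z) cos²((x - z)/2)`; `H^(3/2)` excludes kinks, so it is `1` or one `cos²((x - a)/2)`, with integral `2π` or `π`. A band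
argument for the integral of `(T - t) u` finishes the proof.

Conventions: module `XXX` is the file `Pool/Agent/Lib/MP_b879c5_an/PR/XXX.lean`, it imports only `Pool.Agent.Lib.MP_b879c5_an.PR.Spec`
and proves `theorem specXXX (hYYY : SpecYYY) .. : SpecXXX` (the modules named after USES, in this order) in the namespace
`Pool.Agent.Lib.MPb879c5.PR`, own lemmas in a namespace `XXXM`. The landed library (namespace `Pool.Agent.Lib.MP_b879c5_an`, file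
`BlowUp.lean`: `Sol`, `Sm`, `Per`, `Dx`, `Dt`, `II`, `JI`, `mI`, `wt`, `avg`, `Sol.sharp_upper`, `Sol.mean_lower`, ..) may be used.
-/

set_option autoImplicit false

namespace Pool.Agent.Lib.MPb879c5.PR

open Set Filter MeasureTheory Topology
open Pool.Agent.Lib.MP_b879c5_an

noncomputable section

/-- `∫_0^(2π) |q(y+s) - q(y)|^2 dy`. -/
def om (q : ℝ → ℝ) (s : ℝ) : ℝ := ∫ y in (0)..(2 * Real.pi), (q (y + s) - q y) ^ 2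

/-- The Gagliardo integral: the square of the `H^(1/2)` seminorm of `q` (used for smooth periodic `q` only). -/
def Gag (q : ℝ → ℝ) : ℝ := ∫ s in (-Real.pi)..Real.pi, om q s / s ^ 2

/-- The part of the integral at distances `≤ 2l`, up to a constant. -/
def Vl (l : ℝ) (q : ℝ → ℝ) : ℝ := (∫ s in (-(2 * l))..(2 * l), om q s) / l ^ 2

/-- The weighted average of `q` on `[x - l, x + l]`. -/
def Av (l : ℝ) (q : ℝ → ℝ) (x : ℝ) : ℝ := ∫ z in (-l)..l, wt l z * q (x + z)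

/-- `2π`-periodic `C²` functions. -/
structure PC2 (f : ℝ → ℝ) : Prop where
  sm : ContDiff ℝ 2 f
  per : ∀ x, f (x + 2 * Real.pi) = f x

/-- Uniform limits of `C²` periodic functions whose derivatives have Gagliardo integral `≤ C`. -/
def InG (C : ℝ) (g : ℝ → ℝ) : Prop :=
  ∀ η > 0, ∃ f, PC2 f ∧ (∀ x, |f x - g x| ≤ η) ∧ Gag (deriv f) ≤ C

/-- The fundamental solution of `K_t = K_x^2 + K^2` (note `K y s v y s = v` with the convention `a / 0 = 0`). -/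
def K (y s v x t : ℝ) : ℝ :=
  Real.cos ((x - y) / 2) ^ 2 * (v / (1 - v * (t - s))) - Real.sin ((x - y) / 2) ^ 2 / (t - s)

/-- Its space derivative. -/
def Kx (y s v x t : ℝ) : ℝ :=
  -(Real.sin (x - y) / 2) * (v / (1 - v * (t - s)) + 1 / (t - s))

/-- The characteristics of `K` starting at `y`. -/
def Xp (y s v c r : ℝ) : ℝ := y + 2 * Real.arctan (c * (r - s) / (1 - v * (r - s)))

/-- `W` is differentiable with partial derivatives `Wt`, `Wx` at the times in `[s,t]`. -/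
def Dfb (s t : ℝ) (W Wt Wx : ℝ → ℝ → ℝ) : Prop :=
  ∀ r ∈ Icc s t, ∀ x, HasFDerivAt (fun p : ℝ × ℝ => W p.1 p.2)
    (Wt r x • ContinuousLinearMap.fst ℝ ℝ ℝ + Wx r x • ContinuousLinearMap.snd ℝ ℝ ℝ) (r, x)

/-- What is used of the solution `U` (first variable time). -/
structure Dat (T : ℝ) (U : ℝ × ℝ → ℝ) (C c : ℝ) : Prop where
  hT : 0 < T
  sol : Sol T U
  hC : 1 ≤ C
  hc : 0 < c
  sup : ∀ t ∈ Ico (T / 2) T, ∀ x, (T - t) * |U (t, x)| ≤ C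
  hol : ∀ t ∈ Ico (T / 2) T, ∀ x y, (T - t) * |U (t, x) - U (t, y)| ≤ C * Real.sqrt |x - y|
  hii : ∀ t ∈ Ico (T / 2) T, (T - t) ^ 2 * II U t ≤ C
  up : ∀ η > 0, ∀ᶠ t in 𝓝[<] T, ∀ x, (T - t) * U (t, x) ≤ 1 + η
  lo : ∀ η > 0, ∀ᶠ t in 𝓝[<] T, ∀ x, -η ≤ (T - t) * U (t, x)
  mean : ∀ᶠ t in 𝓝[<] T, c ≤ (T - t) * ∫ x in (0)..(2 * Real.pi), U (t, x)
  gag : ∀ t ∈ Ico (T / 2) T, (T - t) ^ 2 * Gag (fun x => Dx U (t, x)) ≤ C

/-- The rescaled solution. -/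
def R (T : ℝ) (U : ℝ × ℝ → ℝ) (e t x : ℝ) : ℝ := e * U (T + e * t, x)

/-- Convergence, uniform in `x ∈ ℝ` and in `t` in compact subsets of `(-∞, 0)`. -/
def Conv (f : ℕ → ℝ → ℝ → ℝ) (v : ℝ → ℝ → ℝ) : Prop :=
  ∀ b B : ℝ, 0 < b → b < B → ∀ η > 0, ∀ᶠ k in atTop, ∀ t ∈ Icc (-B) (-b), ∀ x, |f k t x - v t x| ≤ η

/-- Properties of the limits, first part. -/
structure Anc0 (C c : ℝ) (v : ℝ → ℝ → ℝ) : Prop where
  per : ∀ t < 0, ∀ x, v t (x + 2 * Real.pi) = v t x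
  cont : ∀ t < 0, Continuous (v t)
  nn : ∀ t < 0, ∀ x, 0 ≤ v t x
  le : ∀ t < 0, ∀ x, -t * v t x ≤ 1
  mean : ∀ t < 0, c ≤ -t * ∫ x in (0)..(2 * Real.pi), v t x
  inG : ∀ t < 0, InG C (fun x => -t * v t x)

/-- The lower Hopf-Lax inequality. -/
def KA (v : ℝ → ℝ → ℝ) : Prop := ∀ s t : ℝ, s < t → t < 0 → ∀ x y, K y s (v s y) x t ≤ v t x

/-- The upper Hopf-Lax inequality. -/
def KB (v : ℝ → ℝ → ℝ) : Prop := ∀ s t : ℝ, s < t → t < 0 → ∀ x, ∃ y, v t x ≤ K y s (v s y) x t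

/-- `K` for a stationary `g`. -/
def Kg (ρ a x y : ℝ) : ℝ :=
  Real.cos ((x - y) / 2) ^ 2 * (a * ρ / (1 - a * (1 - ρ))) - Real.sin ((x - y) / 2) ^ 2 * ρ / (1 - ρ)

/-- The integral of the rescaled solution at time `T - e`. -/
def lam (T : ℝ) (U : ℝ × ℝ → ℝ) (e : ℝ) : ℝ := ∫ x in (0)..(2 * Real.pi), e * U (T - e, x)

/-! ### the fundamental solution and comparison -/

/-- **KFN** (150 lines, no deps). Calculus for `K`.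
PROOF. Write `a = v/(1 - v(t-s))`, `b = 1/(t-s)`, `θ = x - y`: `K = a cos²(θ/2) - b sin²(θ/2)`, `a' = a²`, `b' = -b²`, `Kx = -(sin θ/2)(a+b)`.
(1): `Kx² + K² = sin²cos²(a+b)² + a²cos⁴ + b²sin⁴ - 2ab sin²cos² = a²cos² + b²sin²` (`sin θ = 2 sin(θ/2) cos(θ/2)`), the time derivative.
(2): `z = c(r-s)/(1-v(r-s))`, `z' = c/(1-v(r-s))²`, `X' = 2z'/(1+z²)`, `sin(2 arctan z) = 2z/(1+z²)`, `a+b = 1/((r-s)(1-v(r-s)))`.
(3): `sin²(θ/2)/(r-s) ≤ L²(r-s)/4 → 0`, `cos² → 1`. (4): for `v ≥ 0`: `v/(1-v(r-s)) ≤ v/(1-v(t-s)) ≤ M/κ`; for `v < 0` the first term is `≤ 0`.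
(5): clear. (6): `|arctan z| ≤ |z|` and `1/(1-v(r-s))` is bounded on `[s,t]`. (7): `c = tan((x-y)/2)(1-v(t-s))/(t-s)`.
(8): both sides have period `2π`. -/
def SpecKFN : Prop :=
  (∀ (y s v t X' : ℝ) (X : ℝ → ℝ), s < t → v * (t - s) < 1 → HasDerivAt X X' t →
    HasDerivAt (fun r => K y s v (X r) r)
      (Kx y s v (X t) t ^ 2 + K y s v (X t) t ^ 2 + Kx y s v (X t) t * X') t) ∧
  (∀ y s v c r : ℝ, s < r → v * (r - s) < 1 →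
    HasDerivAt (Xp y s v c) (-2 * Kx y s v (Xp y s v c r) r) r) ∧
  (∀ (y s v L : ℝ) (X : ℝ → ℝ), (∀ᶠ r in 𝓝[>] s, |X r - y| ≤ L * (r - s)) →
    Tendsto (fun r => K y s v (X r) r) (𝓝[>] s) (𝓝 v)) ∧
  (∀ y s v x t κ M : ℝ, s < t → 0 < κ → v * (t - s) ≤ 1 - κ → v ≤ M → 0 ≤ M →
    ∀ r ∈ Ioc s t, K y s v x r ≤ M / κ) ∧
  (∀ T e y s v x t : ℝ, 0 < e → e * K y (T + e * s) v x (T + e * t) = K y s (e * v) x t) ∧
  (∀ y s v c t : ℝ, s < t → v * (t - s) < 1 → ∃ L, ∀ r ∈ Ioc s t, |Xp y s v c r - y| ≤ L * (r - s)) ∧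
  (∀ y s v t x : ℝ, s < t → v * (t - s) < 1 → |x - y| < Real.pi → ∃ c, Xp y s v c t = x) ∧
  (∀ y s v t x : ℝ, K y s v (x + 2 * Real.pi) t = K y s v x t ∧ K (y + 2 * Real.pi) s v x t = K y s v x t)

/-- **GRO** (90 lines, no deps). A Grönwall inequality.
PROOF. If `D t ≤ 0` the right side is `≥ 0`. Otherwise let `t₀ = sup {r ∈ [s,t] : D r ≤ 0}`: `D t₀ ≤ 0`, `D > 0` on `(t₀,t]`. There
`D' ≤ B D + F`, so `G = exp(-B(r - t₀)) D(r) - ∫_(t₀)^r F` has `G' ≤ 0` on `(t₀,t)` (as `exp(-B(r-t₀)) ≤ 1`, `F ≥ 0`), `G(t) ≤ G(t₀) ≤ 0`. -/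
def SpecGRO : Prop :=
  ∀ (D D' b F : ℝ → ℝ) (s t B : ℝ), s < t → 0 ≤ B → ContinuousOn D (Icc s t) → D s ≤ 0 →
    (∀ r ∈ Ioo s t, HasDerivAt D (D' r) r) → (∀ r ∈ Ioo s t, D' r ≤ b r * D r + F r) →
    (∀ r ∈ Ioo s t, b r ≤ B) → ContinuousOn F (Icc s t) → (∀ r ∈ Icc s t, 0 ≤ F r) →
    D t ≤ Real.exp (B * (t - s)) * ∫ r in s..t, F r

/-- **ODE** (70 lines, no deps). Global backward solutions of a bounded Lipschitz field.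
PROOF. Picard-Lindelöf (`IsPicardLindelof`) on the ball of radius `M (t - s)` around `x`; extend the solution by a constant outside. -/
def SpecODE : Prop :=
  ∀ (b : ℝ → ℝ → ℝ) (s t L M : ℝ), s < t → (∀ r ∈ Icc s t, ∀ x x', |b r x - b r x'| ≤ L * |x - x'|) →
    (∀ x, ContinuousOn (fun r => b r x) (Icc s t)) → (∀ r ∈ Icc s t, ∀ x, |b r x| ≤ M) →
    ∀ x, ∃ X : ℝ → ℝ, X t = x ∧ ContinuousOn X (Icc s t) ∧ ∀ r ∈ Ioo s t, HasDerivAt X (b r (X r)) r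

/-- **CMA** (130 lines), USES KFN GRO. Supersolutions lie above `K`.
PROOF. Let `v = W s y`. By periodicity (KFN (8)) `|x - y| ≤ π`, and by continuity in `x` of both sides `|x - y| < π`. Take `X = Xp y s v c` with
`X t = x` (KFN (7)) and `D(r) = K(X r, r) - W(r, X r)`: continuous on `[s,t]` with `D s = 0` (KFN (3), (6); at `r = s` both are `v`), and by KFN (1), (2),
`X' = -2Kx`: `D' = Kx² + K² - 2Kx² - Wt + 2 Kx Wx ≤ -Kx² + K² - Wx² - W² + F + 2 Kx Wx = -(Kx - Wx)² + (K + W) D + F ≤ (K+W) D + F`, and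
`K + W ≤ M + M/κ` (KFN (4)). Apply GRO. -/
def SpecCMA : Prop :=
  ∀ (s t M κ : ℝ) (W Wt Wx : ℝ → ℝ → ℝ) (F : ℝ → ℝ) (y : ℝ), s < t → 0 < κ → 0 ≤ M → Dfb s t W Wt Wx →
    (∀ r ∈ Icc s t, ∀ x, W r (x + 2 * Real.pi) = W r x) → (∀ r ∈ Icc s t, ∀ x, |W r x| ≤ M) →
    ContinuousOn F (Icc s t) → (∀ r ∈ Icc s t, 0 ≤ F r) →
    (∀ r ∈ Icc s t, ∀ x, Wx r x ^ 2 + W r x ^ 2 - F r ≤ Wt r x) → W s y * (t - s) ≤ 1 - κ →
    ∀ x, K y s (W s y) x t - Real.exp ((M + M / κ) * (t - s)) * (∫ r in s..t, F r) ≤ W t x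

/-- **CMB** (130 lines), USES KFN GRO ODE. Subsolutions lie below some `K`.
PROOF. Let `X` be the solution of `X' = -2 Wx(r, X)`, `X t = x` (ODE), `y = X s`, `v = W s y`, `D(r) = W(r, X r) - K(X r, r)`. `|X r - y| ≤ 2 M₁ (r - s)`
(mean value), so `D` is continuous on `[s,t]` with `D s = 0` (KFN (3)), and `D' = Wt - 2Wx² - Kx² - K² + 2 Kx Wx ≤ -(Wx - Kx)² + (W+K) D + F`.
Apply GRO with `b = W + K ≤ M + M/κ`. -/
def SpecCMB : Prop :=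
  ∀ (s t M κ L M₁ : ℝ) (W Wt Wx : ℝ → ℝ → ℝ) (F : ℝ → ℝ), s < t → 0 < κ → 0 ≤ M → Dfb s t W Wt Wx →
    (∀ r ∈ Icc s t, ∀ x, |W r x| ≤ M) → ContinuousOn F (Icc s t) → (∀ r ∈ Icc s t, 0 ≤ F r) →
    (∀ r ∈ Icc s t, ∀ x, Wt r x ≤ Wx r x ^ 2 + W r x ^ 2 + F r) → (∀ y, W s y * (t - s) ≤ 1 - κ) →
    (∀ r ∈ Icc s t, ∀ x x', |Wx r x - Wx r x'| ≤ L * |x - x'|) → (∀ x, ContinuousOn (fun r => Wx r x) (Icc s t)) →
    (∀ r ∈ Icc s t, ∀ x, |Wx r x| ≤ M₁) →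
    ∀ x, ∃ y, W t x ≤ K y s (W s y) x t + Real.exp ((M + M / κ) * (t - s)) * ∫ r in s..t, F r

/-! ### static lemmas on the Gagliardo integral -/

/-- **L2D** (110 lines, no deps). Interpolation, and two elementary facts.
PROOF. (1) `f'(y) = (f(y+δ) - f(y))/δ - (1/δ)∫_0^δ (f'(y+s) - f'(y)) ds`, so `f'(y)² ≤ 8A²/δ² + (2/δ²)(∫_0^δ |f'(y+s) - f'(y)| ds)²`, and
`(∫_0^δ |h| ds)² ≤ δ ∫_0^δ h² ds ≤ δ³ ∫_0^δ h²/s² ds`. Integrate over `y` (Fubini).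
(2) `om q s ≤ L² s² 2π` for a Lipschitz `q`, so the integrand is bounded and continuous off `0`.
(3) `∫_(-2l)^(2l) om ≤ 4 l² ∫_(-2l)^(2l) om/s²`, `2l ≤ π`. -/
def SpecL2D : Prop :=
  (∀ (f : ℝ → ℝ) (A δ : ℝ), PC2 f → (∀ x, |f x| ≤ A) → 0 < δ → δ ≤ Real.pi →
    (∫ y in (0)..(2 * Real.pi), deriv f y ^ 2) ≤ 16 * Real.pi * A ^ 2 / δ ^ 2 + 2 * δ * Gag (deriv f)) ∧
  (∀ f : ℝ → ℝ, PC2 f → IntervalIntegrable (fun s => om (deriv f) s / s ^ 2) volume (-Real.pi) Real.pi) ∧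
  (∀ (f : ℝ → ℝ) (l : ℝ), PC2 f → 0 < l → l ≤ 1 → 0 ≤ Vl l (deriv f) ∧ Vl l (deriv f) ≤ 4 * Gag (deriv f))

/-- **VLC** (180 lines), USES L2D. Passage to the limit in `Vl`.
PROOF. `p_k = (g_k)'`. By L2D (1) for `g_k - g_j` (`Gag(p_k - p_j) ≤ 4C`, from `(a-b)² ≤ 2a²+2b²`) `‖p_k - p_j‖ → 0` in `L²(0,2π)` as `k,j → ∞`
(first `δ` small, then `k, j` large). `√(om p s)` is an `L²` norm, so `|√(om p_k s) - √(om p_j s)| ≤ 2‖p_k - p_j‖`; `om p_k` is bounded, so `om p_k → ω`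
uniformly in `s`, `ω ≥ 0` continuous. `Φ l = (∫_(-2l)^(2l) ω)/l²`. Fatou: `∫_(-π)^π ω/s² ≤ C`, so `ω/s²` is integrable there, and
`Φ l ≤ 4∫_(-2l)^(2l) ω/s² → 0` as `l → 0`. -/
def SpecVLC : Prop :=
  ∀ (g : ℕ → ℝ → ℝ) (g' : ℝ → ℝ) (C : ℝ), (∀ k, PC2 (g k)) → (∀ η > 0, ∀ᶠ k in atTop, ∀ x, |g k x - g' x| ≤ η) →
    (∀ k, Gag (deriv (g k)) ≤ C) →
    ∃ Φ : ℝ → ℝ, (∀ l, 0 < l → l ≤ 1 → Tendsto (fun k => Vl l (deriv (g k))) atTop (𝓝 (Φ l))) ∧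
      Tendsto Φ (𝓝[>] 0) (𝓝 0)

/-- **KNK** (100 lines), USES VLC. No kinks.
PROOF. Take `g_k` as in `InG` with `η = 1/(k+1)`. For `C¹` periodic `f` and `0 < h ≤ 1`: `f(x+h) + f(x-h) - 2f(x) = (1/h)∫_0^h∫_(-h)^0 (f'(x+a) - f'(x+b)) db da`,
so by Cauchy-Schwarz on the square of area `h²`: `(f(x+h)+f(x-h)-2f(x))² ≤ ∫_0^h∫_(-h)^0 (f'(x+a) - f'(x+b))² db da ≤ ∫_(-2h)^(2h) om f' s ds = h² Vl h f'`
(substitute `a = b + s`). So `|g(x+h)+g(x-h)-2g(x)| ≤ h √(Vl h g_k') + 4/(k+1)`; `k → ∞`: `≤ h √(Φ h)`, and `Φ h → 0`. -/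
def SpecKNK : Prop :=
  ∀ (C : ℝ) (g : ℝ → ℝ), InG C g → ∀ η > 0, ∃ h₀ > 0, ∀ h, 0 < h → h ≤ h₀ → ∀ x,
    |g (x + h) + g (x - h) - 2 * g x| ≤ η * h

/-- **VAR** (110 lines, no deps). Variance of the weighted average.
PROOF. `w = wt l`, `∫ w = 1` (`integral_wt`), `0 ≤ w ≤ 35/(32 l)`. `∫ w q² - (∫ w q)² = (1/2)∫∫ w(z) w(z')(q(x+z) - q(x+z'))² dz dz' ≥ 0`, and
`≤ (1/2)(35/32)²/l² ∫_(-l)^l∫_(-l)^l (q(x+z') - q(x+z))² dz' dz ≤ (1/l²) ∫_(-2l)^(2l) ∫_(-l)^l (q(x+z+s) - q(x+z))² dz ds ≤ (1/l²) ∫_(-2l)^(2l) om q s ds`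
(`z' = z + s`, then `2l ≤ 2π` and periodicity). -/
def SpecVAR : Prop :=
  ∀ (q : ℝ → ℝ) (l : ℝ), Continuous q → (∀ x, q (x + 2 * Real.pi) = q x) → 0 < l → l ≤ 1 → ∀ x,
    Av l q x ^ 2 ≤ Av l (fun z => q z ^ 2) x ∧ Av l (fun z => q z ^ 2) x ≤ Av l q x ^ 2 + Vl l q

/-! ### averages of the solution -/

/-- **AVD** (130 lines, no deps). Differentiation of the averages of a function smooth in the strip, and continuity of `Vl`.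
PROOF. (1) `Av l (G(r,·)) x = ∫_(-l)^l wt l z G(r, x+z) dz`: differentiation under the integral (`hasFDerivAt_integral_of_dominated_of_fderiv_le`,
`fderiv G` is bounded on compact sets), `fderiv G (r,x) = Dt G • fst + Dx G • snd`. (2) continuity of parametric integrals over compact intervals. -/
def SpecAVD : Prop :=
  (∀ (T : ℝ) (G : ℝ × ℝ → ℝ) (l : ℝ), Sm T G → 0 < l → ∀ r ∈ Ioo 0 T, ∀ x,
    HasFDerivAt (fun p : ℝ × ℝ => Av l (fun z => G (p.1, z)) p.2)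
      (Av l (fun z => Dt G (r, z)) x • ContinuousLinearMap.fst ℝ ℝ ℝ
        + Av l (fun z => Dx G (r, z)) x • ContinuousLinearMap.snd ℝ ℝ ℝ) (r, x)) ∧
  (∀ (T : ℝ) (G : ℝ × ℝ → ℝ) (l : ℝ), Sm T G → 0 < l → ContinuousOn (fun r => Vl l (fun x => G (r, x))) (Ioo 0 T))

/-- **AVI** (140 lines), USES VAR. Differential inequalities for the averages (`W = Av l U(r,·)`, `Wx = Av l Dx U(r,·)`, `Wt = Av l Dt U(r,·)`).
PROOF. `Dt U = U_xxx + U_x² + U²` and three integrations by parts (`Sol.ibp`, `|wt3| ≤ 210/l⁴`): `|Wt - Av l (U_x²) - Av l (U²)| ≤ 2l·210·S/l⁴`.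
`Wx² ≤ Av l (U_x²) ≤ Wx² + Vl l U_x` (VAR), `W² ≤ Av l (U²) ≤ W² + Av l ((U - U(r,x))²) ≤ W² + H² l` (variance `≤` second moment about any point).
Last item: `Av l (U_x²) ≤ (35/(32 l)) ∫_(x-l)^(x+l) U_x² ≤ (2/l) II U r` (periodicity, `2l ≤ 2π`). -/
def SpecAVI : Prop :=
  ∀ (T : ℝ) (U : ℝ × ℝ → ℝ) (l S H r : ℝ), Sol T U → 0 < l → l ≤ 1 → r ∈ Ioo 0 T → (∀ x, |U (r, x)| ≤ S) →
    0 ≤ H → (∀ x y, |U (r, x) - U (r, y)| ≤ H * Real.sqrt |x - y|) → ∀ x,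
    (Av l (fun z => Dx U (r, z)) x ^ 2 + Av l (fun z => U (r, z)) x ^ 2 - 420 * S / l ^ 3 ≤ Av l (fun z => Dt U (r, z)) x) ∧
    (Av l (fun z => Dt U (r, z)) x ≤ Av l (fun z => Dx U (r, z)) x ^ 2 + Av l (fun z => U (r, z)) x ^ 2
      + (420 * S / l ^ 3 + Vl l (fun z => Dx U (r, z)) + H ^ 2 * l)) ∧
    |Av l (fun z => U (r, z)) x - U (r, x)| ≤ H * Real.sqrt l ∧ |Av l (fun z => U (r, z)) x| ≤ S ∧
    |Av l (fun z => Dt U (r, z)) x| ≤ 420 * S / l ^ 3 + 2 / l * II U r + S ^ 2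

/-- **DAT** (120 lines, no deps; uses the landed bounds). The data.
PROOF. `sup`: `Sol.abs_le_late`. `hii`: `Sol.II_le` (`d = T - t`). `hol`: `|U(t,x) - U(t,y)| ≤ √(|x-y| II U t)` for `|x - y| ≤ 2π` (see `Sol.osc_aux`,
`Sol.osc_small`), for `|x - y| > 2π` use `sup` (or `Sol.osc` and periodicity). `up`, `lo`: `Sol.sharp_upper`, `Sol.sharp_lower` (the errors tend to `0`).
`mean`: `Sol.mean_lower`, `c = 1/162`. `C` = the maximum of the constants. -/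
def SpecDAT : Prop :=
  ∀ (T : ℝ) (U : ℝ × ℝ → ℝ), 0 < T → Sol T U → Blow T U →
    (∃ C, ∀ t ∈ Ico (T / 2) T, (T - t) ^ 2 * Gag (fun x => Dx U (t, x)) ≤ C) → ∃ C c, Dat T U C c

/-! ### compactness -/

/-- **EQC** (140 lines), USES AVD AVI. Equicontinuity of the rescaled solutions.
PROOF. For `e < min(1, T/(2B))`, `r = T + e t ∈ [T/2, T)`, `T - r = e|t|`. By AVI (`S = C/(e|t|) = H`) `e |W(r,x) - U(r,x)| ≤ (C/b)√l`, and by AVD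
`∂_t [e W(T+et, x)] = e² Wt`, `|e² Wt| ≤ 420 e C/(l³ b) + 2C/(l b²) + C²/b²`. Choose `l` with `(C/b)√l ≤ η/4`, then `δ`; in `x`: `hol`. -/
def SpecEQC : Prop :=
  ∀ (T : ℝ) (U : ℝ × ℝ → ℝ) (C c : ℝ), Dat T U C c → ∀ b B : ℝ, 0 < b → b < B → ∀ η > 0, ∃ δ > 0, ∃ e₀ > 0,
    ∀ e, 0 < e → e < e₀ → ∀ t ∈ Icc (-B) (-b), ∀ t' ∈ Icc (-B) (-b), ∀ x x', |t - t'| ≤ δ → |x - x'| ≤ δ →
      |R T U e t x - R T U e t' x'| ≤ η

/-- **ARZ** (170 lines, no deps). Arzelà-Ascoli.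
PROOF. The product over the countable set `ℚ_(<0) × ℚ` of compact intervals is sequentially compact: a subsequence converges at all rational points; by equicontinuity
it is Cauchy, uniformly on `[-B,-b] × [0, 2π]`, hence (periodicity) on `[-B,-b] × ℝ`; `v` is the limit. -/
def SpecARZ : Prop :=
  ∀ f : ℕ → ℝ → ℝ → ℝ, (∀ t < 0, ∀ x, ∃ M, ∀ᶠ k in atTop, |f k t x| ≤ M) →
    (∀ b B : ℝ, 0 < b → b < B → ∀ᶠ k in atTop, ∀ t ∈ Icc (-B) (-b), ∀ x, f k t (x + 2 * Real.pi) = f k t x) →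
    (∀ b B : ℝ, 0 < b → b < B → ∀ η > 0, ∃ δ > 0, ∀ᶠ k in atTop, ∀ t ∈ Icc (-B) (-b), ∀ t' ∈ Icc (-B) (-b), ∀ x x',
      |t - t'| ≤ δ → |x - x'| ≤ δ → |f k t x - f k t' x'| ≤ η) →
    ∃ φ : ℕ → ℕ, StrictMono φ ∧ ∃ v : ℝ → ℝ → ℝ, Conv (fun k => f (φ k)) v

/-- **SUB** (50 lines), USES EQC ARZ. Subsequences. PROOF. Apply ARZ to `f k = R T U (ε k)` (`sup`, periodicity of `U`, EQC). -/
def SpecSUB : Prop :=
  ∀ (T : ℝ) (U : ℝ × ℝ → ℝ) (C c : ℝ), Dat T U C c → ∀ ε : ℕ → ℝ, (∀ k, 0 < ε k) → Tendsto ε atTop (𝓝 0) →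
    ∃ φ : ℕ → ℕ, StrictMono φ ∧ ∃ v : ℝ → ℝ → ℝ, Conv (fun k => R T U (ε (φ k))) v

/-- **LIM** (130 lines, no deps). First properties of the limits.
PROOF. With `r = T + ε_k t`, `T - r = ε_k |t|`: `-t R = (T - r) U(r,x)`, so `sup`, `up`, `lo`, `mean` pass to the limit (uniform convergence);
`inG`: `f = -t R(ε_k)(t,·)` is smooth and periodic for large `k`, and `Gag (deriv f) = (T-r)² Gag (Dx U(r,·)) ≤ C`. -/
def SpecLIM : Prop :=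
  ∀ (T : ℝ) (U : ℝ × ℝ → ℝ) (C c : ℝ), Dat T U C c → ∀ (ε : ℕ → ℝ) (v : ℝ → ℝ → ℝ), (∀ k, 0 < ε k) →
    Tendsto ε atTop (𝓝 0) → Conv (fun k => R T U (ε k)) v → Anc0 C c v

/-- **LKA** (170 lines), USES KFN CMA AVD AVI. The limits satisfy (KA).
PROOF. `s < t < 0`, `s_k = T + ε_k s`, `t_k = T + ε_k t`, `κ = |t|/(2|s|)`, `W = Av l U`. For large `k` (`up` with `η = κ`): `W(s_k,y)(t_k - s_k) ≤ (1+κ)(|s|-|t|)/|s|
= (1+κ)(1-2κ) ≤ 1-κ`; `|W| ≤ M = C/(ε_k|t|)` on `[s_k,t_k]`; CMA with the constant `F = 420 M/l³` (AVI, `S = M`) gives, times `ε_k` and by KFN (5),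
`K y s (ε_k W(s_k,y)) x t - E ε_k (|s|-|t|) 420 C/(l³|t|) ≤ ε_k W(t_k,x)`, `E = exp(C(|s|-|t|)(1/|t| + 2|s|/t²))`. Let `k → ∞` for fixed `l`:
`|ε_k W(t_k,x) - R(ε_k)(t,x)| ≤ (C/|t|)√l`, the same at `s`; then `l → 0`: `K y s · x t` is continuous at `v s y` (as `v s y (t-s) ≤ 1 - |t|/|s| < 1`). -/
def SpecLKA : Prop :=
  ∀ (T : ℝ) (U : ℝ × ℝ → ℝ) (C c : ℝ), Dat T U C c → ∀ (ε : ℕ → ℝ) (v : ℝ → ℝ → ℝ), (∀ k, 0 < ε k) →
    Tendsto ε atTop (𝓝 0) → Conv (fun k => R T U (ε k)) v → KA v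

/-- **IVL** (150 lines), USES L2D VLC AVD. The commutator tends to zero.
PROOF. For `r ∈ [s,t]` put `g_k = R(ε_k)(r,·)` (smooth periodic for large `k`, `Gag (g_k') ≤ C/r²`, `g_k → v r` uniformly): VLC (for the shifted sequence) gives
`Φ_r`, `Vl l g_k' → Φ_r l` for all `l ≤ 1`, `Φ_r l → 0` as `l → 0`, `0 ≤ Vl l g_k' ≤ 4C/t²` (L2D (3)). Dominated convergence twice, for fixed `l` as `k → ∞`
(`r ↦ Vl l g_k'` is continuous, AVD (2)), and then for `l = 1/n → 0` (`r ↦ Φ_r l` is a pointwise limit of measurable functions on `[s,t]`). -/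
def SpecIVL : Prop :=
  ∀ (T : ℝ) (U : ℝ × ℝ → ℝ) (C c : ℝ), Dat T U C c → ∀ (ε : ℕ → ℝ) (v : ℝ → ℝ → ℝ), (∀ k, 0 < ε k) →
    Tendsto ε atTop (𝓝 0) → Conv (fun k => R T U (ε k)) v → ∀ s t : ℝ, s < t → t < 0 → ∀ η > 0, ∀ l₁ > 0,
      ∃ l, 0 < l ∧ l < l₁ ∧ l ≤ 1 ∧ ∀ᶠ k in atTop,
        (∫ r in s..t, Vl l (fun x => ε k * Dx U (T + ε k * r, x))) ≤ η

/-- **LKB** (190 lines), USES KFN CMB AVD AVI IVL. The limits satisfy (KB).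
PROOF. Notation of LKA, `F(r) = 420 M/l³ + Vl l (Dx U(r,·)) + M² l` (`H = M`, AVI; continuous by AVD (2)). The Lipschitz constant and the bound for
`Wx = Av l (Dx U)` on `[s_k,t_k]` come from AVD (1) for `G = Dx U` (compactness, periodicity); any constants will do. CMB times `ε_k`, and `r = T + ε_k r'`:
`ε_k W(t_k,x) ≤ K y s (ε_k W(s_k,y)) x t + E (420 ε_k C (|s|-|t|)/(l³|t|) + ∫_s^t Vl l (ε_k Dx U(T+ε_k r',·)) dr' + (C/|t|)² l (|s|-|t|))` for some `y`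
(`Vl` is quadratic), WLOG `y ∈ [0,2π]` (KFN (8)). Given `η`, choose `l` by IVL, then `k` large: `v t x ≤ K y s (v s y) x t + η` for some `y ∈ [0,2π]`, for
every `η > 0` (uniform continuity of `a ↦ K y s a x t` for `a ≤ 1/|s| + small`). The continuous function `y ↦ K y s (v s y) x t` attains its maximum on `[0,2π]`. -/
def SpecLKB : Prop :=
  ∀ (T : ℝ) (U : ℝ × ℝ → ℝ) (C c : ℝ), Dat T U C c → ∀ (ε : ℕ → ℝ) (v : ℝ → ℝ → ℝ), (∀ k, 0 < ε k) →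
    Tendsto ε atTop (𝓝 0) → Conv (fun k => R T U (ε k)) v → KB v

/-! ### rigidity of the limits -/

/-- **MON** (90 lines, no deps). Monotonicity.
PROOF. `s < t' < t < 0`, `y` from (KB) for `(s,t,x)`, `V = v s y ∈ [0, 1/|s|]`, `a(r) = V/(1 - V(r-s))`, `c = cos²((x-y)/2)`. `|r| a(r)` is nondecreasing in `|r|`
(`= |r|/(T₁ + |r|)`, `T₁ = 1/V - |s| ≥ 0`, for `V > 0`). So `|t| v t x ≤ c |t| a(t) ≤ c |t'| a(t') ≤ |t'| (K y s V x t' + 1/(t'-s)) ≤ |t'| (v t' x + 1/(t'-s))`, let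
`s → -∞`. -/
def SpecMON : Prop :=
  ∀ (C c : ℝ) (v : ℝ → ℝ → ℝ), Anc0 C c v → KA v → KB v → ∀ t' t : ℝ, t' < t → t < 0 → ∀ x,
    -t * v t x ≤ -t' * v t' x

/-- **FIX** (120 lines, no deps). Fixed points.
PROOF. If `g z = 1`: `Kg ρ 1 x z = cos² - sin² ρ/(1-ρ) → cos²` as `ρ → 0`, so (A) gives the third item. For the second: (B) with `ρ = 1/(n+2)`, `y_n` (WLOG in
`[0,2π]`), a subsequence `y_n → y`; if `g y < 1`, `Kg ρ (g y_n) x y_n ≤ g y_n ρ/(1 - g y_n (1-ρ)) → 0`, so `g x = 0`; if `g y = 1`, as `aρ/(1-a(1-ρ)) ≤ 1`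
(`0 ≤ a ≤ 1`), `g x ≤ cos²((x-y)/2)`, so equality. If `g z < 1` for all `z` the first case gives `g = 0`, excluded; and if `g x = 0` then for a `z` with `g z = 1`
`0 = g x ≥ cos²((x-z)/2) ≥ 0`. -/
def SpecFIX : Prop :=
  ∀ g : ℝ → ℝ, Continuous g → (∀ x, g (x + 2 * Real.pi) = g x) → (∀ x, 0 ≤ g x ∧ g x ≤ 1) → (∃ x, g x ≠ 0) →
    (∀ ρ : ℝ, 0 < ρ → ρ < 1 → ∀ x y, Kg ρ (g y) x y ≤ g x) →
    (∀ ρ : ℝ, 0 < ρ → ρ < 1 → ∀ x, ∃ y, g x ≤ Kg ρ (g y) x y) →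
    (∀ x, ∃ z, g z = 1 ∧ g x = Real.cos ((x - z) / 2) ^ 2) ∧
      ∀ x z, g z = 1 → Real.cos ((x - z) / 2) ^ 2 ≤ g x

/-- **CLS** (170 lines), no deps. Classification.
PROOF. `Z = {g = 1}`, closed, nonempty, `Z + 2π = Z`. If `Z = ℝ`, `g = 1`. Otherwise let `x₁ ∉ Z`, `α = sup {z ∈ Z : z < x₁}`, `β = inf {z ∈ Z : z > x₁}`: `α, β ∈ Z`,
`(α,β) ∩ Z = ∅`, `ℓ = β - α ∈ (0, 2π]`. For `x ∈ [α,β]`, `d = min(x-α, β-x) ≤ π`: `g x ≥ cos²(d/2)` and `g x = cos²((x-z)/2)`, `z ∈ Z`; translate `z` by `2πk` so that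
`|x - z| ≤ π`; `|x-z| ≥ d`, so `g x ≤ cos²(d/2)`. If `ℓ < 2π`, at the midpoint `μ`: `g(μ±h) = cos²(ℓ/4 - h/2)`, `g(μ) = cos²(ℓ/4)`, and
`(g(μ+h)+g(μ-h)-2g(μ))/h = (cos(ℓ/2-h) - cos(ℓ/2))/h → sin(ℓ/2) > 0`, against the last hypothesis. So `ℓ = 2π` and `g = cos²((x-α)/2)`. -/
def SpecCLS : Prop :=
  ∀ g : ℝ → ℝ, Continuous g → (∀ x, g (x + 2 * Real.pi) = g x) →
    (∀ x, ∃ z, g z = 1 ∧ g x = Real.cos ((x - z) / 2) ^ 2) → (∀ x z, g z = 1 → Real.cos ((x - z) / 2) ^ 2 ≤ g x) →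
    (∀ η > 0, ∃ h₀ > 0, ∀ h, 0 < h → h ≤ h₀ → ∀ x, |g (x + h) + g (x - h) - 2 * g x| ≤ η * h) →
    (∀ x, g x = 1) ∨ ∃ a, ∀ x, g x = Real.cos ((x - a) / 2) ^ 2

/-- **STA** (90 lines), USES KNK FIX CLS. Stationary limits.
PROOF. `g = v (-1)`; `g ≠ 0` by `mean`. First case: (KA), (KB) for `s = -1`, `t = -ρ`: `v t x = g x/ρ`, `K y (-1) (g y) x (-ρ) = Kg ρ (g y) x y/ρ`. Second case:
`s = -1/ρ`, `t = -1`, `v s y = ρ g y`, `K y s (ρ g y) x (-1) = Kg ρ (g y) x y`. Then FIX, KNK (`inG`, `t = -1`), CLS. -/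
def SpecSTA : Prop :=
  ∀ (C c : ℝ) (v : ℝ → ℝ → ℝ), 0 < c → Anc0 C c v → KA v → KB v →
    ((∀ t, -1 ≤ t → t < 0 → ∀ x, -t * v t x = v (-1) x) ∨ (∀ t, t ≤ -1 → ∀ x, -t * v t x = v (-1) x)) →
    (∀ x, v (-1) x = 1) ∨ ∃ a, ∀ x, v (-1) x = Real.cos ((x - a) / 2) ^ 2

/-- **MEA** (60 lines, no deps). Integrals. PROOF. (1) a continuous function `≥ 0` on `[0,2π]` with integral `0` vanishes there. (2) `cos² = (1 + cos)/2`. -/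
def SpecMEA : Prop :=
  (∀ f g : ℝ → ℝ, Continuous f → Continuous g → (∀ x, f (x + 2 * Real.pi) = f x) → (∀ x, g (x + 2 * Real.pi) = g x) →
    (∀ x, f x ≤ g x) → (∫ x in (0)..(2 * Real.pi), f x) = (∫ x in (0)..(2 * Real.pi), g x) → ∀ x, f x = g x) ∧
  (∀ a : ℝ, (∫ x in (0)..(2 * Real.pi), Real.cos ((x - a) / 2) ^ 2) = Real.pi)

/-- The sequential hypothesis of the band argument. -/
def Seq (la : ℝ → ℝ) : Prop :=
  ∀ ε : ℕ → ℝ, (∀ k, 0 < ε k) → Tendsto ε atTop (𝓝 0) → ∃ φ : ℕ → ℕ, StrictMono φ ∧ ∃ m : ℝ → ℝ,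
    (∀ b B : ℝ, 0 < b → b < B → ∀ η > 0, ∀ᶠ k in atTop, ∀ θ ∈ Icc b B, |la (θ * ε (φ k)) - m θ| ≤ η) ∧
    (∀ θ θ', 0 < θ → θ ≤ θ' → m θ ≤ m θ') ∧
    ((∀ θ, 0 < θ → θ ≤ 1 → m θ = m 1) → m 1 = Real.pi ∨ m 1 = 2 * Real.pi) ∧
    ((∀ θ, 1 ≤ θ → m θ = m 1) → m 1 = Real.pi ∨ m 1 = 2 * Real.pi)

/-- **LAM** (130 lines), USES SUB LIM LKA LKB MON STA MEA. The sequential property.
PROOF. `φ`, `v` from SUB, `m θ = ∫ θ v(-θ, x) dx`. `la(θ ε) = ∫ θ R(ε)(-θ, x) dx`: uniform convergence. Monotone by MON. If `m θ = m 1` for `θ ≤ 1` then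
(MON, MEA (1)) `-t v t x = v (-1) x` for `-1 ≤ t < 0`: STA and MEA (2); the same for `θ ≥ 1`. -/
def SpecLAM : Prop := ∀ (T : ℝ) (U : ℝ × ℝ → ℝ) (C c : ℝ), Dat T U C c → Seq (lam T U)

/-- **BND** (190 lines, no deps). The band argument.
PROOF. Let `λ₋`, `λ₊` be the lower and upper limits of `la` at `0+`. Each is `π` or `2π`: let `ε_k → 0` with `la(ε_k) → λ₋`, `φ`, `m` from `Seq`: `m 1 = λ₋`, for `θ ≤ 1`
`m θ ≤ m 1 = λ₋` and `m θ = lim la(θ ε_(φ k)) ≥ λ₋`; the same for `λ₊` and `θ ≥ 1`. Suppose `λ₋ = π`, `λ₊ = 2π`. For all `n` there are `0 < e < e' < 1/n` with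
`la e' < 5π/4`, `la e > 3π/2`; let `δ_n = sup {x ∈ [e,e'] : la x ≥ 3π/2}`: `la δ_n = 3π/2`, `la < 3π/2` on `(δ_n, e'_n]`. `Seq` for `δ_n`: `m 1 = 3π/2`. If `m θ = m 1`
for all `θ ≥ 1`, contradiction. So `m θ > 3π/2` for some `θ > 1`; for large `n` (in the subsequence) `la(θ δ_n) > 3π/2`, so `θ δ_n > e'_n`,
`ρ_n = e'_n/δ_n ∈ [1,θ]`, `la e'_n = la(ρ_n δ_n) ≥ m ρ_n - o(1) ≥ m 1 - o(1) = 3π/2 - o(1)`: contradiction. -/
def SpecBND : Prop :=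
  ∀ (la : ℝ → ℝ) (e₀ C : ℝ), 0 < e₀ → ContinuousOn la (Ioo 0 e₀) → (∀ e ∈ Ioo 0 e₀, |la e| ≤ C) → Seq la →
    Tendsto la (𝓝[>] 0) (𝓝 Real.pi) ∨ Tendsto la (𝓝[>] 0) (𝓝 (2 * Real.pi))

/-- **FIN** (150 lines), USES SUB LIM LKA LKB MON STA MEA LAM BND. The theorem for `Dat`.
PROOF. `lam` is continuous on `(0,T)` and bounded near `0` (`sup`): BND with `e₀ = T/2`, LAM. Case `2π`: if the first conclusion fails there are `η > 0`,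
`ε_k → 0+` with `sup_x |ε_k U(T-ε_k,x) - 1| > η`; SUB gives `v`, `∫ v(-1,x) dx = 2π`, `v(-1,·) ≤ 1`: `v(-1,·) = 1` (MEA), contradiction to `Conv` at `t = -1`.
Case `π`: the same; `∫ θ v(-θ,·) = π` for all `θ > 0` (`lam(θ ε_k) → π`), so by MON, MEA `-t v t x = v (-1) x` for `-1 ≤ t < 0`, STA (`v(-1,·) = 1` is
excluded by the integral). -/
def SpecFIN : Prop :=
  ∀ (T : ℝ) (U : ℝ × ℝ → ℝ) (C c : ℝ), Dat T U C c →
    (∀ η > 0, ∀ᶠ t in 𝓝[<] T, ∀ x, |(T - t) * U (t, x) - 1| ≤ η) ∨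
    (∀ η > 0, ∀ᶠ t in 𝓝[<] T, ∃ a, ∀ x, |(T - t) * U (t, x) - Real.cos ((x - a) / 2) ^ 2| ≤ η)

/-- **CHO** (50 lines, no deps). Choice of the phase.
PROOF. For `t < T` let `I t` be the infimum of the `η > 0` such that some `a` has `∀ x, |f t x - h (x - a)| ≤ η` (if there is any), choose `a t` for
`η = I t + (T - t)`. -/
def SpecCHO : Prop :=
  ∀ (T : ℝ) (f : ℝ → ℝ → ℝ) (h : ℝ → ℝ), (∀ η > 0, ∀ᶠ t in 𝓝[<] T, ∃ a, ∀ x, |f t x - h (x - a)| ≤ η) →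
    ∃ a : ℝ → ℝ, ∀ η > 0, ∀ᶠ t in 𝓝[<] T, ∀ x, |f t x - h (x - a t)| ≤ η

end

end Pool.Agent.Lib.MPb879c5.PR
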