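import Pool.Agent.Lib.MP_b879c5_an.PR.Spec

/-!
# Second part of the specification (MP_b879c5_an, captain helper42): the flat profile, `H¹` convergence, symmetric solutions

ADDITIONS TO THE THEOREM. (A) Without any regularity hypothesis: if `(T - t) u(t,x) ≥ 1/2 + δ` for all `x` and all `t` close to `T`, then
`u = 1/(T - t)` on `(0,T)`. So the first case of SpecFIN occurs only for this solution. (B) In the second case the convergence holds in `H¹`.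
(C) For a solution of period `2π/n`, `n ≥ 2`, which blows up at `T` and is not `1/(T - t)`, the rescaled `H^(3/2)` norm is unbounded.

Conventions as in `Spec.lean`; the modules ISO, HON, SYM import this file (`PR/SpecI.lean`).
-/

set_option autoImplicit false

namespace Pool.Agent.Lib.MPb879c5.PR

open Set Filter MeasureTheory Topology
open Pool.Agent.Lib.MP_b879c5_an

noncomputable section

/-- **ISO** (130 lines, no deps; uses the landed identities). The flat profile.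
PROOF. Let `1/2 + δ ≤ (T-t) U(t,x)` on `(t₀,T)`, `t₀ ≥ T/2`. `J(t) = (T-t)² II U t` satisfies (`Sol.hasDerivAt_I`: `I' = 4∫ U U_x²`)
`J' = -2(T-t) I + 4 (T-t)² ∫ U U_x² ≥ 4δ (T-t) I = 4δ J/(T-t) ≥ 0`. So `J(t) ≥ J(t₁)` and `J(t) - J(t₁) ≥ 4δ J(t₁) log((T-t₁)/(T-t))` for `t₀ < t₁ < t < T`; but
`J(t) ≤ C1` (`Sol.II_le`, `d = T - t`), so `J(t₁) = 0` (let `t → T`). On `[t,t₁]`, `t > 0`, `|U| ≤ M` (compactness, periodicity; or `Sol.abs_le'`) and `I' ≥ -4M I`, so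
`exp(4M r) I(r)` is nondecreasing and `I(t) = 0` for all `t ∈ (0,T)`. So `Dx U = 0` (continuity), `U(t,x) = h(t)`, `h' = h²` (`Sol.pde`), `h > 0` near `T` and
`(1/h)' = -1` there, `1/h = T - t` as `h → ∞`; backwards: `h (T - t) - 1 = k` satisfies `k' = h k`, `k = 0` near `T`, so `k = 0` on `(0,T)`. -/
def SpecISO : Prop :=
  ∀ (T : ℝ) (U : ℝ × ℝ → ℝ) (δ : ℝ), 0 < T → Sol T U → 0 < δ →
    (∀ᶠ t in 𝓝[<] T, ∀ x, 1 / 2 + δ ≤ (T - t) * U (t, x)) → ∀ t ∈ Ioo 0 T, ∀ x, U (t, x) = 1 / (T - t)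

/-- **HON** (90 lines), USES L2D. Uniform convergence implies `H¹` convergence.
PROOF. `f(x) = (T-t) U(t,x) - cos²((x-a)/2)` is `PC2`, `deriv f = (T-t) Dx U + sin(x-a)/2`. `Gag (deriv f) ≤ 2 (T-t)² Gag (Dx U) + 2 Gag (sin(·-a)/2) ≤ 2C + 2π²`
(`(a+b)² ≤ 2a²+2b²`; `om (sin(·-a)/2) s ≤ 2π s²/4`). L2D (1) with `A = η'`: `∫ (f')² ≤ 16π η'²/δ² + 2δ(2C + 2π²)`; choose `δ ≤ π`, then `η'`. -/
def SpecHON : Prop :=
  ∀ (T : ℝ) (U : ℝ × ℝ → ℝ) (C c : ℝ), Dat T U C c → ∀ η > 0, ∃ η' > 0, ∀ t ∈ Ico (T / 2) T, ∀ a,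
    (∀ x, |(T - t) * U (t, x) - Real.cos ((x - a) / 2) ^ 2| ≤ η') →
      (∫ x in (0)..(2 * Real.pi), ((T - t) * Dx U (t, x) + Real.sin (x - a) / 2) ^ 2) ≤ η

/-- **SYM** (50 lines, no deps). The profile `cos²` has no smaller period.
PROOF. `f t a ≥ 1 - η` and `f t a = f t (a + 2π/n) ≤ cos²(π/n) + η`; `cos²(π/n) < 1` for `n ≥ 2`. -/
def SpecSYM : Prop :=
  ∀ (n : ℕ) (T : ℝ) (f : ℝ → ℝ → ℝ), 2 ≤ n → 0 < T → (∀ t ∈ Ioo 0 T, ∀ x, f t (x + 2 * Real.pi / n) = f t x) →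
    ¬ (∀ η > 0, ∀ᶠ t in 𝓝[<] T, ∃ a, ∀ x, |f t x - Real.cos ((x - a) / 2) ^ 2| ≤ η)

end

end Pool.Agent.Lib.MPb879c5.PR
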